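import Pool.Agent.Lib.MP_dd84fd_nt.En.Defs
import Pool.Agent.Lib.MP_67663b_nt.OddB.Mert

/-!
# Mertens type bounds and the product V (module GB-VZ)
-/

set_option autoImplicit false

namespace Pool.MP_dd84fd_nt.En

open Finset Pool.MP_67663b_nt.Odd

private theorem VZ_pr_eq (z : ℝ) : pr 0 z = (⌈z⌉₊).primesBelow := by
  ext p
  rw [mem_pr, Nat.mem_primesBelow, Nat.lt_ceil]
  constructor
  · rintro ⟨h1, _, h3⟩
    exact ⟨h3, h1⟩
  · rintro ⟨h1, h2⟩
    exact ⟨h2, Nat.cast_nonneg _, h1⟩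

theorem sum_log_div {z : ℝ} (hz : 1 ≤ z) :
    ∑ p ∈ pr 0 z, Real.log (p : ℝ) / p ≤ Real.log z + 2 := by
  have hn : 1 ≤ ⌊z⌋₊ := (Nat.one_le_floor_iff z).2 hz
  have h1 := Pool.MP_67663b_nt.Mert.log_sum_le ⌊z⌋₊ hn
  have hsub : pr 0 z ⊆ Nat.primesLE ⌊z⌋₊ := by
    intro p hp
    rw [mem_pr] at hp
    rw [Nat.mem_primesLE]
    exact ⟨Nat.le_floor hp.2.2.le, hp.1⟩
  have h2 : ∑ p ∈ pr 0 z, Real.log (p : ℝ) / p ≤
      ∑ p ∈ Nat.primesLE ⌊z⌋₊, Real.log (p : ℝ) / p := by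
    refine sum_le_sum_of_subset_of_nonneg hsub ?_
    intro p _ _
    exact div_nonneg (Real.log_natCast_nonneg p) (Nat.cast_nonneg _)
  have h3 : Real.log (⌊z⌋₊ : ℝ) ≤ Real.log z := by
    refine Real.log_le_log (by exact_mod_cast hn) (Nat.floor_le (by linarith))
  have h4 : Real.log 4 ≤ 2 := by
    have : Real.log 4 = 2 * Real.log 2 := by
      rw [show (4 : ℝ) = 2 ^ 2 by norm_num, Real.log_pow]; norm_num
    rw [this]
    have := Real.log_two_lt_d9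
    linarith
  linarith

private theorem VZ_fac_pos {p : ℕ} (hp : p.Prime) : 0 < 1 - 1 / (p : ℝ) := by
  have h2 : (2 : ℝ) ≤ p := by exact_mod_cast hp.two_le
  have : 1 / (p : ℝ) ≤ 1 / 2 := one_div_le_one_div_of_le (by norm_num) h2
  linarith

theorem V_pos (z : ℝ) : 0 < V z := by
  unfold V
  refine prod_pos ?_
  intro p hp
  exact VZ_fac_pos (mem_pr.1 hp).1

theorem V_le {z : ℝ} (hz : 2 ≤ z) : V z ≤ 1 / Real.log z := by
  have hc : 1 ≤ ⌈z⌉₊ := by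
    rw [Nat.one_le_ceil_iff]; linarith
  have h1 := Pool.MP_67663b_nt.Mert.log_le_prod ⌈z⌉₊ hc
  have hlog : 0 < Real.log z := Real.log_pos (by linarith)
  have h2 : Real.log z ≤ Real.log (⌈z⌉₊ : ℝ) :=
    Real.log_le_log (by linarith) (Nat.le_ceil z)
  have h3 : ∏ p ∈ (⌈z⌉₊).primesBelow, (1 - (p : ℝ)⁻¹)⁻¹ = (V z)⁻¹ := by
    unfold V
    rw [VZ_pr_eq, prod_inv_distrib]
    simp only [one_div]
  rw [h3] at h1
  rw [le_div_iff₀ hlog]
  have h4 : V z * Real.log z ≤ V z * (V z)⁻¹ :=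
    mul_le_mul_of_nonneg_left (h2.trans h1) (V_pos z).le
  rwa [mul_inv_cancel₀ (V_pos z).ne'] at h4

private theorem VZ_natCast (n : ℕ) : V (n : ℝ) = ∏ p ∈ n.primesBelow, (1 - 1 / (p : ℝ)) := by
  unfold V
  rw [VZ_pr_eq, Nat.ceil_natCast]

private theorem VZ_eq_ceil (z : ℝ) : V z = V ((⌈z⌉₊ : ℕ) : ℝ) := by
  rw [VZ_natCast]
  unfold V
  rw [VZ_pr_eq]

private theorem VZ_step (n : ℕ) : V ((n + 1 : ℕ) : ℝ) =
    if n.Prime then V (n : ℝ) * (1 - 1 / (n : ℝ)) else V (n : ℝ) := by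
  rw [VZ_natCast, VZ_natCast, Nat.primesBelow_succ]
  split_ifs with h
  · rw [prod_insert (Nat.notMem_primesBelow n)]
    ring
  · rfl

private theorem VZ_aux (z1 : ℝ) (N : ℕ) (hN : ⌈z1⌉₊ ≤ N) :
    V z1 - ∑ p ∈ (range N).filter (fun q : ℕ => q.Prime ∧ z1 ≤ (q : ℝ)), V (p : ℝ) / (p : ℝ) =
      V (N : ℝ) := by
  induction N, hN using Nat.le_induction with
  | base =>
    have : (range ⌈z1⌉₊).filter (fun q : ℕ => q.Prime ∧ z1 ≤ (q : ℝ)) = ∅ := by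
      rw [filter_eq_empty_iff]
      intro q hq
      rw [mem_range, Nat.lt_ceil] at hq
      rintro ⟨_, h⟩
      linarith
    rw [this, sum_empty, sub_zero]
    exact VZ_eq_ceil z1
  | succ n hn ih =>
    have hz : z1 ≤ (n : ℝ) := (Nat.le_ceil z1).trans (by exact_mod_cast hn)
    rw [range_add_one, filter_insert]
    rw [VZ_step]
    by_cases hp : n.Prime
    · rw [if_pos ⟨hp, hz⟩, if_pos hp, sum_insert (by simp)]
      have e : V z1 - (V (n : ℝ) / n + ∑ p ∈ (range n).filter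
          (fun q : ℕ => q.Prime ∧ z1 ≤ (q : ℝ)), V (p : ℝ) / (p : ℝ)) =
          (V z1 - ∑ p ∈ (range n).filter (fun q : ℕ => q.Prime ∧ z1 ≤ (q : ℝ)),
          V (p : ℝ) / (p : ℝ)) - V (n : ℝ) / n := by ring
      rw [e, ih]
      ring
    · rw [if_neg (fun h => hp h.1), if_neg hp]
      exact ih

theorem V_tele {z1 z : ℝ} (h : z1 ≤ z) : V z1 - ∑ p ∈ pr z1 z, V p / p = V z := by
  have := VZ_aux z1 ⌈z⌉₊ (Nat.ceil_mono h)
  rw [VZ_eq_ceil z]
  exact this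

theorem V_inv_le : ∃ C : ℝ, 0 < C ∧ ∀ z : ℝ, 2 ≤ z → 1 / V z ≤ C * Real.log z := by
  have hl2 : 0 < Real.log 2 := Real.log_pos (by norm_num)
  refine ⟨2 * Real.exp 7 / Real.log 2, by positivity, ?_⟩
  intro z hz
  have hlz : Real.log 2 ≤ Real.log z := Real.log_le_log (by norm_num) hz
  -- the exponent J
  set J : ℕ := ⌈Real.logb 2 z⌉₊ with hJ
  have hlogb : 1 ≤ Real.logb 2 z := by
    rw [Real.logb, le_div_iff₀ hl2]; linarith
  have hJ1 : 1 ≤ J := by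
    rw [hJ, Nat.one_le_ceil_iff]; linarith
  have hJz : z ≤ (2 : ℝ) ^ J := by
    have h1 : z = (2 : ℝ) ^ (Real.logb 2 z) :=
      (Real.rpow_logb (by norm_num) (by norm_num) (by linarith)).symm
    rw [← Real.rpow_natCast]
    calc z = (2 : ℝ) ^ (Real.logb 2 z) := h1
      _ ≤ (2 : ℝ) ^ (J : ℝ) := Real.rpow_le_rpow_of_exponent_le (by norm_num) (Nat.le_ceil _)
  have hJle : (J : ℝ) ≤ 2 * Real.log z / Real.log 2 := by
    have h1 : (J : ℝ) < Real.logb 2 z + 1 := Nat.ceil_lt_add_one (by linarith)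
    have h2 : Real.logb 2 z = Real.log z / Real.log 2 := rfl
    have h3 : 2 * Real.log z / Real.log 2 = Real.log z / Real.log 2 + Real.log z / Real.log 2 := by
      ring
    rw [h3, ← h2]
    linarith
  have hR := Pool.MP_67663b_nt.Mert.R_le J hJ1
  have hsub : pr 0 z ⊆ Nat.primesLE (2 ^ J) := by
    intro p hp
    rw [mem_pr] at hp
    rw [Nat.mem_primesLE]
    refine ⟨?_, hp.1⟩
    have : (p : ℝ) ≤ ((2 ^ J : ℕ) : ℝ) := by
      push_cast
      linarith [hp.2.2]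
    exact_mod_cast this
  have hsum1 : ∑ p ∈ pr 0 z, (1 : ℝ) / p ≤ Real.log J + 6 := by
    refine le_trans (sum_le_sum_of_subset_of_nonneg hsub ?_) hR
    intro p _ _
    positivity
  have hsum2 : ∑ p ∈ pr 0 z, (1 : ℝ) / (p * (p - 1)) ≤ 1 := by
    have hs : pr 0 z ⊆ Ico 2 (⌈z⌉₊ + 2) := by
      intro p hp
      rw [mem_pr] at hp
      rw [mem_Ico]
      refine ⟨hp.1.two_le, ?_⟩
      have : p < ⌈z⌉₊ := Nat.lt_ceil.2 hp.2.2
      omega
    refine le_trans (sum_le_sum_of_subset_of_nonneg hs ?_)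
      ((Pool.MP_67663b_nt.Mert.sum_tail ⌈z⌉₊).trans ?_)
    · intro p hp _
      rw [mem_Ico] at hp
      have : (2 : ℝ) ≤ p := by exact_mod_cast hp.1
      have h2 : (0 : ℝ) < p - 1 := by linarith
      positivity
    · have : (0 : ℝ) ≤ 1 / ((⌈z⌉₊ : ℝ) + 1) := by positivity
      linarith
  have hV : 1 / V z = ∏ p ∈ pr 0 z, (1 - 1 / (p : ℝ))⁻¹ := by
    unfold V
    rw [prod_inv_distrib, one_div]
  have hprod : ∏ p ∈ pr 0 z, (1 - 1 / (p : ℝ))⁻¹ ≤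
      Real.exp (∑ p ∈ pr 0 z, ((1 : ℝ) / p + 1 / (p * (p - 1)))) := by
    rw [Real.exp_sum]
    refine prod_le_prod ?_ ?_
    · intro p hp
      exact (inv_pos.2 (VZ_fac_pos (mem_pr.1 hp).1)).le
    · intro p hp
      have h2 : (2 : ℝ) ≤ p := by exact_mod_cast (mem_pr.1 hp).1.two_le
      have h3 : (0 : ℝ) < p - 1 := by linarith
      have h4 : (0 : ℝ) < p := by linarith
      have e1 : (1 - 1 / (p : ℝ))⁻¹ = ((1 : ℝ) / p + 1 / (p * (p - 1))) + 1 := by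
        rw [inv_eq_iff_eq_inv]
        field_simp
        ring
      rw [e1]
      exact Real.add_one_le_exp _
  rw [hV]
  refine hprod.trans ?_
  rw [sum_add_distrib]
  have hJpos : (0 : ℝ) < J := by exact_mod_cast hJ1
  calc Real.exp (∑ p ∈ pr 0 z, (1 : ℝ) / p + ∑ p ∈ pr 0 z, (1 : ℝ) / (p * (p - 1)))
      ≤ Real.exp (Real.log J + 7) := Real.exp_le_exp.2 (by linarith)
    _ = J * Real.exp 7 := by rw [Real.exp_add, Real.exp_log hJpos]
    _ ≤ 2 * Real.log z / Real.log 2 * Real.exp 7 :=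
        mul_le_mul_of_nonneg_right hJle (Real.exp_pos _).le
    _ = 2 * Real.exp 7 / Real.log 2 * Real.log z := by ring

end Pool.MP_dd84fd_nt.En
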