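import Pool.Agent.Lib.MP_dd84fd_nt.En.Defs

/-!
# geometric sums (module GB-GEO)
-/

set_option autoImplicit false

namespace Pool.MP_dd84fd_nt.En

open Finset Pool.MP_67663b_nt.Odd

theorem norm_D_le (t : ℕ) (θ : ℝ) : ‖D t θ‖ ≤ t := by
  unfold D
  refine (norm_sum_le _ _).trans ?_
  simp [norm_ee]

private lemma geo_ee_nat (k : ℕ) (θ : ℝ) : ee ((k : ℝ) * θ) = (ee θ) ^ k := by
  induction k with
  | zero => simp [ee_zero]
  | succ k ih =>
    rw [pow_succ, ← ih, ← ee_add]
    congr 1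
    push_cast
    ring

private lemma geo_norm_sub (θ : ℝ) : 4 * |θ - round θ| ≤ ‖ee θ - 1‖ := by
  set r : ℝ := θ - round θ with hr
  have h1 : ee θ = ee r := by
    have : θ = r + (round θ : ℤ) := by rw [hr]; ring
    rw [this, ee_add_int]
  have habs : |r| ≤ 1 / 2 := abs_sub_round θ
  have h2 : ‖ee r - 1‖ = 2 * |Real.sin (Real.pi * r)| := by
    have h3 : ee r = Complex.exp (Complex.I * ((2 * Real.pi * r : ℝ) : ℂ)) := by
      unfold ee
      congr 1
      push_cast
      ring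
    rw [h3, Complex.norm_exp_I_mul_ofReal_sub_one, Real.norm_eq_abs, abs_mul, abs_two]
    congr 2
    ring_nf
  rw [h1, h2]
  have h4 : |Real.sin (Real.pi * r)| = Real.sin (Real.pi * |r|) := by
    rcases le_total 0 r with h | h
    · rw [abs_of_nonneg h, abs_of_nonneg]
      refine Real.sin_nonneg_of_nonneg_of_le_pi (by positivity) ?_
      have : r ≤ 1 / 2 := by rwa [abs_of_nonneg h] at habs
      nlinarith [Real.pi_pos]
    · rw [abs_of_nonpos h]
      have e1 : Real.pi * -r = -(Real.pi * r) := by ring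
      rw [e1, Real.sin_neg]
      refine abs_of_nonpos ?_
      have : -r ≤ 1 / 2 := by rwa [abs_of_nonpos h] at habs
      have h5 : 0 ≤ Real.sin (-(Real.pi * r)) := by
        refine Real.sin_nonneg_of_nonneg_of_le_pi ?_ ?_
        · nlinarith [Real.pi_pos]
        · nlinarith [Real.pi_pos]
      rw [Real.sin_neg] at h5
      linarith
  rw [h4]
  have h6 : 2 / Real.pi * (Real.pi * |r|) ≤ Real.sin (Real.pi * |r|) := by
    refine Real.mul_le_sin (by positivity) ?_
    nlinarith [Real.pi_pos, abs_nonneg r]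
  have h7 : 2 / Real.pi * (Real.pi * |r|) = 2 * |r| := by
    have := Real.pi_pos.ne'
    field_simp
  linarith

theorem norm_sum_Ioc_le (m n : ℕ) (θ : ℝ) (hθ : 0 < |θ - round θ|) :
    ‖∑ k ∈ Ioc m n, ee ((k : ℝ) * θ)‖ ≤ 1 / (2 * |θ - round θ|) := by
  rcases le_or_gt n m with hnm | hnm
  · rw [Finset.Ioc_eq_empty (by omega), Finset.sum_empty, norm_zero]
    positivity
  have h0 := geo_norm_sub θ
  have hne : 0 < ‖ee θ - 1‖ := by linarith
  have h1 : (∑ k ∈ Ioc m n, ee ((k : ℝ) * θ)) * (ee θ - 1) = ee θ ^ (n + 1) - ee θ ^ (m + 1) := by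
    have e1 : Ioc m n = Ico (m + 1) (n + 1) := by
      ext k
      simp only [Finset.mem_Ioc, Finset.mem_Ico]
      omega
    rw [e1]
    simp_rw [geo_ee_nat]
    exact geom_sum_Ico_mul (ee θ) (by omega)
  have h2 : ‖∑ k ∈ Ioc m n, ee ((k : ℝ) * θ)‖ * ‖ee θ - 1‖ ≤ 2 := by
    rw [← norm_mul, h1]
    refine (norm_sub_le _ _).trans ?_
    rw [norm_pow, norm_pow, norm_ee, one_pow, one_pow]
    norm_num
  rw [le_div_iff₀ (by positivity)]
  have h3 : ‖∑ k ∈ Ioc m n, ee ((k : ℝ) * θ)‖ * (4 * |θ - round θ|) ≤ 2 :=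
    (mul_le_mul_of_nonneg_left h0 (norm_nonneg _)).trans h2
  linarith

theorem norm_sum_Ioc_le_mn (m n : ℕ) (M θ : ℝ) (h : ((n - m : ℕ) : ℝ) ≤ M) :
    ‖∑ k ∈ Ioc m n, ee ((k : ℝ) * θ)‖ ≤ mn M θ := by
  unfold mn
  split_ifs with h1
  · refine (norm_sum_le _ _).trans ?_
    simp only [norm_ee, Finset.sum_const, Nat.card_Ioc, nsmul_eq_mul, mul_one]
    exact h
  · refine norm_sum_Ioc_le m n θ ?_
    rcases (abs_nonneg (θ - round θ)).lt_or_eq with h2 | h2
    · exact h2
    · exfalso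
      apply h1
      rw [← h2, mul_zero]
      exact zero_le_one

private lemma geo_D_eq (t : ℕ) (θ : ℝ) : D t θ = ∑ k ∈ Ioc 0 t, ee ((k : ℝ) * θ) := by
  unfold D
  refine Finset.sum_congr ?_ fun _ _ => rfl
  ext k
  simp only [Finset.mem_Ioc, Finset.mem_Icc]
  omega

theorem norm_D_le_mn (t : ℕ) (θ : ℝ) : ‖D t θ‖ ≤ mn t θ := by
  rw [geo_D_eq]
  exact norm_sum_Ioc_le_mn 0 t t θ (by simp)

theorem norm_D_mul (t : ℕ) (β : ℝ) (hβ : |β| ≤ 1 / 2) :
    ‖D t β‖ * (1 + t * |β|) ≤ 2 * t := by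
  have h1 := norm_D_le t β
  have ht : (0 : ℝ) ≤ t := Nat.cast_nonneg t
  rcases (abs_nonneg β).lt_or_eq with h0 | h0
  · -- |β| is the distance to the nearest integer
    have hround : |β| ≤ |β - round β| := by
      have h3 : |β| ≤ |β - round β| := by
        by_contra hcon
        rw [not_le] at hcon
        have hr : round β ≠ 0 := by
          intro h
          rw [h, Int.cast_zero, sub_zero] at hcon
          exact lt_irrefl _ hcon
        have h4 : (1 : ℝ) ≤ |(round β : ℝ)| := by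
          have : (1 : ℤ) ≤ |round β| := Int.one_le_abs hr
          exact_mod_cast this
        have h5 : |(round β : ℝ)| ≤ |β| + |β - round β| := by
          have := abs_sub_abs_le_abs_sub (round β : ℝ) β
          rw [abs_sub_comm] at this
          linarith
        linarith
      exact h3
    have h2 : ‖D t β‖ * |β| ≤ 1 / 2 := by
      rw [geo_D_eq]
      have h3 := norm_sum_Ioc_le 0 t β (by linarith)
      have h4 : 1 / (2 * |β - round β|) ≤ 1 / (2 * |β|) :=
        one_div_le_one_div_of_le (by positivity) (by linarith)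
      calc ‖∑ k ∈ Ioc 0 t, ee ((k : ℝ) * β)‖ * |β| ≤ 1 / (2 * |β|) * |β| :=
            mul_le_mul_of_nonneg_right (h3.trans h4) h0.le
        _ = 1 / 2 := by field_simp
    nlinarith [norm_nonneg (D t β)]
  · rw [← h0, mul_zero, add_zero, mul_one]
    linarith

end Pool.MP_dd84fd_nt.En
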