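import Pool.Agent.Lib.MP_dd84fd_nt.En.Recip2
import Pool.Agent.Lib.MP_dd84fd_nt.En.Geo
import Pool.Agent.Lib.MP_dd84fd_nt.En.Vz

/-!
# classical linear bound (module GB-B3)
-/

set_option autoImplicit false

namespace Pool.MP_dd84fd_nt.En

open Finset Pool.MP_67663b_nt.Odd

private theorem b3_prime {z : ℝ} {p : ℕ} (hp : p ∈ pr 0 z) : p.Prime := (mem_pr.1 hp).1

open Classical in
/-- Legendre's identity -/
private theorem b3_legendre (z : ℝ) (n : ℕ) :
    ∑ s ∈ (pr 0 z).powerset with (∏ p ∈ s, p) ∣ n, (-1 : ℤ) ^ s.card =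
      if Rough z n then 1 else 0 := by
  classical
  have h1 : (pr 0 z).powerset.filter (fun s => (∏ p ∈ s, p) ∣ n) =
      ((pr 0 z).filter (· ∣ n)).powerset := by
    ext s
    rw [Finset.mem_filter, Finset.mem_powerset, Finset.mem_powerset]
    constructor
    · rintro ⟨h1, h2⟩ p hp
      rw [Finset.mem_filter]
      exact ⟨h1 hp, (Finset.dvd_prod_of_mem (fun p => p) hp).trans h2⟩
    · intro h
      refine ⟨fun p hp => (Finset.mem_filter.1 (h hp)).1, ?_⟩
      apply Finset.prod_primes_dvd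
      · intro p hp
        exact (b3_prime (Finset.mem_filter.1 (h hp)).1).prime
      · intro p hp
        exact (Finset.mem_filter.1 (h hp)).2
  rw [h1, Finset.sum_powerset_neg_one_pow_card]
  have h2 : (pr 0 z).filter (· ∣ n) = ∅ ↔ Rough z n := by
    rw [Finset.filter_eq_empty_iff]
    constructor
    · intro h p hp hpn
      by_contra hcon
      push Not at hcon
      exact h (mem_pr.2 ⟨hp, Nat.cast_nonneg _, hcon⟩) hpn
    · intro h p hp hpn
      rw [mem_pr] at hp
      have := h p hp.1 hpn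
      linarith [hp.2.2]
  by_cases h3 : Rough z n
  · rw [if_pos h3, if_pos (h2.2 h3)]
  · rw [if_neg h3, if_neg (fun h => h3 (h2.1 h))]

/-- the linear sum over the multiples of `d` -/
private noncomputable def b3I (X d : ℕ) (θ : ℝ) : ℂ :=
  ∑ n ∈ Icc 1 X with d ∣ n, (Real.log n : ℂ) * ee ((n : ℝ) * θ)

private theorem b3I_eq (X d : ℕ) (hd : 0 < d) (θ : ℝ) :
    b3I X d θ = ∑ m ∈ Ioc 0 (X / d), (Real.log ((d * m : ℕ) : ℝ) : ℂ) *
      ee ((m : ℝ) * ((d : ℝ) * θ)) := by
  rw [b3I]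
  refine Finset.sum_nbij' (fun n => n / d) (fun m => d * m) ?_ ?_ ?_ ?_ ?_
  · intro n hn
    rw [Finset.mem_filter, Finset.mem_Icc] at hn
    rw [Finset.mem_Ioc]
    exact ⟨Nat.div_pos (Nat.le_of_dvd hn.1.1 hn.2) hd, Nat.div_le_div_right hn.1.2⟩
  · intro m hm
    rw [Finset.mem_Ioc] at hm
    rw [Finset.mem_filter, Finset.mem_Icc]
    refine ⟨⟨Nat.mul_pos hd hm.1, ?_⟩, dvd_mul_right _ _⟩
    calc d * m ≤ d * (X / d) := Nat.mul_le_mul_left d hm.2
      _ ≤ X := Nat.mul_div_le X d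
  · intro n hn
    rw [Finset.mem_filter] at hn
    exact Nat.mul_div_cancel' hn.2
  · intro m _
    exact Nat.mul_div_cancel_left m hd
  · intro n hn
    rw [Finset.mem_filter] at hn
    have h1 : d * (n / d) = n := Nat.mul_div_cancel' hn.2
    rw [h1]
    congr 2
    rw [← mul_assoc]
    congr 1
    have h2 : (n : ℝ) = (d : ℝ) * ((n / d : ℕ) : ℝ) := by exact_mod_cast h1.symm
    rw [h2]
    have h3 : d * (n / d) / d = n / d := by rw [h1]
    ring

/-- partial summation -/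
private theorem b3_abel (X d : ℕ) (hX : 1 ≤ X) (hd : 0 < d) (θ : ℝ) :
    ‖b3I X d θ‖ ≤ Real.log X * mn ((X : ℝ) / d) ((d : ℝ) * θ) := by
  have hd' : (0 : ℝ) < d := by exact_mod_cast hd
  have hmn0 : 0 ≤ mn ((X : ℝ) / d) ((d : ℝ) * θ) := mn_nonneg (by positivity) _
  obtain ⟨a, ha⟩ : ∃ a : ℕ → ℝ, ∀ m, a m = Real.log ((d * m : ℕ) : ℝ) := ⟨_, fun _ => rfl⟩
  have ha0 : a 0 = 0 := by rw [ha]; simp
  have hmono : ∀ j, 0 ≤ a (j + 1) - a j := by
    intro j
    rcases Nat.eq_zero_or_pos j with rfl | hj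
    · rw [ha0, ha, sub_zero]
      apply Real.log_nonneg
      have : 1 ≤ d * (0 + 1) := by omega
      exact_mod_cast this
    · rw [ha, ha, sub_nonneg]
      apply Real.log_le_log
      · exact_mod_cast Nat.mul_pos hd hj
      · exact_mod_cast Nat.mul_le_mul_left d (by omega : j ≤ j + 1)
  have hsum : ∀ m, a m = ∑ j ∈ range m, (a (j + 1) - a j) := by
    intro m
    rw [Finset.sum_range_sub, ha0, sub_zero]
  obtain ⟨M, hM⟩ : ∃ M, M = X / d := ⟨_, rfl⟩
  rw [b3I_eq X d hd θ, ← hM]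
  have h1 : ∑ m ∈ Ioc 0 M, (Real.log ((d * m : ℕ) : ℝ) : ℂ) * ee ((m : ℝ) * ((d : ℝ) * θ)) =
      ∑ j ∈ range M, ((a (j + 1) - a j : ℝ) : ℂ) * ∑ m ∈ Ioc j M, ee ((m : ℝ) * ((d : ℝ) * θ)) := by
    have h2 : ∀ m ∈ Ioc 0 M, (Real.log ((d * m : ℕ) : ℝ) : ℂ) * ee ((m : ℝ) * ((d : ℝ) * θ)) =
        ∑ j ∈ range m, ((a (j + 1) - a j : ℝ) : ℂ) * ee ((m : ℝ) * ((d : ℝ) * θ)) := by
      intro m _
      rw [← ha, hsum m, ← Finset.sum_mul]
      push_cast
      rfl
    rw [Finset.sum_congr rfl h2]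
    simp_rw [Finset.mul_sum]
    refine Finset.sum_comm' ?_
    intro m j
    rw [Finset.mem_Ioc, Finset.mem_range, Finset.mem_range, Finset.mem_Ioc]
    omega
  rw [h1]
  have hMX : (M : ℝ) ≤ (X : ℝ) / d := by
    rw [hM]
    exact Nat.cast_div_le
  calc ‖∑ j ∈ range M, ((a (j + 1) - a j : ℝ) : ℂ) * ∑ m ∈ Ioc j M, ee ((m : ℝ) * ((d : ℝ) * θ))‖
      ≤ ∑ j ∈ range M, ‖((a (j + 1) - a j : ℝ) : ℂ) *
          ∑ m ∈ Ioc j M, ee ((m : ℝ) * ((d : ℝ) * θ))‖ := norm_sum_le _ _
    _ ≤ ∑ j ∈ range M, (a (j + 1) - a j) * mn ((X : ℝ) / d) ((d : ℝ) * θ) := by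
        refine Finset.sum_le_sum fun j _ => ?_
        rw [norm_mul, Complex.norm_real, Real.norm_eq_abs, abs_of_nonneg (hmono j)]
        apply mul_le_mul_of_nonneg_left _ (hmono j)
        apply norm_sum_Ioc_le_mn
        refine le_trans ?_ hMX
        exact_mod_cast Nat.sub_le M j
    _ = a M * mn ((X : ℝ) / d) ((d : ℝ) * θ) := by rw [← Finset.sum_mul, ← hsum]
    _ ≤ Real.log X * mn ((X : ℝ) / d) ((d : ℝ) * θ) := by
        apply mul_le_mul_of_nonneg_right _ hmn0
        rcases Nat.eq_zero_or_pos M with h0 | h0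
        · rw [h0, ha0]
          exact Real.log_nonneg (by exact_mod_cast hX)
        · rw [ha]
          apply Real.log_le_log
          · exact_mod_cast Nat.mul_pos hd h0
          · have : d * M ≤ X := by
              rw [hM]
              exact Nat.mul_div_le X d
            exact_mod_cast this

/-- trivial bound -/
private theorem b3_triv (X d : ℕ) (hX : 1 ≤ X) (hd : 0 < d) (θ : ℝ) :
    ‖b3I X d θ‖ ≤ Real.log X * ((X : ℝ) / d) := by
  have hd' : (0 : ℝ) < d := by exact_mod_cast hd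
  have hX0 : 0 ≤ Real.log X := Real.log_nonneg (by exact_mod_cast hX)
  exact (b3_abel X d hX hd θ).trans (mul_le_mul_of_nonneg_left (mn_le _ _) hX0)

/-- the product -/
private theorem b3_prod : ∃ C : ℝ, 0 < C ∧ ∀ z : ℝ, 2 ≤ z →
    ∏ p ∈ pr 0 z, (1 + (p : ℝ) ^ (1 / Real.log z - 1)) ≤ C * Real.log z := by
  obtain ⟨C2, hC2, hV⟩ := V_inv_le
  refine ⟨C2 * Real.exp (2 + 4 / Real.log 2), by positivity, ?_⟩
  intro z hz
  have hl2 : 0 < Real.log 2 := Real.log_pos (by norm_num)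
  have hlz2 : Real.log 2 ≤ Real.log z := Real.log_le_log (by norm_num) hz
  have hlz : 0 < Real.log z := by linarith
  have h1 : ∀ p ∈ pr 0 z, 1 + (p : ℝ) ^ (1 / Real.log z - 1) ≤
      Real.exp (1 / (p : ℝ) + 2 / Real.log z * (Real.log p / p)) := by
    intro p hp
    rw [mem_pr] at hp
    have hp1 : (1 : ℝ) ≤ p := by exact_mod_cast hp.1.one_le
    have hp0 : (0 : ℝ) < p := by linarith
    have hlp : 0 ≤ Real.log p := Real.log_nonneg hp1
    have hlp2 : Real.log p ≤ Real.log z := Real.log_le_log hp0 hp.2.2.le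
    obtain ⟨t, ht⟩ : ∃ t, t = 1 / Real.log z * Real.log p := ⟨_, rfl⟩
    have ht0 : 0 ≤ t := by rw [ht]; positivity
    have ht1 : t ≤ 1 := by
      rw [ht, one_div, inv_mul_le_iff₀ hlz]
      linarith
    have h2 : (p : ℝ) ^ (1 / Real.log z - 1) = Real.exp t / p := by
      rw [Real.rpow_sub hp0, Real.rpow_one, Real.rpow_def_of_pos hp0, ht]
      congr 2
      ring
    have h3 : Real.exp t ≤ 1 + 2 * t := by
      have h4 := Real.abs_exp_sub_one_sub_id_le (x := t) (by rw [abs_of_nonneg ht0]; exact ht1)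
      have h5 := (abs_le.1 h4).2
      nlinarith
    rw [h2]
    have h6 : 1 + Real.exp t / p ≤ 1 + (1 / (p : ℝ) + 2 / Real.log z * (Real.log p / p)) := by
      have h7 : Real.exp t / p ≤ (1 + 2 * t) / p := div_le_div_of_nonneg_right h3 hp0.le
      have h8 : (1 + 2 * t) / p = 1 / (p : ℝ) + 2 / Real.log z * (Real.log p / p) := by
        rw [ht]
        field_simp
      linarith
    refine h6.trans ?_
    have h9 := Real.add_one_le_exp (1 / (p : ℝ) + 2 / Real.log z * (Real.log p / p))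
    linarith
  have h2 : ∏ p ∈ pr 0 z, (1 + (p : ℝ) ^ (1 / Real.log z - 1)) ≤
      Real.exp (∑ p ∈ pr 0 z, (1 / (p : ℝ) + 2 / Real.log z * (Real.log p / p))) := by
    rw [Real.exp_sum]
    apply Finset.prod_le_prod _ h1
    intro p _
    positivity
  refine h2.trans ?_
  rw [Finset.sum_add_distrib, ← Finset.mul_sum, Real.exp_add]
  have h3 : Real.exp (∑ p ∈ pr 0 z, 1 / (p : ℝ)) ≤ 1 / V z := by
    rw [le_one_div (Real.exp_pos _) (V_pos z), one_div, ← Real.exp_neg, V,
      ← Finset.sum_neg_distrib, Real.exp_sum]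
    apply Finset.prod_le_prod
    · intro p hp
      rw [mem_pr] at hp
      have hp1 : (1 : ℝ) ≤ p := by exact_mod_cast hp.1.one_le
      rw [sub_nonneg, div_le_one (by linarith)]
      exact hp1
    · intro p _
      have := Real.add_one_le_exp (-(1 / (p : ℝ)))
      linarith
  have h4 : 2 / Real.log z * ∑ p ∈ pr 0 z, Real.log p / p ≤ 2 + 4 / Real.log 2 := by
    calc 2 / Real.log z * ∑ p ∈ pr 0 z, Real.log p / p
        ≤ 2 / Real.log z * (Real.log z + 2) :=
          mul_le_mul_of_nonneg_left (sum_log_div (by linarith)) (by positivity)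
      _ = 2 + 4 / Real.log z := by field_simp; ring
      _ ≤ 2 + 4 / Real.log 2 := by
          have := div_le_div_of_nonneg_left (by norm_num : (0 : ℝ) ≤ 4) hl2 hlz2
          linarith
  calc Real.exp (∑ p ∈ pr 0 z, 1 / (p : ℝ)) *
        Real.exp (2 / Real.log z * ∑ p ∈ pr 0 z, Real.log p / p)
      ≤ (C2 * Real.log z) * Real.exp (2 + 4 / Real.log 2) :=
        mul_le_mul (h3.trans (hV z hz)) (Real.exp_le_exp.2 h4) (Real.exp_pos _).le (by positivity)
    _ = C2 * Real.exp (2 + 4 / Real.log 2) * Real.log z := by ring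

theorem typeI_classical : ∃ C : ℝ, 0 < C ∧ ∀ (X : ℕ) (z : ℝ) (θ : ℝ) (q : ℕ) (a : ℤ),
    2 ≤ X → 2 ≤ z → 0 < q → q ≤ X → Int.gcd a q = 1 → |θ - (a : ℝ) / q| ≤ 1 / (q : ℝ) ^ 2 →
    ‖∑ n ∈ Icc 1 X, ((rho z n * Real.log n : ℝ) : ℂ) * ee ((n : ℝ) * θ)‖ ≤
      C * X * (Real.log X) ^ 3 * (1 / q + 1 / Real.sqrt X + (q : ℝ) / X) +
      C * X * Real.log X * (Real.log z + 1) ^ 3 *
        Real.exp (-(Real.log X / (2 * Real.log z))) := by
  classical
  obtain ⟨C1, hC1, hmn⟩ := sum_mn'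
  obtain ⟨C3, hC3, hprod⟩ := b3_prod
  have hl2 : 0 < Real.log 2 := Real.log_pos (by norm_num)
  refine ⟨3 * C1 / Real.log 2 + C3, by positivity, ?_⟩
  intro X z θ q a hX hz hq hqX hgcd hθ
  have hX1 : 1 ≤ X := by omega
  have hX' : (2 : ℝ) ≤ X := by exact_mod_cast hX
  have hX0 : (0 : ℝ) < X := by linarith
  have hq' : (0 : ℝ) < q := by exact_mod_cast hq
  have hq1 : (1 : ℝ) ≤ q := by exact_mod_cast hq
  have hqX' : (q : ℝ) ≤ X := by exact_mod_cast hqX
  have hL : 0 < Real.log X := Real.log_pos (by linarith)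
  have hL2 : Real.log 2 ≤ Real.log X := Real.log_le_log (by norm_num) hX'
  have hlz2 : Real.log 2 ≤ Real.log z := Real.log_le_log (by norm_num) hz
  have hlz : 0 < Real.log z := by linarith
  obtain ⟨Q, hQ⟩ : ∃ Q, Q = pr 0 z := ⟨_, rfl⟩
  have hdpos : ∀ s ∈ Q.powerset, 0 < ∏ p ∈ s, p := by
    intro s hs
    apply Finset.prod_pos
    intro p hp
    rw [Finset.mem_powerset, hQ] at hs
    exact (b3_prime (hs hp)).pos
  -- Legendre
  have h1 : ∑ n ∈ Icc 1 X, ((rho z n * Real.log n : ℝ) : ℂ) * ee ((n : ℝ) * θ) =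
      ∑ s ∈ Q.powerset, ((-1 : ℤ) ^ s.card : ℂ) * b3I X (∏ p ∈ s, p) θ := by
    have h2 : ∀ n ∈ Icc 1 X, ((rho z n * Real.log n : ℝ) : ℂ) * ee ((n : ℝ) * θ) =
        ∑ s ∈ Q.powerset, ((-1 : ℤ) ^ s.card : ℂ) *
          (if (∏ p ∈ s, p) ∣ n then (Real.log n : ℂ) * ee ((n : ℝ) * θ) else 0) := by
      intro n _
      have h3 := b3_legendre z n
      rw [Finset.sum_filter, ← hQ] at h3
      have h4 : (rho z n : ℂ) = ∑ s ∈ Q.powerset,
          (if (∏ p ∈ s, p) ∣ n then ((-1 : ℤ) ^ s.card : ℂ) else 0) := by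
        have h5 : ((∑ s ∈ Q.powerset, if (∏ p ∈ s, p) ∣ n then (-1 : ℤ) ^ s.card else 0 : ℤ) : ℂ) =
            ((if Rough z n then 1 else 0 : ℤ) : ℂ) := by rw [h3]
        rw [Int.cast_sum] at h5
        have h6 : ∑ s ∈ Q.powerset,
            (if (∏ p ∈ s, p) ∣ n then ((-1 : ℤ) ^ s.card : ℂ) else 0) =
            ∑ s ∈ Q.powerset,
              ((if (∏ p ∈ s, p) ∣ n then (-1 : ℤ) ^ s.card else 0 : ℤ) : ℂ) := by
          refine Finset.sum_congr rfl fun s _ => ?_
          split_ifs <;> simp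
        rw [h6, h5, rho]
        split_ifs <;> simp
      rw [Complex.ofReal_mul, mul_assoc, h4, Finset.sum_mul]
      refine Finset.sum_congr rfl fun s _ => ?_
      split_ifs <;> simp
    rw [Finset.sum_congr rfl h2, Finset.sum_comm]
    refine Finset.sum_congr rfl fun s _ => ?_
    rw [← Finset.mul_sum, b3I, Finset.sum_filter]
  rw [h1]
  have h2 : ‖∑ s ∈ Q.powerset, ((-1 : ℤ) ^ s.card : ℂ) * b3I X (∏ p ∈ s, p) θ‖ ≤
      ∑ s ∈ Q.powerset, ‖b3I X (∏ p ∈ s, p) θ‖ := by
    refine (norm_sum_le _ _).trans (le_of_eq ?_)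
    refine Finset.sum_congr rfl fun s _ => ?_
    rw [norm_mul, norm_pow]
    simp
  refine h2.trans ?_
  rw [← Finset.sum_filter_add_sum_filter_not Q.powerset (fun s => ∏ p ∈ s, p ≤ Nat.sqrt X)]
  -- small divisors
  have h3 : ∑ s ∈ Q.powerset with ∏ p ∈ s, p ≤ Nat.sqrt X, ‖b3I X (∏ p ∈ s, p) θ‖ ≤
      3 * C1 / Real.log 2 * (X * (Real.log X) ^ 3 * (1 / q + 1 / Real.sqrt X + (q : ℝ) / X)) := by
    have hinj : Set.InjOn (fun s : Finset ℕ => ∏ p ∈ s, p)
        ((Q.powerset.filter fun s => ∏ p ∈ s, p ≤ Nat.sqrt X : Finset (Finset ℕ)) :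
          Set (Finset ℕ)) := by
      intro s hs t ht hst
      rw [Finset.mem_coe, Finset.mem_filter, Finset.mem_powerset, hQ] at hs ht
      have h4 := congrArg Nat.primeFactors hst
      simp only at h4
      rwa [Nat.primeFactors_prod fun p hp => b3_prime (hs.1 hp),
        Nat.primeFactors_prod fun p hp => b3_prime (ht.1 hp)] at h4
    have h4 : ∑ s ∈ Q.powerset with ∏ p ∈ s, p ≤ Nat.sqrt X, ‖b3I X (∏ p ∈ s, p) θ‖ ≤
        ∑ s ∈ Q.powerset with ∏ p ∈ s, p ≤ Nat.sqrt X,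
          Real.log X * mn ((X : ℝ) / (∏ p ∈ s, p : ℕ)) (((∏ p ∈ s, p : ℕ) : ℝ) * θ) := by
      refine Finset.sum_le_sum fun s hs => ?_
      rw [Finset.mem_filter] at hs
      exact b3_abel X _ hX1 (hdpos s hs.1) θ
    have h5 : ∑ s ∈ Q.powerset with ∏ p ∈ s, p ≤ Nat.sqrt X,
          Real.log X * mn ((X : ℝ) / (∏ p ∈ s, p : ℕ)) (((∏ p ∈ s, p : ℕ) : ℝ) * θ) ≤
        ∑ d ∈ Icc 1 (Nat.sqrt X), Real.log X * mn ((X : ℝ) / d) ((d : ℝ) * θ) := by
      rw [← Finset.sum_image (f := fun d : ℕ => Real.log X * mn ((X : ℝ) / d) ((d : ℝ) * θ)) hinj]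
      apply Finset.sum_le_sum_of_subset_of_nonneg
      · intro d hd
        rw [Finset.mem_image] at hd
        obtain ⟨s, hs, rfl⟩ := hd
        rw [Finset.mem_filter] at hs
        rw [Finset.mem_Icc]
        exact ⟨hdpos s hs.1, hs.2⟩
      · intro d _ _
        exact mul_nonneg hL.le (mn_nonneg (by positivity) _)
    refine (h4.trans h5).trans ?_
    rw [← Finset.mul_sum]
    have hsX : (Nat.sqrt X : ℝ) ≤ Real.sqrt X := by
      apply Real.le_sqrt_of_sq_le
      have := Nat.sqrt_le' X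
      exact_mod_cast this
    have hsX2 : Real.sqrt X ≤ X := by
      rw [Real.sqrt_le_left (by linarith)]
      nlinarith
    have h6 := hmn θ q a hq hgcd hθ X (Nat.sqrt X) (hsX.trans hsX2) hX'
    have h7 : Real.log (2 * q * X) ≤ 3 * Real.log X := by
      have h8 : (3 : ℝ) * Real.log X = Real.log ((X : ℝ) ^ 3) := by
        rw [Real.log_pow]
        push_cast
        ring
      rw [h8]
      apply Real.log_le_log (by positivity)
      have : 2 * (q : ℝ) ≤ X * X := mul_le_mul hX' hqX' hq'.le hX0.le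
      calc 2 * (q : ℝ) * X ≤ X * X * X := mul_le_mul_of_nonneg_right this hX0.le
        _ = (X : ℝ) ^ 3 := by ring
    have h8 : ((X : ℝ) / q + Real.sqrt X + q) =
        X * (1 / q + 1 / Real.sqrt X + (q : ℝ) / X) := by
      have h9 : 0 < Real.sqrt X := Real.sqrt_pos.2 hX0
      have h10 : Real.sqrt X * Real.sqrt X = X := Real.mul_self_sqrt hX0.le
      have h11 : Real.sqrt X = X * (1 / Real.sqrt X) := by
        rw [mul_one_div, eq_div_iff h9.ne']
        exact h10
      have h12 : (q : ℝ) = X * ((q : ℝ) / X) := by field_simp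
      rw [mul_add, mul_add, ← h11, ← h12]
      ring
    have h9 : 0 ≤ (1 : ℝ) / q + 1 / Real.sqrt X + (q : ℝ) / X := by positivity
    calc Real.log X * ∑ d ∈ Icc 1 (Nat.sqrt X), mn ((X : ℝ) / d) ((d : ℝ) * θ)
        ≤ Real.log X * (C1 * ((X : ℝ) / q + Nat.sqrt X + q) * Real.log (2 * q * X)) :=
          mul_le_mul_of_nonneg_left h6 hL.le
      _ ≤ Real.log X * (C1 * ((X : ℝ) / q + Real.sqrt X + q) * (3 * Real.log X)) := by
          apply mul_le_mul_of_nonneg_left _ hL.le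
          apply mul_le_mul _ h7 _ (by positivity)
          · apply mul_le_mul_of_nonneg_left _ hC1.le
            linarith
          · apply Real.log_nonneg
            nlinarith
      _ = 3 * C1 * (X * (Real.log X) ^ 2 * (1 / q + 1 / Real.sqrt X + (q : ℝ) / X)) := by
          rw [h8]
          ring
      _ ≤ 3 * C1 * (X * ((Real.log X) ^ 3 / Real.log 2) *
            (1 / q + 1 / Real.sqrt X + (q : ℝ) / X)) := by
          apply mul_le_mul_of_nonneg_left _ (by positivity)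
          apply mul_le_mul_of_nonneg_right _ h9
          apply mul_le_mul_of_nonneg_left _ hX0.le
          rw [le_div_iff₀ hl2, pow_succ (Real.log X) 2]
          exact mul_le_mul_of_nonneg_left hL2 (by positivity)
      _ = _ := by ring
  -- large divisors
  have h4 : ∑ s ∈ Q.powerset with ¬ ∏ p ∈ s, p ≤ Nat.sqrt X, ‖b3I X (∏ p ∈ s, p) θ‖ ≤
      C3 * (X * Real.log X * (Real.log z + 1) ^ 3 *
        Real.exp (-(Real.log X / (2 * Real.log z)))) := by
    obtain ⟨κ, hκ⟩ : ∃ κ, κ = 1 / Real.log z := ⟨_, rfl⟩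
    have hκ0 : 0 < κ := by rw [hκ]; positivity
    have h5 : ∀ s ∈ Q.powerset.filter (fun s => ¬ ∏ p ∈ s, p ≤ Nat.sqrt X),
        ‖b3I X (∏ p ∈ s, p) θ‖ ≤ Real.log X * X *
          Real.exp (-(Real.log X / (2 * Real.log z))) * ∏ p ∈ s, (p : ℝ) ^ (κ - 1) := by
      intro s hs
      rw [Finset.mem_filter] at hs
      have h6 := hdpos s hs.1
      obtain ⟨d, hd⟩ : ∃ d, d = ∏ p ∈ s, p := ⟨_, rfl⟩
      have h7 : ∏ p ∈ s, (p : ℝ) ^ (κ - 1) = (d : ℝ) ^ (κ - 1) := by
        rw [Real.finsetProd_rpow]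
        · rw [hd]
          push_cast
          rfl
        · intro p _
          exact Nat.cast_nonneg p
      rw [h7, ← hd]
      rw [← hd] at h6 hs
      have hd0 : (0 : ℝ) < d := by exact_mod_cast h6
      refine (b3_triv X d hX1 h6 θ).trans ?_
      have h8 : X < d * d := Nat.sqrt_lt.1 (by omega)
      have h9 : (X : ℝ) < d * d := by exact_mod_cast h8
      have h10 : Real.log X ≤ 2 * Real.log d := by
        have h11 := Real.log_le_log hX0 h9.le
        rw [Real.log_mul hd0.ne' hd0.ne'] at h11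
        linarith
      have h12 : 1 ≤ Real.exp (-(Real.log X / (2 * Real.log z))) * (d : ℝ) ^ κ := by
        rw [Real.rpow_def_of_pos hd0, ← Real.exp_add]
        apply Real.one_le_exp
        rw [hκ]
        have h13 : Real.log X / (2 * Real.log z) ≤ Real.log d * (1 / Real.log z) := by
          rw [mul_one_div, div_le_div_iff₀ (by positivity) hlz]
          nlinarith
        linarith
      rw [Real.rpow_sub hd0, Real.rpow_one]
      calc Real.log X * ((X : ℝ) / d) = Real.log X * X * (1 / d) * 1 := by ring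
        _ ≤ Real.log X * X * (1 / d) *
            (Real.exp (-(Real.log X / (2 * Real.log z))) * (d : ℝ) ^ κ) :=
            mul_le_mul_of_nonneg_left h12 (by positivity)
        _ = _ := by ring
    refine (Finset.sum_le_sum h5).trans ?_
    rw [← Finset.mul_sum]
    have h6 : ∑ s ∈ Q.powerset with ¬ ∏ p ∈ s, p ≤ Nat.sqrt X, ∏ p ∈ s, (p : ℝ) ^ (κ - 1) ≤
        C3 * Real.log z := by
      have h7 := hprod z hz
      rw [← hκ, ← hQ, Finset.prod_one_add] at h7
      refine le_trans ?_ h7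
      apply Finset.sum_le_sum_of_subset_of_nonneg (Finset.filter_subset _ _)
      intro s _ _
      apply Finset.prod_nonneg
      intro p _
      positivity
    have h7 : Real.log z ≤ (Real.log z + 1) ^ 3 := by
      have : (Real.log z + 1) ≤ (Real.log z + 1) ^ 3 := le_self_pow₀ (by linarith) (by norm_num)
      linarith
    calc Real.log X * X * Real.exp (-(Real.log X / (2 * Real.log z))) *
          ∑ s ∈ Q.powerset with ¬ ∏ p ∈ s, p ≤ Nat.sqrt X, ∏ p ∈ s, (p : ℝ) ^ (κ - 1)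
        ≤ Real.log X * X * Real.exp (-(Real.log X / (2 * Real.log z))) *
          (C3 * (Real.log z + 1) ^ 3) := by
          apply mul_le_mul_of_nonneg_left _ (by positivity)
          exact h6.trans (mul_le_mul_of_nonneg_left h7 hC3.le)
      _ = _ := by ring
  have hE := Real.exp_pos (-(Real.log X / (2 * Real.log z)))
  have h5 : 0 ≤ (X : ℝ) * (Real.log X) ^ 3 * (1 / q + 1 / Real.sqrt X + (q : ℝ) / X) := by
    positivity
  have h6 : 0 ≤ (X : ℝ) * Real.log X * (Real.log z + 1) ^ 3 *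
      Real.exp (-(Real.log X / (2 * Real.log z))) := by positivity
  have h7 : 0 ≤ 3 * C1 / Real.log 2 := by positivity
  calc _ ≤ _ := add_le_add h3 h4
    _ ≤ (3 * C1 / Real.log 2 + C3) *
          (X * (Real.log X) ^ 3 * (1 / q + 1 / Real.sqrt X + (q : ℝ) / X)) +
        (3 * C1 / Real.log 2 + C3) * (X * Real.log X * (Real.log z + 1) ^ 3 *
          Real.exp (-(Real.log X / (2 * Real.log z)))) := by
        apply add_le_add
        · apply mul_le_mul_of_nonneg_right _ h5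
          linarith
        · apply mul_le_mul_of_nonneg_right _ h6
          linarith
    _ = _ := by ring

end Pool.MP_dd84fd_nt.En
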