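import Pool.Agent.Lib.MP_dd84fd_nt.En.Defs

/-!
# dyadic decomposition (module GB-DY)
-/

set_option autoImplicit false

namespace Pool.MP_dd84fd_nt.En

open Finset Pool.MP_67663b_nt.Odd

open Classical in
private lemma dy_step (z : ℝ) (hz : 2 ≤ z) (X : ℕ) (f : ℕ → ℝ) (hf : ∀ m, 0 ≤ f m)
    (h0 : ∀ m : ℕ, (X : ℝ) + 1 ≤ z * m → f m = 0) (B : ℝ) (hB0 : 0 ≤ B)
    (hB : ∀ M : ℝ, z / 2 ≤ M → M < ((X : ℝ) + 1) / z → ∑ m ∈ RN z M (2 * M), f m ≤ B) (n : ℕ) :
    ∑ m ∈ ((Icc 2 X).filter (Rough z)).filter (fun m : ℕ => (m : ℝ) ≤ 2 ^ n * (z / 2)), f m ≤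
      n * B := by
  have hz0 : 0 < z := by linarith
  induction n with
  | zero =>
    rw [Finset.filter_false_of_mem, Finset.sum_empty]
    · simp
    · intro m hm
      rw [Finset.mem_filter, Finset.mem_Icc] at hm
      obtain ⟨⟨h2, hX⟩, hr⟩ := hm
      obtain ⟨p, hp, hpm⟩ := Nat.exists_prime_and_dvd (show m ≠ 1 by omega)
      have h3 : z ≤ (p : ℝ) := hr p hp hpm
      have h4 : (p : ℝ) ≤ m := by exact_mod_cast Nat.le_of_dvd (by omega) hpm
      rw [pow_zero, one_mul]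
      intro h5
      linarith
  | succ n ih =>
    set M : ℝ := 2 ^ n * (z / 2) with hM
    have hM2 : (2 : ℝ) ^ (n + 1) * (z / 2) = 2 * M := by rw [hM, pow_succ]; ring
    have h1n : (1 : ℝ) ≤ 2 ^ n := one_le_pow₀ (by norm_num)
    have hMz : z / 2 ≤ M := by
      rw [hM]
      nlinarith
    have hM0 : 0 < M := by linarith
    rw [hM2]
    have hsplit : ∑ m ∈ ((Icc 2 X).filter (Rough z)).filter (fun m : ℕ => (m : ℝ) ≤ 2 * M), f m ≤
        ∑ m ∈ ((Icc 2 X).filter (Rough z)).filter (fun m : ℕ => (m : ℝ) ≤ M), f m +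
          ∑ m ∈ RN z M (2 * M), f m := by
      rw [← Finset.sum_filter_add_sum_filter_not
        (((Icc 2 X).filter (Rough z)).filter (fun m : ℕ => (m : ℝ) ≤ 2 * M))
        (fun m : ℕ => (m : ℝ) ≤ M)]
      refine add_le_add (Finset.sum_le_sum_of_subset_of_nonneg ?_ fun m _ _ => hf m)
        (Finset.sum_le_sum_of_subset_of_nonneg ?_ fun m _ _ => hf m)
      · intro m hm
        rw [Finset.mem_filter, Finset.mem_filter] at hm
        exact Finset.mem_filter.2 ⟨hm.1.1, hm.2⟩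
      · intro m hm
        rw [Finset.mem_filter, Finset.mem_filter, Finset.mem_filter] at hm
        unfold RN
        rw [Finset.mem_filter, Finset.mem_Ioc]
        refine ⟨⟨?_, ?_⟩, hm.1.1.2⟩
        · rw [Nat.floor_lt hM0.le]
          exact not_le.1 hm.2
        · exact Nat.le_floor hm.1.2
    have hblock : ∑ m ∈ RN z M (2 * M), f m ≤ B := by
      by_cases h : M < ((X : ℝ) + 1) / z
      · exact hB M hMz h
      · rw [Finset.sum_eq_zero]
        · exact hB0
        · intro m hm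
          unfold RN at hm
          rw [Finset.mem_filter, Finset.mem_Ioc, Nat.floor_lt hM0.le] at hm
          refine h0 m ?_
          rw [not_lt, div_le_iff₀ hz0] at h
          have : M * z ≤ z * m := by
            rw [mul_comm]
            exact mul_le_mul_of_nonneg_left hm.1.1.le hz0.le
          linarith
    push_cast
    linarith

open Classical in
theorem dyadic (z : ℝ) (hz : 2 ≤ z) (X : ℕ) (hX : 2 ≤ X) (f : ℕ → ℝ) (hf : ∀ m, 0 ≤ f m)
    (h0 : ∀ m : ℕ, (X : ℝ) + 1 ≤ z * m → f m = 0) (B : ℝ) (hB0 : 0 ≤ B)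
    (hB : ∀ M : ℝ, z / 2 ≤ M → M < ((X : ℝ) + 1) / z → ∑ m ∈ RN z M (2 * M), f m ≤ B) :
    ∑ m ∈ (Icc 2 X).filter (Rough z), f m ≤ 4 * Real.log X * B := by
  have h1 := dy_step z hz X f hf h0 B hB0 hB (Nat.log 2 X + 1)
  have hX0 : X ≠ 0 := by omega
  have hXr : (2 : ℝ) ≤ X := by exact_mod_cast hX
  have h2 : (X : ℝ) ≤ 2 ^ (Nat.log 2 X + 1) := by
    exact_mod_cast (Nat.lt_pow_succ_log_self (by norm_num) X).le
  have hfil : ((Icc 2 X).filter (Rough z)).filter
      (fun m : ℕ => (m : ℝ) ≤ 2 ^ (Nat.log 2 X + 1) * (z / 2)) = (Icc 2 X).filter (Rough z) := by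
    refine Finset.filter_true_of_mem fun m hm => ?_
    rw [Finset.mem_filter, Finset.mem_Icc] at hm
    have h3 : (m : ℝ) ≤ X := by exact_mod_cast hm.1.2
    have h4 : (0 : ℝ) < 2 ^ (Nat.log 2 X + 1) := by positivity
    nlinarith
  rw [hfil] at h1
  refine h1.trans (mul_le_mul_of_nonneg_right ?_ hB0)
  have h5 : ((Nat.log 2 X : ℕ) : ℝ) ≤ Real.log X / Real.log 2 := by
    have h6 : (2 : ℝ) ^ (Nat.log 2 X) ≤ X := by
      exact_mod_cast Nat.pow_log_le_self 2 hX0
    rw [le_div_iff₀ (Real.log_pos (by norm_num)), ← Real.log_pow]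
    exact Real.log_le_log (by positivity) h6
  have h7 : Real.log 2 ≤ Real.log X := Real.log_le_log (by norm_num) hXr
  have h8 : (0.6931471803 : ℝ) < Real.log 2 := Real.log_two_gt_d9
  have h9 : Real.log X / Real.log 2 ≤ 1.5 * Real.log X := by
    rw [div_le_iff₀ (by linarith)]
    nlinarith
  push_cast
  linarith

end Pool.MP_dd84fd_nt.En
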