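import Pool.Agent.Lib.MP_dd84fd_nt.En.BigII1
import Pool.Agent.Lib.MP_dd84fd_nt.En.Dyad

/-!
# classical bilinear bound (module GB-B2)
-/

set_option autoImplicit false

namespace Pool.MP_dd84fd_nt.En

open Finset Pool.MP_67663b_nt.Odd

private lemma b2_zero {z : ℝ} {X m : ℕ} (hz : 0 < z) (h : (X : ℝ) + 1 ≤ z * m) (φ : ℝ) :
    PS z (((X : ℝ) + 1) / m) φ = 0 := by
  have hm : 0 < (m : ℝ) := by
    by_contra hcon
    have h1 : (m : ℝ) ≤ 0 := not_lt.1 hcon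
    have h2 : (0 : ℝ) ≤ X := Nat.cast_nonneg X
    nlinarith
  unfold PS
  rw [Finset.sum_eq_zero]
  intro p hp
  rw [mem_pr] at hp
  exfalso
  have h3 : ((X : ℝ) + 1) / m ≤ z := by
    rw [div_le_iff₀ hm]
    exact h
  linarith [hp.2.1, hp.2.2]

open Classical in
theorem typeII_classical : ∃ C : ℝ, 0 < C ∧ ∀ (X : ℕ) (z : ℝ) (θ : ℝ) (q : ℕ) (a : ℤ),
    2 ≤ X → 2 ≤ z → 0 < q → q ≤ X → Int.gcd a q = 1 → |θ - (a : ℝ) / q| ≤ 1 / (q : ℝ) ^ 2 →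
    ∑ m ∈ (Icc 2 X).filter (Rough z), ‖PS z (((X : ℝ) + 1) / m) ((m : ℝ) * θ)‖ ≤
      C * X * (Real.log X) ^ 3 *
        (1 / Real.sqrt z + 1 / Real.sqrt q + Real.sqrt ((q : ℝ) / X)) := by
  obtain ⟨C, hC, hblock⟩ := bigII_block
  refine ⟨4 * C, by positivity, ?_⟩
  intro X z θ q a hX hz hq hqX ha hθ
  have hXr : (2 : ℝ) ≤ X := by exact_mod_cast hX
  have hlogX : 0 < Real.log X := Real.log_pos (by linarith)
  have hB0 : 0 ≤ C * X * (Real.log X) ^ 2 *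
        (1 / Real.sqrt z + 1 / Real.sqrt q + Real.sqrt ((q : ℝ) / X)) := by positivity
  have h1 := dyadic z hz X hX
    (fun m => ‖PS z (((X : ℝ) + 1) / m) ((m : ℝ) * θ)‖)
    (fun m => norm_nonneg _) (fun m hm => by
      change ‖PS z (((X : ℝ) + 1) / m) ((m : ℝ) * θ)‖ = 0
      rw [b2_zero (by linarith) hm, norm_zero]) _ hB0
    (fun M h1 h2 => hblock X z θ q a hX hz hq hqX ha hθ M h1 h2)
  refine h1.trans (le_of_eq ?_)
  ring

end Pool.MP_dd84fd_nt.En
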