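import Pool.Agent.Lib.MP_dd84fd_nt.En.Ident
import Pool.Agent.Lib.MP_dd84fd_nt.En.BigII2
import Pool.Agent.Lib.MP_dd84fd_nt.En.BigI
import Pool.Agent.Lib.MP_67663b_nt.OddB.Chebs

/-!
# classical Vinogradov bound (module GB-VB)
-/

set_option autoImplicit false

namespace Pool.MP_dd84fd_nt.En

open Finset Filter Pool.MP_67663b_nt.Odd

private lemma vb_ev (P C : ℝ) : ∀ᶠ X : ℕ in atTop, 2 ≤ Real.log X ∧
    C ≤ Real.log X ∧ (P + 6) * (4 * P) * (Real.log (Real.log X)) ^ 2 ≤ Real.log X ∧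
    2 * P * Real.log (Real.log X) + 1 ≤ Real.log X ∧ 2 * (Real.log X) ^ (3 * P) ≤ X ∧
    (Real.log X) ^ P ≤ Real.sqrt X := by
  have hlog : Tendsto (fun X : ℕ => Real.log (X : ℝ)) atTop atTop :=
    Real.tendsto_log_atTop.comp tendsto_natCast_atTop_atTop
  have e1 : ∀ᶠ X : ℕ in atTop, 2 ≤ Real.log X := hlog.eventually_ge_atTop 2
  have e2 : ∀ᶠ X : ℕ in atTop, C ≤ Real.log X := hlog.eventually_ge_atTop C
  have e3 : ∀ᶠ y : ℝ in atTop, (P + 6) * (4 * P) * (Real.log y) ^ 2 ≤ y := by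
    have h := (Real.isLittleO_pow_log_id_atTop (n := 2)).bound
      (show (0 : ℝ) < 1 / (|(P + 6) * (4 * P)| + 1) by positivity)
    filter_upwards [h, eventually_ge_atTop 0] with y hy hy0
    rw [Real.norm_of_nonneg (sq_nonneg _), id, Real.norm_of_nonneg hy0] at hy
    have h1 : (P + 6) * (4 * P) ≤ |(P + 6) * (4 * P)| + 1 := by
      have := le_abs_self ((P + 6) * (4 * P))
      linarith
    calc (P + 6) * (4 * P) * (Real.log y) ^ 2 ≤
          (|(P + 6) * (4 * P)| + 1) * (Real.log y) ^ 2 :=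
          mul_le_mul_of_nonneg_right h1 (sq_nonneg _)
      _ ≤ (|(P + 6) * (4 * P)| + 1) * (1 / (|(P + 6) * (4 * P)| + 1) * y) :=
          mul_le_mul_of_nonneg_left hy (by positivity)
      _ = y := by
          field_simp
  have e4 : ∀ᶠ y : ℝ in atTop, 2 * P * Real.log y + 1 ≤ y := by
    have h := (Real.isLittleO_log_id_atTop).bound
      (show (0 : ℝ) < 1 / (2 * (|2 * P| + 1)) by positivity)
    filter_upwards [h, eventually_ge_atTop 2] with y hy hy0
    have hl : 0 ≤ Real.log y := Real.log_nonneg (by linarith)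
    rw [Real.norm_of_nonneg hl, id, Real.norm_of_nonneg (by linarith)] at hy
    have h1 : 2 * P ≤ |2 * P| + 1 := by
      have := le_abs_self (2 * P)
      linarith
    have h2 : 2 * P * Real.log y ≤ y / 2 := by
      calc 2 * P * Real.log y ≤ (|2 * P| + 1) * Real.log y :=
            mul_le_mul_of_nonneg_right h1 hl
        _ ≤ (|2 * P| + 1) * (1 / (2 * (|2 * P| + 1)) * y) :=
            mul_le_mul_of_nonneg_left hy (by positivity)
        _ = y / 2 := by
            field_simp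
    linarith
  have e5 : ∀ᶠ x : ℝ in atTop, 2 * (Real.log x) ^ (3 * P) ≤ x := by
    have h := (isLittleO_log_rpow_rpow_atTop (3 * P) (show (0 : ℝ) < 1 by norm_num)).bound
      (show (0 : ℝ) < 1 / 2 by norm_num)
    filter_upwards [h, eventually_ge_atTop 1] with y hy hy0
    have hl : 0 ≤ Real.log y := Real.log_nonneg (by linarith)
    rw [Real.norm_of_nonneg (Real.rpow_nonneg hl _), Real.rpow_one,
      Real.norm_of_nonneg (by linarith)] at hy
    linarith
  have e6 : ∀ᶠ x : ℝ in atTop, (Real.log x) ^ P ≤ Real.sqrt x := by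
    have h := (isLittleO_log_rpow_rpow_atTop P (show (0 : ℝ) < 1 / 2 by norm_num)).bound
      (show (0 : ℝ) < 1 by norm_num)
    filter_upwards [h, eventually_ge_atTop 1] with y hy hy0
    have hl : 0 ≤ Real.log y := Real.log_nonneg (by linarith)
    rw [Real.norm_of_nonneg (Real.rpow_nonneg hl _), ← Real.sqrt_eq_rpow, one_mul,
      Real.norm_of_nonneg (Real.sqrt_nonneg _)] at hy
    exact hy
  filter_upwards [e1, e2, hlog.eventually e3, hlog.eventually e4,
    tendsto_natCast_atTop_atTop.eventually e5, tendsto_natCast_atTop_atTop.eventually e6]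
    with X h1 h2 h3 h4 h5 h6
  exact ⟨h1, h2, h3, h4, h5, h6⟩

theorem vin_large (A : ℝ) : ∃ B : ℝ, 0 < B ∧ ∃ X0 : ℕ, ∀ X : ℕ, X0 ≤ X →
    ∀ (θ : ℝ) (q : ℕ) (a : ℤ), 0 < q → Int.gcd a q = 1 → (Real.log X) ^ B ≤ q →
    (q : ℝ) * (Real.log X) ^ B ≤ X → |θ - (a : ℝ) / q| ≤ 1 / (q : ℝ) ^ 2 →
    ‖PS 0 (X + 1) θ‖ ≤ X / (Real.log X) ^ A := by
  classical
  obtain ⟨C1, hC1, hid⟩ := log_identity
  obtain ⟨C2, hC2, hII⟩ := typeII_classical
  obtain ⟨C3, hC3, hI⟩ := typeI_classical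
  set P : ℝ := |A| + 5 with hP
  have hP5 : 5 ≤ P := by
    have := abs_nonneg A
    linarith
  obtain ⟨X0, hX0⟩ := Filter.eventually_atTop.1 (vb_ev P (C1 + 3 * C2 + 4 * C3 + 1))
  refine ⟨2 * P, by linarith, max X0 2, ?_⟩
  intro X hX θ q a hq ha hqB hqX hθ
  obtain ⟨h1, h2, h3, h4, h5, h6⟩ := hX0 X ((le_max_left _ _).trans hX)
  have hX2 : 2 ≤ X := (le_max_right _ _).trans hX
  have hXr : (2 : ℝ) ≤ X := by exact_mod_cast hX2
  have hX0' : (0 : ℝ) < X := by linarith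
  set l : ℝ := Real.log X with hl
  have hl0 : 0 < l := by linarith
  have hl1 : 1 ≤ l := by linarith
  have hlogl : 0 < Real.log l := Real.log_pos (by linarith)
  set z : ℝ := l ^ (2 * P) with hz
  have hlP : 1 ≤ l ^ P := Real.one_le_rpow hl1 (by linarith)
  have hlPpos : 0 < l ^ P := by linarith
  have hzP : z = l ^ P * l ^ P := by rw [hz, ← Real.rpow_add hl0]; congr 1; ring
  have hz2 : 2 ≤ z := by
    have h7 : (2 : ℝ) ≤ l ^ P := by
      calc (2 : ℝ) ≤ l := h1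
        _ = l ^ (1 : ℝ) := (Real.rpow_one l).symm
        _ ≤ l ^ P := Real.rpow_le_rpow_of_exponent_le hl1 (by linarith)
    rw [hzP]
    nlinarith only [h7, hlP]
  have hsqz : Real.sqrt z = l ^ P := by
    rw [hzP]
    exact Real.sqrt_mul_self hlPpos.le
  have hqr : (1 : ℝ) ≤ q := by exact_mod_cast hq
  have hq0 : (0 : ℝ) < q := by linarith
  have hz0 : 0 < z := by linarith
  have hqX' : q ≤ X := by
    have : (q : ℝ) ≤ X := by
      have : (q : ℝ) * 1 ≤ q * z := mul_le_mul_of_nonneg_left (by linarith) hq0.le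
      linarith
    exact_mod_cast this
  -- small quantities
  set δ : ℝ := (l ^ P)⁻¹ with hδ
  have hδ0 : 0 < δ := by positivity
  have hδ1 : δ ≤ 1 := inv_le_one_of_one_le₀ hlP
  have hzinv : z⁻¹ = δ * δ := by rw [hzP, mul_inv]
  have b1 : 1 / Real.sqrt z ≤ δ := by rw [hsqz, one_div]
  have b2 : 1 / Real.sqrt q ≤ δ := by
    rw [one_div, hδ]
    refine inv_anti₀ hlPpos ?_
    rw [← hsqz]
    exact Real.sqrt_le_sqrt hqB
  have b3 : Real.sqrt ((q : ℝ) / X) ≤ δ := by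
    rw [Real.sqrt_le_left hδ0.le, sq, ← hzinv, div_le_iff₀ hX0', ← div_eq_inv_mul,
      le_div_iff₀ hz0]
    exact hqX
  have b4 : 1 / (q : ℝ) ≤ δ := by
    rw [one_div, hδ]
    refine inv_anti₀ hlPpos (le_trans ?_ hqB)
    rw [hzP]
    nlinarith only [hlP, hz2, hzP]
  have b5 : 1 / Real.sqrt X ≤ δ := by
    rw [one_div, hδ]
    exact inv_anti₀ hlPpos h6
  have b6 : (q : ℝ) / X ≤ δ := by
    have h7 : (q : ℝ) / X ≤ z⁻¹ := by
      rw [div_le_iff₀ hX0', ← div_eq_inv_mul, le_div_iff₀ hz0]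
      exact hqX
    rw [hzinv] at h7
    nlinarith only [h7, hδ0, hδ1]
  have hlogz : Real.log z = 2 * P * Real.log l := by rw [hz, Real.log_rpow hl0]
  have hlogz0 : 0 < Real.log z := by rw [hlogz]; positivity
  have b7 : (Real.log z + 1) ^ 3 * Real.exp (-(l / (2 * Real.log z))) ≤ δ := by
    have h7 : (P + 6) * Real.log l ≤ l / (2 * Real.log z) := by
      rw [le_div_iff₀ (by positivity), hlogz]
      nlinarith only [h3]
    have h8 : Real.exp (-(l / (2 * Real.log z))) ≤ l ^ (-(P + 6)) := by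
      rw [Real.rpow_def_of_pos hl0]
      refine Real.exp_le_exp.2 ?_
      nlinarith only [h7]
    have h9 : Real.log z + 1 ≤ l := by rw [hlogz]; exact h4
    have h10 : (Real.log z + 1) ^ 3 ≤ l ^ (3 : ℝ) := by
      have : (l : ℝ) ^ (3 : ℝ) = l ^ 3 := by
        rw [show (3 : ℝ) = ((3 : ℕ) : ℝ) by norm_num, Real.rpow_natCast]
      rw [this]
      exact pow_le_pow_left₀ (by linarith only [hlogz0]) h9 3
    calc (Real.log z + 1) ^ 3 * Real.exp (-(l / (2 * Real.log z))) ≤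
          l ^ (3 : ℝ) * l ^ (-(P + 6)) :=
          mul_le_mul h10 h8 (Real.exp_pos _).le (by positivity)
      _ = l ^ (3 + -(P + 6)) := by rw [← Real.rpow_add hl0]
      _ ≤ l ^ (-P) := Real.rpow_le_rpow_of_exponent_le hl1 (by linarith only [])
      _ = δ := by rw [Real.rpow_neg hl0.le, hδ]
  have b8 : 2 * z ≤ X * δ := by
    rw [hδ, ← div_eq_mul_inv, le_div_iff₀ hlPpos]
    have : z * l ^ P = l ^ (3 * P) := by
      rw [hz, ← Real.rpow_add hl0]
      congr 1
      ring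
    nlinarith only [h5, this]
  -- the three inputs
  have i1 := hid z X θ hz2 (by omega)
  have i2 := hII X z θ q a hX2 hz2 hq hqX' ha hθ
  have i3 := hI X z θ q a hX2 hz2 hq hqX' ha hθ
  rw [← hl] at i2 i3
  have hl3 : 1 ≤ l ^ 3 := one_le_pow₀ hl1
  have j1 : C1 * X / Real.sqrt z ≤ C1 * X * δ := by
    rw [div_eq_mul_one_div]
    exact mul_le_mul_of_nonneg_left b1 (by positivity)
  have j2 : C2 * X * l ^ 3 * (1 / Real.sqrt z + 1 / Real.sqrt q + Real.sqrt ((q : ℝ) / X)) ≤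
      C2 * X * l ^ 3 * (3 * δ) :=
    mul_le_mul_of_nonneg_left (by linarith only [b1, b2, b3]) (by positivity)
  have j3 : C3 * X * l ^ 3 * (1 / q + 1 / Real.sqrt X + (q : ℝ) / X) ≤
      C3 * X * l ^ 3 * (3 * δ) :=
    mul_le_mul_of_nonneg_left (by linarith only [b4, b5, b6]) (by positivity)
  have j4 : C3 * X * l * (Real.log z + 1) ^ 3 * Real.exp (-(l / (2 * Real.log z))) ≤
      C3 * X * l ^ 3 * δ := by
    calc C3 * X * l * (Real.log z + 1) ^ 3 * Real.exp (-(l / (2 * Real.log z))) =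
          C3 * X * l * ((Real.log z + 1) ^ 3 * Real.exp (-(l / (2 * Real.log z)))) := by ring
      _ ≤ C3 * X * l * δ := mul_le_mul_of_nonneg_left b7 (by positivity)
      _ ≤ C3 * X * l ^ 3 * δ := by
          refine mul_le_mul_of_nonneg_right (mul_le_mul_of_nonneg_left ?_ (by positivity)) hδ0.le
          nlinarith only [h1, sq_nonneg l]
  -- small primes
  have hsmall : ‖PS 0 (X + 1) θ‖ ≤ ‖PS z (X + 1) θ‖ + 2 * z := by
    have hsub : PS 0 (X + 1) θ = PS z (X + 1) θ + PS 0 (min z (X + 1)) θ := by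
      unfold PS
      rw [← Finset.sum_union]
      · refine Finset.sum_congr ?_ fun _ _ => rfl
        ext p
        rw [Finset.mem_union, mem_pr, mem_pr, mem_pr, lt_min_iff]
        have hp0 : (0 : ℝ) ≤ p := Nat.cast_nonneg p
        constructor
        · rintro ⟨hp, _, h8⟩
          rcases le_or_gt z (p : ℝ) with h9 | h9
          · exact Or.inl ⟨hp, h9, h8⟩
          · exact Or.inr ⟨hp, hp0, h9, h8⟩
        · rintro (⟨hp, _, h8⟩ | ⟨hp, _, _, h8⟩)
          · exact ⟨hp, hp0, h8⟩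
          · exact ⟨hp, hp0, h8⟩
      · rw [Finset.disjoint_left]
        intro p hp hp'
        rw [mem_pr] at hp hp'
        have := hp'.2.2.trans_le (min_le_left _ _)
        linarith only [hp, this, hp.2.1]
    rw [hsub]
    refine (norm_add_le _ _).trans (add_le_add le_rfl ?_)
    have h8 := norm_PS_le (x := 0) (y := min z ((X : ℝ) + 1)) (φ := θ)
      (le_min hz0.le (by linarith only [hXr]))
    have h9 : min z ((X : ℝ) + 1) ≤ z := min_le_left _ _
    linarith only [h8, h9]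
  set S1 : ℂ := ∑ n ∈ Icc 1 X, ((rho z n * Real.log n : ℝ) : ℂ) * ee ((n : ℝ) * θ) with hS1
  set S2 : ℂ := ∑ m ∈ (Icc 2 X).filter (Rough z), PS z (((X : ℝ) + 1) / m) ((m : ℝ) * θ) with hS2
  have i4 : ‖S2‖ ≤ C2 * X * l ^ 3 * (3 * δ) :=
    (norm_sum_le _ _).trans (i2.trans j2)
  have i5 : ‖S1‖ ≤ C3 * X * l ^ 3 * (3 * δ) + C3 * X * l ^ 3 * δ := i3.trans (add_le_add j3 j4)
  have i6 : ‖PS z (X + 1) θ‖ ≤ ‖S1‖ + ‖S2‖ + C1 * X * δ := by
    have h8 : PS z (X + 1) θ = S1 - S2 - (S1 - PS z (X + 1) θ - S2) := by ring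
    rw [h8]
    refine (norm_sub_le _ _).trans (add_le_add (norm_sub_le _ _) (i1.trans j1))
  have i7 : ‖PS 0 (X + 1) θ‖ ≤ (C1 + 3 * C2 + 4 * C3 + 1) * X * l ^ 3 * δ := by
    have h8 : C1 * X * δ ≤ C1 * X * δ * l ^ 3 := le_mul_of_one_le_right (by positivity) hl3
    have h9 : X * δ ≤ X * δ * l ^ 3 := le_mul_of_one_le_right (by positivity) hl3
    have h10 : (C1 + 3 * C2 + 4 * C3 + 1) * X * l ^ 3 * δ = C1 * X * δ * l ^ 3 +
        C2 * X * l ^ 3 * (3 * δ) + (C3 * X * l ^ 3 * (3 * δ) + C3 * X * l ^ 3 * δ) +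
        X * δ * l ^ 3 := by ring
    linarith only [b8, h8, h9, hsmall, i3, i4, i6, j3, j4]
  refine i7.trans ?_
  have k1 : (C1 + 3 * C2 + 4 * C3 + 1) * X * l ^ 3 * δ ≤ l * X * l ^ 3 * δ := by
    refine mul_le_mul_of_nonneg_right (mul_le_mul_of_nonneg_right
      (mul_le_mul_of_nonneg_right h2 hX0'.le) (by positivity)) hδ0.le
  refine k1.trans ?_
  have k2 : l * X * l ^ 3 * δ = X * l ^ (4 - P) := by
    rw [hδ, Real.rpow_sub hl0, show (4 : ℝ) = ((4 : ℕ) : ℝ) by norm_num, Real.rpow_natCast]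
    field_simp
  rw [k2, div_eq_mul_inv, ← Real.rpow_neg hl0.le]
  refine mul_le_mul_of_nonneg_left (Real.rpow_le_rpow_of_exponent_le hl1 ?_) hX0'.le
  have := neg_abs_le A
  have := le_abs_self A
  linarith only [this]

end Pool.MP_dd84fd_nt.En
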