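import Pool.Agent.Lib.MP_dd84fd_nt.En.Defs

/-!
# truncated and full singular series (module GB-SI)
-/

set_option autoImplicit false

namespace Pool.MP_dd84fd_nt.En

open Finset Pool.MP_67663b_nt.Odd

/-- the Euler factor -/
private noncomputable def siF (p : ℕ) : ℝ := 1 - 1 / ((p : ℝ) - 1) ^ 2

private lemma siF_bounds {p : ℕ} (hp : 2 < p) : 3 / 4 ≤ siF p ∧ siF p ≤ 1 := by
  have h3 : (3 : ℝ) ≤ p := by exact_mod_cast hp
  have h4 : (4 : ℝ) ≤ ((p : ℝ) - 1) ^ 2 := by nlinarith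
  have h5 : 1 / ((p : ℝ) - 1) ^ 2 ≤ 1 / 4 := one_div_le_one_div_of_le (by norm_num) h4
  have h6 : 0 ≤ 1 / ((p : ℝ) - 1) ^ 2 := by positivity
  unfold siF
  constructor <;> linarith

private lemma si_summable :
    Summable (fun p : {p : ℕ // p.Prime ∧ 2 < p} => -(1 / (((p : ℕ) : ℝ) - 1) ^ 2)) := by
  apply Summable.neg
  have h1 : Summable (fun n : ℕ => 4 * (1 / (n : ℝ) ^ 2)) :=
    (Real.summable_one_div_nat_pow.2 (by norm_num)).mul_left 4
  have h2 : Summable (fun p : {p : ℕ // p.Prime ∧ 2 < p} => 4 * (1 / ((p : ℕ) : ℝ) ^ 2)) :=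
    h1.comp_injective Subtype.val_injective
  refine Summable.of_nonneg_of_le (fun p => by positivity) (fun p => ?_) h2
  have h3 : (3 : ℝ) ≤ (p : ℕ) := by exact_mod_cast p.2.2
  rw [mul_one_div, div_le_div_iff₀ (by nlinarith) (by positivity)]
  nlinarith

private lemma si_log_summable :
    Summable (fun p : {p : ℕ // p.Prime ∧ 2 < p} => Real.log (siF p)) := by
  have := Real.summable_log_one_add_of_summable si_summable
  refine this.congr (fun p => ?_)
  unfold siF
  congr 1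

private lemma si_hasProd :
    HasProd (fun p : {p : ℕ // p.Prime ∧ 2 < p} => siF p)
      (Real.exp (∑' p : {p : ℕ // p.Prime ∧ 2 < p}, Real.log (siF p))) :=
  Real.hasProd_of_hasSum_log (fun p => by have := (siF_bounds p.2.2).1; linarith)
    si_log_summable.hasSum

private lemma C2_eq : C2 = Real.exp (∑' p : {p : ℕ // p.Prime ∧ 2 < p}, Real.log (siF p)) :=
  si_hasProd.tprod_eq

theorem C2_pos : 0 < C2 := by
  rw [C2_eq]; exact Real.exp_pos _

/-- the truncated product -/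
private noncomputable def siP (w : ℕ) : ℝ := ∏ p ∈ (Icc 3 w).filter Nat.Prime, siF p

private lemma siP_pos (w : ℕ) : 0 < siP w := by
  unfold siP
  apply Finset.prod_pos
  intro p hp
  rw [mem_filter, mem_Icc] at hp
  have := (siF_bounds (by omega : 2 < p)).1
  linarith

private lemma siP_tendsto : Filter.Tendsto siP Filter.atTop (nhds C2) := by
  have h1 : Filter.Tendsto (fun w : ℕ => (Icc 3 w).subtype (fun p => p.Prime ∧ 2 < p))
      Filter.atTop Filter.atTop := by
    apply Filter.tendsto_atTop_finset_of_monotone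
    · intro a b hab
      apply Finset.subtype_mono
      exact Finset.Icc_subset_Icc_right hab
    · intro x
      refine ⟨x, ?_⟩
      rw [Finset.mem_subtype, mem_Icc]
      exact ⟨x.2.2, le_rfl⟩
  have h2 : Filter.Tendsto (fun w : ℕ => ∏ p ∈ (Icc 3 w).subtype (fun p => p.Prime ∧ 2 < p),
      siF p) Filter.atTop (nhds C2) := by
    have h3 : HasProd (fun p : {p : ℕ // p.Prime ∧ 2 < p} => siF p) C2 := by
      rw [C2_eq]; exact si_hasProd
    have h4 : Filter.Tendsto (fun s : Finset {p : ℕ // p.Prime ∧ 2 < p} => ∏ p ∈ s, siF p)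
        Filter.atTop (nhds C2) := h3
    exact h4.comp h1
  refine h2.congr (fun w => ?_)
  rw [Finset.prod_subtype_eq_prod_filter (fun p : ℕ => siF p)]
  unfold siP
  apply Finset.prod_congr _ (fun _ _ => rfl)
  ext p
  simp only [mem_filter, mem_Icc]
  constructor
  · rintro ⟨h, h2, _⟩; exact ⟨h, h2⟩
  · rintro ⟨h, h2⟩; exact ⟨h, h2, by omega⟩

private lemma siP_anti : Antitone siP := by
  intro a b hab
  unfold siP
  have hsub : (Icc 3 a).filter Nat.Prime ⊆ (Icc 3 b).filter Nat.Prime :=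
    Finset.filter_subset_filter _ (Finset.Icc_subset_Icc_right hab)
  rw [← Finset.prod_sdiff hsub]
  have h1 : ∏ p ∈ ((Icc 3 b).filter Nat.Prime) \ ((Icc 3 a).filter Nat.Prime), siF p ≤ 1 := by
    apply Finset.prod_le_one
    · intro p hp
      rw [mem_sdiff, mem_filter, mem_Icc] at hp
      have := (siF_bounds (by omega : 2 < p)).1
      linarith
    · intro p hp
      rw [mem_sdiff, mem_filter, mem_Icc] at hp
      exact (siF_bounds (by omega : 2 < p)).2
  have h2 := (siP_pos a).le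
  unfold siP at h2
  nlinarith

private lemma C2_le_siP (w : ℕ) : C2 ≤ siP w :=
  siP_anti.le_of_tendsto siP_tendsto w

private lemma si_one_le_prod (s : Finset ℕ) (f : ℕ → ℝ) (h : ∀ p ∈ s, 1 ≤ f p) :
    1 ≤ ∏ p ∈ s, f p := by
  calc (1 : ℝ) = ∏ _p ∈ s, (1 : ℝ) := by simp
    _ ≤ _ := Finset.prod_le_prod (fun _ _ => zero_le_one) h

private lemma ratio_ge {p : ℕ} (hp : 2 < p) : 1 ≤ ((p : ℝ) - 1) / ((p : ℝ) - 2) := by
  have h3 : (3 : ℝ) ≤ p := by exact_mod_cast hp
  rw [le_div_iff₀ (by linarith)]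
  linarith

private lemma ratio_le {p : ℕ} (hp : 2 < p) :
    ((p : ℝ) - 1) / ((p : ℝ) - 2) ≤ Real.exp (3 * (1 / (p : ℝ))) := by
  have h3 : (3 : ℝ) ≤ p := by exact_mod_cast hp
  have h1 : ((p : ℝ) - 1) / ((p : ℝ) - 2) ≤ 1 + 3 * (1 / (p : ℝ)) := by
    rw [div_le_iff₀ (by linarith)]
    have : 0 < (p : ℝ) := by linarith
    have e : (1 + 3 * (1 / (p : ℝ))) * ((p : ℝ) - 2) = (p : ℝ) + 1 - 6 / p := by field_simp; ring
    rw [e]
    have : 6 / (p : ℝ) ≤ 2 := by rw [div_le_iff₀ this]; linarith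
    linarith
  refine h1.trans ?_
  have := Real.add_one_le_exp (3 * (1 / (p : ℝ)))
  linarith

theorem SS_ge (n : ℕ) : 2 * C2 ≤ SS n := by
  unfold SS
  have h1 : 1 ≤ ∏ p ∈ n.primeFactors.filter (fun p => 2 < p), ((p : ℝ) - 1) / ((p : ℝ) - 2) := by
    apply si_one_le_prod
    intro p hp
    rw [mem_filter] at hp
    exact ratio_ge hp.2
  have := C2_pos
  nlinarith

private lemma SW_eq (w n : ℕ) : SW w n = 2 * siP w *
    ∏ p ∈ n.primeFactors.filter (fun p => 2 < p ∧ p ≤ w), ((p : ℝ) - 1) / ((p : ℝ) - 2) := rfl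

private lemma SS_split (w n : ℕ) : SS n = 2 * C2 *
    ((∏ p ∈ n.primeFactors.filter (fun p => 2 < p ∧ p ≤ w), ((p : ℝ) - 1) / ((p : ℝ) - 2)) *
    ∏ p ∈ n.primeFactors.filter (fun p => 2 < p ∧ w < p), ((p : ℝ) - 1) / ((p : ℝ) - 2)) := by
  unfold SS
  congr 1
  rw [← Finset.prod_filter_mul_prod_filter_not (n.primeFactors.filter (fun p => 2 < p))
    (fun p => p ≤ w), Finset.filter_filter, Finset.filter_filter]
  congr 1
  apply Finset.prod_congr _ (fun _ _ => rfl)
  ext p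
  simp only [mem_filter, not_le]

theorem SW_SS {ε : ℝ} (hε : 0 < ε) : ∃ w0 : ℕ, ∀ w : ℕ, w0 ≤ w → ∀ n : ℕ, 0 < n →
    (1 - ε) * SW w n ≤ SS n ∧
    SS n ≤ SW w n * Real.exp (3 * ∑ p ∈ n.primeFactors.filter (fun p => w < p), 1 / (p : ℝ)) := by
  have hC := C2_pos
  obtain ⟨w1, hw1⟩ : ∃ w1 : ℕ, ∀ w ≥ w1, (1 - ε) * siP w ≤ C2 := by
    have h1 : Filter.Tendsto (fun w => (1 - ε) * siP w) Filter.atTop (nhds ((1 - ε) * C2)) :=
      siP_tendsto.const_mul _
    have h2 : (1 - ε) * C2 < C2 := by nlinarith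
    have h3 := h1.eventually_lt_const h2
    rw [Filter.eventually_atTop] at h3
    obtain ⟨w1, hw1⟩ := h3
    exact ⟨w1, fun w hw => (hw1 w hw).le⟩
  refine ⟨max w1 2, fun w hw n _ => ?_⟩
  have hw2 : 2 ≤ w := (le_max_right _ _).trans hw
  have hww : w1 ≤ w := (le_max_left _ _).trans hw
  set A : ℝ := ∏ p ∈ n.primeFactors.filter (fun p => 2 < p ∧ p ≤ w), ((p : ℝ) - 1) / ((p : ℝ) - 2)
    with hA
  set Bp : ℝ := ∏ p ∈ n.primeFactors.filter (fun p => 2 < p ∧ w < p), ((p : ℝ) - 1) / ((p : ℝ) - 2)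
    with hB
  have hA1 : 1 ≤ A := by
    apply si_one_le_prod
    intro p hp
    rw [mem_filter] at hp
    exact ratio_ge hp.2.1
  have hB1 : 1 ≤ Bp := by
    apply si_one_le_prod
    intro p hp
    rw [mem_filter] at hp
    exact ratio_ge hp.2.1
  have hB2 : Bp ≤ Real.exp (3 * ∑ p ∈ n.primeFactors.filter (fun p => w < p), 1 / (p : ℝ)) := by
    rw [Finset.mul_sum, Real.exp_sum]
    have e : n.primeFactors.filter (fun p => 2 < p ∧ w < p) =
        n.primeFactors.filter (fun p => w < p) := by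
      ext p
      simp only [mem_filter]
      constructor
      · rintro ⟨h, _, h2⟩; exact ⟨h, h2⟩
      · rintro ⟨h, h2⟩; exact ⟨h, by omega, h2⟩
    rw [hB, e]
    apply Finset.prod_le_prod
    · intro p hp
      rw [mem_filter] at hp
      have := ratio_ge (by omega : 2 < p)
      linarith
    · intro p hp
      rw [mem_filter] at hp
      exact ratio_le (by omega)
  have hSW : SW w n = 2 * siP w * A := SW_eq w n
  have hSS : SS n = 2 * C2 * (A * Bp) := SS_split w n
  have hP := siP_pos w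
  have hPC := C2_le_siP w
  constructor
  · rw [hSW, hSS]
    have h1 := hw1 w hww
    have h2 : (1 - ε) * (2 * siP w * A) = 2 * ((1 - ε) * siP w) * A := by ring
    rw [h2]
    have h3 : 2 * ((1 - ε) * siP w) * A ≤ 2 * C2 * A :=
      mul_le_mul_of_nonneg_right (by linarith) (by linarith)
    have h4 : 2 * C2 * A ≤ 2 * C2 * (A * Bp) := by
      apply mul_le_mul_of_nonneg_left _ (by linarith)
      nlinarith
    linarith
  · rw [hSW, hSS]
    have h1 : 2 * C2 * (A * Bp) = 2 * C2 * A * Bp := by ring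
    rw [h1]
    apply mul_le_mul _ hB2 (by linarith) (by positivity)
    apply mul_le_mul_of_nonneg_right _ (by linarith)
    linarith

end Pool.MP_dd84fd_nt.En
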