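import Mathlib
import Pool.Agent.Lib.MP_67663b_nt.OddB.ExpDefs

/-!
# Goldbach representations and additive energy: definitions

`ee x = e(x)`, `pr x y` = primes in `[x, y)` and `PS x y θ = Σ_{x ≤ p < y} log p e(p θ)` are
imported from the file `ExpDefs`.
-/

set_option autoImplicit false

namespace Pool.MP_dd84fd_nt.En

open Finset Pool.MP_67663b_nt.Odd

/-- all prime factors of `n` are at least `z` -/
def Rough (z : ℝ) (n : ℕ) : Prop := ∀ p : ℕ, p.Prime → p ∣ n → z ≤ (p : ℝ)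

open Classical in
/-- indicator function of the `z`-rough numbers -/
noncomputable def rho (z : ℝ) (n : ℕ) : ℝ := if Rough z n then 1 else 0

open Classical in
/-- the `z`-rough numbers `m` with `a < m ≤ b` -/
noncomputable def RN (z a b : ℝ) : Finset ℕ := (Ioc ⌊a⌋₊ ⌊b⌋₊).filter (Rough z)

/-- `V z = Π_{p < z} (1 - 1/p)` -/
noncomputable def V (z : ℝ) : ℝ := ∏ p ∈ pr 0 z, (1 - 1 / (p : ℝ))

open Classical in
/-- squarefree `r ≤ R` all of whose prime factors are less than `z` -/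
noncomputable def DD (R z : ℝ) : Finset ℕ :=
  (Icc 1 ⌊R⌋₊).filter (fun r => Squarefree r ∧ ∀ p : ℕ, p.Prime → p ∣ r → (p : ℝ) < z)

/-- `G = Σ_{r ∈ DD} 1/φ(r)` -/
noncomputable def GG (R z : ℝ) : ℝ := ∑ r ∈ DD R z, 1 / (Nat.totient r : ℝ)

open Classical in
/-- the pairs `(r, b)`, `r ∈ DD R z`, `b` mod `r` primitive -/
noncomputable def Fr (R z : ℝ) : Finset (ℕ × ℕ) :=
  ((DD R z) ×ˢ (range (⌊R⌋₊ + 1))).filter (fun x => x.2 < x.1 ∧ Nat.Coprime x.2 x.1)

/-- weight of a fraction with denominator `r` -/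
noncomputable def wt (R z : ℝ) (r : ℕ) : ℝ :=
  (ArithmeticFunction.moebius r : ℝ) / (GG R z * (Nat.totient r : ℝ))

/-- the Selberg function `(1/G) Σ_{r} μ(r)/φ(r) c_r(n)` -/
noncomputable def Lam (R z : ℝ) (n : ℕ) : ℂ :=
  ∑ x ∈ Fr R z, (wt R z x.1 : ℂ) * ee ((n : ℝ) * ((x.2 : ℝ) / (x.1 : ℝ)))

/-- Selberg's majorant of the `z`-rough numbers -/
noncomputable def nu (R z : ℝ) (n : ℕ) : ℝ := ‖Lam R z n‖ ^ 2

/-- geometric exponential sum -/
noncomputable def D (t : ℕ) (θ : ℝ) : ℂ := ∑ n ∈ Icc 1 t, ee ((n : ℝ) * θ)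

/-- `min(M, 1/(2‖θ‖))` -/
noncomputable def mn (M θ : ℝ) : ℝ :=
  if 2 * M * |θ - round θ| ≤ 1 then M else 1 / (2 * |θ - round θ|)

open Classical in
/-- squarefree `r ≤ R` all of whose prime factors are greater than `H` -/
noncomputable def RS (H R : ℝ) : Finset ℕ :=
  (Icc 1 ⌊R⌋₊).filter (fun r => Squarefree r ∧ ∀ p : ℕ, p.Prime → p ∣ r → H < (p : ℝ))

/-- `θ` has a rational approximation of height at most `H` (at scale `X`) -/
def Ht (H X θ : ℝ) : Prop :=
  ∃ (q : ℕ) (a : ℤ), 0 < q ∧ Int.gcd a q = 1 ∧ (q : ℝ) * (1 + X * |θ - (a : ℝ) / (q : ℝ)|) ≤ H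

/-- the model of the primes: normalised indicator of the integers coprime to the primes `≤ w` -/
noncomputable def f1 (w n : ℕ) : ℝ :=
  if Nat.Coprime n (primorial w) then (primorial w : ℝ) / (Nat.totient (primorial w) : ℝ) else 0

/-- exponential sum of the model -/
noncomputable def F1 (w X : ℕ) (θ : ℝ) : ℂ := ∑ n ∈ Icc 1 X, (f1 w n : ℂ) * ee ((n : ℝ) * θ)

/-- convolution of the model with itself -/
noncomputable def conv1 (w n : ℕ) : ℝ := ∑ a ∈ range (n + 1), f1 w a * f1 w (n - a)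

/-- weighted number of Goldbach representations -/
noncomputable def rG (n : ℕ) : ℝ :=
  ∑ p ∈ (range (n + 1)).filter (fun p => Nat.Prime p ∧ Nat.Prime (n - p)),
    Real.log (p : ℝ) * Real.log ((n - p : ℕ) : ℝ)

/-- number of ordered representations of `n` as a sum of two primes -/
def g (n : ℕ) : ℕ :=
  ((range (n + 1)).filter (fun p => Nat.Prime p ∧ Nat.Prime (n - p))).card

/-- the twin prime constant -/
noncomputable def C2 : ℝ := ∏' p : {p : ℕ // p.Prime ∧ 2 < p}, (1 - 1 / (((p : ℕ) : ℝ) - 1) ^ 2)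

/-- the singular series of the binary Goldbach problem (for even `n`) -/
noncomputable def SS (n : ℕ) : ℝ :=
  2 * C2 * ∏ p ∈ n.primeFactors.filter (fun p => 2 < p), ((p : ℝ) - 1) / ((p : ℝ) - 2)

/-- the truncated singular series (for even `n`) -/
noncomputable def SW (w n : ℕ) : ℝ :=
  2 * (∏ p ∈ (Icc 3 w).filter Nat.Prime, (1 - 1 / ((p : ℝ) - 1) ^ 2)) *
    ∏ p ∈ n.primeFactors.filter (fun p => 2 < p ∧ p ≤ w), ((p : ℝ) - 1) / ((p : ℝ) - 2)

/-- the Hardy–Littlewood prediction for `g n` -/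
noncomputable def HL (n : ℕ) : ℝ := SS n * (n : ℝ) / (Real.log (n : ℝ)) ^ 2

/-- exponential sum with weights `ζ` -/
noncomputable def KK (X : ℕ) (ζ : ℕ → ℝ) (θ : ℝ) : ℂ :=
  ∑ n ∈ range (X + 1), (ζ n : ℂ) * ee ((n : ℝ) * θ)

/-- `Σ ζ(a₁)⋯ζ(a_m) ζ(b₁)⋯ζ(b_m)` over `a₁ + ⋯ + a_m = b₁ + ⋯ + b_m`; for a probability
distribution `ζ` on `{0, …, X}` this is the probability that two independent sums of `m`
independent variables with this distribution are equal. -/
noncomputable def coll (m X : ℕ) (ζ : ℕ → ℝ) : ℝ :=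
  ∑ a ∈ Fintype.piFinset (fun _ : Fin m => range (X + 1)),
    ∑ b ∈ Fintype.piFinset (fun _ : Fin m => range (X + 1)),
      if ∑ i, a i = ∑ i, b i then (∏ i, ζ (a i)) * ∏ i, ζ (b i) else 0

end Pool.MP_dd84fd_nt.En
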