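import Pool.Agent.Lib.MP_dd84fd_nt.En.Defs

/-!
# elementary bounds for phi and tau (module GB-TOT)
-/

set_option autoImplicit false

namespace Pool.MP_dd84fd_nt.En

open Finset Pool.MP_67663b_nt.Odd

private theorem TOT_prod (S : Finset ℕ) (hS : ∀ p ∈ S, 2 ≤ p) :
    ∏ p ∈ S, (p : ℝ) / ((p : ℝ) - 1) ≤ (S.card : ℝ) + 1 := by
  induction S using Finset.induction_on_max with
  | empty => simp
  | insert a S hmax ih =>
    have haS : a ∉ S := fun h => lt_irrefl _ (hmax a h)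
    have hS' : ∀ p ∈ S, 2 ≤ p := fun p hp => hS p (mem_insert_of_mem hp)
    have ha : 2 ≤ a := hS a (mem_insert_self a S)
    have hsub : S ⊆ Ico 2 a := fun p hp => mem_Ico.2 ⟨hS' p hp, hmax p hp⟩
    have hcard : S.card ≤ a - 2 := by
      have := card_le_card hsub
      rwa [Nat.card_Ico] at this
    have hcard' : (S.card : ℝ) + 2 ≤ a := by
      have : S.card + 2 ≤ a := by omega
      exact_mod_cast this
    rw [prod_insert haS, card_insert_of_notMem haS]
    push_cast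
    have hk : (0 : ℝ) ≤ S.card := Nat.cast_nonneg _
    have h1 : (a : ℝ) / ((a : ℝ) - 1) ≤ ((S.card : ℝ) + 2) / ((S.card : ℝ) + 1) := by
      rw [div_le_div_iff₀ (by linarith) (by linarith)]
      nlinarith
    have h2 : (0 : ℝ) ≤ ∏ p ∈ S, (p : ℝ) / ((p : ℝ) - 1) := by
      refine prod_nonneg ?_
      intro p hp
      have : (2 : ℝ) ≤ p := by exact_mod_cast hS' p hp
      exact div_nonneg (by linarith) (by linarith)
    calc (a : ℝ) / ((a : ℝ) - 1) * ∏ p ∈ S, (p : ℝ) / ((p : ℝ) - 1)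
        ≤ ((S.card : ℝ) + 2) / ((S.card : ℝ) + 1) * ((S.card : ℝ) + 1) :=
          mul_le_mul h1 (ih hS') h2 (by positivity)
      _ = (S.card : ℝ) + 2 := by field_simp
      _ = (S.card : ℝ) + 1 + 1 := by ring

theorem totient_ge (q : ℕ) (hq : 0 < q) :
    (q : ℝ) ≤ (Nat.totient q : ℝ) * (1 + Real.logb 2 q) := by
  have h1 := Nat.totient_mul_prod_primeFactors q
  have h2 : (Nat.totient q : ℝ) * ∏ p ∈ q.primeFactors, (p : ℝ) =
      q * ∏ p ∈ q.primeFactors, ((p : ℝ) - 1) := by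
    have h3 : ((Nat.totient q * ∏ p ∈ q.primeFactors, p : ℕ) : ℝ) =
        ((q * ∏ p ∈ q.primeFactors, (p - 1) : ℕ) : ℝ) := by rw [h1]
    push_cast at h3
    rw [h3]
    congr 1
    refine prod_congr rfl ?_
    intro p hp
    rw [Nat.cast_sub (Nat.prime_of_mem_primeFactors hp).one_le, Nat.cast_one]
  have hge : ∀ p ∈ q.primeFactors, (2 : ℝ) ≤ p := fun p hp => by
    exact_mod_cast (Nat.prime_of_mem_primeFactors hp).two_le
  have hpos : 0 < ∏ p ∈ q.primeFactors, ((p : ℝ) - 1) := by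
    refine prod_pos ?_
    intro p hp
    have := hge p hp
    linarith
  have h4 : (q : ℝ) = (Nat.totient q : ℝ) * ∏ p ∈ q.primeFactors, (p : ℝ) / ((p : ℝ) - 1) := by
    rw [prod_div_distrib, ← mul_div_assoc, h2, mul_div_assoc, div_self hpos.ne', mul_one]
  have h5 := TOT_prod q.primeFactors (fun p hp => (Nat.prime_of_mem_primeFactors hp).two_le)
  have h6 : (q.primeFactors.card : ℝ) ≤ Real.logb 2 q := by
    have h7 : 2 ^ q.primeFactors.card ≤ q := by
      have h8 : 2 ^ q.primeFactors.card ≤ ∏ p ∈ q.primeFactors, p :=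
        pow_card_le_prod _ _ _ (fun p hp => (Nat.prime_of_mem_primeFactors hp).two_le)
      exact h8.trans (Nat.le_of_dvd hq (Nat.prod_primeFactors_dvd q))
    rw [Real.le_logb_iff_rpow_le (by norm_num) (by exact_mod_cast hq), Real.rpow_natCast]
    exact_mod_cast h7
  calc (q : ℝ) = (Nat.totient q : ℝ) * ∏ p ∈ q.primeFactors, (p : ℝ) / ((p : ℝ) - 1) := h4
    _ ≤ (Nat.totient q : ℝ) * (1 + Real.logb 2 q) :=
        mul_le_mul_of_nonneg_left (by linarith) (Nat.cast_nonneg _)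

theorem totient_rpow {ε : ℝ} (hε : 0 < ε) : ∃ c : ℝ, 0 < c ∧ ∀ q : ℕ, 0 < q →
    c * (q : ℝ) ^ (1 - ε) ≤ (Nat.totient q : ℝ) := by
  have hl2 : 0 < Real.log 2 := Real.log_pos (by norm_num)
  set A : ℝ := 1 + 1 / (ε * Real.log 2) with hA
  have hApos : 0 < A := by positivity
  refine ⟨1 / A, by positivity, ?_⟩
  intro q hq
  have hq0 : (0 : ℝ) < q := by exact_mod_cast hq
  have hq1 : (1 : ℝ) ≤ q := by exact_mod_cast hq
  have h1 := totient_ge q hq
  have hqe : (1 : ℝ) ≤ (q : ℝ) ^ ε := Real.one_le_rpow hq1 hε.le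
  have h2 : 1 + Real.logb 2 q ≤ A * (q : ℝ) ^ ε := by
    have h3 := Real.log_le_rpow_div (x := (q : ℝ)) hq0.le hε
    have h4 : Real.logb 2 q = Real.log q / Real.log 2 := rfl
    have h5 : Real.log q / Real.log 2 ≤ (q : ℝ) ^ ε / ε / Real.log 2 :=
      div_le_div_of_nonneg_right h3 hl2.le
    have h6 : A * (q : ℝ) ^ ε = (q : ℝ) ^ ε + (q : ℝ) ^ ε / ε / Real.log 2 := by
      rw [hA]
      field_simp
    rw [h4, h6]
    linarith
  have h3 : (q : ℝ) ≤ (Nat.totient q : ℝ) * (A * (q : ℝ) ^ ε) :=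
    h1.trans (mul_le_mul_of_nonneg_left h2 (Nat.cast_nonneg _))
  rw [Real.rpow_sub hq0, Real.rpow_one]
  rw [div_mul_div_comm, one_mul, div_le_iff₀ (by positivity)]
  exact h3

private theorem TOT_tau : ∃ C : ℝ, 0 < C ∧ ∀ q : ℕ, 0 < q →
    (q.divisors.card : ℝ) ≤ C * (q : ℝ) ^ (1 / 8 : ℝ) := by
  refine ⟨(16 : ℝ) ^ 256, by positivity, ?_⟩
  intro q hq
  rw [Nat.card_divisors hq.ne']
  push_cast
  -- local bound
  have hloc : ∀ p ∈ q.primeFactors, ((q.factorization p : ℝ) + 1) ≤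
      (if p < 256 then (16 : ℝ) else 1) * ((p : ℝ) ^ (q.factorization p)) ^ (1 / 8 : ℝ) := by
    intro p hp
    have hpp := Nat.prime_of_mem_primeFactors hp
    have hp2 : (2 : ℝ) ≤ p := by exact_mod_cast hpp.two_le
    set a := q.factorization p with ha
    have hpow : ((p : ℝ) ^ a) ^ (1 / 8 : ℝ) = (((p : ℝ) ^ (1 / 8 : ℝ))) ^ a := by
      rw [← Real.rpow_natCast, ← Real.rpow_mul (by linarith), ← Real.rpow_natCast,
        ← Real.rpow_mul (by linarith), mul_comm]
    rw [hpow]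
    split_ifs with h
    · -- small prime
      have h1 : (1 : ℝ) + 1 / 16 ≤ (p : ℝ) ^ (1 / 8 : ℝ) := by
        have h2 : ((1 : ℝ) + 1 / 16) = (((1 : ℝ) + 1 / 16) ^ (8 : ℕ)) ^ (1 / 8 : ℝ) := by
          rw [← Real.rpow_natCast, ← Real.rpow_mul (by norm_num)]
          norm_num
        rw [h2]
        refine Real.rpow_le_rpow (by positivity) ?_ (by norm_num)
        refine le_trans ?_ hp2
        norm_num
      have h3 : (1 : ℝ) + a * (1 / 16) ≤ ((p : ℝ) ^ (1 / 8 : ℝ)) ^ a := by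
        refine (one_add_mul_le_pow (by norm_num) a).trans ?_
        exact pow_le_pow_left₀ (by norm_num) h1 a
      have : (0 : ℝ) ≤ a := Nat.cast_nonneg _
      linarith
    · have h256 : (256 : ℝ) ≤ p := by exact_mod_cast not_lt.1 h
      have h1 : (2 : ℝ) ≤ (p : ℝ) ^ (1 / 8 : ℝ) := by
        have h2 : (2 : ℝ) = ((256 : ℝ)) ^ (1 / 8 : ℝ) := by
          rw [show (256 : ℝ) = 2 ^ (8 : ℕ) by norm_num, ← Real.rpow_natCast,
            ← Real.rpow_mul (by norm_num)]
          norm_num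
        conv_lhs => rw [h2]
        exact Real.rpow_le_rpow (by positivity) h256 (by norm_num)
      rw [one_mul]
      have h3 : (1 : ℝ) + a * 1 ≤ ((p : ℝ) ^ (1 / 8 : ℝ)) ^ a := by
        refine (one_add_mul_le_pow (by norm_num) a).trans ?_
        exact pow_le_pow_left₀ (by norm_num) (by linarith) a
      linarith
  refine (prod_le_prod (fun p _ => by positivity) hloc).trans ?_
  rw [prod_mul_distrib]
  have hprod : ∏ p ∈ q.primeFactors, ((p : ℝ) ^ (q.factorization p)) ^ (1 / 8 : ℝ) =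
      (q : ℝ) ^ (1 / 8 : ℝ) := by
    rw [Real.finsetProd_rpow _ _ (fun p _ => by positivity)]
    congr 1
    have h1 := Nat.prod_factorization_pow_eq_self hq.ne'
    conv_rhs => rw [← h1]
    rw [Finsupp.prod, Nat.support_factorization]
    push_cast
    rfl
  rw [hprod]
  refine mul_le_mul_of_nonneg_right ?_ (by positivity)
  rw [prod_ite]
  simp only [prod_const, one_pow, mul_one]
  refine pow_le_pow_right₀ (by norm_num) ?_
  have hsub : q.primeFactors.filter (fun p => p < 256) ⊆ range 256 := by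
    intro p hp
    exact mem_range.2 (mem_filter.1 hp).2
  have := card_le_card hsub
  rwa [card_range] at this

theorem tau_div_sqrt_totient : ∃ C : ℝ, 0 < C ∧ ∀ q : ℕ, 0 < q →
    (q.divisors.card : ℝ) / Real.sqrt (Nat.totient q) ≤ C * (q : ℝ) ^ (-(1 / 3 : ℝ)) := by
  obtain ⟨A, hA, hAq⟩ := TOT_tau
  obtain ⟨c, hc, hcq⟩ := totient_rpow (ε := 1 / 12) (by norm_num)
  refine ⟨A / Real.sqrt c, by positivity, ?_⟩
  intro q hq
  have hq0 : (0 : ℝ) < q := by exact_mod_cast hq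
  have h1 : Real.sqrt c * (q : ℝ) ^ (11 / 24 : ℝ) ≤ Real.sqrt (Nat.totient q) := by
    have h2 : (q : ℝ) ^ (11 / 24 : ℝ) = Real.sqrt ((q : ℝ) ^ (1 - 1 / 12 : ℝ)) := by
      rw [Real.sqrt_eq_rpow, ← Real.rpow_mul hq0.le]
      norm_num
    rw [h2, ← Real.sqrt_mul hc.le]
    exact Real.sqrt_le_sqrt (hcq q hq)
  have hpos : 0 < Real.sqrt c * (q : ℝ) ^ (11 / 24 : ℝ) := by positivity
  calc (q.divisors.card : ℝ) / Real.sqrt (Nat.totient q)
      ≤ (A * (q : ℝ) ^ (1 / 8 : ℝ)) / (Real.sqrt c * (q : ℝ) ^ (11 / 24 : ℝ)) := by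
        refine div_le_div₀ (by positivity) (hAq q hq) hpos h1
    _ = A / Real.sqrt c * ((q : ℝ) ^ (1 / 8 : ℝ) / (q : ℝ) ^ (11 / 24 : ℝ)) := by
        rw [mul_div_mul_comm]
    _ = A / Real.sqrt c * (q : ℝ) ^ (-(1 / 3 : ℝ)) := by
        rw [← Real.rpow_sub hq0]
        norm_num

theorem summable_totient {s : ℝ} (hs : 2 < s) :
    Summable (fun q : ℕ => (Nat.totient q : ℝ) ^ (1 - s)) := by
  obtain ⟨c, hc, hcq⟩ := totient_rpow (ε := (s - 2) / (2 * (s - 1)))
    (div_pos (by linarith) (by linarith))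
  have hsum : Summable (fun q : ℕ => c ^ (1 - s) * (q : ℝ) ^ (-(s / 2))) := by
    refine Summable.mul_left _ ?_
    rw [Real.summable_nat_rpow]
    linarith
  refine Summable.of_nonneg_of_le (fun q => Real.rpow_nonneg (Nat.cast_nonneg _) _) ?_ hsum
  intro q
  rcases Nat.eq_zero_or_pos q with h | h
  · subst h
    simp only [Nat.totient_zero, Nat.cast_zero]
    rw [Real.zero_rpow (by linarith), Real.zero_rpow (by linarith), mul_zero]
  · have hq0 : (0 : ℝ) < q := by exact_mod_cast h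
    have h1 := hcq q h
    have h2 : (0 : ℝ) < c * (q : ℝ) ^ (1 - (s - 2) / (2 * (s - 1))) := by positivity
    have h3 : (Nat.totient q : ℝ) ^ (1 - s) ≤
        (c * (q : ℝ) ^ (1 - (s - 2) / (2 * (s - 1)))) ^ (1 - s) :=
      Real.rpow_le_rpow_of_nonpos h2 h1 (by linarith)
    refine h3.trans (le_of_eq ?_)
    rw [Real.mul_rpow hc.le (Real.rpow_nonneg hq0.le _), ← Real.rpow_mul hq0.le]
    congr 2
    have : s - 1 ≠ 0 := by linarith
    field_simp
    ring

end Pool.MP_dd84fd_nt.En
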