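import Pool.Agent.Lib.MP_dd84fd_nt.En.Recip1

/-!
# reciprocal sums (module GB-R2)
-/

set_option autoImplicit false

namespace Pool.MP_dd84fd_nt.En

open Finset Pool.MP_67663b_nt.Odd

private theorem r2_blocks (f : ℕ → ℝ) (q J : ℕ) :
    ∑ i ∈ range (J * q), f i = ∑ j ∈ range J, ∑ r ∈ range q, f (j * q + r) := by
  induction J with
  | zero => simp
  | succ J ih =>
    rw [Nat.succ_mul, Finset.sum_range_add, ih, Finset.sum_range_succ]

private theorem r2_logq (q : ℕ) (hq : 0 < q) : 0 ≤ Real.log (2 * q) := by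
  apply Real.log_nonneg
  have : (1 : ℝ) ≤ q := by exact_mod_cast hq
  linarith

private theorem r2_lt (N q : ℕ) (hq : 0 < q) : N < (N / q + 1) * q := by
  have h1 := Nat.div_add_mod N q
  have h2 := Nat.mod_lt N hq
  calc N = q * (N / q) + N % q := h1.symm
    _ < q * (N / q) + q := by omega
    _ = (N / q + 1) * q := by ring

theorem sum_mn : ∃ C : ℝ, 0 < C ∧ ∀ (θ : ℝ) (q : ℕ) (a : ℤ), 0 < q → Int.gcd a q = 1 →
    |θ - (a : ℝ) / q| ≤ 1 / (q : ℝ) ^ 2 → ∀ (M : ℝ) (N : ℕ), 1 ≤ M →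
    ∑ h ∈ Icc 1 N, mn M ((h : ℝ) * θ) ≤
      C * ((N : ℝ) / q + 1) * (M + q * Real.log (2 * q)) := by
  obtain ⟨C, hC, hblock⟩ := block_mn
  refine ⟨C, hC, ?_⟩
  intro θ q a hq hg hθ M N hM
  have hq0 : (0 : ℝ) < q := by exact_mod_cast hq
  have hM0 : (0 : ℝ) ≤ M := by linarith
  set J : ℕ := N / q + 1 with hJ
  set f : ℕ → ℝ := fun i => mn M (((1 + i : ℕ) : ℝ) * θ) with hf
  have h1 : ∑ h ∈ Icc 1 N, mn M ((h : ℝ) * θ) ≤ ∑ i ∈ range (J * q), f i := by
    have hinj : Set.InjOn (fun i => 1 + i) (range (J * q) : Finset ℕ) := by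
      intro x _ y _ hxy
      simp only at hxy
      omega
    have e := Finset.sum_image (g := fun i => 1 + i) (f := fun d : ℕ => mn M ((d : ℝ) * θ)) hinj
    rw [hf]
    simp only at e ⊢
    rw [← e]
    apply Finset.sum_le_sum_of_subset_of_nonneg
    · intro d hd
      rw [Finset.mem_Icc] at hd
      rw [Finset.mem_image]
      refine ⟨d - 1, ?_, by omega⟩
      rw [Finset.mem_range]
      have h2 : N < J * q := r2_lt N q hq
      omega
    · intro d _ _
      exact mn_nonneg hM0 _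
  refine h1.trans ?_
  rw [r2_blocks]
  have h2 : ∀ j ∈ range J, ∑ r ∈ range q, f (j * q + r) ≤ C * (M + q * Real.log (2 * q)) := by
    intro j _
    have := hblock θ q a hq hg hθ M (1 + j * q) hM
    rw [hf]
    simp only
    simpa only [add_assoc] using this
  refine (Finset.sum_le_sum h2).trans ?_
  rw [Finset.sum_const, Finset.card_range, nsmul_eq_mul]
  have h3 : (J : ℝ) ≤ (N : ℝ) / q + 1 := by
    rw [hJ]
    push_cast
    have : ((N / q : ℕ) : ℝ) ≤ (N : ℝ) / q := Nat.cast_div_le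
    linarith
  have h4 : 0 ≤ C * (M + q * Real.log (2 * q)) := by
    have := r2_logq q hq
    positivity
  calc (J : ℝ) * (C * (M + q * Real.log (2 * q)))
      ≤ ((N : ℝ) / q + 1) * (C * (M + q * Real.log (2 * q))) :=
        mul_le_mul_of_nonneg_right h3 h4
    _ = C * ((N : ℝ) / q + 1) * (M + q * Real.log (2 * q)) := by ring

private theorem r2_half (J : ℕ) (hJ : 0 < J) :
    ∑ j ∈ range J, 1 / ((j : ℝ) + 1 / 2) ≤ 3 + Real.log J := by
  obtain ⟨n, rfl⟩ : ∃ n, J = n + 1 := ⟨J - 1, by omega⟩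
  rw [Finset.sum_range_succ']
  have h1 := harmonic_le_one_add_log n
  have h2 : ((harmonic n : ℚ) : ℝ) = ∑ k ∈ range n, 1 / (((k + 1 : ℕ)) : ℝ) := by
    unfold harmonic
    push_cast
    refine Finset.sum_congr rfl fun i _ => ?_
    rw [one_div]
  rw [h2] at h1
  have h3 : Real.log n ≤ Real.log ((n + 1 : ℕ) : ℝ) := by
    rcases Nat.eq_zero_or_pos n with h4 | h4
    · subst h4
      simp
    · apply Real.log_le_log (by exact_mod_cast h4)
      push_cast
      linarith
  have h5 : ∑ k ∈ range n, 1 / ((((k + 1 : ℕ)) : ℝ) + 1 / 2) ≤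
      ∑ k ∈ range n, 1 / (((k + 1 : ℕ)) : ℝ) := by
    apply Finset.sum_le_sum
    intro k _
    apply one_div_le_one_div_of_le
    · positivity
    · linarith
  norm_num at h5 h1 h3 ⊢
  linarith

theorem sum_mn' : ∃ C : ℝ, 0 < C ∧ ∀ (θ : ℝ) (q : ℕ) (a : ℤ), 0 < q → Int.gcd a q = 1 →
    |θ - (a : ℝ) / q| ≤ 1 / (q : ℝ) ^ 2 → ∀ (X : ℝ) (N : ℕ), (N : ℝ) ≤ X → 2 ≤ X →
    ∑ d ∈ Icc 1 N, mn (X / d) ((d : ℝ) * θ) ≤
      C * (X / q + N + q) * Real.log (2 * q * X) := by
  obtain ⟨C0, hC0, hblock⟩ := block_mn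
  obtain ⟨C1, hC1, hsmall⟩ := small_mn
  refine ⟨C1 + 6 * C0, by positivity, ?_⟩
  intro θ q a hq hg hθ X N hNX hX
  have hq0 : (0 : ℝ) < q := by exact_mod_cast hq
  have hq1 : (1 : ℝ) ≤ q := by exact_mod_cast hq
  have hX0 : 0 < X := by linarith
  set J : ℕ := N / q + 1 with hJ
  set F : ℕ → ℝ := fun d => mn (max 1 (X / d)) ((d : ℝ) * θ) with hF
  have hF0 : ∀ d, 0 ≤ F d := by
    intro d
    exact mn_nonneg (le_trans zero_le_one (le_max_left _ _)) _
  have h0 : ∑ d ∈ Icc 1 N, mn (X / d) ((d : ℝ) * θ) = ∑ d ∈ Icc 1 N, F d := by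
    refine Finset.sum_congr rfl fun d hd => ?_
    rw [Finset.mem_Icc] at hd
    rw [hF]
    simp only
    congr 1
    rw [max_eq_right]
    have hd0 : (0 : ℝ) < d := by exact_mod_cast hd.1
    rw [le_div_iff₀ hd0]
    have : (d : ℝ) ≤ N := by exact_mod_cast hd.2
    linarith
  rw [h0]
  have hinj : Set.InjOn (fun i => q / 2 + 1 + i) (range (J * q) : Finset ℕ) := by
    intro x _ y _ hxy
    simp only at hxy
    omega
  have h1 : ∑ d ∈ Icc 1 N, F d ≤
      ∑ d ∈ Icc 1 (q / 2), F d + ∑ i ∈ range (J * q), F (q / 2 + 1 + i) := by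
    have e := Finset.sum_image (g := fun i => q / 2 + 1 + i) (f := F) hinj
    rw [← e]
    set A := Icc 1 (q / 2) with hA
    set B := (range (J * q)).image (fun i => q / 2 + 1 + i) with hB
    have h2 : ∑ d ∈ Icc 1 N, F d ≤ ∑ d ∈ A ∪ B, F d := by
      apply Finset.sum_le_sum_of_subset_of_nonneg
      · intro d hd
        rw [Finset.mem_Icc] at hd
        rw [Finset.mem_union]
        by_cases h3 : d ≤ q / 2
        · left
          rw [hA, Finset.mem_Icc]
          omega
        · right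
          rw [hB, Finset.mem_image]
          refine ⟨d - (q / 2 + 1), ?_, by omega⟩
          rw [Finset.mem_range]
          have h2 : N < J * q := r2_lt N q hq
          omega
      · intro d _ _
        exact hF0 d
    have h3 := Finset.sum_union_inter (s₁ := A) (s₂ := B) (f := F)
    have h4 : 0 ≤ ∑ d ∈ A ∩ B, F d := Finset.sum_nonneg fun d _ => hF0 d
    linarith
  have h2 : ∑ d ∈ Icc 1 (q / 2), F d ≤ C1 * (q * Real.log (2 * q)) := by
    have := hsmall θ q a hq hg hθ (fun h => max 1 (X / h)) (fun h => le_max_left _ _)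
    exact this
  have h3 : ∑ i ∈ range (J * q), F (q / 2 + 1 + i) ≤
      ∑ j ∈ range J, C0 * ((1 + (X / q) * (1 / ((j : ℝ) + 1 / 2))) + q * Real.log (2 * q)) := by
    rw [r2_blocks]
    apply Finset.sum_le_sum
    intro j _
    set M : ℝ := 1 + (X / q) * (1 / ((j : ℝ) + 1 / 2)) with hM
    have hM1 : 1 ≤ M := by
      rw [hM]
      have : 0 ≤ (X / q) * (1 / ((j : ℝ) + 1 / 2)) := by positivity
      linarith
    have h4 := hblock θ q a hq hg hθ M (q / 2 + 1 + j * q) hM1
    refine le_trans ?_ h4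
    apply Finset.sum_le_sum
    intro r _
    rw [hF]
    simp only
    have e1 : q / 2 + 1 + (j * q + r) = q / 2 + 1 + j * q + r := by ring
    rw [e1]
    apply mn_mono (le_trans zero_le_one (le_max_left _ _))
    apply max_le hM1
    have hd : ((j : ℝ) + 1 / 2) * q ≤ ((q / 2 + 1 + j * q + r : ℕ) : ℝ) := by
      have h5 : q ≤ 2 * (q / 2 + 1) := by omega
      have h6 : (q : ℝ) ≤ 2 * ((q / 2 : ℕ) + 1) := by exact_mod_cast h5
      have h7 : (0 : ℝ) ≤ r := Nat.cast_nonneg r
      push_cast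
      push_cast at h6
      nlinarith
    have hpos : 0 < ((j : ℝ) + 1 / 2) * q := by positivity
    calc X / ((q / 2 + 1 + j * q + r : ℕ) : ℝ) ≤ X / (((j : ℝ) + 1 / 2) * q) :=
          div_le_div_of_nonneg_left hX0.le hpos hd
      _ = (X / q) * (1 / ((j : ℝ) + 1 / 2)) := by field_simp
      _ ≤ M := by rw [hM]; linarith
  have h4 : ∑ j ∈ range J, C0 * ((1 + (X / q) * (1 / ((j : ℝ) + 1 / 2))) +
      q * Real.log (2 * q)) =
      C0 * (J + (X / q) * ∑ j ∈ range J, 1 / ((j : ℝ) + 1 / 2) +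
        J * (q * Real.log (2 * q))) := by
    rw [← Finset.mul_sum, Finset.sum_add_distrib, Finset.sum_add_distrib, ← Finset.mul_sum]
    simp only [Finset.sum_const, Finset.card_range, nsmul_eq_mul, mul_one]
  have h5 := r2_half J (by rw [hJ]; exact Nat.succ_pos _)
  set L : ℝ := Real.log (2 * q * X) with hL
  have hlog2 := Real.log_two_gt_d9
  have hL1 : 1 ≤ L := by
    have e1 : Real.log (2 * 2) ≤ L := by
      apply Real.log_le_log (by norm_num)
      nlinarith
    rw [Real.log_mul (by norm_num) (by norm_num)] at e1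
    linarith
  have hlq : Real.log (2 * q) ≤ L := by
    apply Real.log_le_log (by positivity)
    nlinarith
  have hlq0 : 0 ≤ Real.log (2 * q) := r2_logq q hq
  have hJ1 : (J : ℝ) * q ≤ N + q := by
    rw [hJ]
    have : N / q * q ≤ N := Nat.div_mul_le_self N q
    have : ((N / q : ℕ) : ℝ) * q ≤ N := by exact_mod_cast this
    push_cast
    linarith
  have hJ2 : (J : ℝ) ≤ N + q := by
    have : (J : ℝ) * 1 ≤ J * q := mul_le_mul_of_nonneg_left hq1 (Nat.cast_nonneg J)
    linarith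
  have hJ3 : Real.log J ≤ L := by
    apply Real.log_le_log
    · rw [hJ]
      positivity
    · have e1 : (J : ℝ) ≤ N + 1 := by
        rw [hJ]
        push_cast
        have : N / q ≤ N := Nat.div_le_self N q
        have : ((N / q : ℕ) : ℝ) ≤ N := by exact_mod_cast this
        linarith
      nlinarith
  have hNq : (0 : ℝ) ≤ N + q := by positivity
  have hXq : 0 ≤ X / q := by positivity
  have g1 : (J : ℝ) ≤ (N + q) * L := by
    calc (J : ℝ) ≤ (N + q) * 1 := by linarith
      _ ≤ (N + q) * L := mul_le_mul_of_nonneg_left hL1 hNq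
  have g2 : (X / q) * ∑ j ∈ range J, 1 / ((j : ℝ) + 1 / 2) ≤ (X / q) * (4 * L) := by
    apply mul_le_mul_of_nonneg_left _ hXq
    linarith
  have g3 : (J : ℝ) * (q * Real.log (2 * q)) ≤ (N + q) * L := by
    calc (J : ℝ) * (q * Real.log (2 * q)) = (J * q) * Real.log (2 * q) := by ring
      _ ≤ (N + q) * L := mul_le_mul hJ1 hlq hlq0 hNq
  have g4 : C1 * (q * Real.log (2 * q)) ≤ C1 * ((X / q + N + q) * L) := by
    apply mul_le_mul_of_nonneg_left _ hC1.le
    apply mul_le_mul _ hlq hlq0 (by positivity)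
    have : (0 : ℝ) ≤ N := Nat.cast_nonneg N
    linarith
  have g5 : C0 * (J + (X / q) * ∑ j ∈ range J, 1 / ((j : ℝ) + 1 / 2) +
        J * (q * Real.log (2 * q))) ≤ C0 * (6 * ((X / q + N + q) * L)) := by
    apply mul_le_mul_of_nonneg_left _ hC0.le
    have e1 : 0 ≤ (X / q) * L := by positivity
    have e2 : 0 ≤ (N + q : ℝ) * L := by positivity
    nlinarith
  have g6 : (C1 + 6 * C0) * (X / q + N + q) * L =
      C1 * ((X / q + N + q) * L) + C0 * (6 * ((X / q + N + q) * L)) := by ring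
  rw [g6]
  linarith

end Pool.MP_dd84fd_nt.En
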