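import Pool.Agent.Lib.MP_dd84fd_nt.En.Mon
import Pool.Agent.Lib.MP_67663b_nt.OddB.Montgomery
import Pool.Agent.Lib.MP_67663b_nt.OddB.LSieve

/-!
# rough numbers in short intervals of residue classes (module GB-BT)
-/

set_option autoImplicit false

namespace Pool.MP_dd84fd_nt.En

open Finset Pool.MP_67663b_nt.Odd

/-- the fractions `q b / r` are well spaced modulo one -/
private theorem bt_sep (q r r' b b' : ℕ) (hr : 0 < r) (hr' : 0 < r') (hb : b < r) (hb' : b' < r')
    (hrb : Nat.Coprime r b) (hrb' : Nat.Coprime r' b') (hrq : Nat.Coprime r q)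
    (hrq' : Nat.Coprime r' q) (hne : (r, b) ≠ (r', b')) (w : ℤ) :
    1 / ((r : ℝ) * r') ≤ |(q : ℝ) * (b : ℝ) / r - (q : ℝ) * (b' : ℝ) / r' - w| := by
  have h1 : (0 : ℝ) < r := by exact_mod_cast hr
  have h2 : (0 : ℝ) < r' := by exact_mod_cast hr'
  have h3 : (q : ℝ) * (b : ℝ) / r - (q : ℝ) * (b' : ℝ) / r' - w =
      (((q : ℤ) * b * r' - q * b' * r - w * r * r' : ℤ) : ℝ) / (r * r') := by
    push_cast
    field_simp
  have h4 : ((q : ℤ) * b * r' - q * b' * r - w * r * r' : ℤ) ≠ 0 := by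
    intro h0
    have h5 : (r : ℤ) ∣ (q : ℤ) * b * r' := ⟨q * b' + w * r', by linarith⟩
    have h6 : (r' : ℤ) ∣ (q : ℤ) * b' * r := ⟨q * b - w * r, by linarith⟩
    have h7 : r ∣ q * b * r' := by exact_mod_cast h5
    have h8 : r' ∣ q * b' * r := by exact_mod_cast h6
    have h9 : r ∣ r' := (Nat.Coprime.mul_right hrq hrb).dvd_of_dvd_mul_left h7
    have h10 : r' ∣ r := (Nat.Coprime.mul_right hrq' hrb').dvd_of_dvd_mul_left h8
    have h11 : r = r' := Nat.dvd_antisymm h9 h10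
    subst h11
    have h12 : (r : ℤ) ∣ (q : ℤ) * (b - b') := by
      have h13 : (r : ℤ) * ((q : ℤ) * (b - b')) = r * (w * r) := by linarith
      have h14 : (r : ℤ) ≠ 0 := by exact_mod_cast hr.ne'
      have h15 := mul_left_cancel₀ h14 h13
      exact ⟨w, by linarith⟩
    have h16 : IsCoprime (r : ℤ) (q : ℤ) := Nat.isCoprime_iff_coprime.2 hrq
    have h17 := h16.dvd_of_dvd_mul_left h12
    have h18 : (b : ℤ) - b' = 0 := by
      apply Int.eq_zero_of_abs_lt_dvd h17
      rw [abs_lt]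
      constructor <;> omega
    apply hne
    have : b = b' := by omega
    rw [this]
  rw [h3, abs_div, abs_of_pos (by positivity : (0 : ℝ) < r * r')]
  apply div_le_div_of_nonneg_right _ (by positivity)
  have h5 := Int.one_le_abs h4
  exact_mod_cast h5

open Classical in
theorem rough_ap : ∃ C : ℝ, 0 < C ∧ ∀ z : ℝ, 2 ≤ z → ∀ x l : ℝ, 0 ≤ x → ∀ q κ : ℕ, 0 < q →
    (q : ℝ) * Real.sqrt z ≤ l →
    (((Ioc ⌊x⌋₊ ⌊x + l⌋₊).filter (fun m => Rough z m ∧ m ≡ κ [MOD q])).card : ℝ) ≤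
      C * l / ((Nat.totient q : ℝ) * Real.log z) := by
  have hpi := Real.pi_pos
  refine ⟨4 * (1 + 8 * Real.pi), by positivity, ?_⟩
  intro z hz x l hx q κ hq hl
  have hq' : (0 : ℝ) < q := by exact_mod_cast hq
  have hphi : (0 : ℝ) < Nat.totient q := by exact_mod_cast Nat.totient_pos.2 hq
  have hlz : 0 < Real.log z := Real.log_pos (by linarith)
  have hsz : 1 ≤ Real.sqrt z := by
    rw [Real.one_le_sqrt]
    linarith
  have hl0 : 0 < l := lt_of_lt_of_le (by positivity) hl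
  set A : Finset ℕ := (Ioc ⌊x⌋₊ ⌊x + l⌋₊).filter (fun m => Rough z m ∧ m ≡ κ [MOD q]) with hA
  set j0 : ℕ := ⌊x⌋₊ / q with hj0
  -- the elements of A
  have hAm : ∀ m ∈ A, ⌊x⌋₊ < m ∧ m ≤ ⌊x + l⌋₊ ∧ Rough z m ∧ m % q = κ % q := by
    intro m hm
    rw [hA, Finset.mem_filter, Finset.mem_Ioc] at hm
    exact ⟨hm.1.1, hm.1.2, hm.2.1, hm.2.2⟩
  have hdec : ∀ m ∈ A, m = κ % q + q * j0 + q * (m / q - j0) := by
    intro m hm
    obtain ⟨h1, -, -, h4⟩ := hAm m hm
    have h5 : j0 ≤ m / q := Nat.div_le_div_right h1.le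
    have h6 := Nat.mod_add_div m q
    have h7 : q * j0 + q * (m / q - j0) = q * (m / q) := by
      rw [← mul_add, Nat.add_sub_cancel' h5]
    rw [h4] at h6
    omega
  set B : Finset ℕ := A.image (fun m => m / q - j0) with hB
  have hinj : Set.InjOn (fun m => m / q - j0) (A : Set ℕ) := by
    intro m hm m' hm' h
    simp only at h
    rw [hdec m (by simpa using hm), hdec m' (by simpa using hm'), h]
  have hBcard : B.card = A.card := Finset.card_image_of_injOn hinj
  have hBle : ∀ t ∈ B, (t : ℝ) ≤ 2 * (l / q) := by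
    intro t ht
    rw [hB, Finset.mem_image] at ht
    obtain ⟨m, hm, rfl⟩ := ht
    obtain ⟨h1, h2, -, -⟩ := hAm m hm
    have h5 : j0 ≤ m / q := Nat.div_le_div_right h1.le
    have h6 : (m : ℝ) ≤ x + l := (Nat.le_floor_iff (by positivity)).1 h2
    have h7 : ((m / q : ℕ) : ℝ) ≤ (m : ℝ) / q := Nat.cast_div_le
    have h8 : x / q - 1 ≤ (j0 : ℝ) := by
      have h9 : ⌊x⌋₊ < q * (j0 + 1) := by
        rw [hj0]
        exact Nat.lt_mul_div_succ _ hq
      have h10 : (⌊x⌋₊ : ℝ) + 1 ≤ q * (j0 + 1) := by exact_mod_cast h9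
      have h11 := Nat.lt_floor_add_one x
      rw [sub_le_iff_le_add, div_le_iff₀ hq']
      nlinarith
    rw [Nat.cast_sub h5]
    have h12 : (m : ℝ) / q ≤ x / q + l / q := by
      rw [← add_div]
      exact div_le_div_of_nonneg_right h6 hq'.le
    have h13 : 1 ≤ l / q := by
      rw [one_le_div hq']
      nlinarith
    linarith
  -- the parameter R
  set R : ℝ := z ^ (1 / 4 : ℝ) with hR
  have hz0 : (0 : ℝ) < z := by linarith
  have hR1 : 1 ≤ R := Real.one_le_rpow (by linarith) (by norm_num)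
  have hR2 : R ^ 2 = Real.sqrt z := by
    rw [hR, Real.sqrt_eq_rpow, ← Real.rpow_natCast, ← Real.rpow_mul hz0.le]
    norm_num
  have hRz : R < z := by
    have : z ^ (1 / 4 : ℝ) < z ^ (1 : ℝ) := Real.rpow_lt_rpow_of_exponent_lt (by linarith)
      (by norm_num)
    rwa [Real.rpow_one] at this
  have hlogR : Real.log R = Real.log z / 4 := by
    rw [hR, Real.log_rpow hz0]
    ring
  set T : Finset ℕ := (Icc 1 ⌊R⌋₊).filter (fun r => Squarefree r ∧ Nat.Coprime r q) with hT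
  have hTm : ∀ r ∈ T, 1 ≤ r ∧ (r : ℝ) ≤ R ∧ Squarefree r ∧ Nat.Coprime r q := by
    intro r hr
    rw [hT, Finset.mem_filter, Finset.mem_Icc] at hr
    exact ⟨hr.1.1, (Nat.le_floor_iff (by linarith)).1 hr.1.2, hr.2.1, hr.2.2⟩
  set S : Finset ((_ : ℕ) × ℕ) :=
    T.sigma (fun r => (Finset.range r).filter (Nat.Coprime r)) with hS
  have hSm : ∀ p ∈ S, p.1 ∈ T ∧ p.2 < p.1 ∧ Nat.Coprime p.1 p.2 := by
    intro p hp
    rw [hS, Finset.mem_sigma] at hp
    have h2 := hp.2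
    rw [Finset.mem_filter, Finset.mem_range] at h2
    exact ⟨hp.1, h2.1, h2.2⟩
  have hLS := large_sieve_c S (fun p => (q : ℝ) * (p.2 : ℝ) / p.1) (δ := 1 / Real.sqrt z)
    (by positivity) (by
      rw [div_le_one (by positivity)]
      exact hsz) (by
      intro p hp p' hp' hne w
      obtain ⟨h1, h2, h3⟩ := hSm p hp
      obtain ⟨h1', h2', h3'⟩ := hSm p' hp'
      obtain ⟨h4, h5, -, h7⟩ := hTm _ h1
      obtain ⟨h4', h5', -, h7'⟩ := hTm _ h1'
      refine le_trans ?_ (bt_sep q p.1 p'.1 p.2 p'.2 h4 h4' h2 h2' h3 h3' h7 h7'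
        (by
          intro h
          apply hne
          rw [Prod.mk.injEq] at h
          obtain ⟨a, b⟩ := p
          obtain ⟨c, d⟩ := p'
          simp only at h
          rw [h.1, h.2]) w)
      have h8 : (0 : ℝ) < p.1 := by exact_mod_cast h4
      have h8' : (0 : ℝ) < p'.1 := by exact_mod_cast h4'
      apply one_div_le_one_div_of_le (by positivity)
      rw [← hR2, sq]
      exact mul_le_mul h5 h5' h8'.le (by linarith))
    B (fun _ => 1) (N := 2 * (l / q)) (by positivity) hBle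
  rw [one_div, inv_inv] at hLS
  have hsumB : ∑ n ∈ B, ‖(1 : ℂ)‖ ^ 2 = (A.card : ℝ) := by
    rw [← hBcard]
    simp
  rw [hsumB] at hLS
  -- Montgomery
  have hM : ∀ r ∈ T, (A.card : ℝ) ^ 2 * (1 / (Nat.totient r : ℝ)) ≤
      ∑ b ∈ (Finset.range r).filter (Nat.Coprime r),
        ‖∑ n ∈ B, (1 : ℂ) * ee (n * ((q : ℝ) * (b : ℝ) / r))‖ ^ 2 := by
    intro r hr
    obtain ⟨h4, h5, h6, h7⟩ := hTm r hr
    have hcop : ∀ n ∈ A, Nat.Coprime n r := by
      intro n hn
      obtain ⟨-, -, h8, -⟩ := hAm n hn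
      rw [Nat.coprime_comm]
      apply Nat.Coprime.symm
      apply Nat.coprime_of_dvd
      intro k hk hkn hkr
      have h9 := h8 k hk hkn
      have h10 : (k : ℝ) ≤ r := by exact_mod_cast Nat.le_of_dvd h4 hkr
      linarith
    have h8 := montgomery h6 A hcop (fun _ => 1) 0
    have h9 : ‖∑ n ∈ A, (1 : ℂ) * ee (n * 0)‖ ^ 2 = (A.card : ℝ) ^ 2 := by
      simp [ee_zero]
    rw [h9] at h8
    have h10 : (0 : ℝ) < Nat.totient r := by exact_mod_cast Nat.totient_pos.2 h4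
    rw [mul_one_div, div_le_iff₀ h10, mul_comm _ (Nat.totient r : ℝ)]
    refine h8.trans (le_of_eq ?_)
    congr 1
    refine Finset.sum_congr rfl fun b _ => ?_
    congr 1
    have h11 : ∑ n ∈ A, (1 : ℂ) * ee (n * (0 + (b : ℝ) / r)) =
        ee (((κ % q + q * j0 : ℕ) : ℝ) * ((b : ℝ) / r)) *
          ∑ n ∈ B, (1 : ℂ) * ee (n * ((q : ℝ) * (b : ℝ) / r)) := by
      rw [hB, Finset.sum_image hinj, Finset.mul_sum]
      refine Finset.sum_congr rfl fun m hm => ?_
      rw [one_mul, one_mul, ← ee_add]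
      congr 1
      have h12 : (m : ℝ) = ((κ % q + q * j0 : ℕ) : ℝ) + q * ((m / q - j0 : ℕ) : ℝ) := by
        exact_mod_cast hdec m hm
      rw [zero_add]
      rw [h12]
      ring
    rw [h11, norm_mul, norm_ee, one_mul]
  have hsumT := Finset.sum_le_sum hM
  rw [← Finset.mul_sum] at hsumT
  have hsumS : ∑ p ∈ S, ‖∑ n ∈ B, (1 : ℂ) * ee (n * ((q : ℝ) * (p.2 : ℝ) / p.1))‖ ^ 2 =
      ∑ r ∈ T, ∑ b ∈ (Finset.range r).filter (Nat.Coprime r),
        ‖∑ n ∈ B, (1 : ℂ) * ee (n * ((q : ℝ) * (b : ℝ) / r))‖ ^ 2 := by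
    rw [hS, Finset.sum_sigma]
  rw [← hsumS] at hsumT
  have h1 := hsumT.trans hLS
  have h2 := sum_inv_phi_coprime_ge R hR1 q hq
  rw [← hT, hlogR] at h2
  rcases Nat.eq_zero_or_pos A.card with h0 | h0
  · rw [h0]
    simp only [Nat.cast_zero]
    positivity
  have hAc : (0 : ℝ) < A.card := by exact_mod_cast h0
  have h3 : (A.card : ℝ) * ((Nat.totient q : ℝ) / q * (Real.log z / 4)) ≤
      Real.sqrt z + 4 * Real.pi * (2 * (l / q)) := by
    have h4 : (A.card : ℝ) ^ 2 * ((Nat.totient q : ℝ) / q * (Real.log z / 4)) ≤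
        (Real.sqrt z + 4 * Real.pi * (2 * (l / q))) * A.card :=
      (mul_le_mul_of_nonneg_left h2 (by positivity)).trans h1
    have h5 : (A.card : ℝ) ^ 2 * ((Nat.totient q : ℝ) / q * (Real.log z / 4)) =
        ((A.card : ℝ) * ((Nat.totient q : ℝ) / q * (Real.log z / 4))) * A.card := by ring
    rw [h5] at h4
    exact le_of_mul_le_mul_right h4 hAc
  have h4 : Real.sqrt z ≤ l / q := by
    rw [le_div_iff₀ hq']
    linarith
  rw [le_div_iff₀ (by positivity)]
  have h5 : (A.card : ℝ) * ((Nat.totient q : ℝ) * Real.log z) =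
      (A.card : ℝ) * ((Nat.totient q : ℝ) / q * (Real.log z / 4)) * (4 * q) := by
    field_simp
  rw [h5]
  have h6 : (A.card : ℝ) * ((Nat.totient q : ℝ) / q * (Real.log z / 4)) ≤
      (1 + 8 * Real.pi) * (l / q) := by
    refine h3.trans ?_
    linarith
  calc (A.card : ℝ) * ((Nat.totient q : ℝ) / q * (Real.log z / 4)) * (4 * q)
      ≤ (1 + 8 * Real.pi) * (l / q) * (4 * q) :=
        mul_le_mul_of_nonneg_right h6 (by positivity)
    _ = 4 * (1 + 8 * Real.pi) * l := by field_simp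

open Classical in
theorem rough_short : ∃ C : ℝ, 0 < C ∧ ∀ z : ℝ, 2 ≤ z → ∀ x l : ℝ, 0 ≤ x → Real.sqrt z ≤ l →
    ((RN z x (x + l)).card : ℝ) ≤ C * l / Real.log z := by
  obtain ⟨C, hC, h⟩ := rough_ap
  refine ⟨C, hC, ?_⟩
  intro z hz x l hx hl
  have h1 := h z hz x l hx 1 0 one_pos (by simpa using hl)
  have h2 : RN z x (x + l) = (Ioc ⌊x⌋₊ ⌊x + l⌋₊).filter (fun m => Rough z m ∧ m ≡ 0 [MOD 1]) := by
    rw [RN]
    apply Finset.filter_congr
    intro m _
    simp [Nat.modEq_one]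
  rw [h2]
  simpa using h1

open Classical in
theorem prime_short : ∃ C : ℝ, 0 < C ∧ ∀ z : ℝ, 2 ≤ z → ∀ u l : ℝ, z ≤ u → Real.sqrt z ≤ l →
    ∑ p ∈ pr u (u + l), Real.log (p : ℝ) ≤ C * l * Real.log (u + l) / Real.log z := by
  obtain ⟨C, hC, h⟩ := rough_short
  refine ⟨C * 2, by positivity, ?_⟩
  intro z hz u l hu hl
  have hsz : 1 ≤ Real.sqrt z := by
    rw [Real.one_le_sqrt]
    linarith
  have hlz : 0 < Real.log z := Real.log_pos (by linarith)
  have hlu : 0 < Real.log (u + l) := Real.log_pos (by linarith)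
  have h1 := h z hz (u - 1) (l + 1) (by linarith) (by linarith)
  have hsub : pr u (u + l) ⊆ RN z (u - 1) (u - 1 + (l + 1)) := by
    intro p hp
    rw [mem_pr] at hp
    rw [RN, Finset.mem_filter, Finset.mem_Ioc]
    refine ⟨⟨?_, ?_⟩, ?_⟩
    · rw [Nat.floor_lt (by linarith)]
      linarith [hp.2.1]
    · rw [Nat.le_floor_iff (by linarith)]
      linarith [hp.2.2]
    · intro k hk hkp
      rw [(Nat.prime_dvd_prime_iff_eq hk hp.1).1 hkp]
      linarith [hp.2.1]
  have h2 : ((pr u (u + l)).card : ℝ) ≤ (RN z (u - 1) (u - 1 + (l + 1))).card := by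
    exact_mod_cast Finset.card_le_card hsub
  calc ∑ p ∈ pr u (u + l), Real.log (p : ℝ)
      ≤ ∑ p ∈ pr u (u + l), Real.log (u + l) := by
        refine Finset.sum_le_sum fun p hp => ?_
        rw [mem_pr] at hp
        have : (0 : ℝ) < p := by exact_mod_cast hp.1.pos
        exact Real.log_le_log this hp.2.2.le
    _ = (pr u (u + l)).card * Real.log (u + l) := by rw [Finset.sum_const, nsmul_eq_mul]
    _ ≤ (C * (l + 1) / Real.log z) * Real.log (u + l) :=
        mul_le_mul_of_nonneg_right (h2.trans h1) hlu.le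
    _ ≤ (C * (2 * l) / Real.log z) * Real.log (u + l) := by
        apply mul_le_mul_of_nonneg_right _ hlu.le
        apply div_le_div_of_nonneg_right _ hlz.le
        apply mul_le_mul_of_nonneg_left _ hC.le
        linarith
    _ = C * 2 * l * Real.log (u + l) / Real.log z := by ring

end Pool.MP_dd84fd_nt.En
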