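import Pool.Agent.Lib.MP_dd84fd_nt.En.Defs

/-!
# finite Fourier identities (module GB-F1)
-/

set_option autoImplicit false

namespace Pool.MP_dd84fd_nt.En

open Finset Pool.MP_67663b_nt.Odd

private lemma ee_nat_mul (j : ℕ) (x : ℝ) : ee ((j : ℝ) * x) = ee x ^ j := by
  induction j with
  | zero => simp [ee_zero]
  | succ n ih =>
    rw [pow_succ, ← ih, ← ee_add]
    congr 1
    push_cast
    ring

/-- orthogonality of the additive characters mod `N` -/
private lemma sum_ee (N : ℕ) (hN : 0 < N) (k : ℤ) (hk : |k| < N) :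
    ∑ j ∈ range N, ee ((k : ℝ) * ((j : ℝ) / N)) = if k = 0 then (N : ℂ) else 0 := by
  have hN' : (N : ℝ) ≠ 0 := by positivity
  by_cases h0 : k = 0
  · subst h0
    simp [ee_zero]
  · rw [if_neg h0]
    have h1 : ∀ j ∈ range N, ee ((k : ℝ) * ((j : ℝ) / N)) = ee ((k : ℝ) / N) ^ j := by
      intro j _
      rw [← ee_nat_mul]
      congr 1
      field_simp
    rw [sum_congr rfl h1]
    have hne : ee ((k : ℝ) / N) ≠ 1 := by
      intro hh
      unfold ee at hh
      rw [Complex.exp_eq_one_iff] at hh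
      obtain ⟨n, hn⟩ := hh
      have hpi : (2 * Real.pi * Complex.I : ℂ) ≠ 0 := by
        simp [Real.pi_ne_zero]
      have h2 : (((k : ℝ) / N : ℝ) : ℂ) = (n : ℂ) := by
        have : (2 * Real.pi * Complex.I : ℂ) * ((((k : ℝ) / N : ℝ) : ℂ)) =
            (2 * Real.pi * Complex.I : ℂ) * (n : ℂ) := by
          linear_combination hn
        exact mul_left_cancel₀ hpi this
      have h3 : ((k : ℝ) / N : ℝ) = (n : ℝ) := by exact_mod_cast h2
      have h4 : (k : ℝ) = n * N := by
        rw [div_eq_iff hN'] at h3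
        exact h3
      have h5 : k = n * N := by exact_mod_cast h4
      have h6 : n = 0 := by
        by_contra hn0
        have : (1 : ℤ) ≤ |n| := Int.one_le_abs hn0
        have h7 : |k| = |n| * N := by rw [h5, abs_mul]; simp
        have h8 : (N : ℤ) ≤ |n| * N := by nlinarith [Int.natCast_nonneg N]
        omega
      apply h0
      rw [h5, h6]; simp
    have hpow : ee ((k : ℝ) / N) ^ N = 1 := by
      rw [← ee_nat_mul]
      have : (N : ℝ) * ((k : ℝ) / N) = ((k : ℤ) : ℝ) := by field_simp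
      rw [this, ee_int]
    have := geom_sum_eq hne N
    rw [this, hpow]
    simp

theorem coll_eq (m X J : ℕ) (hJ : m + 1 ≤ J) (hX : 1 ≤ X) (ζ : ℕ → ℝ) :
    (1 / ((J : ℝ) * X)) * ∑ j ∈ range (J * X), ‖KK X ζ ((j : ℝ) / (J * X))‖ ^ (2 * m) =
      coll m X ζ := by
  classical
  set N : ℕ := J * X with hNdef
  have hN : 0 < N := Nat.mul_pos (by omega) (by omega)
  have hNR : (N : ℝ) = (J : ℝ) * X := by simp [hNdef]
  rw [← hNR]
  have hNne : (N : ℝ) ≠ 0 := by positivity
  -- complex version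
  have key : ∀ θ : ℝ, ((‖KK X ζ θ‖ ^ (2 * m) : ℝ) : ℂ) =
      ∑ a ∈ Fintype.piFinset (fun _ : Fin m => range (X + 1)),
        ∑ b ∈ Fintype.piFinset (fun _ : Fin m => range (X + 1)),
          (((∏ i, ζ (a i)) * ∏ i, ζ (b i) : ℝ) : ℂ) *
            ee ((((∑ i, (a i : ℤ)) - ∑ i, (b i : ℤ) : ℤ) : ℝ) * θ) := by
    intro θ
    have h1 : ((‖KK X ζ θ‖ ^ (2 * m) : ℝ) : ℂ) =
        (KK X ζ θ) ^ m * (starRingEnd ℂ (KK X ζ θ)) ^ m := by
      rw [← mul_pow, Complex.mul_conj, pow_mul]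
      push_cast
      rw [Complex.normSq_eq_norm_sq]
      push_cast
      ring
    have h2 : (KK X ζ θ) ^ m = ∑ a ∈ Fintype.piFinset (fun _ : Fin m => range (X + 1)),
        ∏ i, ((ζ (a i) : ℂ) * ee ((a i : ℝ) * θ)) := by
      unfold KK
      rw [← Finset.prod_univ_sum (fun _ : Fin m => range (X + 1))
        (fun _ n => (ζ n : ℂ) * ee ((n : ℝ) * θ))]
      simp
    have h3 : (starRingEnd ℂ (KK X ζ θ)) ^ m =
        ∑ b ∈ Fintype.piFinset (fun _ : Fin m => range (X + 1)),
        ∏ i, ((ζ (b i) : ℂ) * ee (-((b i : ℝ) * θ))) := by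
      rw [← map_pow, h2, map_sum]
      refine sum_congr rfl fun b _ => ?_
      rw [map_prod]
      refine prod_congr rfl fun i _ => ?_
      rw [map_mul, conj_ee, Complex.conj_ofReal]
    rw [h1, h2, h3, sum_mul_sum]
    refine sum_congr rfl fun a _ => sum_congr rfl fun b _ => ?_
    rw [prod_mul_distrib, prod_mul_distrib]
    have h4 : ∀ (c : Fin m → ℝ), ∏ i, ee (c i) = ee (∑ i, c i) := by
      intro c
      have : ∀ s : Finset (Fin m), ∏ i ∈ s, ee (c i) = ee (∑ i ∈ s, c i) := by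
        intro s
        induction s using Finset.induction_on with
        | empty => simp [ee_zero]
        | insert x s hx ih => rw [prod_insert hx, sum_insert hx, ee_add, ih]
      exact this univ
    rw [h4, h4]
    have h5 : ee ((((∑ i, (a i : ℤ)) - ∑ i, (b i : ℤ) : ℤ) : ℝ) * θ) =
        ee (∑ i, (a i : ℝ) * θ) * ee (∑ i, -((b i : ℝ) * θ)) := by
      rw [← ee_add]
      congr 1
      rw [sum_neg_distrib, ← sum_mul, ← sum_mul]
      push_cast
      ring
    rw [h5]
    push_cast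
    ring
  have hc : (((1 / (N : ℝ)) * ∑ j ∈ range N, ‖KK X ζ ((j : ℝ) / N)‖ ^ (2 * m) : ℝ) : ℂ) =
      ((coll m X ζ : ℝ) : ℂ) := by
    rw [Complex.ofReal_mul, Complex.ofReal_sum]
    rw [sum_congr rfl (fun j _ => key _)]
    rw [sum_comm]
    rw [mul_sum]
    unfold coll
    rw [Complex.ofReal_sum]
    refine sum_congr rfl fun a ha => ?_
    rw [sum_comm, mul_sum, Complex.ofReal_sum]
    refine sum_congr rfl fun b hb => ?_
    rw [← mul_sum]
    have hab : ∀ c : Fin m → ℕ, c ∈ Fintype.piFinset (fun _ : Fin m => range (X + 1)) →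
        (0 : ℤ) ≤ ∑ i, (c i : ℤ) ∧ ∑ i, (c i : ℤ) ≤ (m : ℤ) * X := by
      intro c hc
      rw [Fintype.mem_piFinset] at hc
      constructor
      · exact sum_nonneg fun i _ => by positivity
      · calc ∑ i, (c i : ℤ) ≤ ∑ _i : Fin m, (X : ℤ) := by
              refine sum_le_sum fun i _ => ?_
              have := hc i
              rw [mem_range] at this
              exact_mod_cast Nat.lt_succ_iff.mp this
          _ = (m : ℤ) * X := by simp
    have hk : |(∑ i, (a i : ℤ)) - ∑ i, (b i : ℤ)| < (N : ℤ) := by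
      have h1 := hab a ha
      have h2 := hab b hb
      have h3 : ((m : ℤ) + 1) * X ≤ N := by
        rw [hNdef]
        push_cast
        have : ((m : ℤ) + 1) ≤ J := by exact_mod_cast hJ
        nlinarith
      have h4 : (1 : ℤ) ≤ X := by exact_mod_cast hX
      rw [abs_lt]
      constructor <;> nlinarith [h1.1, h1.2, h2.1, h2.2]
    rw [sum_ee N hN _ hk]
    have hiff : ((∑ i, (a i : ℤ)) - ∑ i, (b i : ℤ) = 0) ↔ (∑ i, a i = ∑ i, b i) := by
      rw [sub_eq_zero]
      constructor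
      · intro h
        exact_mod_cast h
      · intro h
        exact_mod_cast h
    by_cases h : ∑ i, a i = ∑ i, b i
    · rw [if_pos (hiff.mpr h), if_pos h]
      have hNC : (N : ℂ) ≠ 0 := by exact_mod_cast hN.ne'
      push_cast
      field_simp
    · rw [if_neg (fun hh => h (hiff.mp hh)), if_neg h]
      simp
  exact_mod_cast hc

theorem conv_identity (X J : ℕ) (hJ : 3 ≤ J) (hX : 1 ≤ X) (ζ : ℕ → ℝ) (u : ℕ → ℝ) :
    ((∑ n ∈ range (X + 1), ζ n * ∑ a ∈ Icc 1 (n - 1), u a * u (n - a) : ℝ) : ℂ) =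
      (1 / ((J : ℂ) * X)) * ∑ j ∈ range (J * X),
        (∑ n ∈ Icc 1 X, (u n : ℂ) * ee ((n : ℝ) * ((j : ℝ) / (J * X)))) ^ 2 *
          (starRingEnd ℂ) (KK X ζ ((j : ℝ) / (J * X))) := by
  classical
  set N : ℕ := J * X with hNdef
  have hN : 0 < N := Nat.mul_pos (by omega) (by omega)
  have hNR : (N : ℝ) = (J : ℝ) * X := by simp [hNdef]
  have hNC : (N : ℂ) = (J : ℂ) * X := by simp [hNdef]
  rw [← hNR, ← hNC]
  have hNne : (N : ℂ) ≠ 0 := by exact_mod_cast hN.ne'
  have key : ∀ θ : ℝ, (∑ n ∈ Icc 1 X, (u n : ℂ) * ee ((n : ℝ) * θ)) ^ 2 *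
          (starRingEnd ℂ) (KK X ζ θ) =
      ∑ n ∈ range (X + 1), ∑ a ∈ Icc 1 X, ∑ b ∈ Icc 1 X,
        ((ζ n : ℂ) * u a * u b) * ee ((((a : ℤ) + b - n : ℤ) : ℝ) * θ) := by
    intro θ
    unfold KK
    rw [map_sum, pow_two, sum_mul_sum, mul_comm, sum_mul]
    refine sum_congr rfl fun n _ => ?_
    rw [mul_sum]
    refine sum_congr rfl fun a _ => ?_
    rw [mul_sum]
    refine sum_congr rfl fun b _ => ?_
    rw [map_mul, conj_ee, Complex.conj_ofReal]
    have : ee ((((a : ℤ) + b - n : ℤ) : ℝ) * θ) =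
        ee ((a : ℝ) * θ) * ee ((b : ℝ) * θ) * ee (-((n : ℝ) * θ)) := by
      rw [← ee_add, ← ee_add]
      congr 1
      push_cast
      ring
    rw [this]
    ring
  rw [sum_congr rfl (fun j _ => key _)]
  rw [sum_comm, mul_sum, Complex.ofReal_sum]
  refine sum_congr rfl fun n hn => ?_
  rw [sum_comm, mul_sum]
  rw [mem_range] at hn
  have hinner : ∀ a ∈ Icc 1 X, 1 / (N : ℂ) * ∑ j ∈ range N, ∑ b ∈ Icc 1 X,
      ((ζ n : ℂ) * u a * u b) * ee ((((a : ℤ) + b - n : ℤ) : ℝ) * ((j : ℝ) / N)) =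
      if a ∈ Icc 1 (n - 1) then (ζ n : ℂ) * (u a * u (n - a)) else 0 := by
    intro a ha
    rw [mem_Icc] at ha
    rw [sum_comm, mul_sum]
    have hb : ∀ b ∈ Icc 1 X, 1 / (N : ℂ) * ∑ j ∈ range N,
        ((ζ n : ℂ) * u a * u b) * ee ((((a : ℤ) + b - n : ℤ) : ℝ) * ((j : ℝ) / N)) =
        if b = n - a ∧ a < n then (ζ n : ℂ) * (u a * u (n - a)) else 0 := by
      intro b hb
      rw [mem_Icc] at hb
      rw [← mul_sum]
      have hk : |(a : ℤ) + b - n| < (N : ℤ) := by
        have h3 : (3 : ℤ) * X ≤ N := by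
          rw [hNdef]
          push_cast
          have : (3 : ℤ) ≤ J := by exact_mod_cast hJ
          nlinarith
        rw [abs_lt]
        constructor <;> omega
      rw [sum_ee N hN _ hk]
      by_cases h : b = n - a ∧ a < n
      · rw [if_pos h, if_pos (by omega), h.1]
        field_simp
      · rw [if_neg h, if_neg (by omega)]
        simp
    rw [sum_congr rfl hb]
    by_cases h : a ∈ Icc 1 (n - 1)
    · rw [if_pos h]
      rw [mem_Icc] at h
      rw [sum_eq_single (n - a)]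
      · rw [if_pos ⟨rfl, by omega⟩]
      · intro b _ hb
        rw [if_neg (fun hh => hb hh.1)]
      · intro hna
        exfalso
        apply hna
        rw [mem_Icc]
        omega
    · rw [if_neg h]
      refine sum_eq_zero fun b hb => ?_
      rw [if_neg]
      rintro ⟨h1, h2⟩
      apply h
      rw [mem_Icc]
      omega
  rw [mul_sum, sum_congr rfl hinner, ← sum_filter]
  have hfil : (Icc 1 X).filter (fun a => a ∈ Icc 1 (n - 1)) = Icc 1 (n - 1) := by
    ext a
    simp only [mem_filter, mem_Icc]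
    omega
  rw [hfil, ← mul_sum]
  push_cast
  rw [mul_sum]

end Pool.MP_dd84fd_nt.En
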