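import Pool.Agent.Lib.MP_dd84fd_nt.En.Defs

/-!
# energy and the mass of sets (module GB-F2)
-/

set_option autoImplicit false

namespace Pool.MP_dd84fd_nt.En

open Finset Pool.MP_67663b_nt.Odd

theorem coll_nonneg (m X : ℕ) (ξ : ℕ → ℝ) (hξ : ∀ n, 0 ≤ ξ n) : 0 ≤ coll m X ξ := by
  unfold coll
  refine sum_nonneg fun a _ => sum_nonneg fun b _ => ?_
  split_ifs
  · exact mul_nonneg (prod_nonneg fun i _ => hξ _) (prod_nonneg fun i _ => hξ _)
  · exact le_rfl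

theorem coll_mono (m X : ℕ) (ζ ξ : ℕ → ℝ) (h : ∀ n, |ζ n| ≤ ξ n) :
    coll m X ζ ≤ coll m X ξ := by
  unfold coll
  refine sum_le_sum fun a _ => sum_le_sum fun b _ => ?_
  split_ifs
  · refine (le_abs_self _).trans ?_
    rw [abs_mul, abs_prod, abs_prod]
    have h1 : ∀ c : Fin m → ℕ, ∏ i, |ζ (c i)| ≤ ∏ i, ξ (c i) := fun c =>
      prod_le_prod (fun i _ => abs_nonneg _) (fun i _ => h _)
    exact mul_le_mul (h1 a) (h1 b) (prod_nonneg fun i _ => abs_nonneg _)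
      (prod_nonneg fun i _ => (abs_nonneg _).trans (h _))
  · exact le_rfl

theorem set_part (m X : ℕ) (ξ : ℕ → ℝ) (hξ : ∀ n, 0 ≤ ξ n) (A T : Finset ℕ)
    (hA : A ⊆ range (X + 1)) (hT : ∀ a : Fin m → ℕ, (∀ i, a i ∈ A) → ∑ i, a i ∈ T) :
    (∑ n ∈ A, ξ n) ^ (2 * m) ≤ (T.card : ℝ) * coll m X ξ := by
  classical
  set PA := Fintype.piFinset (fun _ : Fin m => A) with hPA
  set PX := Fintype.piFinset (fun _ : Fin m => range (X + 1)) with hPX
  have hsub : PA ⊆ PX := by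
    intro a ha
    rw [hPA, Fintype.mem_piFinset] at ha
    rw [hPX, Fintype.mem_piFinset]
    exact fun i => hA (ha i)
  have h1 : (∑ n ∈ A, ξ n) ^ m = ∑ a ∈ PA, ∏ i, ξ (a i) := by
    rw [hPA, ← Finset.prod_univ_sum (fun _ : Fin m => A) (fun _ n => ξ n)]
    simp
  set r : ℕ → ℝ := fun s => ∑ a ∈ PA.filter (fun a => ∑ i, a i = s), ∏ i, ξ (a i) with hr
  have h2 : ∑ a ∈ PA, ∏ i, ξ (a i) = ∑ s ∈ T, r s := by
    rw [hr]
    rw [← sum_fiberwise_of_maps_to (s := PA) (t := T) (g := fun a => ∑ i, a i)]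
    intro a ha
    apply hT
    rw [hPA, Fintype.mem_piFinset] at ha
    exact ha
  have h3 : (∑ s ∈ T, r s) ^ 2 ≤ (T.card : ℝ) * ∑ s ∈ T, (r s) ^ 2 := sq_sum_le_card_mul_sum_sq
  have h4 : ∑ s ∈ T, (r s) ^ 2 ≤ coll m X ξ := by
    have h5 : ∀ s, (r s) ^ 2 = ∑ a ∈ PA.filter (fun a => ∑ i, a i = s), ∑ b ∈ PA,
        if ∑ i, a i = ∑ i, b i then (∏ i, ξ (a i)) * ∏ i, ξ (b i) else 0 := by
      intro s
      rw [hr, pow_two]
      simp only
      rw [sum_mul_sum]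
      refine sum_congr rfl fun a ha => ?_
      rw [mem_filter] at ha
      rw [sum_filter]
      refine sum_congr rfl fun b _ => ?_
      rw [ha.2]
      by_cases hb : ∑ i, b i = s
      · rw [if_pos hb, if_pos hb.symm]
      · rw [if_neg hb, if_neg (fun h => hb h.symm)]
    have h6 : ∑ s ∈ T, (r s) ^ 2 = ∑ a ∈ PA, ∑ b ∈ PA,
        if ∑ i, a i = ∑ i, b i then (∏ i, ξ (a i)) * ∏ i, ξ (b i) else 0 := by
      rw [sum_congr rfl (fun s _ => h5 s)]
      refine sum_fiberwise_of_maps_to (s := PA) (t := T) (g := fun a => ∑ i, a i) ?_ _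
      intro a ha
      apply hT
      rw [hPA, Fintype.mem_piFinset] at ha
      exact ha
    rw [h6]
    unfold coll
    have hnn : ∀ a b : Fin m → ℕ, 0 ≤ if ∑ i, a i = ∑ i, b i then
        (∏ i, ξ (a i)) * ∏ i, ξ (b i) else (0 : ℝ) := by
      intro a b
      split_ifs
      · exact mul_nonneg (prod_nonneg fun i _ => hξ _) (prod_nonneg fun i _ => hξ _)
      · exact le_rfl
    calc _ ≤ ∑ a ∈ PA, ∑ b ∈ PX, (if ∑ i, a i = ∑ i, b i then
          (∏ i, ξ (a i)) * ∏ i, ξ (b i) else (0 : ℝ)) :=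
          sum_le_sum fun a _ => sum_le_sum_of_subset_of_nonneg hsub fun b _ _ => hnn a b
      _ ≤ _ := sum_le_sum_of_subset_of_nonneg hsub fun a _ _ =>
          sum_nonneg fun b _ => hnn a b
  calc (∑ n ∈ A, ξ n) ^ (2 * m) = (∑ s ∈ T, r s) ^ 2 := by
        rw [mul_comm, pow_mul, h1, h2]
    _ ≤ (T.card : ℝ) * ∑ s ∈ T, (r s) ^ 2 := h3
    _ ≤ _ := mul_le_mul_of_nonneg_left h4 (by positivity)

theorem small_part (m X : ℕ) (ξ : ℕ → ℝ) (hξ : ∀ n, 0 ≤ ξ n) (Z : ℕ) :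
    (∑ n ∈ (range (X + 1)).filter (fun n => n ≤ Z), ξ n) ^ (2 * m) ≤
      ((m : ℝ) * Z + 1) * coll m X ξ := by
  have h := set_part m X ξ hξ ((range (X + 1)).filter (fun n => n ≤ Z)) (range (m * Z + 1))
    (filter_subset _ _) (by
      intro a ha
      rw [mem_range, Nat.lt_succ_iff]
      calc ∑ i, a i ≤ ∑ _i : Fin m, Z := sum_le_sum fun i _ => (mem_filter.mp (ha i)).2
        _ = m * Z := by simp)
  rw [card_range] at h
  push_cast at h
  exact h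

end Pool.MP_dd84fd_nt.En
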