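import Pool.Agent.Lib.MP_dd84fd_nt.En.Defs

/-!
# weighted and unweighted counts (module GB-CO)
-/

set_option autoImplicit false

namespace Pool.MP_dd84fd_nt.En

open Finset Filter Pool.MP_67663b_nt.Odd

private lemma co_card (n : ℕ) (y : ℝ) (hy : 0 ≤ y) :
    (((range (n + 1)).filter (fun p : ℕ => (p : ℝ) < y)).card : ℝ) ≤ y + 1 := by
  have h1 : (range (n + 1)).filter (fun p : ℕ => (p : ℝ) < y) ⊆ range (⌊y⌋₊ + 1) := by
    intro p hp
    rw [Finset.mem_filter] at hp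
    rw [Finset.mem_range]
    have := Nat.le_floor hp.2.le
    omega
  have h2 := Finset.card_le_card h1
  rw [Finset.card_range] at h2
  have h3 : (((range (n + 1)).filter (fun p : ℕ => (p : ℝ) < y)).card : ℝ) ≤
      ((⌊y⌋₊ + 1 : ℕ) : ℝ) := by exact_mod_cast h2
  have h4 := Nat.floor_le hy
  push_cast at h3
  linarith

private lemma co_card' (n : ℕ) (y : ℝ) (hy : 0 ≤ y) :
    (((range (n + 1)).filter (fun p : ℕ => ((n - p : ℕ) : ℝ) < y)).card : ℝ) ≤ y + 1 := by
  refine le_trans ?_ (co_card n y hy)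
  refine Nat.cast_le.2 (Finset.card_le_card_of_injOn (fun p => n - p) ?_ ?_)
  · intro p hp
    simp only [Finset.coe_filter, Finset.mem_range, Set.mem_ofPred_eq] at hp ⊢
    exact ⟨by omega, hp.2⟩
  · intro p hp p' hp' h
    simp only [Finset.coe_filter, Finset.mem_range, Set.mem_ofPred_eq] at hp hp' h
    omega

theorem rG_g {ε : ℝ} (hε : 0 < ε) : ∃ n0 : ℕ, ∀ n : ℕ, n0 ≤ n →
    |rG n - (g n : ℝ) * (Real.log n) ^ 2| ≤ ε * ((g n : ℝ) * (Real.log n) ^ 2 + n) := by
  set d : ℝ := min ε 1 / 4 with hd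
  have hm0 : 0 < min ε 1 := lt_min hε one_pos
  have hd0 : 0 < d := by positivity
  have hd1 : d ≤ 1 / 4 := by
    have := min_le_right ε 1
    rw [hd]
    linarith
  have hdε : 2 * d ≤ ε := by
    have := min_le_left ε 1
    rw [hd]
    linarith
  have hev : ∀ᶠ y : ℝ in atTop, (Real.log y) ^ 2 ≤ ε / 4 * y ^ d := by
    have h := (isLittleO_log_rpow_rpow_atTop 2 hd0).bound (show (0 : ℝ) < ε / 4 by positivity)
    filter_upwards [h, eventually_ge_atTop 1] with y hy hy0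
    have hl : 0 ≤ Real.log y := Real.log_nonneg (by linarith)
    rw [Real.norm_of_nonneg (Real.rpow_nonneg hl _),
      Real.norm_of_nonneg (Real.rpow_nonneg (by linarith) _), Real.rpow_two] at hy
    exact hy
  obtain ⟨n0, hn0⟩ := Filter.eventually_atTop.1 (tendsto_natCast_atTop_atTop.eventually hev)
  refine ⟨max n0 2, fun n hn => ?_⟩
  have h1 := hn0 n ((le_max_left _ _).trans hn)
  have hn2 : 2 ≤ n := (le_max_right _ _).trans hn
  have hnr : (2 : ℝ) ≤ n := by exact_mod_cast hn2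
  have hnpos : (0 : ℝ) < n := by linarith
  have hlog : 0 < Real.log n := Real.log_pos (by linarith)
  set y : ℝ := (n : ℝ) ^ (1 - d) with hy
  have hy1 : 1 ≤ y := Real.one_le_rpow (by linarith) (by linarith)
  have hlogy : Real.log y = (1 - d) * Real.log n := Real.log_rpow hnpos _
  set S := (range (n + 1)).filter (fun p => Nat.Prime p ∧ Nat.Prime (n - p)) with hS
  set T := S.filter (fun p : ℕ => (p : ℝ) < y ∨ ((n - p : ℕ) : ℝ) < y) with hT
  have hTS : T ⊆ S := Finset.filter_subset _ _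
  have hg : (g n : ℝ) = (S.card : ℝ) := rfl
  have hrG : rG n = ∑ p ∈ S, Real.log (p : ℝ) * Real.log ((n - p : ℕ) : ℝ) := rfl
  have hSm : ∀ p ∈ S, (2 : ℝ) ≤ p ∧ (p : ℝ) ≤ n ∧ (2 : ℝ) ≤ ((n - p : ℕ) : ℝ) ∧
      ((n - p : ℕ) : ℝ) ≤ n := by
    intro p hp
    rw [hS, Finset.mem_filter, Finset.mem_range] at hp
    refine ⟨by exact_mod_cast hp.2.1.two_le, by exact_mod_cast (by omega : p ≤ n),
      by exact_mod_cast hp.2.2.two_le, by exact_mod_cast Nat.sub_le n p⟩
  have hup : ∀ p ∈ S, Real.log (p : ℝ) * Real.log ((n - p : ℕ) : ℝ) ≤ (Real.log n) ^ 2 := by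
    intro p hp
    obtain ⟨h2, h3, h4, h5⟩ := hSm p hp
    rw [sq]
    exact mul_le_mul (Real.log_le_log (by linarith) h3) (Real.log_le_log (by linarith) h5)
      (Real.log_nonneg (by linarith)) hlog.le
  have hnn : ∀ p ∈ S, 0 ≤ Real.log (p : ℝ) * Real.log ((n - p : ℕ) : ℝ) := by
    intro p hp
    obtain ⟨h2, h3, h4, h5⟩ := hSm p hp
    exact mul_nonneg (Real.log_nonneg (by linarith)) (Real.log_nonneg (by linarith))
  have hlow : ∀ p ∈ S \ T, ((1 - d) * Real.log n) ^ 2 ≤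
      Real.log (p : ℝ) * Real.log ((n - p : ℕ) : ℝ) := by
    intro p hp
    obtain ⟨hpS, hpT⟩ := Finset.mem_sdiff.1 hp
    have hc : y ≤ p ∧ y ≤ ((n - p : ℕ) : ℝ) := by
      constructor
      · by_contra hcon
        exact hpT (Finset.mem_filter.2 ⟨hpS, Or.inl (not_le.1 hcon)⟩)
      · by_contra hcon
        exact hpT (Finset.mem_filter.2 ⟨hpS, Or.inr (not_le.1 hcon)⟩)
    rw [← hlogy, sq]
    exact mul_le_mul (Real.log_le_log (by linarith) hc.1) (Real.log_le_log (by linarith) hc.2)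
      (Real.log_nonneg hy1) (Real.log_nonneg (by linarith [hc.1]))
  have hcardT : (T.card : ℝ) ≤ 2 * (y + 1) := by
    have h2 : T ⊆ (range (n + 1)).filter (fun p : ℕ => (p : ℝ) < y) ∪
        (range (n + 1)).filter (fun p : ℕ => ((n - p : ℕ) : ℝ) < y) := by
      intro p hp
      rw [hT, Finset.mem_filter, hS, Finset.mem_filter] at hp
      rw [Finset.mem_union, Finset.mem_filter, Finset.mem_filter]
      rcases hp.2 with h3 | h3
      · exact Or.inl ⟨hp.1.1, h3⟩
      · exact Or.inr ⟨hp.1.1, h3⟩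
    have h3 := (Finset.card_le_card h2).trans (Finset.card_union_le _ _)
    have h4 : (T.card : ℝ) ≤ (((range (n + 1)).filter (fun p : ℕ => (p : ℝ) < y)).card : ℝ) +
        (((range (n + 1)).filter (fun p : ℕ => ((n - p : ℕ) : ℝ) < y)).card : ℝ) := by
      exact_mod_cast h3
    have h5 := co_card n y (by linarith)
    have h6 := co_card' n y (by linarith)
    linarith
  have hupper : rG n ≤ (S.card : ℝ) * (Real.log n) ^ 2 := by
    rw [hrG]
    refine (Finset.sum_le_sum hup).trans (le_of_eq ?_)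
    rw [Finset.sum_const, nsmul_eq_mul]
  have hlower : ((S.card : ℝ) - T.card) * ((1 - d) * Real.log n) ^ 2 ≤ rG n := by
    rw [hrG, ← Finset.sum_sdiff hTS]
    have h2 : 0 ≤ ∑ p ∈ T, Real.log (p : ℝ) * Real.log ((n - p : ℕ) : ℝ) :=
      Finset.sum_nonneg fun p hp => hnn p (hTS hp)
    have h3 : ((S.card : ℝ) - T.card) * ((1 - d) * Real.log n) ^ 2 =
        ∑ p ∈ S \ T, ((1 - d) * Real.log n) ^ 2 := by
      rw [Finset.sum_const, nsmul_eq_mul, Finset.cast_card_sdiff hTS]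
    rw [h3]
    have := Finset.sum_le_sum hlow
    linarith
  rw [hg]
  have hSc : (0 : ℝ) ≤ S.card := Nat.cast_nonneg _
  have hTc : (0 : ℝ) ≤ T.card := Nat.cast_nonneg _
  have hl2 : 0 ≤ (Real.log n) ^ 2 := sq_nonneg _
  have hsmall : (T.card : ℝ) * (Real.log n) ^ 2 ≤ ε * n := by
    have h2 : (T.card : ℝ) ≤ 4 * y := by linarith
    have h3 : y * (n : ℝ) ^ d = n := by
      rw [hy, ← Real.rpow_add hnpos, sub_add_cancel, Real.rpow_one]
    calc (T.card : ℝ) * (Real.log n) ^ 2 ≤ 4 * y * (ε / 4 * (n : ℝ) ^ d) :=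
          mul_le_mul h2 h1 hl2 (by linarith)
      _ = ε * (y * (n : ℝ) ^ d) := by ring
      _ = ε * n := by rw [h3]
  have hbern : 1 - 2 * d ≤ (1 - d) ^ 2 := by nlinarith [sq_nonneg d]
  have h5 : (S.card : ℝ) * (Real.log n) ^ 2 - rG n ≤ ε * ((S.card : ℝ) * (Real.log n) ^ 2 + n) := by
    have h6 : ((S.card : ℝ) - T.card) * ((1 - d) * Real.log n) ^ 2 =
        (1 - d) ^ 2 * ((S.card : ℝ) * (Real.log n) ^ 2) -
          (1 - d) ^ 2 * ((T.card : ℝ) * (Real.log n) ^ 2) := by ring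
    rw [h6] at hlower
    have h7 : (1 - 2 * d) * ((S.card : ℝ) * (Real.log n) ^ 2) ≤
        (1 - d) ^ 2 * ((S.card : ℝ) * (Real.log n) ^ 2) :=
      mul_le_mul_of_nonneg_right hbern (by positivity)
    have h8 : (1 - d) ^ 2 * ((T.card : ℝ) * (Real.log n) ^ 2) ≤
        1 * ((T.card : ℝ) * (Real.log n) ^ 2) :=
      mul_le_mul_of_nonneg_right (by nlinarith) (by positivity)
    have h9 : 2 * d * ((S.card : ℝ) * (Real.log n) ^ 2) ≤ ε * ((S.card : ℝ) * (Real.log n) ^ 2) :=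
      mul_le_mul_of_nonneg_right hdε (by positivity)
    linarith
  rw [abs_sub_comm, abs_of_nonneg (by linarith)]
  exact h5

end Pool.MP_dd84fd_nt.En
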