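import Pool.Agent.Lib.MP_dd84fd_nt.En.Recip2
import Pool.Agent.Lib.MP_dd84fd_nt.En.Geo
import Pool.Agent.Lib.MP_67663b_nt.OddB.Chebs

/-!
# classical bilinear bound, one block (module GB-B1)
-/

set_option autoImplicit false

namespace Pool.MP_dd84fd_nt.En

open Finset Pool.MP_67663b_nt.Odd

/-- the inner sum over `m` -/
lemma B1_inner (X : ℕ) (M θ : ℝ) (hM : 1 ≤ M) (p p' : ℕ) (hp : 0 < p) (hp' : 0 < p') :
    ‖∑ m ∈ (Ioc ⌊M⌋₊ ⌊2 * M⌋₊).filter (fun m => m * p ≤ X ∧ m * p' ≤ X),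
      ee ((m : ℝ) * (((p : ℝ) - (p' : ℝ)) * θ))‖ ≤
      mn (M + 1) (((p - p' + (p' - p) : ℕ) : ℝ) * θ) := by
  have hset : (Ioc ⌊M⌋₊ ⌊2 * M⌋₊).filter (fun m => m * p ≤ X ∧ m * p' ≤ X) =
      Ioc ⌊M⌋₊ (min ⌊2 * M⌋₊ (min (X / p) (X / p'))) := by
    ext m
    rw [mem_filter, mem_Ioc, mem_Ioc, le_min_iff, le_min_iff, Nat.le_div_iff_mul_le hp,
      Nat.le_div_iff_mul_le hp']
    tauto
  rw [hset]
  have hlen : (((min ⌊2 * M⌋₊ (min (X / p) (X / p'))) - ⌊M⌋₊ : ℕ) : ℝ) ≤ M + 1 := by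
    have h1 : (min ⌊2 * M⌋₊ (min (X / p) (X / p'))) - ⌊M⌋₊ ≤ ⌊2 * M⌋₊ - ⌊M⌋₊ :=
      Nat.sub_le_sub_right (min_le_left _ _) _
    have h2 : ⌊M⌋₊ ≤ ⌊2 * M⌋₊ := Nat.floor_le_floor (by linarith only [hM])
    have h3 : ((⌊2 * M⌋₊ - ⌊M⌋₊ : ℕ) : ℝ) ≤ M + 1 := by
      rw [Nat.cast_sub h2]
      have h4 := Nat.floor_le (by linarith only [hM] : (0 : ℝ) ≤ 2 * M)
      have h5 := Nat.lt_floor_add_one M
      linarith only [h4, h5]
    exact le_trans (by exact_mod_cast h1) h3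
  rcases le_total p' p with h | h
  · have e1 : ((p - p' + (p' - p) : ℕ) : ℝ) = (p : ℝ) - p' := by
      rw [show p - p' + (p' - p) = p - p' by omega, Nat.cast_sub h]
    rw [e1]
    exact norm_sum_Ioc_le_mn _ _ _ _ hlen
  · have e1 : ((p - p' + (p' - p) : ℕ) : ℝ) = (p' : ℝ) - p := by
      rw [show p - p' + (p' - p) = p' - p by omega, Nat.cast_sub h]
    rw [e1]
    have e2 : ∑ m ∈ Ioc ⌊M⌋₊ (min ⌊2 * M⌋₊ (min (X / p) (X / p'))),
        ee ((m : ℝ) * (((p : ℝ) - (p' : ℝ)) * θ)) =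
        (starRingEnd ℂ) (∑ m ∈ Ioc ⌊M⌋₊ (min ⌊2 * M⌋₊ (min (X / p) (X / p'))),
          ee ((m : ℝ) * (((p' : ℝ) - (p : ℝ)) * θ))) := by
      rw [map_sum]
      refine Finset.sum_congr rfl fun m _ => ?_
      rw [conj_ee]
      congr 1
      ring
    rw [e2, RCLike.norm_conj]
    exact norm_sum_Ioc_le_mn _ _ _ _ hlen

/-- expansion of the square -/
lemma B1_square (X : ℕ) (z M θ : ℝ) (hM : 1 ≤ M) :
    ∑ m ∈ Ioc ⌊M⌋₊ ⌊2 * M⌋₊, ‖PS z (((X : ℝ) + 1) / m) ((m : ℝ) * θ)‖ ^ 2 ≤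
      ∑ p ∈ pr z (((X : ℝ) + 1) / M), ∑ p' ∈ pr z (((X : ℝ) + 1) / M),
        Real.log p * Real.log p' * mn (M + 1) (((p - p' + (p' - p) : ℕ) : ℝ) * θ) := by
  classical
  obtain ⟨A, hA⟩ : ∃ A, A = pr z (((X : ℝ) + 1) / M) := ⟨_, rfl⟩
  have hM0 : 0 < M := by linarith
  have hPS : ∀ m ∈ Ioc ⌊M⌋₊ ⌊2 * M⌋₊, PS z (((X : ℝ) + 1) / m) ((m : ℝ) * θ) =
      ∑ p ∈ A, if m * p ≤ X then (Real.log p : ℂ) * ee (p * ((m : ℝ) * θ)) else 0 := by
    intro m hm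
    rw [mem_Ioc] at hm
    have hm1 : M < m := (Nat.floor_lt (by linarith)).1 hm.1
    have hm0 : (0 : ℝ) < m := by linarith
    unfold PS
    rw [← Finset.sum_filter]
    refine Finset.sum_congr ?_ fun _ _ => rfl
    ext p
    rw [mem_filter, hA, mem_pr, mem_pr]
    have key : (p : ℝ) < ((X : ℝ) + 1) / m ↔ m * p ≤ X := by
      rw [lt_div_iff₀ hm0]
      constructor
      · intro h
        have : p * m < X + 1 := by exact_mod_cast h
        rw [mul_comm]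
        omega
      · intro h
        have : p * m < X + 1 := by rw [mul_comm]; omega
        exact_mod_cast this
    rw [key]
    constructor
    · rintro ⟨h1, h2, h3⟩
      refine ⟨⟨h1, h2, ?_⟩, h3⟩
      have h4 := key.2 h3
      refine h4.trans ?_
      exact div_lt_div_of_pos_left (by positivity) hM0 hm1
    · rintro ⟨⟨h1, h2, -⟩, h3⟩
      exact ⟨h1, h2, h3⟩
  have hApos : ∀ p ∈ A, 0 < p := by
    intro p hp
    rw [hA, mem_pr] at hp
    exact hp.1.pos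
  have hlog : ∀ p ∈ A, 0 ≤ Real.log (p : ℝ) := fun p hp =>
    Real.log_nonneg (by exact_mod_cast hApos p hp)
  -- as complex numbers
  have hC : ((∑ m ∈ Ioc ⌊M⌋₊ ⌊2 * M⌋₊, ‖PS z (((X : ℝ) + 1) / m) ((m : ℝ) * θ)‖ ^ 2 : ℝ) : ℂ) =
      ∑ p ∈ A, ∑ p' ∈ A, ((Real.log p * Real.log p' : ℝ) : ℂ) *
        ∑ m ∈ (Ioc ⌊M⌋₊ ⌊2 * M⌋₊).filter (fun m => m * p ≤ X ∧ m * p' ≤ X),
          ee ((m : ℝ) * (((p : ℝ) - (p' : ℝ)) * θ)) := by
    rw [Complex.ofReal_sum]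
    have h1 : ∀ m ∈ Ioc ⌊M⌋₊ ⌊2 * M⌋₊,
        ((‖PS z (((X : ℝ) + 1) / m) ((m : ℝ) * θ)‖ ^ 2 : ℝ) : ℂ) =
        ∑ p ∈ A, ∑ p' ∈ A, if (m * p ≤ X ∧ m * p' ≤ X) then
          ((Real.log p * Real.log p' : ℝ) : ℂ) * ee ((m : ℝ) * (((p : ℝ) - (p' : ℝ)) * θ))
          else 0 := by
      intro m hm
      rw [Complex.ofReal_pow, ← Complex.mul_conj', hPS m hm, map_sum, Finset.sum_mul_sum]
      refine Finset.sum_congr rfl fun p _ => Finset.sum_congr rfl fun p' _ => ?_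
      by_cases h2 : m * p ≤ X
      · by_cases h3 : m * p' ≤ X
        · rw [if_pos h2, if_pos h3, if_pos ⟨h2, h3⟩, map_mul, Complex.conj_ofReal, conj_ee]
          have : ee ((m : ℝ) * (((p : ℝ) - (p' : ℝ)) * θ)) =
              ee (p * ((m : ℝ) * θ)) * ee (-(p' * ((m : ℝ) * θ))) := by
            rw [← ee_add]
            congr 1
            ring
          rw [this]
          push_cast
          ring
        · have h4 : ¬ (m * p ≤ X ∧ m * p' ≤ X) := fun h => h3 h.2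
          rw [if_neg h4, if_neg h3, map_zero, mul_zero]
      · have h4 : ¬ (m * p ≤ X ∧ m * p' ≤ X) := fun h => h2 h.1
        rw [if_neg h4, if_neg h2, zero_mul]
    rw [Finset.sum_congr rfl h1, Finset.sum_comm]
    refine Finset.sum_congr rfl fun p _ => ?_
    rw [Finset.sum_comm]
    refine Finset.sum_congr rfl fun p' _ => ?_
    rw [Finset.mul_sum, Finset.sum_filter]
  have hnn : 0 ≤ ∑ m ∈ Ioc ⌊M⌋₊ ⌊2 * M⌋₊, ‖PS z (((X : ℝ) + 1) / m) ((m : ℝ) * θ)‖ ^ 2 :=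
    Finset.sum_nonneg fun _ _ => by positivity
  rw [← hA]
  calc ∑ m ∈ Ioc ⌊M⌋₊ ⌊2 * M⌋₊, ‖PS z (((X : ℝ) + 1) / m) ((m : ℝ) * θ)‖ ^ 2
      = ‖((∑ m ∈ Ioc ⌊M⌋₊ ⌊2 * M⌋₊, ‖PS z (((X : ℝ) + 1) / m) ((m : ℝ) * θ)‖ ^ 2 : ℝ) : ℂ)‖ := by
        rw [Complex.norm_real, Real.norm_of_nonneg hnn]
    _ ≤ ∑ p ∈ A, ∑ p' ∈ A, Real.log p * Real.log p' *
          mn (M + 1) (((p - p' + (p' - p) : ℕ) : ℝ) * θ) := by
        rw [hC]
        refine norm_sum_le_of_le _ fun p hp => norm_sum_le_of_le _ fun p' hp' => ?_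
        rw [norm_mul, Complex.norm_real, Real.norm_of_nonneg (mul_nonneg (hlog p hp) (hlog p' hp'))]
        exact mul_le_mul_of_nonneg_left (B1_inner X M θ hM p p' (hApos p hp) (hApos p' hp'))
          (mul_nonneg (hlog p hp) (hlog p' hp'))

/-- the sum over the differences -/
lemma B1_diff (A : Finset ℕ) (Y M θ : ℝ) (hM : 0 ≤ M) (hA : ∀ p ∈ A, (p : ℝ) ≤ Y) (p : ℕ)
    (hp : p ∈ A) :
    ∑ p' ∈ A, mn M (((p - p' + (p' - p) : ℕ) : ℝ) * θ) ≤
      M + 2 * ∑ h ∈ Icc 1 ⌊Y⌋₊, mn M ((h : ℝ) * θ) := by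
  classical
  have hfl : ∀ q ∈ A, q ≤ ⌊Y⌋₊ := fun q hq => Nat.le_floor (hA q hq)
  have h1 : ∑ p' ∈ A.filter (fun p' => p' < p), mn M (((p - p' + (p' - p) : ℕ) : ℝ) * θ) ≤
      ∑ h ∈ Icc 1 ⌊Y⌋₊, mn M ((h : ℝ) * θ) := by
    have hinj : Set.InjOn (fun p' => p - p' + (p' - p)) (A.filter (fun p' => p' < p) : Finset ℕ) := by
      intro x hx y hy hxy
      rw [mem_coe, mem_filter] at hx hy
      simp only at hxy
      omega
    rw [← Finset.sum_image (f := fun h : ℕ => mn M ((h : ℝ) * θ)) hinj]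
    refine Finset.sum_le_sum_of_subset_of_nonneg ?_ fun _ _ _ => mn_nonneg hM _
    intro h hh
    rw [mem_image] at hh
    obtain ⟨x, hx, rfl⟩ := hh
    rw [mem_filter] at hx
    have := hfl p hp
    rw [mem_Icc]
    omega
  have h2 : ∑ p' ∈ A.filter (fun p' => p < p'), mn M (((p - p' + (p' - p) : ℕ) : ℝ) * θ) ≤
      ∑ h ∈ Icc 1 ⌊Y⌋₊, mn M ((h : ℝ) * θ) := by
    have hinj : Set.InjOn (fun p' => p - p' + (p' - p)) (A.filter (fun p' => p < p') : Finset ℕ) := by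
      intro x hx y hy hxy
      rw [mem_coe, mem_filter] at hx hy
      simp only at hxy
      omega
    rw [← Finset.sum_image (f := fun h : ℕ => mn M ((h : ℝ) * θ)) hinj]
    refine Finset.sum_le_sum_of_subset_of_nonneg ?_ fun _ _ _ => mn_nonneg hM _
    intro h hh
    rw [mem_image] at hh
    obtain ⟨x, hx, rfl⟩ := hh
    rw [mem_filter] at hx
    have := hfl x hx.1
    rw [mem_Icc]
    omega
  have h3 : ∑ p' ∈ A.filter (fun p' => p' = p), mn M (((p - p' + (p' - p) : ℕ) : ℝ) * θ) ≤ M := by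
    rw [Finset.filter_eq', if_pos hp, Finset.sum_singleton]
    exact mn_le _ _
  have h4 : A = A.filter (fun p' => p' = p) ∪ (A.filter (fun p' => p' < p) ∪
      A.filter (fun p' => p < p')) := by
    ext x
    simp only [mem_union, mem_filter]
    constructor
    · intro hx
      rcases lt_trichotomy x p with h | h | h
      · exact Or.inr (Or.inl ⟨hx, h⟩)
      · exact Or.inl ⟨hx, h⟩
      · exact Or.inr (Or.inr ⟨hx, h⟩)
    · rintro (h | h | h) <;> exact h.1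
  have h5 : ∑ p' ∈ A, mn M (((p - p' + (p' - p) : ℕ) : ℝ) * θ) =
      ∑ p' ∈ A.filter (fun p' => p' = p), mn M (((p - p' + (p' - p) : ℕ) : ℝ) * θ) +
      (∑ p' ∈ A.filter (fun p' => p' < p), mn M (((p - p' + (p' - p) : ℕ) : ℝ) * θ) +
      ∑ p' ∈ A.filter (fun p' => p < p'), mn M (((p - p' + (p' - p) : ℕ) : ℝ) * θ)) := by
    conv_lhs => rw [h4]
    rw [Finset.sum_union, Finset.sum_union]
    · rw [Finset.disjoint_left]
      intro x hx hx'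
      rw [mem_filter] at hx hx'
      omega
    · rw [Finset.disjoint_left]
      intro x hx hx'
      rw [mem_union, mem_filter, mem_filter] at hx'
      rw [mem_filter] at hx
      omega
  rw [h5]
  linarith

lemma B1_num (X z q l M Y W C1 lq : ℝ) (hX : 2 ≤ X) (hz : 0 < z) (hq : 1 ≤ q) (hl : 1 / 2 ≤ l)
    (hM : 1 ≤ M) (hY : 0 < Y) (hMY : M * Y = X + 1) (hMz : M ≤ 2 * X / z) (hYz : Y ≤ 4 * X / z)
    (hC1 : 0 < C1) (hlq : lq ≤ 2 * l) (hWb : W ≤ C1 * (Y / q + 1) * (M + 1 + q * lq)) :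
    M + 1 + 2 * W ≤ (12 + 32 * C1) * (X * l) * (1 / z + 1 / q + q / X) := by
  have hX0 : 0 < X := by linarith
  have hq0 : 0 < q := by linarith
  have hl0 : 0 < l := by linarith
  have g1 : M + 1 ≤ 2 * M := by linarith
  have hXl : X ≤ 2 * (X * l) := by nlinarith only [hX, hl]
  have hXl1 : X + 1 ≤ 4 * (X * l) := by linarith
  have k7 : 0 ≤ (X * l) * (1 / q) := by positivity
  have k8 : 0 ≤ (X * l) * (q / X) := by positivity
  have k9 : 0 ≤ (X * l) * (1 / z) := by positivity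
  have g2 : M ≤ 4 * ((X * l) * (1 / z)) := by
    calc M ≤ 2 * X / z := hMz
      _ = 2 * X * (1 / z) := by ring
      _ ≤ 2 * (2 * (X * l)) * (1 / z) := by gcongr
      _ = _ := by ring
  have g3 : (Y / q + 1) * (M + 1 + q * lq) ≤
      16 * (X * l) * (1 / z + 1 / q + q / X) := by
    have k1 : M + 1 + q * lq ≤ 2 * M + q * (2 * l) :=
      add_le_add g1 (mul_le_mul_of_nonneg_left hlq hq0.le)
    have k2 : (Y / q + 1) * (M + 1 + q * lq) ≤
        (Y / q + 1) * (2 * M + q * (2 * l)) := mul_le_mul_of_nonneg_left k1 (by positivity)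
    have k3 : (Y / q + 1) * (2 * M + q * (2 * l)) =
        2 * (M * Y) * (1 / q) + 2 * Y * l + 2 * M + 2 * q * l := by
      field_simp
      ring
    rw [k3, hMY] at k2
    have k4 : 2 * (X + 1) * (1 / q) ≤ 8 * ((X * l) * (1 / q)) := by
      calc 2 * (X + 1) * (1 / q) ≤ 2 * (4 * (X * l)) * (1 / q) := by gcongr
        _ = _ := by ring
    have k5 : 2 * Y * l ≤ 8 * ((X * l) * (1 / z)) := by
      calc 2 * Y * l ≤ 2 * (4 * X / z) * l := by gcongr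
        _ = 8 * ((X * l) * (1 / z)) := by ring
    have k6 : 2 * q * l = 2 * ((X * l) * (q / X)) := by field_simp
    have k10 : 16 * (X * l) * (1 / z + 1 / q + q / X) =
      16 * ((X * l) * (1 / z)) + 16 * ((X * l) * (1 / q)) + 16 * ((X * l) * (q / X)) := by ring
    rw [k10]
    linarith only [g2, k2, k4, k5, k6, k7, k8]
  have g4 : 2 * W ≤ 32 * C1 * (X * l) * (1 / z + 1 / q + q / X) := by
    calc 2 * W ≤ 2 * (C1 * ((Y / q + 1) * (M + 1 + q * lq))) := by linarith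
      _ ≤ 2 * (C1 * (16 * (X * l) * (1 / z + 1 / q + q / X))) := by gcongr
      _ = _ := by ring
  have g5 : M + 1 ≤ 12 * (X * l) * (1 / z + 1 / q + q / X) := by
    have k10 : 12 * (X * l) * (1 / z + 1 / q + q / X) =
      12 * ((X * l) * (1 / z)) + 12 * ((X * l) * (1 / q)) + 12 * ((X * l) * (q / X)) := by ring
    rw [k10]
    linarith only [g2, hM, k7, k8]
  calc M + 1 + 2 * W ≤ 12 * (X * l) * (1 / z + 1 / q + q / X) +
        32 * C1 * (X * l) * (1 / z + 1 / q + q / X) := add_le_add g5 g4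
    _ = _ := by ring

lemma B1_sqrt (z q X : ℝ) (hz : 0 < z) (hq : 0 < q) (hX : 0 < X) :
    Real.sqrt (1 / z + 1 / q + q / X) ≤
      1 / Real.sqrt z + 1 / Real.sqrt q + Real.sqrt (q / X) := by
  rw [Real.sqrt_le_left (by positivity)]
  have e1 : (1 / Real.sqrt z) ^ 2 = 1 / z := by
    rw [div_pow, Real.sq_sqrt hz.le, one_pow]
  have e2 : (1 / Real.sqrt q) ^ 2 = 1 / q := by
    rw [div_pow, Real.sq_sqrt hq.le, one_pow]
  have e3 : (Real.sqrt (q / X)) ^ 2 = q / X := Real.sq_sqrt (by positivity)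
  have e4 : 0 ≤ 1 / Real.sqrt z := by positivity
  have e5 : 0 ≤ 1 / Real.sqrt q := by positivity
  have e6 : 0 ≤ Real.sqrt (q / X) := Real.sqrt_nonneg _
  have key : ∀ u v w : ℝ, 0 ≤ u → 0 ≤ v → 0 ≤ w → u ^ 2 + v ^ 2 + w ^ 2 ≤ (u + v + w) ^ 2 := by
    intro u v w hu hv hw
    nlinarith only [hu, hv, hw, mul_nonneg hu hv, mul_nonneg hu hw, mul_nonneg hv hw]
  calc 1 / z + 1 / q + q / X = (1 / Real.sqrt z) ^ 2 + (1 / Real.sqrt q) ^ 2 +
        (Real.sqrt (q / X)) ^ 2 := by rw [e1, e2, e3]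
    _ ≤ _ := key _ _ _ e4 e5 e6

theorem bigII_block : ∃ C : ℝ, 0 < C ∧ ∀ (X : ℕ) (z : ℝ) (θ : ℝ) (q : ℕ) (a : ℤ),
    2 ≤ X → 2 ≤ z → 0 < q → q ≤ X → Int.gcd a q = 1 → |θ - (a : ℝ) / q| ≤ 1 / (q : ℝ) ^ 2 →
    ∀ M : ℝ, z / 2 ≤ M → M < ((X : ℝ) + 1) / z →
    ∑ m ∈ RN z M (2 * M), ‖PS z (((X : ℝ) + 1) / m) ((m : ℝ) * θ)‖ ≤
      C * X * (Real.log X) ^ 2 *
        (1 / Real.sqrt z + 1 / Real.sqrt q + Real.sqrt ((q : ℝ) / X)) := by
  classical
  obtain ⟨C1, hC1, hsum⟩ := sum_mn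
  obtain ⟨K, hK⟩ : ∃ K : ℝ, K = 64 * (12 + 32 * C1) := ⟨_, rfl⟩
  have hK0 : 0 < K := by rw [hK]; positivity
  refine ⟨2 * Real.sqrt K, by positivity, ?_⟩
  intro X z θ q a hX hz hq hqX ha hθ M hM1 hM2
  have hXr : (2 : ℝ) ≤ X := by exact_mod_cast hX
  have hX0 : (0 : ℝ) < X := by linarith only [hXr]
  have hz0 : 0 < z := by linarith
  have hM : 1 ≤ M := by linarith
  have hM0 : 0 < M := by linarith
  have hq0 : (0 : ℝ) < q := by exact_mod_cast hq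
  have hq1 : (1 : ℝ) ≤ q := by exact_mod_cast hq
  have hqX' : (q : ℝ) ≤ X := by exact_mod_cast hqX
  obtain ⟨l, hl⟩ : ∃ l : ℝ, l = Real.log X := ⟨_, rfl⟩
  have hl2 : 1 / 2 ≤ l := by
    have h1 : Real.log 2 ≤ Real.log X := Real.log_le_log (by norm_num) hXr
    have h2 := Real.log_two_gt_d9
    rw [hl]
    linarith
  have hl0 : 0 < l := by linarith only [hl2]
  obtain ⟨L, hL⟩ : ∃ L : ℝ, L = Real.log ((X : ℝ) + 1) := ⟨_, rfl⟩
  have hLl : L ≤ 2 * l := by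
    rw [hL, hl]
    have h1 : ((X : ℝ) + 1) ≤ (X : ℝ) ^ 2 := by nlinarith only [hXr]
    calc Real.log ((X : ℝ) + 1) ≤ Real.log ((X : ℝ) ^ 2) := Real.log_le_log (by linarith) h1
      _ = 2 * Real.log X := by rw [Real.log_pow]; norm_num
  have hL0 : 0 ≤ L := by rw [hL]; exact Real.log_nonneg (by linarith)
  have hlq : Real.log (2 * q) ≤ 2 * l := by
    rw [hl]
    have h1 : (2 : ℝ) * q ≤ (X : ℝ) ^ 2 := by nlinarith only [hXr, hqX']
    calc Real.log (2 * q) ≤ Real.log ((X : ℝ) ^ 2) := Real.log_le_log (by linarith) h1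
      _ = 2 * Real.log X := by rw [Real.log_pow]; norm_num
  have hlq0 : 0 ≤ Real.log (2 * q) := Real.log_nonneg (by linarith)
  obtain ⟨Y, hY⟩ : ∃ Y : ℝ, Y = ((X : ℝ) + 1) / M := ⟨_, rfl⟩
  have hY0 : 0 < Y := by rw [hY]; positivity
  have hMY : M * Y = X + 1 := by rw [hY]; field_simp
  have hMz : M ≤ 2 * X / z := by
    have : ((X : ℝ) + 1) / z ≤ 2 * X / z := div_le_div_of_nonneg_right (by linarith) hz0.le
    linarith
  have hYz : Y ≤ 4 * X / z := by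
    rw [hY, div_le_div_iff₀ hM0 hz0]
    nlinarith only [hM1, hXr, hz]
  -- step 1
  have hT1 : ∑ m ∈ RN z M (2 * M), ‖PS z (((X : ℝ) + 1) / m) ((m : ℝ) * θ)‖ ≤
      ∑ m ∈ Ioc ⌊M⌋₊ ⌊2 * M⌋₊, ‖PS z (((X : ℝ) + 1) / m) ((m : ℝ) * θ)‖ := by
    refine Finset.sum_le_sum_of_subset_of_nonneg ?_ fun _ _ _ => norm_nonneg _
    unfold RN
    exact Finset.filter_subset _ _
  have hcard : (#(Ioc ⌊M⌋₊ ⌊2 * M⌋₊) : ℝ) ≤ 2 * M := by
    rw [Nat.card_Ioc, Nat.cast_sub (Nat.floor_le_floor (by linarith))]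
    have h4 := Nat.floor_le (by linarith : (0 : ℝ) ≤ 2 * M)
    have h5 := Nat.lt_floor_add_one M
    linarith
  have hCS := sq_sum_le_card_mul_sum_sq (s := Ioc ⌊M⌋₊ ⌊2 * M⌋₊)
    (f := fun m => ‖PS z (((X : ℝ) + 1) / m) ((m : ℝ) * θ)‖)
  have hsq := B1_square X z M θ hM
  rw [← hY] at hsq
  obtain ⟨W, hW⟩ : ∃ W : ℝ, W = ∑ h ∈ Icc 1 ⌊Y⌋₊, mn (M + 1) ((h : ℝ) * θ) := ⟨_, rfl⟩
  have hW0 : 0 ≤ W := by
    rw [hW]; exact Finset.sum_nonneg fun _ _ => mn_nonneg (by linarith) _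
  have hWb : W ≤ C1 * (Y / q + 1) * (M + 1 + q * Real.log (2 * q)) := by
    rw [hW]
    refine (hsum θ q a hq ha hθ (M + 1) ⌊Y⌋₊ (by linarith)).trans ?_
    have h1 : (⌊Y⌋₊ : ℝ) ≤ Y := Nat.floor_le hY0.le
    gcongr
  have hAlog : ∀ p ∈ pr z Y, 0 ≤ Real.log (p : ℝ) ∧ Real.log (p : ℝ) ≤ L ∧ (p : ℝ) ≤ Y := by
    intro p hp
    rw [mem_pr] at hp
    obtain ⟨h1, h2, h3⟩ := hp
    have h4 : (1 : ℝ) ≤ p := by exact_mod_cast h1.one_le
    refine ⟨Real.log_nonneg h4, ?_, h3.le⟩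
    rw [hL]
    refine Real.log_le_log (by linarith) (h3.le.trans ?_)
    rw [hY]
    exact div_le_self (by linarith) hM
  have hdouble : ∑ p ∈ pr z Y, ∑ p' ∈ pr z Y,
      Real.log p * Real.log p' * mn (M + 1) (((p - p' + (p' - p) : ℕ) : ℝ) * θ) ≤
      2 * Y * (L * (M + 1 + 2 * W)) := by
    have h1 : ∀ p ∈ pr z Y, ∑ p' ∈ pr z Y,
        Real.log p * Real.log p' * mn (M + 1) (((p - p' + (p' - p) : ℕ) : ℝ) * θ) ≤
        Real.log p * (L * (M + 1 + 2 * W)) := by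
      intro p hp
      obtain ⟨p0, p1, p2⟩ := hAlog p hp
      calc ∑ p' ∈ pr z Y,
          Real.log p * Real.log p' * mn (M + 1) (((p - p' + (p' - p) : ℕ) : ℝ) * θ)
          ≤ ∑ p' ∈ pr z Y,
            Real.log p * (L * mn (M + 1) (((p - p' + (p' - p) : ℕ) : ℝ) * θ)) := by
            refine Finset.sum_le_sum fun p' hp' => ?_
            rw [mul_assoc]
            exact mul_le_mul_of_nonneg_left (mul_le_mul_of_nonneg_right (hAlog p' hp').2.1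
              (mn_nonneg (by linarith) _)) p0
        _ = Real.log p * (L * ∑ p' ∈ pr z Y,
            mn (M + 1) (((p - p' + (p' - p) : ℕ) : ℝ) * θ)) := by
            rw [Finset.mul_sum, Finset.mul_sum]
        _ ≤ Real.log p * (L * (M + 1 + 2 * W)) := by
            refine mul_le_mul_of_nonneg_left (mul_le_mul_of_nonneg_left ?_ hL0) p0
            rw [hW]
            exact B1_diff (pr z Y) Y (M + 1) θ (by linarith) (fun p hp => (hAlog p hp).2.2) p hp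
    refine (Finset.sum_le_sum h1).trans ?_
    rw [← Finset.sum_mul]
    exact mul_le_mul_of_nonneg_right (sum_log_pr_le hY0.le) (by positivity)
  obtain ⟨T, hT⟩ : ∃ T : ℝ, T = ∑ m ∈ Ioc ⌊M⌋₊ ⌊2 * M⌋₊,
    ‖PS z (((X : ℝ) + 1) / m) ((m : ℝ) * θ)‖ := ⟨_, rfl⟩
  have hT0 : 0 ≤ T := by rw [hT]; exact Finset.sum_nonneg fun _ _ => norm_nonneg _
  have hT2 : T ^ 2 ≤ 2 * M * (2 * Y * (L * (M + 1 + 2 * W))) := by
    rw [hT]
    refine hCS.trans ?_
    refine mul_le_mul hcard (hsq.trans hdouble) (Finset.sum_nonneg fun _ _ => by positivity)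
      (by linarith)
  -- numerical part
  have hbr : M + 1 + 2 * W ≤ (12 + 32 * C1) * (X * l) * (1 / z + 1 / q + q / X) :=
    B1_num (X : ℝ) z (q : ℝ) l M Y W C1 (Real.log (2 * q)) hXr hz0 hq1 hl2 hM hY0 hMY hMz hYz hC1
      hlq hWb
  obtain ⟨E, hE⟩ : ∃ E : ℝ, E = 1 / z + 1 / q + q / X := ⟨_, rfl⟩
  have hE0 : 0 ≤ E := by rw [hE]; positivity
  have hT3 : T ^ 2 ≤ K * ((X * l) ^ 2 * E) := by
    refine hT2.trans ?_
    rw [← hE] at hbr
    calc 2 * M * (2 * Y * (L * (M + 1 + 2 * W))) = 4 * (M * Y) * (L * (M + 1 + 2 * W)) := by ring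
      _ = 4 * (X + 1) * (L * (M + 1 + 2 * W)) := by rw [hMY]
      _ ≤ 4 * (2 * X) * (2 * l * ((12 + 32 * C1) * (X * l) * E)) := by
          have m1 : (X : ℝ) + 1 ≤ 2 * X := by linarith
          have m2 : 0 ≤ M + 1 + 2 * W := by linarith only [hM1, hW0, hz]
          gcongr
      _ = 16 * (12 + 32 * C1) * ((X * l) ^ 2 * E) := by ring
      _ ≤ K * ((X * l) ^ 2 * E) := by
          refine mul_le_mul_of_nonneg_right ?_ (by positivity)
          rw [hK]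
          nlinarith only [hC1]
  have hsqrtE : Real.sqrt E ≤ 1 / Real.sqrt z + 1 / Real.sqrt q + Real.sqrt ((q : ℝ) / X) := by
    rw [hE]
    exact B1_sqrt z q X hz0 hq0 hX0
  have hTf : T ≤ Real.sqrt K * (X * l) * Real.sqrt E := by
    have h1 : T ≤ Real.sqrt (K * ((X * l) ^ 2 * E)) := Real.le_sqrt_of_sq_le hT3
    refine h1.trans (le_of_eq ?_)
    rw [Real.sqrt_mul hK0.le, Real.sqrt_mul (by positivity), Real.sqrt_sq (by positivity)]
    ring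
  calc ∑ m ∈ RN z M (2 * M), ‖PS z (((X : ℝ) + 1) / m) ((m : ℝ) * θ)‖ ≤ T := by
        rw [hT]; exact hT1
    _ ≤ Real.sqrt K * (X * l) * Real.sqrt E := hTf
    _ ≤ Real.sqrt K * (X * l) * (1 / Real.sqrt z + 1 / Real.sqrt q + Real.sqrt ((q : ℝ) / X)) :=
        mul_le_mul_of_nonneg_left hsqrtE (by positivity)
    _ ≤ 2 * Real.sqrt K * X * (Real.log X) ^ 2 *
        (1 / Real.sqrt z + 1 / Real.sqrt q + Real.sqrt ((q : ℝ) / X)) := by
        rw [← hl]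
        refine mul_le_mul_of_nonneg_right ?_ (by positivity)
        have h2 : l ≤ 2 * l ^ 2 := by nlinarith only [hl2]
        calc Real.sqrt K * (X * l) = Real.sqrt K * X * l := by ring
          _ ≤ Real.sqrt K * X * (2 * l ^ 2) := mul_le_mul_of_nonneg_left h2 (by positivity)
          _ = 2 * Real.sqrt K * X * l ^ 2 := by ring

end Pool.MP_dd84fd_nt.En
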