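import Pool.Agent.Lib.MP_dd84fd_nt.En.Defs

/-!
# Hoelder inequality and counting (module GB-HO)
-/

set_option autoImplicit false

namespace Pool.MP_dd84fd_nt.En

open Finset Pool.MP_67663b_nt.Odd

theorem hoelder_use (m : ℕ) (hm : 1 ≤ m) (N : ℕ) (hN : 0 < N) (A : Finset ℕ)
    (hA : A ⊆ range N) (u k : ℕ → ℝ) (hu : ∀ j, 0 ≤ u j) (hk : ∀ j, 0 ≤ k j) :
    (1 / (N : ℝ)) * ∑ j ∈ A, u j ^ 2 * k j ≤
      ((1 / (N : ℝ)) * ∑ j ∈ A, u j ^ (4 * (m : ℝ) / (2 * m - 1))) ^ (1 - 1 / (2 * (m : ℝ))) *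
      ((1 / (N : ℝ)) * ∑ j ∈ range N, k j ^ (2 * m)) ^ (1 / (2 * (m : ℝ))) := by
  have hm' : (1 : ℝ) ≤ m := by exact_mod_cast hm
  have hN' : (0 : ℝ) < N := by exact_mod_cast hN
  have h2m : (0 : ℝ) < 2 * m - 1 := by linarith
  set p : ℝ := 2 * m / (2 * m - 1) with hp
  set q : ℝ := 2 * m with hq
  have hpq : p.HolderConjugate q := by
    rw [Real.holderConjugate_iff]
    constructor
    · rw [hp, lt_div_iff₀ h2m]
      linarith
    · rw [hp, hq]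
      field_simp
      ring
  have h1 := Real.inner_le_Lp_mul_Lq_of_nonneg A hpq (f := fun j => u j ^ 2) (g := k)
    (fun j _ => by positivity) (fun j _ => hk j)
  have e1 : ∑ j ∈ A, (u j ^ 2) ^ p = ∑ j ∈ A, u j ^ (4 * (m : ℝ) / (2 * m - 1)) := by
    refine Finset.sum_congr rfl fun j _ => ?_
    rw [← Real.rpow_natCast, ← Real.rpow_mul (hu j)]
    congr 1
    rw [hp]
    push_cast
    ring
  have e2 : 1 / p = 1 - 1 / (2 * (m : ℝ)) := by
    have h5 : (2 * (m : ℝ)) ≠ 0 := by positivity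
    have h6 : (2 * (m : ℝ) - 1) ≠ 0 := by rw [← hq]; exact h2m.ne'
    rw [hp, hq, one_div_div]
    field_simp
  have e3 : ∑ j ∈ A, k j ^ q ≤ ∑ j ∈ range N, k j ^ (2 * m) := by
    have e4 : ∀ j, k j ^ q = k j ^ (2 * m) := by
      intro j
      rw [← Real.rpow_natCast, hq]
      push_cast
      ring_nf
    simp only [e4]
    exact Finset.sum_le_sum_of_subset_of_nonneg hA fun j _ _ => pow_nonneg (hk j) _
  have hS1 : 0 ≤ ∑ j ∈ A, u j ^ (4 * (m : ℝ) / (2 * m - 1)) :=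
    Finset.sum_nonneg fun j _ => Real.rpow_nonneg (hu j) _
  have hS2 : 0 ≤ ∑ j ∈ A, k j ^ q := Finset.sum_nonneg fun j _ => Real.rpow_nonneg (hk j) _
  have hS3 : 0 ≤ ∑ j ∈ range N, k j ^ (2 * m) := Finset.sum_nonneg fun j _ => pow_nonneg (hk j) _
  rw [e1, e2] at h1
  set S1 := ∑ j ∈ A, u j ^ (4 * (m : ℝ) / (2 * m - 1))
  set S3 := ∑ j ∈ range N, k j ^ (2 * m)
  have h2 : ∑ j ∈ A, u j ^ 2 * k j ≤ S1 ^ (1 - 1 / (2 * (m : ℝ))) * S3 ^ (1 / (2 * (m : ℝ))) := by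
    refine h1.trans ?_
    apply mul_le_mul_of_nonneg_left _ (Real.rpow_nonneg hS1 _)
    rw [hq]
    exact Real.rpow_le_rpow hS2 e3 (by positivity)
  rw [Real.mul_rpow (by positivity) hS1, Real.mul_rpow (by positivity) hS3]
  have h3 : (1 / (N : ℝ)) ^ (1 - 1 / (2 * (m : ℝ))) * (1 / (N : ℝ)) ^ (1 / (2 * (m : ℝ))) =
      1 / (N : ℝ) := by
    rw [← Real.rpow_add (by positivity)]
    norm_num
  calc (1 / (N : ℝ)) * ∑ j ∈ A, u j ^ 2 * k j
      ≤ (1 / (N : ℝ)) * (S1 ^ (1 - 1 / (2 * (m : ℝ))) * S3 ^ (1 / (2 * (m : ℝ)))) :=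
        mul_le_mul_of_nonneg_left h2 (by positivity)
    _ = ((1 / (N : ℝ)) ^ (1 - 1 / (2 * (m : ℝ))) * (1 / (N : ℝ)) ^ (1 / (2 * (m : ℝ)))) *
        (S1 ^ (1 - 1 / (2 * (m : ℝ))) * S3 ^ (1 / (2 * (m : ℝ)))) := by rw [h3]
    _ = _ := by ring

private theorem ho_card_interval (S : Finset ℕ) (c L : ℝ) (hL : 0 ≤ L)
    (hS : ∀ j ∈ S, |(j : ℝ) - c| ≤ L) : (S.card : ℝ) ≤ 2 * L + 1 := by
  have h1 : S.image (fun j : ℕ => (j : ℤ)) ⊆ Finset.Icc ⌈c - L⌉ ⌊c + L⌋ := by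
    intro z hz
    obtain ⟨j, hj, rfl⟩ := Finset.mem_image.mp hz
    have h2 := abs_le.mp (hS j hj)
    rw [Finset.mem_Icc, Int.ceil_le, Int.le_floor]
    push_cast
    constructor <;> linarith [h2.1, h2.2]
  have h2 : (S.image (fun j : ℕ => (j : ℤ))).card = S.card :=
    Finset.card_image_of_injective _ Nat.cast_injective
  have h3 := Finset.card_le_card h1
  rw [h2, Int.card_Icc] at h3
  have h4 : (((⌊c + L⌋ + 1 - ⌈c - L⌉).toNat : ℕ) : ℝ) ≤ 2 * L + 1 := by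
    rcases le_or_gt (⌊c + L⌋ + 1 - ⌈c - L⌉) 0 with h | h
    · rw [Int.toNat_of_nonpos h]
      simp
      linarith
    · have h5 : (((⌊c + L⌋ + 1 - ⌈c - L⌉).toNat : ℕ) : ℤ) = ⌊c + L⌋ + 1 - ⌈c - L⌉ :=
        Int.toNat_of_nonneg h.le
      have h6 : (((⌊c + L⌋ + 1 - ⌈c - L⌉).toNat : ℕ) : ℝ) = (⌊c + L⌋ : ℝ) + 1 - (⌈c - L⌉ : ℝ) := by
        exact_mod_cast h5
      rw [h6]
      have h7 := Int.floor_le (c + L)
      have h8 := Int.le_ceil (c - L)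
      linarith
  have h5 : (S.card : ℝ) ≤ (((⌊c + L⌋ + 1 - ⌈c - L⌉).toNat : ℕ) : ℝ) := by exact_mod_cast h3
  linarith

open Classical in
theorem card_Ht (J : ℕ) (hJ : 0 < J) (H : ℝ) : ∃ C : ℝ, 0 < C ∧ ∀ X : ℕ, 1 ≤ X →
    (((range (J * X)).filter (fun j : ℕ => Ht H X ((j : ℝ) / (J * X)))).card : ℝ) ≤ C := by
  set h : ℝ := |H| with hh
  have hh0 : 0 ≤ h := abs_nonneg _
  set K : ℕ := ⌈h * (h + 1)⌉₊ with hK
  set P : Finset (ℕ × ℤ) := (Icc 1 ⌊h⌋₊) ×ˢ (Icc (-(K : ℤ)) K) with hP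
  refine ⟨P.card * (2 * (J * h) + 1) + 1, by positivity, ?_⟩
  intro X hX
  have hX0 : (0 : ℝ) < X := by exact_mod_cast hX
  have hX1 : (1 : ℝ) ≤ X := by exact_mod_cast hX
  have hJ0 : (0 : ℝ) < J := by exact_mod_cast hJ
  set T := (range (J * X)).filter (fun j : ℕ => Ht H X ((j : ℝ) / (J * X))) with hT
  set S : ℕ × ℤ → Finset ℕ := fun x => (range (J * X)).filter
    (fun j : ℕ => |(j : ℝ) - J * X * ((x.2 : ℝ) / x.1)| ≤ J * h) with hS
  have hsub : T ⊆ P.biUnion S := by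
    intro j hj
    rw [hT, Finset.mem_filter] at hj
    obtain ⟨hj1, q, a, hq, hg, hqa⟩ := hj
    have hjr := Finset.mem_range.mp hj1
    have hq0 : (0 : ℝ) < q := by exact_mod_cast hq
    have hHh : H ≤ h := le_abs_self H
    have hJX : (0 : ℝ) < J * X := by positivity
    set θ : ℝ := (j : ℝ) / (J * X) with hθ
    have hθ0 : 0 ≤ θ := by positivity
    have hθ1 : θ ≤ 1 := by
      rw [hθ, div_le_one hJX]
      exact_mod_cast hjr.le
    have ht0 : 0 ≤ |θ - (a : ℝ) / q| := abs_nonneg _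
    have h1 : (q : ℝ) + q * (X * |θ - (a : ℝ) / q|) ≤ h := by linarith
    have h2 : (q : ℝ) ≤ h := by
      have : 0 ≤ (q : ℝ) * (X * |θ - (a : ℝ) / q|) := by positivity
      linarith
    have hq1 : (1 : ℝ) ≤ q := by exact_mod_cast hq
    have h3 : X * |θ - (a : ℝ) / q| ≤ h := by
      have e1 : 0 ≤ X * |θ - (a : ℝ) / q| := by positivity
      nlinarith
    have h4 : |θ - (a : ℝ) / q| ≤ h := by nlinarith
    have h5 : |(a : ℝ)| ≤ h * (h + 1) := by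
      have e1 : |(a : ℝ) / q| ≤ 1 + h := by
        have e2 : |(a : ℝ) / q| ≤ |θ| + |θ - (a : ℝ) / q| := by
          have := abs_sub_abs_le_abs_sub ((a : ℝ) / q) θ
          rw [abs_sub_comm] at this
          linarith
        rw [abs_of_nonneg hθ0] at e2
        linarith
      rw [abs_div, abs_of_pos hq0, div_le_iff₀ hq0] at e1
      nlinarith
    rw [Finset.mem_biUnion]
    refine ⟨(q, a), ?_, ?_⟩
    · rw [hP, Finset.mem_product, Finset.mem_Icc, Finset.mem_Icc]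
      refine ⟨⟨hq, Nat.le_floor h2⟩, ?_⟩
      have e1 : |(a : ℝ)| ≤ (K : ℝ) := h5.trans (Nat.le_ceil _)
      have e2 : |a| ≤ (K : ℤ) := by exact_mod_cast e1
      exact abs_le.mp e2
    · rw [hS, Finset.mem_filter]
      refine ⟨hj1, ?_⟩
      have e1 : (j : ℝ) - J * X * ((a : ℝ) / q) = J * (X * (θ - (a : ℝ) / q)) := by
        rw [hθ]
        field_simp
      simp only
      rw [e1, abs_mul, abs_mul, abs_of_pos hJ0, abs_of_pos hX0]
      exact mul_le_mul_of_nonneg_left h3 hJ0.le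
  have h1 : (T.card : ℝ) ≤ ∑ x ∈ P, ((S x).card : ℝ) := by
    have e1 := (Finset.card_le_card hsub).trans Finset.card_biUnion_le
    exact_mod_cast e1
  have h2 : ∀ x ∈ P, ((S x).card : ℝ) ≤ 2 * (J * h) + 1 := by
    intro x _
    apply ho_card_interval (S x) (J * X * ((x.2 : ℝ) / x.1)) (J * h) (by positivity)
    intro j hj
    rw [hS, Finset.mem_filter] at hj
    exact hj.2
  have h3 := Finset.sum_le_sum h2
  rw [Finset.sum_const, nsmul_eq_mul] at h3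
  linarith

end Pool.MP_dd84fd_nt.En
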