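import Pool.Agent.Lib.MP_dd84fd_nt.En.Defs

/-!
# the model in a residue class near the origin (module GB-MM)
-/

set_option autoImplicit false

namespace Pool.MP_dd84fd_nt.En

open Finset Pool.MP_67663b_nt.Odd

/-- partial summation -/
private lemma MM_partial (a : ℕ → ℝ) (B : ℝ) (X : ℕ)
    (hB : ∀ t ≤ X, |∑ n ∈ Icc 1 t, a n| ≤ B) (β : ℝ) :
    ‖∑ n ∈ Icc 1 X, (a n : ℂ) * ee ((n : ℝ) * β)‖ ≤ B * (1 + 2 * Real.pi * |β| * X) := by
  have hid : ∀ X : ℕ, ∑ n ∈ Icc 1 X, (a n : ℂ) * ee ((n : ℝ) * β) =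
      ((∑ n ∈ Icc 1 X, a n : ℝ) : ℂ) * ee ((X : ℝ) * β) -
      ∑ t ∈ range X, ((∑ n ∈ Icc 1 t, a n : ℝ) : ℂ) *
        (ee (((t + 1 : ℕ) : ℝ) * β) - ee ((t : ℝ) * β)) := by
    intro X
    induction X with
    | zero => simp
    | succ X ih =>
      rw [Finset.sum_Icc_succ_top (by omega), ih, Finset.sum_range_succ,
        Finset.sum_Icc_succ_top (by omega)]
      push_cast
      ring
  rw [hid]
  have hB0 : 0 ≤ B := (abs_nonneg _).trans (hB 0 (Nat.zero_le _))
  have h1 : ‖((∑ n ∈ Icc 1 X, a n : ℝ) : ℂ) * ee ((X : ℝ) * β)‖ ≤ B := by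
    rw [norm_mul, norm_ee, mul_one, Complex.norm_real, Real.norm_eq_abs]
    exact hB X le_rfl
  have h2 : ‖∑ t ∈ range X, ((∑ n ∈ Icc 1 t, a n : ℝ) : ℂ) *
      (ee (((t + 1 : ℕ) : ℝ) * β) - ee ((t : ℝ) * β))‖ ≤ X * (B * (2 * Real.pi * |β|)) := by
    refine (norm_sum_le _ _).trans ?_
    calc ∑ t ∈ range X, ‖((∑ n ∈ Icc 1 t, a n : ℝ) : ℂ) *
          (ee (((t + 1 : ℕ) : ℝ) * β) - ee ((t : ℝ) * β))‖
        ≤ ∑ _t ∈ range X, B * (2 * Real.pi * |β|) := by
          refine sum_le_sum fun t ht => ?_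
          rw [norm_mul, Complex.norm_real, Real.norm_eq_abs]
          refine mul_le_mul (hB t (by rw [mem_range] at ht; omega)) ?_ (norm_nonneg _) hB0
          refine (norm_ee_sub_ee_le _ _).trans (le_of_eq ?_)
          congr 2
          push_cast
          ring
      _ = _ := by rw [sum_const, card_range, nsmul_eq_mul]
  refine (norm_sub_le _ _).trans ?_
  nlinarith

/-- the number of residues -/
private lemma MM_count (q W : ℕ) (hq : 0 < q) (hW : 0 < W)
    (hqW : ∀ p : ℕ, p.Prime → p ∣ q → p ∣ W) (c : ℕ) (hc : Nat.Coprime c q) :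
    (Nat.totient q) * ((range (q * W)).filter
      (fun n => n ≡ c [MOD q] ∧ Nat.Coprime n W)).card = q * Nat.totient W := by
  classical
  set Q := q * W with hQ
  have hQ0 : 0 < Q := Nat.mul_pos hq hW
  have : NeZero Q := ⟨hQ0.ne'⟩
  have : NeZero q := ⟨hq.ne'⟩
  have hdvd : q ∣ Q := ⟨W, rfl⟩
  -- coprimality
  have hcop : ∀ n : ℕ, Nat.Coprime n Q ↔ Nat.Coprime n W := by
    intro n
    constructor
    · intro h
      exact Nat.Coprime.coprime_dvd_right ⟨q, by rw [hQ]; ring⟩ h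
    · intro h
      rw [hQ]
      refine Nat.Coprime.mul_right ?_ h
      by_contra hne
      rw [Nat.Prime.not_coprime_iff_dvd] at hne
      obtain ⟨p, hp, h1, h2⟩ := hne
      exact (Nat.Prime.not_coprime_iff_dvd.mpr ⟨p, hp, h1, hqW p hp h2⟩) h
  -- totients
  have htot : Nat.totient Q = q * Nat.totient W := by
    have hpf : Q.primeFactors = W.primeFactors := by
      rw [hQ, Nat.primeFactors_mul hq.ne' hW.ne']
      refine Finset.union_eq_right.mpr ?_
      intro p hp
      rw [Nat.mem_primeFactors] at hp ⊢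
      exact ⟨hp.1, hqW p hp.1 hp.2.1, hW.ne'⟩
    have h1 := Nat.totient_eq_mul_prod_factors Q
    have h2 := Nat.totient_eq_mul_prod_factors W
    rw [hpf] at h1
    have h3 : ((Nat.totient Q : ℕ) : ℚ) = ((q * Nat.totient W : ℕ) : ℚ) := by
      push_cast
      rw [h1, h2, hQ]
      push_cast
      ring
    exact_mod_cast h3
  -- the fiber of the reduction map
  set f := ZMod.unitsMap hdvd with hf
  have hsurj : Function.Surjective f := ZMod.unitsMap_surjective hdvd
  set u : (ZMod q)ˣ := ZMod.unitOfCoprime c hc with hu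
  have hfib : ∀ y : (ZMod q)ˣ, (univ.filter (fun g : (ZMod Q)ˣ => f g = y)).card =
      (univ.filter (fun g : (ZMod Q)ˣ => f g = u)).card := by
    intro y
    exact MonoidHom.card_fiber_eq_of_mem_range f (hsurj y) (hsurj u)
  have hcard : Fintype.card (ZMod Q)ˣ =
      Fintype.card (ZMod q)ˣ * (univ.filter (fun g : (ZMod Q)ˣ => f g = u)).card := by
    have h1 : (univ : Finset (ZMod Q)ˣ).card =
        ∑ y ∈ (univ : Finset (ZMod q)ˣ), (univ.filter (fun g : (ZMod Q)ˣ => f g = y)).card :=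
      Finset.card_eq_sum_card_fiberwise (fun _ _ => Finset.mem_coe.mpr (mem_univ _))
    rw [Finset.card_univ] at h1
    rw [h1, Finset.sum_congr rfl (fun y _ => hfib y), sum_const, Finset.card_univ, smul_eq_mul]
  have hbij : ((range Q).filter (fun n => n ≡ c [MOD q] ∧ Nat.Coprime n W)).card =
      (univ.filter (fun g : (ZMod Q)ˣ => f g = u)).card := by
    symm
    refine Finset.card_bij (fun g _ => (g : ZMod Q).val) ?_ ?_ ?_
    · intro g hg
      rw [mem_filter] at hg
      rw [mem_filter, mem_range]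
      refine ⟨ZMod.val_lt _, ?_, (hcop _).mp (ZMod.val_coe_unit_coprime g)⟩
      rw [← ZMod.natCast_eq_natCast_iff]
      have h1 : ((f g : (ZMod q)ˣ) : ZMod q) = (u : ZMod q) := by rw [hg.2]
      rw [hf, ZMod.unitsMap_val, hu, ZMod.coe_unitOfCoprime] at h1
      rw [← h1, ZMod.natCast_val]
    · intro g _ g' _ h
      exact Units.ext (ZMod.val_injective Q h)
    · intro n hn
      rw [mem_filter, mem_range] at hn
      have hnQ : Nat.Coprime n Q := (hcop n).mpr hn.2.2
      refine ⟨ZMod.unitOfCoprime n hnQ, ?_, ?_⟩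
      · rw [mem_filter]
        refine ⟨mem_univ _, ?_⟩
        apply Units.ext
        rw [hf, ZMod.unitsMap_val, ZMod.coe_unitOfCoprime, hu, ZMod.coe_unitOfCoprime,
          ZMod.cast_natCast hdvd, ZMod.natCast_eq_natCast_iff]
        exact hn.2.1
      · rw [ZMod.coe_unitOfCoprime, ZMod.val_natCast, Nat.mod_eq_of_lt hn.1]
  rw [ZMod.card_units_eq_totient, ZMod.card_units_eq_totient] at hcard
  rw [hbij, ← hcard, htot]

/-- bounded partial sums of a periodic function with mean zero -/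
private lemma MM_periodic (a : ℕ → ℝ) (Q : ℕ) (hQ : 0 < Q) (hper : ∀ n, a (n + Q) = a n)
    (hsum : ∑ n ∈ range Q, a n = 0) :
    ∃ B : ℝ, 0 ≤ B ∧ ∀ t : ℕ, |∑ n ∈ Icc 1 t, a n| ≤ B := by
  set S : ℕ → ℝ := fun t => ∑ n ∈ range t, a n with hS
  have h1 : ∀ t, S (t + Q) = S t := by
    intro t
    induction t with
    | zero => rw [hS]; simp [hsum]
    | succ t ih =>
      have e1 : S (t + 1 + Q) = S (t + Q) + a (t + Q) := by
        rw [hS, show t + 1 + Q = (t + Q) + 1 by ring]
        simp only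
        rw [Finset.sum_range_succ]
      have e2 : S (t + 1) = S t + a t := by
        rw [hS]; simp only; rw [Finset.sum_range_succ]
      rw [e1, e2, ih, hper]
  have h2 : ∀ k t, S (t + k * Q) = S t := by
    intro k t
    induction k with
    | zero => simp
    | succ k ih =>
      rw [show t + (k + 1) * Q = (t + k * Q) + Q by ring, h1, ih]
  have h3 : ∀ t, |S t| ≤ ∑ r ∈ range Q, |S r| := by
    intro t
    have h4 : S t = S (t % Q) := by
      have h5 := h2 (t / Q) (t % Q)
      rw [← h5]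
      congr 1
      rw [mul_comm]
      exact (Nat.mod_add_div t Q).symm
    rw [h4]
    exact Finset.single_le_sum (f := fun r => |S r|) (fun r _ => abs_nonneg _)
      (mem_range.mpr (Nat.mod_lt _ hQ))
  refine ⟨∑ r ∈ range Q, |S r| + |a 0|, by positivity, ?_⟩
  intro t
  have h6 : ∑ n ∈ Icc 1 t, a n = S (t + 1) - a 0 := by
    have : S (t + 1) = a 0 + ∑ n ∈ Icc 1 t, a n := by
      rw [hS]
      simp only
      rw [Finset.range_eq_Ico, Finset.sum_eq_sum_Ico_succ_bot (by omega)]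
      congr 1
    rw [this]; ring
  rw [h6]
  exact (abs_sub _ _).trans (add_le_add (h3 _) le_rfl)

theorem f1_class (w : ℕ) (q : ℕ) (hq : 0 < q) (hqw : ∀ p : ℕ, p.Prime → p ∣ q → p ≤ w) (c : ℕ)
    (hc : Nat.Coprime c q) (T : ℝ) {η : ℝ} (hη : 0 < η) :
    ∃ X0 : ℕ, ∀ X : ℕ, X0 ≤ X → ∀ β : ℝ, |β| ≤ T / X →
    ‖∑ n ∈ (Icc 1 X).filter (fun n => n ≡ c [MOD q]), (f1 w n : ℂ) * ee ((n : ℝ) * β) -
        (1 / (Nat.totient q : ℂ)) * D X β‖ ≤ η * X := by
  classical
  set W := primorial w with hW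
  have hW0 : 0 < W := primorial_pos w
  have hqW : ∀ p : ℕ, p.Prime → p ∣ q → p ∣ W := by
    intro p hp hpq
    rw [hW]
    exact hp.dvd_primorial_iff.mpr (hqw p hp hpq)
  have hφq : (0 : ℝ) < Nat.totient q := by exact_mod_cast Nat.totient_pos.mpr hq
  have hφW : (0 : ℝ) < Nat.totient W := by exact_mod_cast Nat.totient_pos.mpr hW0
  set a : ℕ → ℝ := fun n => (if n ≡ c [MOD q] then f1 w n else 0) - 1 / (Nat.totient q : ℝ) with ha
  have hper : ∀ n, a (n + q * W) = a n := by
    intro n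
    have h1 : (n + q * W ≡ c [MOD q]) ↔ (n ≡ c [MOD q]) := by
      have : n + q * W ≡ n [MOD q] := by
        unfold Nat.ModEq
        rw [Nat.add_mul_mod_self_left]
      exact ⟨fun h => this.symm.trans h, fun h => this.trans h⟩
    have h2 : f1 w (n + q * W) = f1 w n := by
      unfold f1
      rw [← hW]
      have : Nat.Coprime (n + q * W) W ↔ Nat.Coprime n W := by
        rw [Nat.coprime_add_mul_right_left]
      simp only [this]
    rw [ha]
    simp only [h1, h2]
  have hsum : ∑ n ∈ range (q * W), a n = 0 := by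
    rw [ha]
    simp only
    rw [sum_sub_distrib, sum_const, card_range, nsmul_eq_mul, ← Finset.sum_filter]
    have h1 : ∑ n ∈ (range (q * W)).filter (fun n => n ≡ c [MOD q]), f1 w n =
        (((range (q * W)).filter (fun n => n ≡ c [MOD q] ∧ Nat.Coprime n W)).card : ℝ) *
          ((W : ℝ) / Nat.totient W) := by
      unfold f1
      rw [← hW, ← Finset.sum_filter, Finset.filter_filter, sum_const, nsmul_eq_mul]
    rw [h1]
    have h2 := MM_count q W hq hW0 hqW c hc
    have h3 : (Nat.totient q : ℝ) * (((range (q * W)).filter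
      (fun n => n ≡ c [MOD q] ∧ Nat.Coprime n W)).card : ℝ) = q * Nat.totient W := by
      exact_mod_cast h2
    have h4 : (((range (q * W)).filter
      (fun n => n ≡ c [MOD q] ∧ Nat.Coprime n W)).card : ℝ) = q * Nat.totient W / Nat.totient q := by
      rw [eq_div_iff hφq.ne', mul_comm]
      exact h3
    rw [h4]
    push_cast
    field_simp
    ring
  obtain ⟨B, hB0, hB⟩ := MM_periodic a (q * W) (Nat.mul_pos hq hW0) hper hsum
  have hpi := Real.pi_pos
  refine ⟨⌈B * (1 + 2 * Real.pi * |T|) / η⌉₊ + 1, ?_⟩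
  intro X hX β hβ
  have hX1 : 1 ≤ X := by omega
  have hXR : (0 : ℝ) < X := by exact_mod_cast hX1
  have h1 : ∑ n ∈ (Icc 1 X).filter (fun n => n ≡ c [MOD q]), (f1 w n : ℂ) * ee ((n : ℝ) * β) -
        (1 / (Nat.totient q : ℂ)) * D X β = ∑ n ∈ Icc 1 X, (a n : ℂ) * ee ((n : ℝ) * β) := by
    unfold D
    rw [Finset.sum_filter, Finset.mul_sum, ← Finset.sum_sub_distrib]
    refine sum_congr rfl fun n _ => ?_
    rw [ha]
    simp only
    split_ifs with h
    · push_cast
      ring
    · push_cast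
      ring
  rw [h1]
  refine (MM_partial a B X (fun t _ => hB t) β).trans ?_
  have h2 : |β| * X ≤ |T| := by
    calc |β| * X ≤ T / X * X := mul_le_mul_of_nonneg_right hβ hXR.le
      _ = T := by field_simp
      _ ≤ |T| := le_abs_self T
  have h3 : B * (1 + 2 * Real.pi * |T|) / η ≤ X := by
    have h4 := Nat.le_ceil (B * (1 + 2 * Real.pi * |T|) / η)
    have h5 : ((⌈B * (1 + 2 * Real.pi * |T|) / η⌉₊ : ℕ) : ℝ) ≤ X := by
      exact_mod_cast (by omega : ⌈B * (1 + 2 * Real.pi * |T|) / η⌉₊ ≤ X)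
    linarith
  calc B * (1 + 2 * Real.pi * |β| * X) = B * (1 + 2 * Real.pi * (|β| * X)) := by ring
    _ ≤ B * (1 + 2 * Real.pi * |T|) := by gcongr
    _ ≤ η * X := by
      rw [div_le_iff₀ hη] at h3
      linarith

end Pool.MP_dd84fd_nt.En
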