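import Pool.Agent.Lib.MP_dd84fd_nt.En.MajF
import Pool.Agent.Lib.MP_dd84fd_nt.En.MajM

/-!
# primes and model agree at small height (module GB-MJ)
-/

set_option autoImplicit false

namespace Pool.MP_dd84fd_nt.En

open Finset Pool.MP_67663b_nt.Odd

private lemma MJ_ee {n c q : ℕ} (hq : 0 < q) (h : n ≡ c [MOD q]) (a : ℤ) (β : ℝ) :
    ee ((n : ℝ) * ((a : ℝ) / q + β)) = ee ((c : ℝ) * ((a : ℝ) / q)) * ee ((n : ℝ) * β) := by
  have hq0 : (q : ℝ) ≠ 0 := by exact_mod_cast hq.ne'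
  have h1 : (q : ℤ) ∣ (n : ℤ) - c := (Nat.modEq_iff_dvd.mp h.symm)
  obtain ⟨k, hk⟩ := h1
  have h2 : (n : ℝ) = c + q * k := by
    have : (n : ℤ) = c + q * k := by linarith
    exact_mod_cast this
  have h3 : (n : ℝ) * ((a : ℝ) / q + β) = ((c : ℝ) * ((a : ℝ) / q) + (n : ℝ) * β) + ((k * a : ℤ) : ℝ) := by
    have h4 : (n : ℝ) * ((a : ℝ) / q) = (c : ℝ) * ((a : ℝ) / q) + ((k * a : ℤ) : ℝ) := by
      rw [h2]
      push_cast
      field_simp
    rw [mul_add, h4]
    ring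
  rw [h3, ee_add_int, ee_add]

private lemma MJ_split (q : ℕ) (hq : 0 < q) (S : Finset ℕ) (f : ℕ → ℂ) :
    ∑ n ∈ S, f n = ∑ c ∈ range q, ∑ n ∈ S.filter (fun n => n ≡ c [MOD q]), f n := by
  classical
  rw [← Finset.sum_fiberwise_of_maps_to (s := S) (t := range q) (g := fun n => n % q)
    (fun n _ => mem_range.mpr (Nat.mod_lt _ hq))]
  refine sum_congr rfl fun c hc => ?_
  rw [mem_range] at hc
  refine sum_congr ?_ fun _ _ => rfl
  ext n
  simp only [mem_filter, Nat.ModEq, Nat.mod_eq_of_lt hc]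

theorem major_close (H0 : ℝ) (w : ℕ) (hw : H0 ≤ w) {η : ℝ} (hη : 0 < η) :
    ∃ X0 : ℕ, ∀ X : ℕ, X0 ≤ X → ∀ θ : ℝ, Ht H0 X θ →
    ‖PS 0 (X + 1) θ - F1 w X θ‖ ≤ η * X := by
  classical
  set η' : ℝ := η / (4 * ((w : ℝ) + 1)) with hη'
  have hη'0 : 0 < η' := by positivity
  -- uniform thresholds
  have hA : ∀ q c : ℕ, ∃ X0 : ℕ, 0 < q → Nat.Coprime c q → ∀ X : ℕ, X0 ≤ X → ∀ β : ℝ,
      |β| ≤ H0 / X → ‖∑ p ∈ (pr 0 ((X : ℝ) + 1)).filter (fun p => p ≡ c [MOD q]),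
        (Real.log p : ℂ) * ee ((p : ℝ) * β) - (1 / (Nat.totient q : ℂ)) * D X β‖ ≤ η' * X := by
    intro q c
    by_cases h : 0 < q ∧ Nat.Coprime c q
    · obtain ⟨X0, hX0⟩ := F_class q h.1 c h.2 H0 hη'0
      exact ⟨X0, fun _ _ => hX0⟩
    · exact ⟨0, fun h1 h2 => absurd ⟨h1, h2⟩ h⟩
  have hB : ∀ q c : ℕ, ∃ X0 : ℕ, 0 < q → q ≤ w → Nat.Coprime c q → ∀ X : ℕ, X0 ≤ X → ∀ β : ℝ,
      |β| ≤ H0 / X → ‖∑ n ∈ (Icc 1 X).filter (fun n => n ≡ c [MOD q]), (f1 w n : ℂ) *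
        ee ((n : ℝ) * β) - (1 / (Nat.totient q : ℂ)) * D X β‖ ≤ η' * X := by
    intro q c
    by_cases h : 0 < q ∧ q ≤ w ∧ Nat.Coprime c q
    · obtain ⟨X0, hX0⟩ := f1_class w q h.1
        (fun p _ hpq => (Nat.le_of_dvd h.1 hpq).trans h.2.1) c h.2.2 H0 hη'0
      exact ⟨X0, fun _ _ _ => hX0⟩
    · exact ⟨0, fun h1 h2 h3 => absurd ⟨h1, h2, h3⟩ h⟩
  choose XA hXA using hA
  choose XB hXB using hB
  set X1 : ℕ := ∑ q ∈ range (w + 1), ∑ c ∈ range q, (XA q c + XB q c) with hX1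
  refine ⟨X1 + ⌈2 * ((w : ℝ) * (w * (w + 1))) / η⌉₊ + 1, ?_⟩
  intro X hX θ hHt
  have hXR : (0 : ℝ) < X := by exact_mod_cast (by omega : 0 < X)
  obtain ⟨q, a, hq, hgcd, hle⟩ := hHt
  set β : ℝ := θ - (a : ℝ) / q with hβ
  have hθ : θ = (a : ℝ) / q + β := by rw [hβ]; ring
  have hqR : (1 : ℝ) ≤ q := by exact_mod_cast hq
  have hXβ : 0 ≤ (X : ℝ) * |β| := by positivity
  have hqH : (q : ℝ) ≤ H0 := by nlinarith
  have hqw : q ≤ w := by exact_mod_cast hqH.trans hw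
  have hβH : |β| ≤ H0 / X := by
    rw [le_div_iff₀ hXR]
    nlinarith
  have hXX : 2 * ((w : ℝ) * (w * (w + 1))) ≤ η * X := by
    have h1 := Nat.le_ceil (2 * ((w : ℝ) * (w * (w + 1))) / η)
    have h2 : ((⌈2 * ((w : ℝ) * (w * (w + 1))) / η⌉₊ : ℕ) : ℝ) ≤ X := by
      exact_mod_cast (by omega : ⌈2 * ((w : ℝ) * (w * (w + 1))) / η⌉₊ ≤ X)
    have h3 := h1.trans h2
    rw [div_le_iff₀ hη] at h3
    linarith
  -- class by class
  have hclass : ∀ c ∈ range q,
      ‖∑ p ∈ (pr 0 ((X : ℝ) + 1)).filter (fun p => p ≡ c [MOD q]), (Real.log p : ℂ) * ee (p * θ) -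
        ∑ n ∈ (Icc 1 X).filter (fun n => n ≡ c [MOD q]), (f1 w n : ℂ) * ee ((n : ℝ) * θ)‖ ≤
      2 * η' * X + w * (w + 1) := by
    intro c hc
    by_cases hcop : Nat.Coprime c q
    · have hXge : XA q c + XB q c ≤ X := by
        have h1 : XA q c + XB q c ≤ ∑ c ∈ range q, (XA q c + XB q c) :=
          Finset.single_le_sum (f := fun c => XA q c + XB q c) (fun _ _ => Nat.zero_le _) hc
        have h2 : ∑ c ∈ range q, (XA q c + XB q c) ≤ X1 :=
          Finset.single_le_sum (f := fun q => ∑ c ∈ range q, (XA q c + XB q c))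
            (fun _ _ => Nat.zero_le _) (mem_range.mpr (by omega))
        omega
      have h3 := hXA q c hq hcop X (by omega) β hβH
      have h4 := hXB q c hq hqw hcop X (by omega) β hβH
      have e1 : ∑ p ∈ (pr 0 ((X : ℝ) + 1)).filter (fun p => p ≡ c [MOD q]),
          (Real.log p : ℂ) * ee (p * θ) = ee ((c : ℝ) * ((a : ℝ) / q)) *
          ∑ p ∈ (pr 0 ((X : ℝ) + 1)).filter (fun p => p ≡ c [MOD q]),
            (Real.log p : ℂ) * ee ((p : ℝ) * β) := by
        rw [Finset.mul_sum]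
        refine sum_congr rfl fun p hp => ?_
        rw [hθ, MJ_ee hq (mem_filter.mp hp).2]
        ring
      have e2 : ∑ n ∈ (Icc 1 X).filter (fun n => n ≡ c [MOD q]), (f1 w n : ℂ) * ee ((n : ℝ) * θ) =
          ee ((c : ℝ) * ((a : ℝ) / q)) *
          ∑ n ∈ (Icc 1 X).filter (fun n => n ≡ c [MOD q]), (f1 w n : ℂ) * ee ((n : ℝ) * β) := by
        rw [Finset.mul_sum]
        refine sum_congr rfl fun p hp => ?_
        rw [hθ, MJ_ee hq (mem_filter.mp hp).2]
        ring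
      rw [e1, e2, ← mul_sub, norm_mul, norm_ee, one_mul]
      have h5 := norm_sub_le_norm_sub_add_norm_sub
        (∑ p ∈ (pr 0 ((X : ℝ) + 1)).filter (fun p => p ≡ c [MOD q]),
          (Real.log p : ℂ) * ee ((p : ℝ) * β)) ((1 / (Nat.totient q : ℂ)) * D X β)
        (∑ n ∈ (Icc 1 X).filter (fun n => n ≡ c [MOD q]), (f1 w n : ℂ) * ee ((n : ℝ) * β))
      rw [norm_sub_rev ((1 / (Nat.totient q : ℂ)) * D X β)] at h5
      have h6 : (0 : ℝ) ≤ w * (w + 1) := by positivity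
      linarith
    · -- the primes dividing the modulus
      have hf1 : ∑ n ∈ (Icc 1 X).filter (fun n => n ≡ c [MOD q]), (f1 w n : ℂ) *
          ee ((n : ℝ) * θ) = 0 := by
        refine sum_eq_zero fun n hn => ?_
        obtain ⟨p, hp, hpc, hpq⟩ := Nat.Prime.not_coprime_iff_dvd.mp hcop
        have h1 : p ∣ n := by
          have h2 : n ≡ c [MOD p] := Nat.ModEq.of_dvd hpq (mem_filter.mp hn).2
          exact (Nat.ModEq.dvd_iff h2 dvd_rfl).mpr hpc
        have h3 : p ∣ primorial w :=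
          hp.dvd_primorial_iff.mpr ((Nat.le_of_dvd hq hpq).trans hqw)
        have h4 : f1 w n = 0 := by
          unfold f1
          rw [if_neg]
          exact Nat.Prime.not_coprime_iff_dvd.mpr ⟨p, hp, h1, h3⟩
        rw [h4]
        simp
      rw [hf1, sub_zero]
      have hpd : ∀ p ∈ (pr 0 ((X : ℝ) + 1)).filter (fun p => p ≡ c [MOD q]), p ∈ range (w + 1) := by
        intro p hp
        rw [mem_filter, mem_pr] at hp
        obtain ⟨l, hl, hlc, hlq⟩ := Nat.Prime.not_coprime_iff_dvd.mp hcop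
        have h2 : p ≡ c [MOD l] := Nat.ModEq.of_dvd hlq hp.2
        have h3 : l ∣ p := (Nat.ModEq.dvd_iff h2 dvd_rfl).mpr hlc
        have h4 : l = p := (Nat.prime_dvd_prime_iff_eq hl hp.1.1).mp h3
        rw [mem_range]
        have h5 : l ≤ q := Nat.le_of_dvd hq hlq
        omega
      have hterm : ∀ p ∈ (pr 0 ((X : ℝ) + 1)).filter (fun p => p ≡ c [MOD q]),
          ‖(Real.log p : ℂ) * ee (p * θ)‖ ≤ w := by
        intro p hp
        have h1 := mem_range.mp (hpd p hp)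
        rw [mem_filter, mem_pr] at hp
        have h2 : (1 : ℝ) ≤ p := by exact_mod_cast hp.1.1.one_le
        rw [norm_mul, norm_ee, mul_one, Complex.norm_real, Real.norm_eq_abs,
          abs_of_nonneg (Real.log_nonneg h2)]
        have h3 := Real.log_le_sub_one_of_pos (by linarith : (0 : ℝ) < p)
        have h4 : (p : ℝ) ≤ w := by exact_mod_cast (by omega : p ≤ w)
        linarith
      have hcard : ((pr 0 ((X : ℝ) + 1)).filter (fun p => p ≡ c [MOD q])).card ≤ w + 1 := by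
        have := card_le_card (s := (pr 0 ((X : ℝ) + 1)).filter (fun p => p ≡ c [MOD q]))
          (t := range (w + 1)) hpd
        rwa [card_range] at this
      calc _ ≤ ∑ p ∈ (pr 0 ((X : ℝ) + 1)).filter (fun p => p ≡ c [MOD q]), (w : ℝ) :=
            (norm_sum_le _ _).trans (sum_le_sum hterm)
        _ = ((pr 0 ((X : ℝ) + 1)).filter (fun p => p ≡ c [MOD q])).card * (w : ℝ) := by
            rw [sum_const, nsmul_eq_mul]
        _ ≤ ((w + 1 : ℕ) : ℝ) * w := by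
            apply mul_le_mul_of_nonneg_right _ (Nat.cast_nonneg w)
            exact_mod_cast hcard
        _ ≤ 2 * η' * X + w * (w + 1) := by
            push_cast
            have : 0 ≤ 2 * η' * X := by positivity
            nlinarith
  -- summation
  have hPS : PS 0 (X + 1) θ - F1 w X θ = ∑ c ∈ range q,
      (∑ p ∈ (pr 0 ((X : ℝ) + 1)).filter (fun p => p ≡ c [MOD q]), (Real.log p : ℂ) * ee (p * θ) -
        ∑ n ∈ (Icc 1 X).filter (fun n => n ≡ c [MOD q]), (f1 w n : ℂ) * ee ((n : ℝ) * θ)) := by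
    unfold PS F1
    rw [MJ_split q hq (pr 0 ((X : ℝ) + 1)), MJ_split q hq (Icc 1 X), ← Finset.sum_sub_distrib]
  rw [hPS]
  have hqw' : (q : ℝ) ≤ w := by exact_mod_cast hqw
  have hw0 : (0 : ℝ) ≤ w := Nat.cast_nonneg w
  calc _ ≤ ∑ _c ∈ range q, (2 * η' * X + w * (w + 1)) := (norm_sum_le _ _).trans (sum_le_sum hclass)
    _ = q * (2 * η' * X + w * (w + 1)) := by rw [sum_const, card_range, nsmul_eq_mul]
    _ ≤ w * (2 * η' * X + w * (w + 1)) := mul_le_mul_of_nonneg_right hqw' (by positivity)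
    _ = w * (2 * η' * X) + w * (w * (w + 1)) := by ring
    _ ≤ η / 2 * X + η * X / 2 := by
      apply add_le_add
      · have h1 : (w : ℝ) * (2 * η' * X) = (w / (w + 1)) * (η / 2 * X) := by
          rw [hη']
          field_simp
          ring
        rw [h1]
        have h2 : (w : ℝ) / (w + 1) ≤ 1 := by
          rw [div_le_one (by positivity)]
          linarith
        have h3 : 0 ≤ η / 2 * X := by positivity
        nlinarith
      · linarith
    _ = η * X := by ring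

end Pool.MP_dd84fd_nt.En
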