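import Pool.Agent.Lib.MP_dd84fd_nt.En.VinB
import Pool.Agent.Lib.MP_67663b_nt.OddB.LSieve

/-!
# L^s norm of the prime sum over the minor arcs (module GB-TF2)
-/

set_option autoImplicit false

namespace Pool.MP_dd84fd_nt.En

open Finset Pool.MP_67663b_nt.Odd

private lemma TF2_growth (B L : ℝ) : ∃ X0 : ℕ, ∀ X : ℕ, X0 ≤ X →
    (Real.log X) ^ B ≤ (X : ℝ) ∧ L ≤ Real.log X := by
  have h1 : (fun x : ℝ => Real.log x ^ B) =o[Filter.atTop] fun x => x ^ (1 : ℝ) :=
    isLittleO_log_rpow_rpow_atTop B (by norm_num)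
  have h2 := h1.bound (c := 1) (by norm_num)
  have h3 := (tendsto_natCast_atTop_atTop (R := ℝ)).eventually
    ((h2.and (Filter.eventually_ge_atTop (1 : ℝ))).and
      (Real.tendsto_log_atTop.eventually_ge_atTop L))
  obtain ⟨X0, hX0⟩ := Filter.eventually_atTop.1 h3
  refine ⟨X0, fun X hX => ?_⟩
  obtain ⟨⟨h4, h5⟩, h6⟩ := hX0 X hX
  refine ⟨?_, h6⟩
  have h5' : (0 : ℝ) < X := by linarith
  rw [Real.norm_of_nonneg (Real.rpow_nonneg h5'.le _), one_mul, Real.rpow_one] at h4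
  exact (Real.le_norm_self _).trans h4

private lemma TF2_sep {J X : ℕ} (hJ : 0 < J) (hX : 0 < X) {i j : ℕ} (hi : i < J * X)
    (hj : j < J * X) (hne : i ≠ j) (l : ℤ) :
    1 / ((J : ℝ) * X) ≤ |(i : ℝ) / (J * X) - (j : ℝ) / (J * X) - l| := by
  have hJ' : (0 : ℝ) < J := by exact_mod_cast hJ
  have hX' : (0 : ℝ) < X := by exact_mod_cast hX
  have hJX : (0 : ℝ) < (J : ℝ) * X := by positivity
  have h1 : (i : ℝ) / (J * X) - (j : ℝ) / (J * X) - l =
      (((i : ℤ) - j - l * (J * X) : ℤ) : ℝ) / (J * X) := by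
    push_cast
    field_simp
  rw [h1, abs_div, abs_of_pos hJX]
  apply div_le_div_of_nonneg_right _ hJX.le
  have h4 : (i : ℤ) - j - l * (J * X) ≠ 0 := by
    intro h5
    have h7 : (i : ℤ) - j = l * (J * X) := by linarith
    have hl : l = 0 := by
      have hpos : (0 : ℤ) < J * X := by positivity
      have hi' : (i : ℤ) < J * X := by exact_mod_cast hi
      have hj' : (j : ℤ) < J * X := by exact_mod_cast hj
      have hi0 : (0 : ℤ) ≤ i := by positivity
      have hj0 : (0 : ℤ) ≤ j := by positivity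
      by_contra hl
      rcases lt_or_gt_of_ne hl with hl' | hl'
      · have : l * (J * X) ≤ -1 * (J * X) :=
          mul_le_mul_of_nonneg_right (by omega) hpos.le
        linarith
      · have : 1 * (J * X) ≤ l * (J * X) :=
          mul_le_mul_of_nonneg_right (by omega) hpos.le
        linarith
    rw [hl, zero_mul] at h7
    apply hne
    omega
  rw [← Int.cast_abs]
  exact_mod_cast Int.one_le_abs h4

private lemma TF2_L2 {J X : ℕ} (hJ : 0 < J) (hX : 2 ≤ X) :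
    ∑ j ∈ range (J * X), ‖PS 0 (X + 1) ((j : ℝ) / (J * X))‖ ^ 2 ≤
      8 * ((J : ℝ) + 26) * (X : ℝ) ^ 2 * Real.log X := by
  have hJ' : (1 : ℝ) ≤ J := by exact_mod_cast hJ
  have hX' : (2 : ℝ) ≤ X := by exact_mod_cast hX
  have hJX : (1 : ℝ) ≤ (J : ℝ) * X := by nlinarith
  have h1 := large_sieve_c (range (J * X)) (fun j : ℕ => (j : ℝ) / (J * X))
    (δ := 1 / ((J : ℝ) * X)) (by positivity)
    (by rw [div_le_one (by linarith)]; exact hJX)
    (fun i hi j hj hne l => TF2_sep hJ (by omega) (Finset.mem_range.1 hi)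
      (Finset.mem_range.1 hj) hne l)
    (pr 0 (X + 1)) (fun q => (Real.log q : ℂ)) (N := (X : ℝ) + 1) (by positivity)
    (fun n hn => (mem_pr.1 hn).2.2.le)
  have h2 : ∑ n ∈ pr 0 ((X : ℝ) + 1), ‖((Real.log n : ℝ) : ℂ)‖ ^ 2 ≤
      Real.log ((X : ℝ) + 1) * (2 * ((X : ℝ) + 1)) := by
    calc ∑ n ∈ pr 0 ((X : ℝ) + 1), ‖((Real.log n : ℝ) : ℂ)‖ ^ 2
        ≤ ∑ n ∈ pr 0 ((X : ℝ) + 1), Real.log ((X : ℝ) + 1) * Real.log n := by
          apply Finset.sum_le_sum
          intro n hn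
          obtain ⟨hp, -, hn2⟩ := mem_pr.1 hn
          have h3 : (1 : ℝ) ≤ n := by exact_mod_cast hp.one_le
          have h4 : 0 ≤ Real.log n := Real.log_nonneg h3
          rw [Complex.norm_real, Real.norm_of_nonneg h4, sq]
          apply mul_le_mul_of_nonneg_right _ h4
          exact Real.log_le_log (by linarith) hn2.le
      _ = Real.log ((X : ℝ) + 1) * ∑ n ∈ pr 0 ((X : ℝ) + 1), Real.log n := by
          rw [Finset.mul_sum]
      _ ≤ _ := mul_le_mul_of_nonneg_left (sum_log_pr_le (by positivity))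
          (Real.log_nonneg (by linarith))
  have h3 : Real.log ((X : ℝ) + 1) ≤ 2 * Real.log X := by
    have h4 : Real.log ((X : ℝ) + 1) ≤ Real.log ((X : ℝ) ^ 2) :=
      Real.log_le_log (by linarith) (by nlinarith)
    rwa [Real.log_pow, Nat.cast_ofNat] at h4
  have hlog : 0 ≤ Real.log X := Real.log_nonneg (by linarith)
  have h5 : ∑ j ∈ range (J * X), ‖PS 0 (X + 1) ((j : ℝ) / (J * X))‖ ^ 2 ≤
      ((1 / ((J : ℝ) * X))⁻¹ + 4 * Real.pi * ((X : ℝ) + 1)) *
        ∑ n ∈ pr 0 ((X : ℝ) + 1), ‖((Real.log n : ℝ) : ℂ)‖ ^ 2 := h1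
  have hpi : Real.pi ≤ 3.25 := by
    have := Real.pi_lt_d2
    linarith
  have hpi0 := Real.pi_pos
  have h6 : (1 / ((J : ℝ) * X))⁻¹ + 4 * Real.pi * ((X : ℝ) + 1) ≤ ((J : ℝ) + 26) * X := by
    rw [one_div, inv_inv]
    have : 4 * Real.pi * ((X : ℝ) + 1) ≤ 13 * (2 * X) := by
      apply mul_le_mul (by linarith) (by linarith) (by positivity) (by norm_num)
    linarith
  have h7 : Real.log ((X : ℝ) + 1) * (2 * ((X : ℝ) + 1)) ≤ (2 * Real.log X) * (4 * X) := by
    apply mul_le_mul h3 (by linarith) (by positivity) (by positivity)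
  calc ∑ j ∈ range (J * X), ‖PS 0 (X + 1) ((j : ℝ) / (J * X))‖ ^ 2
      ≤ _ := h5
    _ ≤ (((J : ℝ) + 26) * X) * ((2 * Real.log X) * (4 * X)) := by
        apply mul_le_mul h6 (h2.trans h7) (Finset.sum_nonneg fun _ _ => by positivity)
          (by positivity)
    _ = _ := by ring

open Classical in
theorem minor_tail {s : ℝ} (hs : 2 < s) (J : ℕ) (hJ : 0 < J) {η : ℝ} (hη : 0 < η) :
    ∃ B : ℝ, 0 < B ∧ ∃ X0 : ℕ, ∀ X : ℕ, X0 ≤ X →
    ∑ j ∈ (range (J * X)).filter (fun j : ℕ =>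
        ¬ Ht ((Real.log X) ^ B) X ((j : ℝ) / (J * X))),
      ‖PS 0 (X + 1) ((j : ℝ) / (J * X))‖ ^ s ≤ η * (X : ℝ) ^ s := by
  set A : ℝ := 2 / (s - 2) with hA
  obtain ⟨B', hB', X1, hX1⟩ := vin_large A
  refine ⟨B' + 1, by linarith, ?_⟩
  obtain ⟨X2, hX2⟩ := TF2_growth B' (2 + 8 * ((J : ℝ) + 26) / η)
  refine ⟨X1 + X2 + 2, fun X hX => ?_⟩
  obtain ⟨hg1, hg2⟩ := hX2 X (by omega)
  have hX2' : 2 ≤ X := by omega
  have hXr : (2 : ℝ) ≤ X := by exact_mod_cast hX2'
  have hXpos : (0 : ℝ) < X := by linarith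
  have hq0 : 0 ≤ 8 * ((J : ℝ) + 26) / η := by positivity
  have hlog2 : 2 ≤ Real.log X := by linarith
  have hlogpos : 0 < Real.log X := by linarith
  have hLB : 0 < (Real.log X) ^ B' := Real.rpow_pos_of_pos hlogpos _
  set S := (range (J * X)).filter (fun j : ℕ =>
        ¬ Ht ((Real.log X) ^ (B' + 1)) X ((j : ℝ) / (J * X))) with hS
  -- the pointwise bound
  have hPS : ∀ j ∈ S, ‖PS 0 (X + 1) ((j : ℝ) / (J * X))‖ ≤ X / (Real.log X) ^ A := by
    intro j hj
    have hnot := (Finset.mem_filter.1 hj).2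
    set θ : ℝ := (j : ℝ) / (J * X) with hθ
    set Q : ℝ := X / (Real.log X) ^ B' with hQ
    have hQ1 : 1 ≤ Q := by
      rw [hQ, le_div_iff₀ hLB, one_mul]
      exact hg1
    have hn : 0 < ⌊Q⌋₊ := Nat.floor_pos.2 hQ1
    obtain ⟨r, hr1, hr2⟩ := Real.exists_rat_abs_sub_le_and_den_le θ hn
    have hden : 0 < r.den := r.den_pos
    have hdenr : (0 : ℝ) < r.den := by exact_mod_cast hden
    have hr : (r : ℝ) = (r.num : ℝ) / (r.den : ℝ) := by exact_mod_cast (Rat.num_div_den r).symm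
    rw [hr] at hr1
    have hQfl : Q < (⌊Q⌋₊ : ℝ) + 1 := Nat.lt_floor_add_one Q
    have hdQ : (r.den : ℝ) ≤ Q :=
      (by exact_mod_cast hr2 : (r.den : ℝ) ≤ (⌊Q⌋₊ : ℝ)).trans (Nat.floor_le (by linarith))
    have hgcd : Int.gcd r.num r.den = 1 := r.reduced
    have hb1 : |θ - (r.num : ℝ) / r.den| ≤ 1 / (Q * r.den) := by
      refine hr1.trans ?_
      apply one_div_le_one_div_of_le (by positivity)
      exact mul_le_mul_of_nonneg_right hQfl.le hdenr.le
    have hb2 : |θ - (r.num : ℝ) / r.den| ≤ 1 / (r.den : ℝ) ^ 2 := by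
      refine hb1.trans ?_
      apply one_div_le_one_div_of_le (by positivity)
      rw [sq]
      exact mul_le_mul_of_nonneg_right hdQ hdenr.le
    have hbig : (Real.log X) ^ (B' + 1) < (r.den : ℝ) * (1 + X * |θ - (r.num : ℝ) / r.den|) := by
      by_contra hcon
      push Not at hcon
      exact hnot ⟨r.den, r.num, hden, hgcd, hcon⟩
    have h3 : (r.den : ℝ) * (1 + X * |θ - (r.num : ℝ) / r.den|) ≤ r.den + (Real.log X) ^ B' := by
      have h4 : (r.den : ℝ) * (X * |θ - (r.num : ℝ) / r.den|) ≤ (Real.log X) ^ B' := by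
        calc (r.den : ℝ) * (X * |θ - (r.num : ℝ) / r.den|)
            ≤ (r.den : ℝ) * (X * (1 / (Q * r.den))) := by
              apply mul_le_mul_of_nonneg_left _ hdenr.le
              exact mul_le_mul_of_nonneg_left hb1 hXpos.le
          _ = (Real.log X) ^ B' := by
              rw [hQ]
              field_simp
      rw [mul_add, mul_one]
      linarith
    have h4 : (Real.log X) ^ (B' + 1) = (Real.log X) ^ B' * Real.log X := by
      rw [Real.rpow_add hlogpos, Real.rpow_one]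
    have h5 : (Real.log X) ^ B' ≤ r.den := by
      have h6 : 2 * (Real.log X) ^ B' ≤ (Real.log X) ^ B' * Real.log X := by
        rw [mul_comm]
        exact mul_le_mul_of_nonneg_left hlog2 hLB.le
      linarith
    have h6 : (r.den : ℝ) * (Real.log X) ^ B' ≤ X := by
      rw [hQ, le_div_iff₀ hLB] at hdQ
      exact hdQ
    exact hX1 X (by omega) θ r.den r.num hden hgcd h5 h6 hb2
  set M : ℝ := X / (Real.log X) ^ A with hM
  have hM0 : 0 < M := by positivity
  have hterm : ∀ j ∈ S, ‖PS 0 (X + 1) ((j : ℝ) / (J * X))‖ ^ s ≤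
      M ^ (s - 2) * ‖PS 0 (X + 1) ((j : ℝ) / (J * X))‖ ^ 2 := by
    intro j hj
    have h0 : 0 ≤ ‖PS 0 (X + 1) ((j : ℝ) / (J * X))‖ := norm_nonneg _
    rcases h0.eq_or_lt with h1 | h1
    · rw [← h1, Real.zero_rpow (by linarith)]
      positivity
    · have h2 : ‖PS 0 (X + 1) ((j : ℝ) / (J * X))‖ ^ s =
          ‖PS 0 (X + 1) ((j : ℝ) / (J * X))‖ ^ (s - 2) *
          ‖PS 0 (X + 1) ((j : ℝ) / (J * X))‖ ^ 2 := by
        rw [← Real.rpow_natCast, ← Real.rpow_add h1]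
        congr 1
        push_cast
        ring
      rw [h2]
      apply mul_le_mul_of_nonneg_right _ (by positivity)
      exact Real.rpow_le_rpow h0 (hPS j hj) (by linarith)
  have hL2 : ∑ j ∈ S, ‖PS 0 (X + 1) ((j : ℝ) / (J * X))‖ ^ 2 ≤
      8 * ((J : ℝ) + 26) * (X : ℝ) ^ 2 * Real.log X :=
    (Finset.sum_le_sum_of_subset_of_nonneg (Finset.filter_subset _ _)
      fun _ _ _ => by positivity).trans (TF2_L2 hJ hX2')
  refine (Finset.sum_le_sum hterm).trans ?_
  rw [← Finset.mul_sum]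
  refine (mul_le_mul_of_nonneg_left hL2 (by positivity)).trans ?_
  have h1 : M ^ (s - 2) = (X : ℝ) ^ (s - 2) * ((Real.log X) ^ 2)⁻¹ := by
    rw [hM, Real.div_rpow hXpos.le (by positivity), ← Real.rpow_mul hlogpos.le]
    have h2 : A * (s - 2) = ((2 : ℕ) : ℝ) := by
      rw [hA]
      have : s - 2 ≠ 0 := by linarith
      push_cast
      field_simp
    rw [h2, Real.rpow_natCast, div_eq_mul_inv]
  have h2 : (X : ℝ) ^ s = (X : ℝ) ^ (s - 2) * (X : ℝ) ^ 2 := by
    rw [← Real.rpow_natCast, ← Real.rpow_add hXpos]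
    congr 1
    push_cast
    ring
  rw [h1, h2]
  have h3 : 8 * ((J : ℝ) + 26) ≤ η * Real.log X := by
    have h4 : 8 * ((J : ℝ) + 26) / η ≤ Real.log X := by linarith
    rw [div_le_iff₀ hη] at h4
    linarith
  have h4 : (X : ℝ) ^ (s - 2) * ((Real.log X) ^ 2)⁻¹ * (8 * ((J : ℝ) + 26) * (X : ℝ) ^ 2 *
      Real.log X) = (8 * ((J : ℝ) + 26)) * (Real.log X)⁻¹ *
      ((X : ℝ) ^ (s - 2) * (X : ℝ) ^ 2) := by
    field_simp
  rw [h4]
  apply mul_le_mul_of_nonneg_right _ (by positivity)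
  rw [← div_eq_mul_inv, div_le_iff₀ hlogpos]
  exact h3

end Pool.MP_dd84fd_nt.En
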