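import Pool.Agent.Lib.MP_dd84fd_nt.En.TailF1
import Pool.Agent.Lib.MP_dd84fd_nt.En.TailF2

/-!
# the L^s tail of the prime exponential sum (module GB-TF3)
-/

set_option autoImplicit false

namespace Pool.MP_dd84fd_nt.En

open Finset Pool.MP_67663b_nt.Odd

private lemma TF3_mono {H H' X θ : ℝ} (h : H ≤ H') (h1 : Ht H X θ) : Ht H' X θ := by
  obtain ⟨q, a, hq, ha, h2⟩ := h1
  exact ⟨q, a, hq, ha, h2.trans h⟩

private lemma TF3_log (L : ℝ) : ∃ X0 : ℕ, ∀ X : ℕ, X0 ≤ X → L ≤ Real.log X := by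
  have h3 := (tendsto_natCast_atTop_atTop (R := ℝ)).eventually
    (Real.tendsto_log_atTop.eventually_ge_atTop L)
  exact Filter.eventually_atTop.1 h3

private lemma TF3_summable {s : ℝ} (hs : 2 < s) (C : ℝ) :
    Summable fun k : ℕ => C * ((k : ℝ) + 2) * ((2 : ℝ) ^ k) ^ (-((s - 2) / 4)) := by
  set r : ℝ := (2 : ℝ) ^ (-((s - 2) / 4)) with hr
  have hr0 : 0 < r := by positivity
  have hr1 : r < 1 := Real.rpow_lt_one_of_one_lt_of_neg (by norm_num) (by linarith)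
  have hrn : ‖r‖ < 1 := by rwa [Real.norm_of_nonneg hr0.le]
  have h1 : Summable fun k : ℕ => (k : ℝ) ^ 1 * r ^ k :=
    summable_pow_mul_geometric_of_norm_lt_one 1 hrn
  have h2 : Summable fun k : ℕ => r ^ k := summable_geometric_of_norm_lt_one hrn
  have h3 := ((h1.add (h2.mul_left 2)).mul_left C)
  refine h3.congr fun k => ?_
  have h4 : ((2 : ℝ) ^ k) ^ (-((s - 2) / 4)) = r ^ k := by
    rw [hr, ← Real.rpow_natCast, ← Real.rpow_natCast, ← Real.rpow_mul (by norm_num),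
      ← Real.rpow_mul (by norm_num)]
    congr 1
    ring
  rw [h4]
  ring

open Classical in
theorem tail_F {s : ℝ} (hs : 2 < s) {η : ℝ} (hη : 0 < η) (J : ℕ) (hJ : 0 < J) :
    ∃ H0 : ℝ, 1 ≤ H0 ∧ ∀ H : ℝ, H0 ≤ H → ∃ X0 : ℕ, ∀ X : ℕ, X0 ≤ X →
      ∑ j ∈ (range (J * X)).filter (fun j : ℕ => ¬ Ht H X ((j : ℝ) / (J * X))),
        ‖PS 0 (X + 1) ((j : ℝ) / (J * X))‖ ^ s ≤ η * (X : ℝ) ^ s := by
  obtain ⟨C, hC, hshell⟩ := shell_tail hs J hJ
  obtain ⟨B, hB, X2, hX2⟩ := minor_tail hs J hJ (half_pos hη)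
  obtain ⟨X1, hX1⟩ := hshell (B + 1)
  obtain ⟨X3, hX3⟩ := TF3_log 2
  obtain ⟨t, ht⟩ := summable_iff_vanishing_norm.1 (TF3_summable hs C) (η / 2) (half_pos hη)
  set k0 : ℕ := t.sup id + 1 with hk0
  refine ⟨2 ^ k0, one_le_pow₀ (by norm_num), fun H hH => ⟨X1 + X2 + X3 + 1, fun X hX => ?_⟩⟩
  have hXpos : (0 : ℝ) < X := by exact_mod_cast (by omega : 0 < X)
  have hlog2 : 2 ≤ Real.log X := hX3 X (by omega)
  have hlogpos : 0 < Real.log X := by linarith
  have hLB : 0 < (Real.log X) ^ B := Real.rpow_pos_of_pos hlogpos _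
  have hLB1 : 2 * (Real.log X) ^ B ≤ (Real.log X) ^ (B + 1) := by
    rw [Real.rpow_add hlogpos, Real.rpow_one, mul_comm]
    exact mul_le_mul_of_nonneg_left hlog2 hLB.le
  obtain ⟨K1, hK1⟩ := pow_unbounded_of_one_lt ((Real.log X) ^ (B + 1)) (by norm_num : (1 : ℝ) < 2)
  set K : Finset ℕ := (Ico k0 K1).filter (fun k => (2 : ℝ) ^ (k + 1) ≤ (Real.log X) ^ (B + 1))
    with hK
  set F : ℕ → ℝ := fun j => ‖PS 0 (X + 1) ((j : ℝ) / (J * X))‖ ^ s with hF
  have hF0 : ∀ j, 0 ≤ F j := fun j => by positivity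
  -- the pointwise covering
  have hcov : ∀ j ∈ range (J * X), (if ¬ Ht H X ((j : ℝ) / (J * X)) then F j else 0) ≤
      (if ¬ Ht ((Real.log X) ^ B) X ((j : ℝ) / (J * X)) then F j else 0) +
      ∑ k ∈ K, (if Ht (2 ^ (k + 1)) X ((j : ℝ) / (J * X)) ∧
        ¬ Ht (2 ^ k) X ((j : ℝ) / (J * X)) then F j else 0) := by
    intro j _
    have hsum0 : 0 ≤ ∑ k ∈ K, (if Ht (2 ^ (k + 1)) X ((j : ℝ) / (J * X)) ∧
        ¬ Ht (2 ^ k) X ((j : ℝ) / (J * X)) then F j else 0) := by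
      apply Finset.sum_nonneg
      intro k _
      split_ifs
      · exact hF0 j
      · exact le_rfl
    have hmin0 : 0 ≤ (if ¬ Ht ((Real.log X) ^ B) X ((j : ℝ) / (J * X)) then F j else 0) := by
      by_cases h : Ht ((Real.log X) ^ B) X ((j : ℝ) / (J * X))
      · rw [if_neg (not_not.2 h)]
      · rw [if_pos h]
        exact hF0 j
    by_cases h1 : Ht H X ((j : ℝ) / (J * X))
    · rw [if_neg (not_not.2 h1)]
      linarith
    rw [if_pos h1]
    by_cases h2 : Ht ((Real.log X) ^ B) X ((j : ℝ) / (J * X))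
    · rw [if_neg (not_not.2 h2), zero_add]
      -- the least `m` with `Ht (2 ^ m)`
      have hex : ∃ m : ℕ, Ht (2 ^ m) X ((j : ℝ) / (J * X)) := by
        refine ⟨K1, TF3_mono ?_ h2⟩
        linarith
      set m := Nat.find hex with hm
      have hm1 : Ht (2 ^ m) X ((j : ℝ) / (J * X)) := Nat.find_spec hex
      have hm2 : ∀ l < m, ¬ Ht (2 ^ l) X ((j : ℝ) / (J * X)) := fun l hl => Nat.find_min hex hl
      have hmk : k0 < m := by
        by_contra hcon
        push Not at hcon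
        apply h1
        refine TF3_mono (le_trans ?_ hH) hm1
        exact pow_le_pow_right₀ (by norm_num) hcon
      obtain ⟨k, hk⟩ : ∃ k, m = k + 1 := ⟨m - 1, by omega⟩
      have hk2 : ¬ Ht (2 ^ k) X ((j : ℝ) / (J * X)) := hm2 k (by omega)
      have hlt : (2 : ℝ) ^ k < (Real.log X) ^ B := by
        by_contra hcon
        push Not at hcon
        exact hk2 (TF3_mono hcon h2)
      have hle : (2 : ℝ) ^ (k + 1) ≤ (Real.log X) ^ (B + 1) := by
        rw [pow_succ]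
        linarith
      have hkK1 : k < K1 := by
        have h3 : (2 : ℝ) ^ (k + 1) < 2 ^ K1 := lt_of_le_of_lt hle hK1
        have h4 := (pow_lt_pow_iff_right₀ (by norm_num : (1 : ℝ) < 2)).1 h3
        omega
      have hkK : k ∈ K := by
        rw [hK, Finset.mem_filter, Finset.mem_Ico]
        exact ⟨⟨by omega, hkK1⟩, hle⟩
      have h5 : (if Ht (2 ^ (k + 1)) X ((j : ℝ) / (J * X)) ∧
          ¬ Ht (2 ^ k) X ((j : ℝ) / (J * X)) then F j else 0) = F j := by
        rw [if_pos]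
        rw [← hk]
        exact ⟨hm1, hk2⟩
      refine h5.symm.le.trans ?_
      refine Finset.single_le_sum (f := fun k => (if Ht (2 ^ (k + 1)) X ((j : ℝ) / (J * X)) ∧
        ¬ Ht (2 ^ k) X ((j : ℝ) / (J * X)) then F j else 0)) ?_ hkK
      intro k _
      split_ifs
      · exact hF0 j
      · exact le_rfl
    · rw [if_pos h2]
      linarith
  rw [Finset.sum_filter]
  refine (Finset.sum_le_sum hcov).trans ?_
  rw [Finset.sum_add_distrib, Finset.sum_comm]
  simp only [← Finset.sum_filter]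
  have h1 := hX2 X (by omega)
  have h2 : ∑ k ∈ K, ∑ j ∈ (range (J * X)).filter (fun j : ℕ =>
      Ht (2 ^ (k + 1)) X ((j : ℝ) / (J * X)) ∧ ¬ Ht (2 ^ k) X ((j : ℝ) / (J * X))), F j ≤
      η / 2 * (X : ℝ) ^ s := by
    calc ∑ k ∈ K, ∑ j ∈ (range (J * X)).filter (fun j : ℕ =>
          Ht (2 ^ (k + 1)) X ((j : ℝ) / (J * X)) ∧ ¬ Ht (2 ^ k) X ((j : ℝ) / (J * X))), F j
        ≤ ∑ k ∈ K, C * ((k : ℝ) + 2) * ((2 : ℝ) ^ k) ^ (-((s - 2) / 4)) * (X : ℝ) ^ s :=
          Finset.sum_le_sum fun k hk => hX1 X (by omega) k (Finset.mem_filter.1 hk).2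
      _ = (∑ k ∈ K, C * ((k : ℝ) + 2) * ((2 : ℝ) ^ k) ^ (-((s - 2) / 4))) * (X : ℝ) ^ s := by
          rw [Finset.sum_mul]
      _ ≤ η / 2 * (X : ℝ) ^ s := by
          apply mul_le_mul_of_nonneg_right _ (by positivity)
          have hdis : Disjoint K t := by
            rw [Finset.disjoint_left]
            intro k hk hkt
            have h3 := (Finset.mem_Ico.1 (Finset.mem_filter.1 hk).1).1
            have h4 : k ≤ t.sup id := Finset.le_sup (f := id) hkt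
            omega
          exact (Real.le_norm_self _).trans (ht K hdis).le
  have h3 : η * (X : ℝ) ^ s = η / 2 * (X : ℝ) ^ s + η / 2 * (X : ℝ) ^ s := by ring
  rw [h3]
  exact add_le_add h1 h2

end Pool.MP_dd84fd_nt.En
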