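import Pool.Agent.Lib.MP_dd84fd_nt.En.Defs

/-!
# sum over one centre (module GB-TM2)
-/

set_option autoImplicit false

namespace Pool.MP_dd84fd_nt.En

open Finset Pool.MP_67663b_nt.Odd

private lemma TM2_summable {κ : ℝ} (hκ : 1 < κ) :
    Summable (fun n : ℤ => (1 + |(n : ℝ)|) ^ (-κ)) := by
  have h := (Real.summable_one_div_int_add_rpow (1 / 2) κ).2 hκ
  refine Summable.of_nonneg_of_le (fun n => by positivity) (fun n => ?_) h
  have h1 : 0 < |(n : ℝ) + 1 / 2| := by
    rw [abs_pos]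
    intro h0
    have h2 : (2 * n + 1 : ℝ) = 0 := by linarith
    have h3 : (2 * n + 1 : ℤ) = 0 := by exact_mod_cast h2
    omega
  have h2 : |(n : ℝ) + 1 / 2| ≤ 1 + |(n : ℝ)| := by
    refine (abs_add_le _ _).trans ?_
    rw [abs_of_pos (by norm_num : (0 : ℝ) < 1 / 2)]
    linarith
  rw [Real.rpow_neg (by positivity), one_div]
  exact inv_anti₀ (Real.rpow_pos_of_pos h1 _) (Real.rpow_le_rpow h1.le h2 (by linarith))

private lemma TM2_mn (X : ℕ) (y : ℝ) {s : ℝ} (hs : 1 < s) :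
    (mn X y) ^ s ≤ (2 * (X : ℝ)) ^ s * (1 + X * |y - round y|) ^ (-s) := by
  have hX : (0 : ℝ) ≤ X := Nat.cast_nonneg _
  have hd : 0 ≤ |y - round y| := abs_nonneg _
  have hu : 0 ≤ X * |y - round y| := mul_nonneg hX hd
  have h1 : 0 ≤ mn X y ∧ mn X y ≤ 2 * (X : ℝ) * (1 + X * |y - round y|)⁻¹ := by
    unfold mn
    split_ifs with h
    · refine ⟨hX, ?_⟩
      rw [← div_eq_mul_inv, le_div_iff₀ (by positivity)]
      nlinarith
    · push Not at h
      have hd0 : 0 < |y - round y| := by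
        rcases hd.lt_or_eq with h2 | h2
        · exact h2
        · rw [← h2] at h; simp at h; linarith
      refine ⟨by positivity, ?_⟩
      rw [← div_eq_mul_inv, div_le_div_iff₀ (by positivity) (by positivity)]
      nlinarith
  refine (Real.rpow_le_rpow h1.1 h1.2 (by linarith)).trans (le_of_eq ?_)
  rw [Real.mul_rpow (by positivity) (by positivity), Real.inv_rpow (by positivity),
    Real.rpow_neg (by positivity)]

theorem center_sum {s : ℝ} (hs : 1 < s) (J : ℕ) (hJ : 0 < J) : ∃ C : ℝ, 0 < C ∧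
    ∀ X : ℕ, 1 ≤ X → ∀ x T : ℝ, 0 < T →
    ∑ j ∈ (range (J * X)).filter (fun j : ℕ =>
        T < 1 + X * |((j : ℝ) / (J * X) + x) - round ((j : ℝ) / (J * X) + x)|),
      (mn X ((j : ℝ) / (J * X) + x)) ^ s ≤
      C * (X : ℝ) ^ s * min 1 (T ^ (-((s - 1) / 2))) := by
  set κ : ℝ := (s + 1) / 2 with hκ
  have hκ1 : 1 < κ := by rw [hκ]; linarith
  have hsum := TM2_summable hκ1
  set Z : ℝ := ∑' n : ℤ, (1 + |(n : ℝ)|) ^ (-κ) with hZ
  have hZ0 : 0 < Z := by
    refine hsum.tsum_pos (fun n => by positivity) 0 (by positivity)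
  have hJ0 : (0 : ℝ) < J := by exact_mod_cast hJ
  have hJ1 : (1 : ℝ) ≤ J := by exact_mod_cast hJ
  refine ⟨2 ^ s * ((2 * J) ^ κ * Z), by positivity, ?_⟩
  intro X hX x T hT
  have hX0 : (0 : ℝ) < X := by exact_mod_cast hX
  set S := (range (J * X)).filter (fun j : ℕ =>
        T < 1 + X * |((j : ℝ) / (J * X) + x) - round ((j : ℝ) / (J * X) + x)|) with hS
  set m : ℝ := min 1 (T ^ (-((s - 1) / 2))) with hm
  have hm0 : 0 ≤ m := le_min zero_le_one (by positivity)
  -- termwise bound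
  have hterm : ∀ j ∈ S, (mn X ((j : ℝ) / (J * X) + x)) ^ s ≤ (2 * (X : ℝ)) ^ s * m *
      (1 + X * |((j : ℝ) / (J * X) + x) - round ((j : ℝ) / (J * X) + x)|) ^ (-κ) := by
    intro j hj
    have hjT := (Finset.mem_filter.1 hj).2
    refine (TM2_mn X _ hs).trans ?_
    set v : ℝ := 1 + X * |((j : ℝ) / (J * X) + x) - round ((j : ℝ) / (J * X) + x)| with hv
    have hv1 : 1 ≤ v := by
      rw [hv]
      have := mul_nonneg hX0.le (abs_nonneg (((j : ℝ) / (J * X) + x) - round ((j : ℝ) / (J * X) + x)))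
      linarith
    have hv0 : 0 < v := by linarith
    have e1 : v ^ (-s) = v ^ (-((s - 1) / 2)) * v ^ (-κ) := by
      rw [← Real.rpow_add hv0]
      congr 1
      rw [hκ]; ring
    have e2 : v ^ (-((s - 1) / 2)) ≤ m := by
      refine le_min ?_ ?_
      · exact Real.rpow_le_one_of_one_le_of_nonpos hv1 (by linarith)
      · exact Real.rpow_le_rpow_of_nonpos hT hjT.le (by linarith)
    rw [e1, mul_assoc]
    refine mul_le_mul_of_nonneg_left ?_ (by positivity)
    exact mul_le_mul_of_nonneg_right e2 (by positivity)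
  -- the integer attached to j
  set c : ℝ := J * X * x with hc
  set N : ℕ → ℤ := fun j => (j : ℤ) - J * X * round ((j : ℝ) / (J * X) + x) + round c with hN
  have hNinj : ∀ j ∈ S, ∀ j' ∈ S, N j = N j' → j = j' := by
    intro j hj j' hj' h
    have h1 := Finset.mem_range.1 (Finset.mem_filter.1 hj).1
    have h2 := Finset.mem_range.1 (Finset.mem_filter.1 hj').1
    simp only [hN] at h
    have h3 : (j : ℤ) - j' = ((J * X : ℕ) : ℤ) *
        (round ((j : ℝ) / (J * X) + x) - round ((j' : ℝ) / (J * X) + x)) := by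
      push_cast
      linear_combination h
    have h4 : |(j : ℤ) - j'| < ((J * X : ℕ) : ℤ) := by
      rw [abs_lt]
      constructor
      · have : (j' : ℤ) < ((J * X : ℕ) : ℤ) := by exact_mod_cast h2
        have h0 : (0 : ℤ) ≤ j := Int.natCast_nonneg _
        linarith
      · have : (j : ℤ) < ((J * X : ℕ) : ℤ) := by exact_mod_cast h1
        have h0 : (0 : ℤ) ≤ j' := Int.natCast_nonneg _
        linarith
    have h5 : (j : ℤ) - j' = 0 :=
      Int.eq_zero_of_abs_lt_dvd ⟨_, h3⟩ h4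
    have h6 : (j : ℤ) = j' := by linarith
    exact_mod_cast h6
  have hNb : ∀ j ∈ S, (1 + X * |((j : ℝ) / (J * X) + x) - round ((j : ℝ) / (J * X) + x)|) ^ (-κ) ≤
      (2 * (J : ℝ)) ^ κ * (1 + |(N j : ℝ)|) ^ (-κ) := by
    intro j _
    set y : ℝ := (j : ℝ) / (J * X) + x with hy
    have e1 : (J : ℝ) * X * (y - round y) = (N j : ℝ) + (c - round c) := by
      simp only [hN, hy, hc]
      push_cast
      field_simp
      ring
    have e2 : |(N j : ℝ)| ≤ J * (X * |y - round y|) + 1 / 2 := by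
      have h1 : (N j : ℝ) = (J : ℝ) * X * (y - round y) - (c - round c) := by linarith
      rw [h1]
      refine (abs_sub _ _).trans ?_
      have h2 := abs_sub_round c
      rw [abs_mul, abs_mul, abs_of_pos hJ0, abs_of_pos hX0]
      linarith
    have e3 : (1 + |(N j : ℝ)|) / (2 * J) ≤ 1 + X * |y - round y| := by
      rw [div_le_iff₀ (by positivity)]
      have h1 : 0 ≤ X * |y - round y| := mul_nonneg hX0.le (abs_nonneg _)
      nlinarith
    have e4 : 0 < (1 + |(N j : ℝ)|) / (2 * J) := by positivity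
    calc (1 + X * |y - round y|) ^ (-κ) ≤ ((1 + |(N j : ℝ)|) / (2 * J)) ^ (-κ) :=
          Real.rpow_le_rpow_of_nonpos e4 e3 (by linarith)
      _ = (2 * (J : ℝ)) ^ κ * (1 + |(N j : ℝ)|) ^ (-κ) := by
          rw [Real.div_rpow (by positivity) (by positivity), Real.rpow_neg (x := 2 * (J : ℝ))
            (by positivity), div_inv_eq_mul, mul_comm]
  calc ∑ j ∈ S, (mn X ((j : ℝ) / (J * X) + x)) ^ s
      ≤ ∑ j ∈ S, (2 * (X : ℝ)) ^ s * m * ((2 * (J : ℝ)) ^ κ * (1 + |(N j : ℝ)|) ^ (-κ)) := by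
        refine Finset.sum_le_sum fun j hj => (hterm j hj).trans ?_
        exact mul_le_mul_of_nonneg_left (hNb j hj) (by positivity)
    _ = (2 * (X : ℝ)) ^ s * m * ((2 * (J : ℝ)) ^ κ * ∑ j ∈ S, (1 + |(N j : ℝ)|) ^ (-κ)) := by
        rw [Finset.mul_sum, Finset.mul_sum]
    _ ≤ (2 * (X : ℝ)) ^ s * m * ((2 * (J : ℝ)) ^ κ * Z) := by
        refine mul_le_mul_of_nonneg_left ?_ (by positivity)
        refine mul_le_mul_of_nonneg_left ?_ (by positivity)
        have h1 : ∑ j ∈ S, (1 + |(N j : ℝ)|) ^ (-κ) = ∑ n ∈ S.image N, (1 + |(n : ℝ)|) ^ (-κ) := by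
          rw [Finset.sum_image]
          exact hNinj
        rw [h1]
        exact hsum.sum_le_tsum _ fun n _ => by positivity
    _ = 2 ^ s * ((2 * J) ^ κ * Z) * (X : ℝ) ^ s * m := by
        rw [Real.mul_rpow (by norm_num) hX0.le]
        ring

end Pool.MP_dd84fd_nt.En
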