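import Pool.Agent.Lib.MP_dd84fd_nt.En.TailM1
import Pool.Agent.Lib.MP_dd84fd_nt.En.TailM2
import Pool.Agent.Lib.MP_dd84fd_nt.En.Tot

/-!
# the L^s tail of the model (module GB-TM3)
-/

set_option autoImplicit false

namespace Pool.MP_dd84fd_nt.En

open Finset Pool.MP_67663b_nt.Odd

/-- the weight of a denominator -/
private noncomputable def TM3_w (s H : ℝ) (r : ℕ) : ℝ :=
  (Nat.totient r : ℝ) ^ (1 - s) * min 1 ((H / r) ^ (-((s - 1) / 2)))

private lemma TM3_w_nonneg (s H : ℝ) (hH : 0 ≤ H) (r : ℕ) : 0 ≤ TM3_w s H r := by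
  unfold TM3_w
  have : 0 ≤ H / r := by positivity
  have h1 : 0 ≤ min 1 ((H / r) ^ (-((s - 1) / 2))) := le_min zero_le_one (by positivity)
  positivity

private lemma TM3_w_le (s H : ℝ) (hH : 0 ≤ H) (r : ℕ) :
    TM3_w s H r ≤ (Nat.totient r : ℝ) ^ (1 - s) := by
  unfold TM3_w
  exact mul_le_of_le_one_right (by positivity) (min_le_left _ _)

private lemma TM3_summable {s : ℝ} (hs : 2 < s) {H : ℝ} (hH : 0 ≤ H) :
    Summable (TM3_w s H) :=
  Summable.of_nonneg_of_le (TM3_w_nonneg s H hH) (TM3_w_le s H hH) (summable_totient hs)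

private lemma TM3_tendsto {s : ℝ} (hs : 2 < s) :
    Filter.Tendsto (fun H : ℝ => ∑' r : ℕ, TM3_w s H r) Filter.atTop (nhds 0) := by
  have h := tendsto_tsum_of_dominated_convergence (𝓕 := Filter.atTop)
    (f := fun (H : ℝ) (r : ℕ) => TM3_w s H r) (g := fun _ => (0 : ℝ))
    (bound := fun r : ℕ => (Nat.totient r : ℝ) ^ (1 - s)) (summable_totient hs) ?_ ?_
  · simpa using h
  · intro r
    rcases Nat.eq_zero_or_pos r with rfl | hr
    · have : ∀ H : ℝ, TM3_w s H 0 = 0 := by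
        intro H
        unfold TM3_w
        rw [Nat.totient_zero, Nat.cast_zero, Real.zero_rpow (by linarith), zero_mul]
      simp [this]
    · have hr0 : (0 : ℝ) < r := by exact_mod_cast hr
      have h1 : Filter.Tendsto (fun H : ℝ => (H / r) ^ (-((s - 1) / 2))) Filter.atTop (nhds 0) :=
        (tendsto_rpow_neg_atTop (by linarith)).comp (Filter.tendsto_id.atTop_div_const hr0)
      have h2 : Filter.Tendsto (fun H : ℝ => min 1 ((H / r) ^ (-((s - 1) / 2)))) Filter.atTop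
          (nhds (min 1 0)) := tendsto_const_nhds.min h1
      have h3 := h2.const_mul ((Nat.totient r : ℝ) ^ (1 - s))
      rw [min_eq_right zero_le_one, mul_zero] at h3
      exact h3
  · filter_upwards [Filter.eventually_ge_atTop 0] with H hH r
    rw [Real.norm_of_nonneg (TM3_w_nonneg s H hH r)]
    exact TM3_w_le s H hH r

/-- no good rational approximation: every centre is far -/
private lemma TM3_far {H : ℝ} {X W k : ℕ} (hW : 0 < W) {θ : ℝ} (h : ¬ Ht H X θ) :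
    H / ((W / Nat.gcd k W : ℕ) : ℝ) <
      1 + X * |(θ + (k : ℝ) / W) - round (θ + (k : ℝ) / W)| := by
  have hg : 0 < Nat.gcd k W := Nat.gcd_pos_of_pos_right _ hW
  obtain ⟨k', hk'⟩ : Nat.gcd k W ∣ k := Nat.gcd_dvd_left _ _
  obtain ⟨r, hr⟩ : Nat.gcd k W ∣ W := Nat.gcd_dvd_right _ _
  have hrW : W / Nat.gcd k W = r := by
    nth_rewrite 1 [hr]
    exact Nat.mul_div_cancel_left _ hg
  have hkk : k / Nat.gcd k W = k' := by
    nth_rewrite 1 [hk']
    exact Nat.mul_div_cancel_left _ hg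
  have hr0 : 0 < r := Nat.pos_of_ne_zero fun h0 => by rw [h0, mul_zero] at hr; omega
  have hcop : Nat.Coprime k' r := by
    have := Nat.coprime_div_gcd_div_gcd hg
    rwa [hkk, hrW] at this
  rw [hrW]
  set n0 := round (θ + (k : ℝ) / W) with hn0
  have hr0' : (0 : ℝ) < r := by exact_mod_cast hr0
  have hg0 : (0 : ℝ) < (Nat.gcd k W : ℝ) := by exact_mod_cast hg
  have hfrac : (k : ℝ) / W = (k' : ℝ) / r := by
    have e1 : (k : ℝ) = (Nat.gcd k W : ℝ) * k' := by exact_mod_cast hk'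
    have e2 : (W : ℝ) = (Nat.gcd k W : ℝ) * r := by exact_mod_cast hr
    rw [e2]
    nth_rewrite 1 [e1]
    field_simp
  by_contra hcon
  push Not at hcon
  apply h
  refine ⟨r, n0 * r - k', hr0, ?_, ?_⟩
  · rw [← Int.isCoprime_iff_gcd_eq_one]
    obtain ⟨u, v, huv⟩ := Nat.isCoprime_iff_coprime.2 hcop
    exact ⟨-u, v + u * n0, by linear_combination huv⟩
  · have e : θ - ((n0 * r - k' : ℤ) : ℝ) / (r : ℝ) = (θ + (k : ℝ) / W) - n0 := by
      rw [hfrac]
      push_cast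
      field_simp
      ring
    rw [e]
    rw [le_div_iff₀ hr0'] at hcon
    linarith

/-- the fibres of `k ↦ W / gcd (k, W)` -/
private lemma TM3_fib (W : ℕ) (hW : 0 < W) (ψ : ℕ → ℝ) :
    ∑ k ∈ range W, ψ (W / Nat.gcd k W) = ∑ r ∈ W.divisors, (Nat.totient r : ℝ) * ψ r := by
  rw [← Nat.sum_div_divisors W (fun r => (Nat.totient r : ℝ) * ψ r)]
  rw [← Finset.sum_fiberwise_of_maps_to (s := range W) (t := W.divisors)
    (g := fun k => Nat.gcd W k)
    (fun k _ => Nat.mem_divisors.2 ⟨Nat.gcd_dvd_left _ _, hW.ne'⟩)]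
  refine Finset.sum_congr rfl fun d hd => ?_
  have hd' := (Nat.mem_divisors.1 hd).1
  rw [Nat.totient_div_of_dvd hd', ← nsmul_eq_mul, ← Finset.sum_const]
  refine Finset.sum_congr rfl fun k hk => ?_
  rw [← (Finset.mem_filter.1 hk).2, Nat.gcd_comm]

open Classical in
theorem tail_F1 {s : ℝ} (hs : 2 < s) {η : ℝ} (hη : 0 < η) (J : ℕ) (hJ : 0 < J) :
    ∃ H0 : ℝ, 1 ≤ H0 ∧ ∀ H : ℝ, H0 ≤ H → ∀ w : ℕ, ∃ X0 : ℕ, ∀ X : ℕ, X0 ≤ X →
      ∑ j ∈ (range (J * X)).filter (fun j : ℕ => ¬ Ht H X ((j : ℝ) / (J * X))),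
        ‖F1 w X ((j : ℝ) / (J * X))‖ ^ s ≤ η * (X : ℝ) ^ s := by
  obtain ⟨C, hC, hcs⟩ := center_sum (s := s) (by linarith) J hJ
  have hJ0 : (0 : ℝ) < J := by exact_mod_cast hJ
  have h2s : (0 : ℝ) < 2 ^ (s - 1) := by positivity
  have hev : ∀ᶠ H : ℝ in Filter.atTop, ∑' r : ℕ, TM3_w s H r < η / (2 * (2 ^ (s - 1) * C)) :=
    (TM3_tendsto hs).eventually (gt_mem_nhds (by positivity))
  obtain ⟨H1, hH1⟩ := Filter.eventually_atTop.1 hev
  refine ⟨max 1 H1, le_max_left _ _, fun H hH w => ?_⟩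
  have hH0 : 1 ≤ H := (le_max_left _ _).trans hH
  have hΦ := hH1 H ((le_max_right _ _).trans hH)
  have hWpos : 0 < primorial w := primorial_pos w
  set W := primorial w with hW
  have hW0 : (0 : ℝ) < W := by exact_mod_cast hWpos
  have hX1 : ∀ᶠ X : ℕ in Filter.atTop,
      2 ^ (s - 1) * (J * ((W : ℝ) ^ 2) ^ s) / (η / 2) < (X : ℝ) ^ (s - 1) :=
    ((tendsto_rpow_atTop (by linarith : 0 < s - 1)).comp
      tendsto_natCast_atTop_atTop).eventually_gt_atTop _
  obtain ⟨X1, hX1⟩ := Filter.eventually_atTop.1 hX1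
  refine ⟨max 1 X1, fun X hX => ?_⟩
  have hXge : 1 ≤ X := (le_max_left _ _).trans hX
  have hX0 : (0 : ℝ) < X := by exact_mod_cast hXge
  have hXW := hX1 X ((le_max_right _ _).trans hX)
  set S := (range (J * X)).filter (fun j : ℕ => ¬ Ht H X ((j : ℝ) / (J * X))) with hS
  set ph : ℕ → ℝ := fun k => (Nat.totient (W / Nat.gcd k W) : ℝ) with hph
  have hrpos : ∀ k, 0 < W / Nat.gcd k W := fun k =>
    Nat.div_pos (Nat.le_of_dvd hWpos (Nat.gcd_dvd_right _ _)) (Nat.gcd_pos_of_pos_right _ hWpos)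
  have hph0 : ∀ k, 0 < ph k := by
    intro k
    simp only [hph]
    exact_mod_cast Nat.totient_pos.2 (hrpos k)
  have hcard : (S.card : ℝ) ≤ J * X := by
    have := Finset.card_le_card (Finset.filter_subset (fun j : ℕ => ¬ Ht H X ((j : ℝ) / (J * X)))
      (range (J * X)))
    rw [Finset.card_range] at this
    rw [← Nat.cast_mul]
    exact Nat.cast_le.2 this
  -- the sum over one centre
  have hcen : ∀ k ∈ range W, ∑ j ∈ S, (mn X ((j : ℝ) / (J * X) + (k : ℝ) / W) / ph k) ^ s ≤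
      C * (X : ℝ) ^ s * ((ph k) ^ (-s) *
        min 1 ((H / ((W / Nat.gcd k W : ℕ) : ℝ)) ^ (-((s - 1) / 2)))) := by
    intro k _
    have hr0 : (0 : ℝ) < ((W / Nat.gcd k W : ℕ) : ℝ) := by exact_mod_cast hrpos k
    have hT : 0 < H / ((W / Nat.gcd k W : ℕ) : ℝ) := by positivity
    have hmnn : ∀ y : ℝ, 0 ≤ mn X y := by
      intro y
      unfold mn
      split_ifs
      · exact hX0.le
      · have := abs_nonneg (y - round y)
        positivity
    have h1 : ∀ j ∈ S, (mn X ((j : ℝ) / (J * X) + (k : ℝ) / W) / ph k) ^ s =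
        (ph k) ^ (-s) * (mn X ((j : ℝ) / (J * X) + (k : ℝ) / W)) ^ s := by
      intro j _
      rw [Real.div_rpow (hmnn _) (hph0 k).le, Real.rpow_neg (hph0 k).le]
      rw [div_eq_inv_mul]
    rw [Finset.sum_congr rfl h1, ← Finset.mul_sum]
    have h2 := hcs X hXge ((k : ℝ) / W) _ hT
    have h3 : ∑ j ∈ S, (mn X ((j : ℝ) / (J * X) + (k : ℝ) / W)) ^ s ≤
        ∑ j ∈ (range (J * X)).filter (fun j : ℕ => H / ((W / Nat.gcd k W : ℕ) : ℝ) < 1 + X *
          |((j : ℝ) / (J * X) + (k : ℝ) / W) - round ((j : ℝ) / (J * X) + (k : ℝ) / W)|),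
          (mn X ((j : ℝ) / (J * X) + (k : ℝ) / W)) ^ s := by
      refine Finset.sum_le_sum_of_subset_of_nonneg ?_ fun j _ _ => Real.rpow_nonneg (hmnn _) _
      intro j hj
      rw [hS, Finset.mem_filter] at hj
      rw [Finset.mem_filter]
      exact ⟨hj.1, TM3_far hWpos hj.2⟩
    have h4 := mul_le_mul_of_nonneg_left (h3.trans h2) (Real.rpow_nonneg (hph0 k).le (-s))
    refine h4.trans (le_of_eq ?_)
    ring
  have hsumk : ∑ k ∈ range W, ((ph k) ^ (-s) *
        min 1 ((H / ((W / Nat.gcd k W : ℕ) : ℝ)) ^ (-((s - 1) / 2)))) ≤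
      ∑' r : ℕ, TM3_w s H r := by
    have e1 := TM3_fib W hWpos (fun r => ((Nat.totient r : ℝ)) ^ (-s) *
      min 1 ((H / (r : ℝ)) ^ (-((s - 1) / 2))))
    have e2 : ∑ k ∈ range W, ((ph k) ^ (-s) *
        min 1 ((H / ((W / Nat.gcd k W : ℕ) : ℝ)) ^ (-((s - 1) / 2)))) =
        ∑ r ∈ W.divisors, TM3_w s H r := by
      refine e1.trans (Finset.sum_congr rfl fun r hr => ?_)
      have hr0 : 0 < r := Nat.pos_of_mem_divisors hr
      have hφ0 : (0 : ℝ) < (Nat.totient r : ℝ) := by exact_mod_cast Nat.totient_pos.2 hr0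
      unfold TM3_w
      rw [show (1 : ℝ) - s = 1 + -s by ring, Real.rpow_add hφ0, Real.rpow_one]
      ring
    rw [e2]
    exact (TM3_summable hs (by linarith)).sum_le_tsum _
      fun r _ => TM3_w_nonneg s H (by linarith) r
  calc ∑ j ∈ S, ‖F1 w X ((j : ℝ) / (J * X))‖ ^ s
      ≤ ∑ j ∈ S, (2 : ℝ) ^ (s - 1) * (∑ k ∈ range W,
          (mn X ((j : ℝ) / (J * X) + (k : ℝ) / W) / ph k) ^ s + ((W : ℝ) ^ 2) ^ s) :=
        Finset.sum_le_sum fun j _ => F1_pointwise w X _ (by linarith)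
    _ = (2 : ℝ) ^ (s - 1) * (∑ k ∈ range W, ∑ j ∈ S,
          (mn X ((j : ℝ) / (J * X) + (k : ℝ) / W) / ph k) ^ s +
          (S.card : ℝ) * ((W : ℝ) ^ 2) ^ s) := by
        rw [← Finset.mul_sum, Finset.sum_add_distrib, Finset.sum_comm, Finset.sum_const,
          nsmul_eq_mul]
    _ ≤ (2 : ℝ) ^ (s - 1) * (C * (X : ℝ) ^ s * (∑' r : ℕ, TM3_w s H r) +
          (J * X) * ((W : ℝ) ^ 2) ^ s) := by
        refine mul_le_mul_of_nonneg_left (add_le_add ?_ ?_) h2s.le
        · refine (Finset.sum_le_sum hcen).trans ?_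
          rw [← Finset.mul_sum]
          exact mul_le_mul_of_nonneg_left hsumk (by positivity)
        · exact mul_le_mul_of_nonneg_right hcard (by positivity)
    _ ≤ η / 2 * (X : ℝ) ^ s + η / 2 * (X : ℝ) ^ s := by
        rw [mul_add]
        refine add_le_add ?_ ?_
        · have h5 : ∑' r : ℕ, TM3_w s H r ≤ η / (2 * (2 ^ (s - 1) * C)) := hΦ.le
          calc (2 : ℝ) ^ (s - 1) * (C * (X : ℝ) ^ s * (∑' r : ℕ, TM3_w s H r))
              ≤ (2 : ℝ) ^ (s - 1) * (C * (X : ℝ) ^ s * (η / (2 * (2 ^ (s - 1) * C)))) := by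
                gcongr
            _ = η / 2 * (X : ℝ) ^ s := by field_simp
        · rw [div_lt_iff₀ (by positivity)] at hXW
          have e3 : (X : ℝ) ^ s = X * (X : ℝ) ^ (s - 1) := by
            nth_rewrite 2 [← Real.rpow_one (X : ℝ)]
            rw [← Real.rpow_add hX0]
            congr 1
            ring
          rw [e3]
          have h6 := mul_le_mul_of_nonneg_left hXW.le hX0.le
          calc (2 : ℝ) ^ (s - 1) * (J * X * ((W : ℝ) ^ 2) ^ s)
              = X * (2 ^ (s - 1) * (J * ((W : ℝ) ^ 2) ^ s)) := by ring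
            _ ≤ X * ((X : ℝ) ^ (s - 1) * (η / 2)) := h6
            _ = η / 2 * (X * (X : ℝ) ^ (s - 1)) := by ring
    _ = η * (X : ℝ) ^ s := by ring

end Pool.MP_dd84fd_nt.En
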