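import Pool.Agent.Lib.MP_67663b_nt.OddB.Chebs
import Pool.Agent.Lib.MP_dd84fd_nt.En.TailF3
import Pool.Agent.Lib.MP_dd84fd_nt.En.TailM3
import Pool.Agent.Lib.MP_dd84fd_nt.En.Maj
import Pool.Agent.Lib.MP_dd84fd_nt.En.Four1
import Pool.Agent.Lib.MP_dd84fd_nt.En.Four2
import Pool.Agent.Lib.MP_dd84fd_nt.En.Hold

/-!
# the comparison theorem (module GB-CP)
-/

set_option autoImplicit false

namespace Pool.MP_dd84fd_nt.En

open Finset Pool.MP_67663b_nt.Odd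

open Classical in
/-- the weight of the primes -/
private noncomputable def cpu (n : ℕ) : ℝ := if n.Prime then Real.log n else 0

private theorem cp_rG (n : ℕ) : rG n = ∑ a ∈ Icc 1 (n - 1), cpu a * cpu (n - a) := by
  classical
  unfold rG
  have hsub : (range (n + 1)).filter (fun p => Nat.Prime p ∧ Nat.Prime (n - p)) ⊆
      Icc 1 (n - 1) := by
    intro p hp
    rw [mem_filter, mem_range] at hp
    rw [mem_Icc]
    have h1 := hp.2.1.pos
    have h2 := hp.2.2.pos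
    omega
  have hzero : ∀ p ∈ Icc 1 (n - 1),
      p ∉ (range (n + 1)).filter (fun p => Nat.Prime p ∧ Nat.Prime (n - p)) →
      cpu p * cpu (n - p) = 0 := by
    intro p hp hp'
    rw [mem_Icc] at hp
    rw [mem_filter, mem_range, not_and] at hp'
    have h3 := hp' (by omega)
    unfold cpu
    by_cases h1 : p.Prime
    · have h2 : ¬ (n - p).Prime := fun h2 => h3 ⟨h1, h2⟩
      rw [if_neg h2, mul_zero]
    · rw [if_neg h1, zero_mul]
  have h := Finset.sum_subset hsub hzero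
  rw [← h]
  refine sum_congr rfl fun p hp => ?_
  rw [mem_filter] at hp
  unfold cpu
  rw [if_pos hp.2.1, if_pos hp.2.2]

private theorem cp_f1_zero (w : ℕ) (hw : 2 ≤ w) : f1 w 0 = 0 := by
  unfold f1
  rw [if_neg]
  rw [Nat.coprime_zero_left]
  intro h
  have h2 : 2 ∣ primorial w := by
    unfold primorial
    apply Finset.dvd_prod_of_mem
    rw [mem_filter, mem_range]
    exact ⟨by omega, Nat.prime_two⟩
  rw [h] at h2
  omega

private theorem cp_conv1 (w n : ℕ) (hw : 2 ≤ w) :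
    conv1 w n = ∑ a ∈ Icc 1 (n - 1), f1 w a * f1 w (n - a) := by
  unfold conv1
  symm
  apply Finset.sum_subset
  · intro a ha
    rw [mem_Icc] at ha
    rw [mem_range]
    omega
  · intro a ha ha'
    rw [mem_range] at ha
    rw [mem_Icc, not_and] at ha'
    rcases Nat.eq_zero_or_pos a with rfl | h
    · rw [cp_f1_zero w hw, zero_mul]
    · have h1 : n - a = 0 := by
        have := ha' h
        omega
      rw [h1, cp_f1_zero w hw, mul_zero]

private theorem cp_F (X : ℕ) (θ : ℝ) :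
    ∑ n ∈ Icc 1 X, (cpu n : ℂ) * ee ((n : ℝ) * θ) = PS 0 (X + 1) θ := by
  classical
  unfold PS
  symm
  have hsub : pr 0 (X + 1) ⊆ Icc 1 X := by
    intro p hp
    rw [mem_pr] at hp
    rw [mem_Icc]
    have h1 := hp.1.pos
    have h2 : p < X + 1 := by exact_mod_cast hp.2.2
    omega
  rw [← Finset.sum_subset hsub]
  · refine sum_congr rfl fun p hp => ?_
    rw [mem_pr] at hp
    unfold cpu
    rw [if_pos hp.1]
  · intro p hp hp'
    rw [mem_Icc] at hp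
    have h1 : ¬ p.Prime := by
      intro h
      apply hp'
      rw [mem_pr]
      refine ⟨h, Nat.cast_nonneg _, ?_⟩
      have : p < X + 1 := by omega
      exact_mod_cast this
    unfold cpu
    rw [if_neg h1]
    simp

private theorem cp_KK_le (X : ℕ) (ζ : ℕ → ℝ) (hζ : ∑ n ∈ range (X + 1), |ζ n| ≤ 1) (θ : ℝ) :
    ‖KK X ζ θ‖ ≤ 1 := by
  unfold KK
  refine le_trans (norm_sum_le _ _) (le_trans (le_of_eq ?_) hζ)
  refine sum_congr rfl fun n _ => ?_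
  rw [norm_mul, norm_ee, mul_one, Complex.norm_real, Real.norm_eq_abs]

/-- the minor arc estimate -/
private theorem cp_minor (m : ℕ) (hm : 1 ≤ m) (J X : ℕ) (hJ : m + 1 ≤ J) (hX : 1 ≤ X)
    (A : Finset ℕ) (hA : A ⊆ range (J * X)) (u : ℕ → ℝ) (hu : ∀ j, 0 ≤ u j) (ζ : ℕ → ℝ)
    (K1 : ℝ) (hK1 : 1 ≤ K1) (hcoll : coll m X ζ ≤ K1 / X) (η : ℝ) (hη : 0 < η) (hη1 : η ≤ 1)
    (hsum : ∑ j ∈ A, u j ^ (4 * (m : ℝ) / (2 * m - 1)) ≤ η * (X : ℝ) ^ (4 * (m : ℝ) / (2 * m - 1))) :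
    (1 / ((J : ℝ) * X)) * ∑ j ∈ A, u j ^ 2 * ‖KK X ζ ((j : ℝ) / (J * X))‖ ≤
      Real.sqrt η * K1 * X := by
  have hXR : (0 : ℝ) < X := by exact_mod_cast hX
  have hJ0 : 0 < J := by omega
  have hJR : (1 : ℝ) ≤ J := by exact_mod_cast hJ0
  have hmR : (1 : ℝ) ≤ m := by exact_mod_cast hm
  have hN : 0 < J * X := Nat.mul_pos hJ0 hX
  have hcast : (((J * X : ℕ)) : ℝ) = (J : ℝ) * X := by push_cast; ring
  have h1 := hoelder_use m hm (J * X) hN A hA u (fun j => ‖KK X ζ ((j : ℝ) / (J * X))‖) hu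
    (fun j => norm_nonneg _)
  rw [hcast] at h1
  have h2 := coll_eq m X J hJ hX ζ
  rw [h2] at h1
  refine h1.trans ?_
  set s : ℝ := 4 * (m : ℝ) / (2 * m - 1) with hs
  have h2m : (0 : ℝ) < 2 * m - 1 := by linarith
  have hs1 : s - 1 = (2 * m + 1) / (2 * m - 1) := by
    rw [hs, div_sub_one h2m.ne']
    congr 1
    ring
  set t : ℝ := 1 - 1 / (2 * (m : ℝ)) with ht
  have ht1 : 1 / 2 ≤ t := by
    rw [ht]
    have : 1 / (2 * (m : ℝ)) ≤ 1 / 2 := by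
      apply one_div_le_one_div_of_le (by norm_num)
      linarith
    linarith
  have ht0 : 0 ≤ t := by linarith
  have ht' : t = (2 * m - 1) / (2 * m) := by
    rw [ht]
    field_simp
  have hnn : 0 ≤ (1 / ((J : ℝ) * X)) * ∑ j ∈ A, u j ^ s := by
    have : 0 ≤ ∑ j ∈ A, u j ^ s := sum_nonneg fun j _ => Real.rpow_nonneg (hu j) _
    positivity
  have hfirst : (1 / ((J : ℝ) * X)) * ∑ j ∈ A, u j ^ s ≤ η * (X : ℝ) ^ (s - 1) := by
    calc (1 / ((J : ℝ) * X)) * ∑ j ∈ A, u j ^ s ≤ (1 / ((J : ℝ) * X)) * (η * (X : ℝ) ^ s) := by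
          gcongr
      _ ≤ (1 / X) * (η * (X : ℝ) ^ s) := by
          apply mul_le_mul_of_nonneg_right _ (by positivity)
          apply one_div_le_one_div_of_le hXR
          nlinarith
      _ = η * (X : ℝ) ^ (s - 1) := by
          rw [Real.rpow_sub_one hXR.ne']
          ring
  have hA1 : ((1 / ((J : ℝ) * X)) * ∑ j ∈ A, u j ^ s) ^ t ≤
      Real.sqrt η * (X : ℝ) ^ (1 + 1 / (2 * (m : ℝ))) := by
    calc ((1 / ((J : ℝ) * X)) * ∑ j ∈ A, u j ^ s) ^ t ≤ (η * (X : ℝ) ^ (s - 1)) ^ t :=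
          Real.rpow_le_rpow hnn hfirst ht0
      _ = η ^ t * (X : ℝ) ^ ((s - 1) * t) := by
          rw [Real.mul_rpow hη.le (by positivity), ← Real.rpow_mul hXR.le]
      _ ≤ Real.sqrt η * (X : ℝ) ^ (1 + 1 / (2 * (m : ℝ))) := by
          have e1 : (s - 1) * t = 1 + 1 / (2 * (m : ℝ)) := by
            rw [hs1, ht']
            field_simp
          rw [e1]
          apply mul_le_mul_of_nonneg_right _ (by positivity)
          rw [Real.sqrt_eq_rpow]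
          exact Real.rpow_le_rpow_of_exponent_ge hη hη1 ht1
  have hB1 : (coll m X ζ) ^ (1 / (2 * (m : ℝ))) ≤ K1 * (X : ℝ) ^ (-(1 / (2 * (m : ℝ)))) := by
    have hc0 : 0 ≤ coll m X ζ := by
      rw [← h2]
      positivity
    calc (coll m X ζ) ^ (1 / (2 * (m : ℝ))) ≤ (K1 / X) ^ (1 / (2 * (m : ℝ))) :=
          Real.rpow_le_rpow hc0 hcoll (by positivity)
      _ = K1 ^ (1 / (2 * (m : ℝ))) * (X : ℝ) ^ (-(1 / (2 * (m : ℝ)))) := by
          rw [Real.div_rpow (by linarith) hXR.le, Real.rpow_neg hXR.le, div_eq_mul_inv]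
      _ ≤ K1 * (X : ℝ) ^ (-(1 / (2 * (m : ℝ)))) := by
          apply mul_le_mul_of_nonneg_right _ (by positivity)
          calc K1 ^ (1 / (2 * (m : ℝ))) ≤ K1 ^ (1 : ℝ) := by
                apply Real.rpow_le_rpow_of_exponent_le hK1
                rw [div_le_one (by positivity)]
                linarith
            _ = K1 := Real.rpow_one K1
  calc ((1 / ((J : ℝ) * X)) * ∑ j ∈ A, u j ^ s) ^ t * (coll m X ζ) ^ (1 / (2 * (m : ℝ)))
      ≤ (Real.sqrt η * (X : ℝ) ^ (1 + 1 / (2 * (m : ℝ)))) *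
          (K1 * (X : ℝ) ^ (-(1 / (2 * (m : ℝ))))) := by
        apply mul_le_mul hA1 hB1 _ (by positivity)
        apply Real.rpow_nonneg
        rw [← h2]
        positivity
    _ = Real.sqrt η * K1 * ((X : ℝ) ^ (1 + 1 / (2 * (m : ℝ))) * (X : ℝ) ^ (-(1 / (2 * (m : ℝ))))) := by
        ring
    _ = Real.sqrt η * K1 * X := by
        rw [← Real.rpow_add hXR]
        have : 1 + 1 / (2 * (m : ℝ)) + -(1 / (2 * (m : ℝ))) = 1 := by ring
        rw [this, Real.rpow_one]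

theorem compare (m : ℕ) (hm : 1 ≤ m) (K0 : ℝ) {η : ℝ} (hη : 0 < η) :
    ∃ w0 : ℕ, ∀ w : ℕ, w0 ≤ w → ∃ X0 : ℕ, ∀ X : ℕ, X0 ≤ X → ∀ ζ : ℕ → ℝ, ζ 0 = 0 →
    ∑ n ∈ range (X + 1), |ζ n| ≤ 1 → coll m X (fun n => |ζ n|) ≤ K0 / X →
    |∑ n ∈ range (X + 1), ζ n * (rG n - conv1 w n)| ≤ η * X := by
  classical
  have hmR : (1 : ℝ) ≤ m := by exact_mod_cast hm
  have h2m : (0 : ℝ) < 2 * m - 1 := by linarith
  set J : ℕ := max (m + 1) 3 with hJdef
  have hJm : m + 1 ≤ J := le_max_left _ _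
  have hJ3 : 3 ≤ J := le_max_right _ _
  have hJ0 : 0 < J := by omega
  have hJR : (1 : ℝ) ≤ J := by exact_mod_cast hJ0
  set s : ℝ := 4 * (m : ℝ) / (2 * m - 1) with hs
  have hs2 : 2 < s := by
    rw [hs, lt_div_iff₀ h2m]
    linarith
  set K1 : ℝ := max K0 1 with hK1def
  have hK1 : 1 ≤ K1 := le_max_right _ _
  have hK0 : K0 ≤ K1 := le_max_left _ _
  -- the tails
  set η2 : ℝ := min 1 ((η / (4 * K1)) ^ 2) with hη2
  have hη20 : 0 < η2 := lt_min one_pos (by positivity)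
  have hη21 : η2 ≤ 1 := min_le_left _ _
  have hη2s : Real.sqrt η2 * K1 ≤ η / 4 := by
    have h1 : Real.sqrt η2 ≤ η / (4 * K1) := by
      calc Real.sqrt η2 ≤ Real.sqrt ((η / (4 * K1)) ^ 2) := Real.sqrt_le_sqrt (min_le_right _ _)
        _ = η / (4 * K1) := Real.sqrt_sq (by positivity)
    calc Real.sqrt η2 * K1 ≤ η / (4 * K1) * K1 := mul_le_mul_of_nonneg_right h1 (by linarith)
      _ = η / 4 := by field_simp
  obtain ⟨HF, hHF1, hHF⟩ := tail_F hs2 hη20 J hJ0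
  obtain ⟨HM, hHM1, hHM⟩ := tail_F1 hs2 hη20 J hJ0
  set H : ℝ := max HF HM with hH
  obtain ⟨CH, hCH0, hCH⟩ := card_Ht J hJ0 H
  obtain ⟨XF, hXF⟩ := hHF H (le_max_left _ _)
  refine ⟨max 2 ⌈H⌉₊, fun w hw => ?_⟩
  have hw2 : 2 ≤ w := (le_max_left _ _).trans hw
  have hwH : H ≤ (w : ℝ) := by
    calc H ≤ (⌈H⌉₊ : ℝ) := Nat.le_ceil H
      _ ≤ w := by exact_mod_cast (le_max_right _ _).trans hw
  set η1 : ℝ := min 1 (η / (18 * CH)) with hη1
  have hη10 : 0 < η1 := lt_min one_pos (by positivity)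
  have hη11 : η1 ≤ 1 := min_le_left _ _
  have hη1C : 9 * CH * η1 ≤ η / 2 := by
    calc 9 * CH * η1 ≤ 9 * CH * (η / (18 * CH)) :=
          mul_le_mul_of_nonneg_left (min_le_right _ _) (by positivity)
      _ = η / 2 := by field_simp; norm_num
  obtain ⟨XM, hXM⟩ := hHM H (le_max_right _ _) w
  obtain ⟨XJ, hXJ⟩ := major_close H w hwH hη10
  refine ⟨max (max XF XM) (max XJ 1), fun X hX ζ hζ0 hζ1 hcoll => ?_⟩
  have hXXF : XF ≤ X := ((le_max_left _ _).trans (le_max_left _ _)).trans hX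
  have hXXM : XM ≤ X := ((le_max_right _ _).trans (le_max_left _ _)).trans hX
  have hXXJ : XJ ≤ X := ((le_max_left _ _).trans (le_max_right _ _)).trans hX
  have hX1 : 1 ≤ X := ((le_max_right _ _).trans (le_max_right _ _)).trans hX
  have hXR : (1 : ℝ) ≤ X := by exact_mod_cast hX1
  have hcollζ : coll m X ζ ≤ K1 / X := by
    calc coll m X ζ ≤ coll m X (fun n => |ζ n|) := coll_mono m X ζ _ fun n => le_rfl
      _ ≤ K0 / X := hcoll
      _ ≤ K1 / X := by gcongr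
  -- abbreviations
  obtain ⟨θ, hθ⟩ : ∃ θ : ℕ → ℝ, θ = fun j : ℕ => (j : ℝ) / (J * X) := ⟨_, rfl⟩
  obtain ⟨F, hF⟩ : ∃ F : ℕ → ℂ, F = fun j : ℕ => PS 0 (X + 1) (θ j) := ⟨_, rfl⟩
  obtain ⟨G, hG⟩ : ∃ G : ℕ → ℂ, G = fun j : ℕ => F1 w X (θ j) := ⟨_, rfl⟩
  obtain ⟨k, hk⟩ : ∃ k : ℕ → ℂ, k = fun j : ℕ => KK X ζ (θ j) := ⟨_, rfl⟩
  have hk1 : ∀ j, ‖k j‖ ≤ 1 := by
    intro j
    rw [hk]
    exact cp_KK_le X ζ hζ1 _
  have hid : ((∑ n ∈ range (X + 1), ζ n * (rG n - conv1 w n) : ℝ) : ℂ) =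
      (1 / ((J : ℂ) * X)) * ∑ j ∈ range (J * X), (F j ^ 2 - G j ^ 2) * (starRingEnd ℂ) (k j) := by
    have e1 := conv_identity X J hJ3 hX1 ζ cpu
    have e2 := conv_identity X J hJ3 hX1 ζ (f1 w)
    have e3 : (∑ n ∈ range (X + 1), ζ n * (rG n - conv1 w n) : ℝ) =
        (∑ n ∈ range (X + 1), ζ n * ∑ a ∈ Icc 1 (n - 1), cpu a * cpu (n - a)) -
        ∑ n ∈ range (X + 1), ζ n * ∑ a ∈ Icc 1 (n - 1), f1 w a * f1 w (n - a) := by
      rw [← Finset.sum_sub_distrib]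
      refine sum_congr rfl fun n _ => ?_
      rw [cp_rG, cp_conv1 w n hw2]
      ring
    rw [e3, Complex.ofReal_sub, e1, e2, ← mul_sub, ← Finset.sum_sub_distrib]
    congr 1
    refine sum_congr rfl fun j _ => ?_
    have e4 : ∑ n ∈ Icc 1 X, (cpu n : ℂ) * ee ((n : ℝ) * ((j : ℝ) / (J * X))) = F j := by
      rw [cp_F, hF, hθ]
    have e5 : ∑ n ∈ Icc 1 X, (f1 w n : ℂ) * ee ((n : ℝ) * ((j : ℝ) / (J * X))) = G j := by
      rw [hG, hθ]
      rfl
    rw [e4, e5, hk, hθ]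
    ring
  have hnorm : |∑ n ∈ range (X + 1), ζ n * (rG n - conv1 w n)| ≤
      (1 / ((J : ℝ) * X)) * ∑ j ∈ range (J * X), ‖F j ^ 2 - G j ^ 2‖ * ‖k j‖ := by
    rw [← Real.norm_eq_abs, ← Complex.norm_real, hid, norm_mul]
    have e1 : ‖(1 / ((J : ℂ) * X))‖ = 1 / ((J : ℝ) * X) := by
      rw [norm_div, norm_mul, norm_one, Complex.norm_natCast, Complex.norm_natCast]
    rw [e1]
    apply mul_le_mul_of_nonneg_left _ (by positivity)
    refine le_trans (norm_sum_le _ _) (le_of_eq ?_)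
    refine sum_congr rfl fun j _ => ?_
    rw [norm_mul, RCLike.norm_conj]
  -- the major arcs
  set B := (range (J * X)).filter (fun j : ℕ => Ht H X ((j : ℝ) / (J * X))) with hB
  set A := (range (J * X)).filter (fun j : ℕ => ¬ Ht H X ((j : ℝ) / (J * X))) with hA
  have hmajor : (1 / ((J : ℝ) * X)) * ∑ j ∈ B, ‖F j ^ 2 - G j ^ 2‖ * ‖k j‖ ≤ η / 2 * X := by
    have h1 : ∀ j ∈ B, ‖F j ^ 2 - G j ^ 2‖ * ‖k j‖ ≤ 9 * η1 * (X : ℝ) ^ 2 := by
      intro j hj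
      rw [hB, mem_filter] at hj
      have h2 := hXJ X hXXJ _ hj.2
      have h3 : ‖F j - G j‖ ≤ η1 * X := by
        rw [hF, hG, hθ]
        exact h2
      have h4 : ‖F j‖ ≤ 4 * X := by
        rw [hF]
        refine (norm_PS_le (by positivity)).trans ?_
        linarith
      have h5 : ‖G j‖ ≤ 5 * X := by
        have h6 : G j = F j - (F j - G j) := by ring
        rw [h6]
        refine (norm_sub_le _ _).trans ?_
        nlinarith
      have h7 : F j ^ 2 - G j ^ 2 = (F j - G j) * (F j + G j) := by ring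
      have h8 : ‖F j + G j‖ ≤ 9 * X := (norm_add_le _ _).trans (by linarith)
      calc ‖F j ^ 2 - G j ^ 2‖ * ‖k j‖ ≤ ‖F j ^ 2 - G j ^ 2‖ * 1 :=
            mul_le_mul_of_nonneg_left (hk1 j) (norm_nonneg _)
        _ = ‖F j - G j‖ * ‖F j + G j‖ := by rw [h7, norm_mul, mul_one]
        _ ≤ (η1 * X) * (9 * X) := mul_le_mul h3 h8 (norm_nonneg _) (by positivity)
        _ = 9 * η1 * (X : ℝ) ^ 2 := by ring
    have h2 : ∑ j ∈ B, ‖F j ^ 2 - G j ^ 2‖ * ‖k j‖ ≤ CH * (9 * η1 * (X : ℝ) ^ 2) := by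
      calc ∑ j ∈ B, ‖F j ^ 2 - G j ^ 2‖ * ‖k j‖ ≤ ∑ j ∈ B, 9 * η1 * (X : ℝ) ^ 2 := sum_le_sum h1
        _ = (B.card : ℝ) * (9 * η1 * (X : ℝ) ^ 2) := by rw [sum_const, nsmul_eq_mul]
        _ ≤ CH * (9 * η1 * (X : ℝ) ^ 2) :=
            mul_le_mul_of_nonneg_right (hCH X hX1) (by positivity)
    have h3 : (1 / ((J : ℝ) * X)) ≤ 1 / X := by
      apply one_div_le_one_div_of_le (by linarith)
      nlinarith
    calc (1 / ((J : ℝ) * X)) * ∑ j ∈ B, ‖F j ^ 2 - G j ^ 2‖ * ‖k j‖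
        ≤ (1 / X) * (CH * (9 * η1 * (X : ℝ) ^ 2)) := by
          apply mul_le_mul h3 h2 _ (by positivity)
          exact sum_nonneg fun j _ => by positivity
      _ = (9 * CH * η1) * X := by field_simp
      _ ≤ η / 2 * X := mul_le_mul_of_nonneg_right hη1C (by linarith)
  -- the minor arcs
  have hAsub : A ⊆ range (J * X) := filter_subset _ _
  have hminF := cp_minor m hm J X hJm hX1 A hAsub (fun j => ‖F j‖) (fun j => norm_nonneg _) ζ K1
    hK1 hcollζ η2 hη20 hη21 (by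
      have := hXF X hXXF
      rw [hF, hθ]
      exact this)
  have hminG := cp_minor m hm J X hJm hX1 A hAsub (fun j => ‖G j‖) (fun j => norm_nonneg _) ζ K1
    hK1 hcollζ η2 hη20 hη21 (by
      have := hXM X hXXM
      rw [hG, hθ]
      exact this)
  have hminor : (1 / ((J : ℝ) * X)) * ∑ j ∈ A, ‖F j ^ 2 - G j ^ 2‖ * ‖k j‖ ≤ η / 2 * X := by
    have h1 : ∑ j ∈ A, ‖F j ^ 2 - G j ^ 2‖ * ‖k j‖ ≤
        ∑ j ∈ A, ‖F j‖ ^ 2 * ‖k j‖ + ∑ j ∈ A, ‖G j‖ ^ 2 * ‖k j‖ := by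
      rw [← Finset.sum_add_distrib]
      refine sum_le_sum fun j _ => ?_
      rw [← add_mul]
      apply mul_le_mul_of_nonneg_right _ (norm_nonneg _)
      refine (norm_sub_le _ _).trans ?_
      rw [norm_pow, norm_pow]
    have h2 : (0 : ℝ) ≤ 1 / ((J : ℝ) * X) := by positivity
    have h3 : (1 / ((J : ℝ) * X)) * ∑ j ∈ A, ‖F j‖ ^ 2 * ‖k j‖ ≤ η / 4 * X := by
      have h4 : (1 / ((J : ℝ) * X)) * ∑ j ∈ A, ‖F j‖ ^ 2 * ‖k j‖ ≤ Real.sqrt η2 * K1 * X := by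
        rw [hk, hθ]
        exact hminF
      exact h4.trans (mul_le_mul_of_nonneg_right hη2s (by linarith))
    have h5 : (1 / ((J : ℝ) * X)) * ∑ j ∈ A, ‖G j‖ ^ 2 * ‖k j‖ ≤ η / 4 * X := by
      have h4 : (1 / ((J : ℝ) * X)) * ∑ j ∈ A, ‖G j‖ ^ 2 * ‖k j‖ ≤ Real.sqrt η2 * K1 * X := by
        rw [hk, hθ]
        exact hminG
      exact h4.trans (mul_le_mul_of_nonneg_right hη2s (by linarith))
    have h6 := mul_le_mul_of_nonneg_left h1 h2
    rw [mul_add] at h6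
    linarith
  have hsplit := Finset.sum_filter_add_sum_filter_not (range (J * X))
    (fun j : ℕ => Ht H X ((j : ℝ) / (J * X))) (fun j => ‖F j ^ 2 - G j ^ 2‖ * ‖k j‖)
  rw [← hsplit, mul_add] at hnorm
  calc |∑ n ∈ range (X + 1), ζ n * (rG n - conv1 w n)| ≤ _ := hnorm
    _ ≤ η / 2 * X + η / 2 * X := add_le_add hmajor hminor
    _ = η * X := by ring

end Pool.MP_dd84fd_nt.En
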