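import Pool.Agent.Lib.MP_dd84fd_nt.En.Defs

/-!
# convolution of the model (module GB-CV)
-/

set_option autoImplicit false

namespace Pool.MP_dd84fd_nt.En

open Finset Pool.MP_67663b_nt.Odd

/-- number of residues `x mod m` with `x` and `n - x` invertible -/
private noncomputable def cvN (n m : ℕ) : ℕ :=
  Nat.card {x : ZMod m // IsUnit x ∧ IsUnit ((n : ZMod m) - x)}

private lemma cvN_mul (n a b : ℕ) (h : a.Coprime b) :
    cvN n (a * b) = cvN n a * cvN n b := by
  unfold cvN
  rw [← Nat.card_prod]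
  apply Nat.card_congr
  refine
    { toFun := fun x => (⟨((ZMod.chineseRemainder h) x).1, ?_, ?_⟩,
        ⟨((ZMod.chineseRemainder h) x).2, ?_, ?_⟩)
      invFun := fun y => ⟨(ZMod.chineseRemainder h).symm (y.1, y.2), ?_, ?_⟩
      left_inv := ?_
      right_inv := ?_ }
  · have h1' := x.2.1.map (ZMod.chineseRemainder h)
    rw [Prod.isUnit_iff] at h1'
    exact h1'.1
  · have h2' := x.2.2.map (ZMod.chineseRemainder h)
    rw [map_sub, map_natCast, Prod.isUnit_iff] at h2'
    simpa using h2'.1
  · have h1' := x.2.1.map (ZMod.chineseRemainder h)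
    rw [Prod.isUnit_iff] at h1'
    exact h1'.2
  · have h2' := x.2.2.map (ZMod.chineseRemainder h)
    rw [map_sub, map_natCast, Prod.isUnit_iff] at h2'
    simpa using h2'.2
  · apply IsUnit.map
    rw [Prod.isUnit_iff]
    exact ⟨y.1.2.1, y.2.2.1⟩
  · have h2' : IsUnit (((n : ZMod a × ZMod b)) - ((y.1 : ZMod a), (y.2 : ZMod b))) := by
      rw [Prod.isUnit_iff]
      refine ⟨?_, ?_⟩
      · simpa using y.1.2.2
      · simpa using y.2.2.2
    have h3 := h2'.map (ZMod.chineseRemainder h).symm
    rwa [map_sub, map_natCast] at h3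
  · intro x
    apply Subtype.ext
    simp
  · intro y
    apply Prod.ext
    · apply Subtype.ext
      simp
    · apply Subtype.ext
      simp

private lemma cvN_prime (n p : ℕ) (hp : p.Prime) :
    (cvN n p : ℝ) = if p ∣ n then (p : ℝ) - 1 else (p : ℝ) - 2 := by
  classical
  have := Fact.mk hp
  unfold cvN
  rw [Nat.card_eq_fintype_card, Fintype.card_subtype]
  have h1 : (univ.filter (fun x : ZMod p => IsUnit x ∧ IsUnit ((n : ZMod p) - x))) =
      univ \ {0, (n : ZMod p)} := by
    ext x
    simp only [mem_filter, mem_univ, true_and, isUnit_iff_ne_zero, mem_sdiff, mem_insert,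
      mem_singleton, not_or, ne_eq, sub_eq_zero]
    constructor
    · rintro ⟨a, b⟩; exact ⟨a, fun h => b h.symm⟩
    · rintro ⟨a, b⟩; exact ⟨a, fun h => b h.symm⟩
  rw [h1, Finset.card_sdiff_of_subset (subset_univ _), Finset.card_univ, ZMod.card]
  split_ifs with h
  · have : (n : ZMod p) = 0 := (ZMod.natCast_eq_zero_iff _ _).2 h
    rw [this]
    simp only [mem_singleton, insert_eq_of_mem, card_singleton]
    rw [Nat.cast_sub hp.one_lt.le]
    simp
  · have : (0 : ZMod p) ≠ (n : ZMod p) := by
      intro h2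
      exact h ((ZMod.natCast_eq_zero_iff _ _).1 h2.symm)
    rw [Finset.card_pair this, Nat.cast_sub hp.two_le]
    simp

private lemma cvN_one (n : ℕ) : cvN n 1 = 1 := by
  unfold cvN
  have h : ∀ y : ZMod 1, IsUnit y := fun y => by
    have : y = 1 := Subsingleton.elim _ _
    rw [this]; exact isUnit_one
  have : Unique {x : ZMod 1 // IsUnit x ∧ IsUnit ((n : ZMod 1) - x)} :=
    { default := ⟨0, h _, h _⟩
      uniq := fun x => Subtype.ext (Subsingleton.elim _ _) }
  exact Nat.card_unique

private lemma cv_Icc_succ (w : ℕ) : (Icc 1 (w + 1)).filter Nat.Prime = if (w + 1).Prime then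
    insert (w + 1) ((Icc 1 w).filter Nat.Prime) else (Icc 1 w).filter Nat.Prime := by
  split_ifs with h
  · ext p
    simp only [mem_filter, mem_Icc, mem_insert]
    constructor
    · rintro ⟨⟨h1, h2⟩, h3⟩
      by_cases h4 : p = w + 1
      · exact Or.inl h4
      · exact Or.inr ⟨⟨h1, by omega⟩, h3⟩
    · rintro (rfl | ⟨⟨h1, h2⟩, h3⟩)
      · exact ⟨⟨by omega, le_rfl⟩, h⟩
      · exact ⟨⟨h1, by omega⟩, h3⟩
  · ext p
    simp only [mem_filter, mem_Icc]
    constructor
    · rintro ⟨⟨h1, h2⟩, h3⟩
      refine ⟨⟨h1, ?_⟩, h3⟩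
      by_contra hc
      have : p = w + 1 := by omega
      exact h (this ▸ h3)
    · rintro ⟨⟨h1, h2⟩, h3⟩
      exact ⟨⟨h1, by omega⟩, h3⟩

private lemma cv_primorial_succ (w : ℕ) :
    primorial (w + 1) = if (w + 1).Prime then (w + 1) * primorial w else primorial w := by
  unfold primorial
  rw [Finset.range_add_one, Finset.filter_insert]
  split_ifs with h
  · rw [Finset.prod_insert (by simp)]
  · rfl

private lemma cv_coprime_primorial (w : ℕ) (h : (w + 1).Prime) :
    (w + 1).Coprime (primorial w) := by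
  rw [Nat.Prime.coprime_iff_not_dvd h]
  intro hd
  unfold primorial at hd
  rw [h.prime.dvd_finsetProd_iff] at hd
  obtain ⟨q, hq, hd⟩ := hd
  rw [mem_filter, mem_range] at hq
  have := (Nat.prime_dvd_prime_iff_eq h hq.2).1 hd
  omega

private lemma cv_primorial (n w : ℕ) :
    (cvN n (primorial w) : ℝ) =
      ∏ p ∈ (Icc 1 w).filter Nat.Prime, (if p ∣ n then (p : ℝ) - 1 else (p : ℝ) - 2) := by
  induction w with
  | zero =>
    have h0 : primorial 0 = 1 := by
      unfold primorial
      rw [show (range (0 + 1)).filter Nat.Prime = ∅ by decide]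
      rfl
    rw [h0, cvN_one]
    simp
  | succ w ih =>
    rw [cv_Icc_succ, cv_primorial_succ]
    split_ifs with h
    · rw [Finset.prod_insert (by simp), ← ih, ← cvN_prime n (w + 1) h, ← Nat.cast_mul,
        ← cvN_mul n (w + 1) (primorial w) (cv_coprime_primorial w h)]
    · exact ih

private lemma cv_totient (w : ℕ) :
    ((primorial w).totient : ℝ) = ∏ p ∈ (Icc 1 w).filter Nat.Prime, ((p : ℝ) - 1) := by
  induction w with
  | zero =>
    have h0 : primorial 0 = 1 := by
      unfold primorial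
      rw [show (range (0 + 1)).filter Nat.Prime = ∅ by decide]
      rfl
    rw [h0]
    simp
  | succ w ih =>
    rw [cv_Icc_succ, cv_primorial_succ]
    split_ifs with h
    · rw [Finset.prod_insert (by simp), ← ih, Nat.totient_mul (cv_coprime_primorial w h),
        Nat.totient_prime h]
      push_cast
      simp
    · exact ih

private lemma cv_prod (w : ℕ) :
    ((primorial w : ℕ) : ℝ) = ∏ p ∈ (Icc 1 w).filter Nat.Prime, (p : ℝ) := by
  induction w with
  | zero =>
    have h0 : primorial 0 = 1 := by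
      unfold primorial
      rw [show (range (0 + 1)).filter Nat.Prime = ∅ by decide]
      rfl
    rw [h0]
    simp
  | succ w ih =>
    rw [cv_Icc_succ, cv_primorial_succ]
    split_ifs with h
    · rw [Finset.prod_insert (by simp), ← ih]
      push_cast
      ring
    · exact ih

/-- the local identity -/
private lemma cv_SW (w n : ℕ) (hw : 2 ≤ w) (hn : Even n) (hn0 : 0 < n) :
    ((primorial w : ℝ) / (Nat.totient (primorial w) : ℝ)) ^ 2 *
      ((cvN n (primorial w) : ℝ) / (primorial w : ℝ)) = SW w n := by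
  rw [cv_primorial, cv_totient, cv_prod, ← Finset.prod_div_distrib, ← Finset.prod_pow,
    ← Finset.prod_div_distrib, ← Finset.prod_mul_distrib]
  unfold SW
  have e : (Icc 1 w).filter Nat.Prime = insert 2 ((Icc 3 w).filter Nat.Prime) := by
    ext p
    simp only [mem_filter, mem_Icc, mem_insert]
    constructor
    · rintro ⟨⟨h1, h2⟩, h3⟩
      by_cases h4 : p = 2
      · exact Or.inl h4
      · have := h3.two_le
        exact Or.inr ⟨⟨by omega, h2⟩, h3⟩
    · rintro (rfl | ⟨⟨h1, h2⟩, h3⟩)
      · exact ⟨⟨by omega, hw⟩, Nat.prime_two⟩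
      · exact ⟨⟨by omega, h2⟩, h3⟩
  rw [e, Finset.prod_insert (by simp)]
  have h2n : 2 ∣ n := hn.two_dvd
  have hfirst : (((2 : ℕ) : ℝ) / (((2 : ℕ) : ℝ) - 1)) ^ 2 * ((((2 : ℕ) : ℝ) - 1) / ((2 : ℕ) : ℝ)) = 2 := by
    norm_num
  rw [if_pos h2n, hfirst, mul_assoc]
  congr 1
  -- the remaining product
  have e2 : n.primeFactors.filter (fun p => 2 < p ∧ p ≤ w) =
      ((Icc 3 w).filter Nat.Prime).filter (fun p => p ∣ n) := by
    ext p
    simp only [mem_filter, mem_Icc, Nat.mem_primeFactors]
    constructor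
    · rintro ⟨⟨h1, h2, _⟩, h3, h4⟩; exact ⟨⟨⟨by omega, h4⟩, h1⟩, h2⟩
    · rintro ⟨⟨⟨h1, h2⟩, h3⟩, h4⟩; exact ⟨⟨h3, h4, by omega⟩, by omega, h2⟩
  rw [e2, Finset.prod_filter (fun p => p ∣ n), ← Finset.prod_mul_distrib]
  apply Finset.prod_congr rfl
  intro p hp
  rw [mem_filter, mem_Icc] at hp
  have h3 : (3 : ℝ) ≤ p := by exact_mod_cast hp.1.1
  have h4 : (p : ℝ) - 1 ≠ 0 := by linarith
  have h5 : (p : ℝ) - 2 ≠ 0 := by linarith
  have h6 : (p : ℝ) ≠ 0 := by linarith
  split_ifs with h
  · field_simp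
    ring
  · field_simp
    ring

/-- counting along a period, general predicate -/
private lemma cv_count_gen (W c : ℕ) (hW : 0 < W) (P : ℕ → Prop) [DecidablePred P]
    (hper : ∀ s : ℕ, ((Ico s (s + W)).filter P).card = c) (N : ℕ) :
    |(((range N).filter P).card : ℝ) - (N : ℝ) * ((c : ℝ) / W)| ≤ W := by
  have hq : ∀ q : ℕ, ((range (q * W)).filter P).card = q * c := by
    intro q
    induction q with
    | zero => simp
    | succ q ih =>
      have e : range ((q + 1) * W) = range (q * W) ∪ Ico (q * W) (q * W + W) := by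
        ext x
        simp only [mem_range, mem_union, mem_Ico]
        have : (q + 1) * W = q * W + W := by ring
        rw [this]
        generalize q * W = z
        omega
      rw [e, filter_union, card_union_of_disjoint, ih, hper]
      · ring
      · apply Finset.disjoint_filter_filter
        rw [Finset.disjoint_left]
        intro x hx hx2
        rw [mem_range] at hx
        rw [mem_Ico] at hx2
        omega
  obtain ⟨q, hqdef⟩ : ∃ q, q = N / W := ⟨_, rfl⟩
  obtain ⟨r, hrdef⟩ : ∃ r, r = N % W := ⟨_, rfl⟩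
  have hNq : N = q * W + r := by
    rw [hqdef, hrdef, mul_comm]
    exact (Nat.div_add_mod N W).symm
  have hr : r < W := by rw [hrdef]; exact Nat.mod_lt _ hW
  obtain ⟨z, hz⟩ : ∃ z, z = q * W := ⟨_, rfl⟩
  have hNz : N = z + r := by rw [hz]; exact hNq
  have hlow : q * c ≤ ((range N).filter P).card := by
    rw [← hq, ← hz]
    apply card_le_card
    apply filter_subset_filter
    intro x hx
    rw [mem_range] at hx ⊢
    omega
  have hup : ((range N).filter P).card ≤ q * c + r := by
    rw [← hq, ← hz]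
    have e : range N ⊆ range z ∪ Ico z N := by
      intro x hx
      rw [mem_range] at hx
      rw [mem_union, mem_range, mem_Ico]
      omega
    calc ((range N).filter P).card
        ≤ ((range z ∪ Ico z N).filter P).card :=
          card_le_card (filter_subset_filter _ e)
      _ ≤ ((range z).filter P).card + ((Ico z N).filter P).card := by
          rw [filter_union]; exact card_union_le _ _
      _ ≤ ((range z).filter P).card + r := by
          gcongr
          refine (card_filter_le _ _).trans ?_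
          rw [Nat.card_Ico]
          omega
  have hcW : c ≤ W := by
    rw [← hper 0]
    refine (card_filter_le _ _).trans ?_
    rw [Nat.card_Ico]; omega
  have hWr : (0 : ℝ) < W := by exact_mod_cast hW
  have e1 : (N : ℝ) * ((c : ℝ) / W) = (q : ℝ) * c + (r : ℝ) * ((c : ℝ) / W) := by
    have : (N : ℝ) = (q : ℝ) * W + (r : ℝ) := by exact_mod_cast hNq
    rw [this]
    field_simp
  have h1 : (c : ℝ) / W ≤ 1 := by
    rw [div_le_one hWr]; exact_mod_cast hcW
  have h2 : (r : ℝ) ≤ W := by exact_mod_cast hr.le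
  have h3 : 0 ≤ (c : ℝ) / W := by positivity
  have h4 : (0 : ℝ) ≤ r := Nat.cast_nonneg r
  have e2 : (r : ℝ) * ((c : ℝ) / W) ≤ W := by
    calc (r : ℝ) * ((c : ℝ) / W) ≤ r * 1 := mul_le_mul_of_nonneg_left h1 h4
      _ = r := mul_one _
      _ ≤ W := h2
  have e3 : 0 ≤ (r : ℝ) * ((c : ℝ) / W) := by positivity
  have hlow' : (q : ℝ) * c ≤ (((range N).filter P).card : ℝ) := by exact_mod_cast hlow
  have hup' : (((range N).filter P).card : ℝ) ≤ (q : ℝ) * c + r := by exact_mod_cast hup
  rw [e1, abs_le]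
  constructor <;> linarith

/-- the predicate that is counted -/
private def cvP (W n a : ℕ) : Prop := IsUnit ((a : ZMod W)) ∧ IsUnit ((n : ZMod W) - a)

open Classical in
private lemma cv_period (W n : ℕ) (hW : 0 < W) (s : ℕ) :
    ((Ico s (s + W)).filter (cvP W n)).card = cvN n W := by
  have : NeZero W := ⟨hW.ne'⟩
  unfold cvN
  rw [Nat.card_eq_fintype_card, Fintype.card_subtype]
  apply Finset.card_bij (fun (a : ℕ) _ => (a : ZMod W))
  · intro a ha
    rw [mem_filter] at ha
    rw [mem_filter]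
    exact ⟨mem_univ _, ha.2⟩
  · intro a ha b hb hab
    rw [mem_filter, mem_Ico] at ha hb
    rw [ZMod.natCast_eq_natCast_iff] at hab
    have h1 := (Nat.modEq_iff_dvd.1 hab)
    obtain ⟨c, hc⟩ := h1
    have hlt : |(b : ℤ) - a| < W := by
      rw [abs_lt]; constructor <;> omega
    have : c = 0 := by
      by_contra hc0
      have : (W : ℤ) ≤ |(b : ℤ) - a| := by
        rw [hc, abs_mul]
        have h2 : 1 ≤ |c| := Int.one_le_abs hc0
        have h3 : |(W : ℤ)| = W := abs_of_nonneg (by positivity)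
        rw [h3]; nlinarith
      omega
    rw [this] at hc
    omega
  · intro y hy
    rw [mem_filter] at hy
    have e : ((s + (y - (s : ZMod W)).val : ℕ) : ZMod W) = y := by
      rw [Nat.cast_add, ZMod.natCast_zmod_val]
      ring
    refine ⟨s + (y - (s : ZMod W)).val, ?_, e⟩
    rw [mem_filter, mem_Ico]
    refine ⟨⟨by omega, by have := ZMod.val_lt (y - (s : ZMod W)); omega⟩, ?_⟩
    unfold cvP
    rw [e]
    exact hy.2

theorem conv_f1 (w : ℕ) (hw : 2 ≤ w) : ∃ C : ℝ, 0 < C ∧ ∀ n : ℕ, Even n → 0 < n →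
    |conv1 w n - (n : ℝ) * SW w n| ≤ C := by
  classical
  set W : ℕ := primorial w with hWdef
  have hW : 0 < W := primorial_pos w
  have hWr : (0 : ℝ) < W := by exact_mod_cast hW
  set r : ℝ := (W : ℝ) / (Nat.totient W : ℝ) with hr
  have hr0 : 0 ≤ r := by positivity
  refine ⟨r ^ 2 * (W + 1) + 1, by positivity, fun n hn hn0 => ?_⟩
  have h1 : conv1 w n = r ^ 2 * (((range (n + 1)).filter (cvP W n)).card : ℝ) := by
    unfold conv1
    rw [Finset.card_filter]
    push_cast
    rw [Finset.mul_sum]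
    apply Finset.sum_congr rfl
    intro a ha
    rw [mem_range] at ha
    have e1 : IsUnit ((a : ZMod W)) ↔ Nat.Coprime a W := ZMod.isUnit_iff_coprime a W
    have e2 : IsUnit ((n : ZMod W) - a) ↔ Nat.Coprime (n - a) W := by
      rw [← ZMod.isUnit_iff_coprime, Nat.cast_sub (by omega)]
    unfold f1
    rw [← hWdef]
    by_cases c1 : Nat.Coprime a W
    · by_cases c2 : Nat.Coprime (n - a) W
      · have h12 : cvP W n a := ⟨e1.2 c1, e2.2 c2⟩
        rw [if_pos c1, if_pos c2, if_pos h12]
        ring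
      · have h12 : ¬ cvP W n a :=
          fun h => c2 (e2.1 h.2)
        rw [if_pos c1, if_neg c2, if_neg h12]
        ring
    · have h12 : ¬ cvP W n a :=
        fun h => c1 (e1.1 h.1)
      rw [if_neg c1, if_neg h12]
      ring
  have h2 := cv_count_gen W (cvN n W) hW _ (cv_period W n hW) (n + 1)
  have h3 : SW w n = r ^ 2 * ((cvN n W : ℝ) / W) := (cv_SW w n hw hn hn0).symm
  have h4 : (cvN n W : ℝ) / W ≤ 1 := by
    -- from counting
    have h5 : SW w n = r ^ 2 * ((cvN n W : ℝ) / W) := h3
    have hcard : cvN n W ≤ W := by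
      have : NeZero W := ⟨hW.ne'⟩
      unfold cvN
      rw [Nat.card_eq_fintype_card]
      refine (Fintype.card_subtype_le _).trans ?_
      rw [ZMod.card]
    rw [div_le_one hWr]
    exact_mod_cast hcard
  have h5 : 0 ≤ (cvN n W : ℝ) / W := by positivity
  rw [h1, h3]
  set c : ℝ := (((range (n + 1)).filter (cvP W n)).card : ℝ) with hc
  have h6 : |c - (n : ℝ) * ((cvN n W : ℝ) / W)| ≤ W + 1 := by
    push_cast at h2
    have e : c - (n : ℝ) * ((cvN n W : ℝ) / W) =
        (c - ((n : ℝ) + 1) * ((cvN n W : ℝ) / W)) + (cvN n W : ℝ) / W := by ring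
    rw [e]
    refine (abs_add_le _ _).trans ?_
    rw [abs_of_nonneg h5]
    linarith
  have e : r ^ 2 * c - (n : ℝ) * (r ^ 2 * ((cvN n W : ℝ) / W)) =
      r ^ 2 * (c - (n : ℝ) * ((cvN n W : ℝ) / W)) := by ring
  rw [e, abs_mul, abs_of_nonneg (by positivity : (0 : ℝ) ≤ r ^ 2)]
  have := mul_le_mul_of_nonneg_left h6 (by positivity : (0 : ℝ) ≤ r ^ 2)
  linarith

end Pool.MP_dd84fd_nt.En
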