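import Pool.Agent.Lib.MP_dd84fd_nt.En.Four2

/-!
# large prime factors of a random number (module GB-DC)
-/

set_option autoImplicit false

namespace Pool.MP_dd84fd_nt.En

open Finset Pool.MP_67663b_nt.Odd

private theorem dc_prob {m : ℕ} (hm : 1 ≤ m) {K0 : ℝ} {X : ℕ} (hX : 1 ≤ X) {ξ : ℕ → ℝ}
    (hξ : ∀ n, 0 ≤ ξ n) (hcoll : coll m X ξ ≤ K0 / X) {p : ℕ} (hp : 1 ≤ p) (hpX : p ≤ X) :
    ∑ n ∈ (range (X + 1)).filter (fun n => p ∣ n), ξ n ≤
      (((m : ℝ) + 1) * |K0|) ^ (((2 * m : ℕ) : ℝ)⁻¹) * ((p : ℝ) ^ (((2 * m : ℕ) : ℝ)⁻¹))⁻¹ := by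
  have hp0 : (0 : ℝ) < p := by exact_mod_cast hp
  have hX0 : (0 : ℝ) < X := by exact_mod_cast hX
  have hpX' : (p : ℝ) ≤ X := by exact_mod_cast hpX
  have hcn := coll_nonneg m X ξ hξ
  have hK0 : 0 ≤ K0 := by
    have h1 : 0 ≤ K0 / X := hcn.trans hcoll
    by_contra hneg
    push Not at hneg
    have := div_neg_of_neg_of_pos hneg hX0
    linarith
  set P := ∑ n ∈ (range (X + 1)).filter (fun n => p ∣ n), ξ n with hP
  have hP0 : 0 ≤ P := sum_nonneg (fun n _ => hξ n)
  have h1 := set_part m X ξ hξ ((range (X + 1)).filter (fun n => p ∣ n))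
    ((range (m * X / p + 1)).image (fun k => p * k)) (filter_subset _ _) (by
      intro a ha
      have h2 : p ∣ ∑ i, a i := dvd_sum (fun i _ => (mem_filter.1 (ha i)).2)
      obtain ⟨k, hk⟩ := h2
      rw [mem_image]
      refine ⟨k, ?_, hk.symm⟩
      rw [mem_range, Nat.lt_succ_iff, Nat.le_div_iff_mul_le hp, mul_comm, ← hk]
      calc ∑ i, a i ≤ ∑ _i : Fin m, X := by
            apply sum_le_sum
            intro i _
            have := mem_range.1 (mem_filter.1 (ha i)).1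
            omega
        _ = m * X := by simp)
  rw [← hP] at h1
  have h2 : ((((range (m * X / p + 1)).image (fun k => p * k)).card : ℕ) : ℝ) ≤
      (m : ℝ) * X / p + 1 := by
    have h3 : ((range (m * X / p + 1)).image (fun k => p * k)).card ≤ m * X / p + 1 :=
      card_image_le.trans (by rw [card_range])
    calc ((((range (m * X / p + 1)).image (fun k => p * k)).card : ℕ) : ℝ) ≤
        ((m * X / p + 1 : ℕ) : ℝ) := by exact_mod_cast h3
      _ ≤ (m : ℝ) * X / p + 1 := by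
          have := @Nat.cast_div_le ℝ _ _ _ (m * X) p
          push_cast at this ⊢
          linarith
  have h3 : P ^ (2 * m) ≤ ((m : ℝ) + 1) * |K0| / p := by
    rw [abs_of_nonneg hK0]
    calc P ^ (2 * m) ≤ _ := h1
      _ ≤ ((m : ℝ) * X / p + 1) * (K0 / X) := by
          apply mul_le_mul h2 hcoll hcn
          positivity
      _ = (m : ℝ) * K0 / p + K0 / X := by
          field_simp
      _ ≤ (m : ℝ) * K0 / p + K0 / p := by
          have := div_le_div_of_nonneg_left hK0 hp0 hpX'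
          linarith
      _ = _ := by ring
  have h4 : P = (P ^ (2 * m)) ^ (((2 * m : ℕ) : ℝ)⁻¹) :=
    (Real.pow_rpow_inv_natCast hP0 (by omega)).symm
  rw [h4]
  calc (P ^ (2 * m)) ^ (((2 * m : ℕ) : ℝ)⁻¹) ≤
      (((m : ℝ) + 1) * |K0| / p) ^ (((2 * m : ℕ) : ℝ)⁻¹) :=
        Real.rpow_le_rpow (by positivity) h3 (by positivity)
    _ = _ := by
        rw [Real.div_rpow (by positivity) hp0.le, div_eq_mul_inv]

theorem div_control (m : ℕ) (hm : 1 ≤ m) (K0 : ℝ) {ε : ℝ} (hε : 0 < ε) :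
    ∃ w0 : ℕ, ∀ X : ℕ, 1 ≤ X → ∀ ξ : ℕ → ℝ, (∀ n, 0 ≤ ξ n) → ξ 0 = 0 →
    ∑ n ∈ range (X + 1), ξ n = 1 → coll m X ξ ≤ K0 / X → ∀ w : ℕ, w0 ≤ w →
    ∑ n ∈ range (X + 1), ξ n * ∑ p ∈ n.primeFactors.filter (fun p => w < p), 1 / (p : ℝ) ≤ ε := by
  set Cc : ℝ := (((m : ℝ) + 1) * |K0|) ^ (((2 * m : ℕ) : ℝ)⁻¹) with hCc
  have hCc0 : 0 ≤ Cc := by positivity
  have hm0 : (0 : ℝ) < ((2 * m : ℕ) : ℝ)⁻¹ := by
    have : (0 : ℝ) < ((2 * m : ℕ) : ℝ) := by
      have : 0 < 2 * m := by omega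
      exact_mod_cast this
    positivity
  have hsum : Summable (fun n : ℕ => 1 / (n : ℝ) ^ (1 + ((2 * m : ℕ) : ℝ)⁻¹)) :=
    Real.summable_one_div_nat_rpow.2 (by linarith)
  obtain ⟨s, hs⟩ := summable_iff_vanishing_norm.1 hsum (ε / (Cc + 1)) (by positivity)
  refine ⟨s.sup id, ?_⟩
  intro X hX ξ hξ hξ0 _ hcoll w hw
  set B := (Icc 1 X).filter (fun p => p.Prime ∧ w < p) with hB
  have hdisj : Disjoint B s := by
    rw [disjoint_left]
    intro p hp hps
    rw [hB, mem_filter] at hp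
    have h1 : p ≤ s.sup id := le_sup (f := id) hps
    have h2 := hp.2.2
    omega
  have hBs := hs B hdisj
  have h1 : ∀ n ∈ range (X + 1),
      ξ n * ∑ p ∈ n.primeFactors.filter (fun p => w < p), 1 / (p : ℝ) ≤
      ∑ p ∈ B, (1 / (p : ℝ)) * (if p ∣ n then ξ n else 0) := by
    intro n hn
    rw [mul_sum]
    calc ∑ p ∈ n.primeFactors.filter (fun p => w < p), ξ n * (1 / (p : ℝ)) =
        ∑ p ∈ n.primeFactors.filter (fun p => w < p),
          (1 / (p : ℝ)) * (if p ∣ n then ξ n else 0) := by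
          apply sum_congr rfl
          intro p hp
          rw [if_pos (Nat.dvd_of_mem_primeFactors (mem_filter.1 hp).1), mul_comm]
      _ ≤ _ := by
          apply sum_le_sum_of_subset_of_nonneg
          · intro p hp
            rw [mem_filter, Nat.mem_primeFactors] at hp
            obtain ⟨⟨hpp, hpn, hn0⟩, hwp⟩ := hp
            rw [hB, mem_filter, mem_Icc]
            refine ⟨⟨hpp.pos, ?_⟩, hpp, hwp⟩
            have h2 := Nat.le_of_dvd (Nat.pos_of_ne_zero hn0) hpn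
            have h3 := mem_range.1 hn
            omega
          · intro p _ _
            apply mul_nonneg (by positivity)
            split_ifs
            · exact hξ n
            · exact le_rfl
  calc ∑ n ∈ range (X + 1), ξ n * ∑ p ∈ n.primeFactors.filter (fun p => w < p), 1 / (p : ℝ) ≤
      ∑ n ∈ range (X + 1), ∑ p ∈ B, (1 / (p : ℝ)) * (if p ∣ n then ξ n else 0) :=
        sum_le_sum h1
    _ = ∑ p ∈ B, (1 / (p : ℝ)) * ∑ n ∈ (range (X + 1)).filter (fun n => p ∣ n), ξ n := by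
        rw [sum_comm]
        apply sum_congr rfl
        intro p _
        rw [← mul_sum, sum_filter]
    _ ≤ ∑ p ∈ B, Cc * (1 / (p : ℝ) ^ (1 + ((2 * m : ℕ) : ℝ)⁻¹)) := by
        apply sum_le_sum
        intro p hp
        rw [hB, mem_filter, mem_Icc] at hp
        have hp0 : (0 : ℝ) < p := by exact_mod_cast hp.1.1
        have h2 := dc_prob hm hX hξ hcoll hp.1.1 hp.1.2
        calc (1 / (p : ℝ)) * ∑ n ∈ (range (X + 1)).filter (fun n => p ∣ n), ξ n ≤
            (1 / (p : ℝ)) * (Cc * ((p : ℝ) ^ (((2 * m : ℕ) : ℝ)⁻¹))⁻¹) :=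
              mul_le_mul_of_nonneg_left h2 (by positivity)
          _ = _ := by
              rw [Real.rpow_add hp0, Real.rpow_one]
              field_simp
    _ = Cc * ∑ p ∈ B, 1 / (p : ℝ) ^ (1 + ((2 * m : ℕ) : ℝ)⁻¹) := by rw [mul_sum]
    _ ≤ Cc * (ε / (Cc + 1)) := by
        apply mul_le_mul_of_nonneg_left _ hCc0
        exact (le_abs_self _).trans hBs.le
    _ ≤ ε := by
        rw [mul_div_assoc', div_le_iff₀ (by positivity)]
        nlinarith

end Pool.MP_dd84fd_nt.En
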