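import Pool.Agent.Lib.MP_dd84fd_nt.En.Conv
import Pool.Agent.Lib.MP_dd84fd_nt.En.Sing
import Pool.Agent.Lib.MP_dd84fd_nt.En.Count

/-!
# pointwise consequences of a wrong count (module GB-PW)
-/

set_option autoImplicit false

namespace Pool.MP_dd84fd_nt.En

open Finset Pool.MP_67663b_nt.Odd

theorem pointwise {ε : ℝ} (hε : 0 < ε) : ∃ ε2 c : ℝ, 0 < ε2 ∧ 0 < c ∧ ∃ w0 : ℕ, ∀ w : ℕ,
    w0 ≤ w → ∃ n0 : ℕ, ∀ n : ℕ, n0 ≤ n → Even n →
    ∑ p ∈ n.primeFactors.filter (fun p => w < p), 1 / (p : ℝ) ≤ ε2 →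
    (ε * HL n < (g n : ℝ) - HL n → c * n ≤ rG n - conv1 w n) ∧
    (ε * HL n < HL n - (g n : ℝ) → c * n ≤ conv1 w n - rG n) := by
  have hC2 := C2_pos
  set d0 : ℝ := min ε (1 / 2) with hd0
  have hd0pos : 0 < d0 := by positivity
  have hd0ε : d0 ≤ ε := min_le_left _ _
  have hd0h : d0 ≤ 1 / 2 := min_le_right _ _
  set ε1 : ℝ := min (d0 / 8) (C2 * d0 / 2) with hε1
  have hε1pos : 0 < ε1 := by positivity
  have hε1a : ε1 ≤ d0 / 8 := min_le_left _ _
  have hε1b : ε1 ≤ C2 * d0 / 2 := min_le_right _ _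
  obtain ⟨n1, hn1⟩ := rG_g hε1pos
  obtain ⟨w1, hw1⟩ := SW_SS (ε := d0 / 8) (by positivity)
  refine ⟨d0 / 24, C2 * d0 / 2, by positivity, by positivity, max w1 2, ?_⟩
  intro w hw
  obtain ⟨Cw, hCw, hconv⟩ := conv_f1 w ((le_max_right _ _).trans hw)
  refine ⟨max (max n1 2) ⌈Cw / (3 / 10 * (C2 * d0))⌉₊, ?_⟩
  intro n hn hev hsum
  have hnn1 : n1 ≤ n := ((le_max_left _ _).trans (le_max_left _ _)).trans hn
  have hn2 : 2 ≤ n := ((le_max_right _ _).trans (le_max_left _ _)).trans hn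
  have hnC : Cw ≤ 3 / 10 * (C2 * d0) * n := by
    have h1 : ⌈Cw / (3 / 10 * (C2 * d0))⌉₊ ≤ n := (le_max_right _ _).trans hn
    have h2 : Cw / (3 / 10 * (C2 * d0)) ≤ n := Nat.ceil_le.1 h1
    rw [div_le_iff₀ (by positivity)] at h2
    linarith
  have hn0 : (0 : ℝ) < n := by
    have : 0 < n := by omega
    exact_mod_cast this
  have hlog : 0 < Real.log n := by
    apply Real.log_pos
    have : 1 < n := by omega
    exact_mod_cast this
  have hrG := abs_le.1 (hn1 n hnn1)
  obtain ⟨hS1, hS2⟩ := hw1 w ((le_max_left _ _).trans hw) n (by omega)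
  have hcv := abs_le.1 (hconv n hev (by omega))
  have hSge := SS_ge n
  have hSpos : 0 < SS n := by linarith
  have hHL : HL n * (Real.log n) ^ 2 = SS n * n := by
    unfold HL
    field_simp
  have hHL0 : 0 ≤ HL n := by
    unfold HL
    positivity
  set G := (g n : ℝ) * (Real.log n) ^ 2 with hG
  have hSn : 0 < SS n * n := by positivity
  have hG0 : 0 ≤ G := by positivity
  have hcn : C2 * n ≤ SS n * n / 2 := by
    nlinarith
  have hε1n : ε1 * n ≤ d0 * (SS n * n) / 4 := by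
    calc ε1 * n ≤ C2 * d0 / 2 * n := mul_le_mul_of_nonneg_right hε1b hn0.le
      _ = d0 / 2 * (C2 * n) := by ring
      _ ≤ d0 / 2 * (SS n * n / 2) := mul_le_mul_of_nonneg_left hcn (by positivity)
      _ = _ := by ring
  have hd0Sn : d0 * (C2 * n) ≤ d0 * (SS n * n / 2) := mul_le_mul_of_nonneg_left hcn hd0pos.le
  constructor
  · intro h
    -- too many representations
    have h1 : (1 + d0) * HL n ≤ g n := by
      nlinarith
    have h2 : (1 + d0) * (SS n * n) ≤ G := by
      calc (1 + d0) * (SS n * n) = (1 + d0) * HL n * (Real.log n) ^ 2 := by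
            rw [← hHL]
            ring
        _ ≤ g n * (Real.log n) ^ 2 := mul_le_mul_of_nonneg_right h1 (by positivity)
    have h3 : (1 - ε1) * ((1 + d0) * (SS n * n)) ≤ (1 - ε1) * G :=
      mul_le_mul_of_nonneg_left h2 (by linarith)
    have h4 : SW w n ≤ SS n * (1 + d0 / 7) := by
      have h5 : 1 ≤ (1 - d0 / 8) * (1 + d0 / 7) := by nlinarith
      have h6 : (1 - d0 / 8) * SW w n ≤ (1 - d0 / 8) * (SS n * (1 + d0 / 7)) := by
        calc (1 - d0 / 8) * SW w n ≤ SS n := hS1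
          _ = SS n * 1 := by ring
          _ ≤ SS n * ((1 - d0 / 8) * (1 + d0 / 7)) := mul_le_mul_of_nonneg_left h5 hSpos.le
          _ = _ := by ring
      exact le_of_mul_le_mul_left h6 (by linarith)
    have h5 : n * SW w n ≤ (1 + d0 / 7) * (SS n * n) := by
      calc n * SW w n ≤ n * (SS n * (1 + d0 / 7)) := mul_le_mul_of_nonneg_left h4 hn0.le
        _ = _ := by ring
    have h6 : (1 + 13 / 16 * d0) * (SS n * n) ≤ (1 - ε1) * ((1 + d0) * (SS n * n)) := by
      have h7 : 1 + 13 / 16 * d0 ≤ (1 - ε1) * (1 + d0) := by nlinarith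
      calc (1 + 13 / 16 * d0) * (SS n * n) ≤ (1 - ε1) * (1 + d0) * (SS n * n) :=
            mul_le_mul_of_nonneg_right h7 hSn.le
        _ = _ := by ring
    nlinarith
  · intro h
    have h1 : (g n : ℝ) ≤ (1 - d0) * HL n := by
      nlinarith
    have h2 : G ≤ (1 - d0) * (SS n * n) := by
      calc G = g n * (Real.log n) ^ 2 := rfl
        _ ≤ (1 - d0) * HL n * (Real.log n) ^ 2 := mul_le_mul_of_nonneg_right h1 (by positivity)
        _ = _ := by
            rw [← hHL]
            ring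
    have h3 : (1 + ε1) * G ≤ (1 + ε1) * ((1 - d0) * (SS n * n)) :=
      mul_le_mul_of_nonneg_left h2 (by linarith)
    set E := Real.exp (3 * ∑ p ∈ n.primeFactors.filter (fun p => w < p), 1 / (p : ℝ)) with hE
    have hE0 : 0 < E := Real.exp_pos _
    have hSW0 : 0 < SW w n := by
      by_contra hneg
      push Not at hneg
      have := mul_nonpos_of_nonpos_of_nonneg hneg hE0.le
      linarith
    have hE1 : E ≤ Real.exp (d0 / 8) := by
      apply Real.exp_le_exp.2
      linarith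
    have h4 : (1 - d0 / 8) * SS n ≤ SW w n := by
      have h5 : (1 - d0 / 8) * Real.exp (d0 / 8) ≤ 1 := by
        have h6 := Real.add_one_le_exp (-(d0 / 8))
        calc (1 - d0 / 8) * Real.exp (d0 / 8) ≤ Real.exp (-(d0 / 8)) * Real.exp (d0 / 8) :=
              mul_le_mul_of_nonneg_right (by linarith) (Real.exp_pos _).le
          _ = 1 := by rw [← Real.exp_add]; simp
      calc (1 - d0 / 8) * SS n ≤ (1 - d0 / 8) * (SW w n * Real.exp (d0 / 8)) := by
            apply mul_le_mul_of_nonneg_left _ (by linarith)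
            exact hS2.trans (mul_le_mul_of_nonneg_left hE1 hSW0.le)
        _ = ((1 - d0 / 8) * Real.exp (d0 / 8)) * SW w n := by ring
        _ ≤ 1 * SW w n := mul_le_mul_of_nonneg_right h5 hSW0.le
        _ = SW w n := one_mul _
    have h5 : (1 - d0 / 8) * (SS n * n) ≤ n * SW w n := by
      calc (1 - d0 / 8) * (SS n * n) = n * ((1 - d0 / 8) * SS n) := by ring
        _ ≤ _ := mul_le_mul_of_nonneg_left h4 hn0.le
    have h6 : (1 + ε1) * ((1 - d0) * (SS n * n)) ≤ (1 - 7 / 8 * d0) * (SS n * n) := by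
      have h7 : (1 + ε1) * (1 - d0) ≤ 1 - 7 / 8 * d0 := by nlinarith
      calc (1 + ε1) * ((1 - d0) * (SS n * n)) = (1 + ε1) * (1 - d0) * (SS n * n) := by ring
        _ ≤ _ := mul_le_mul_of_nonneg_right h7 hSn.le
    nlinarith

end Pool.MP_dd84fd_nt.En
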