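import Pool.Agent.Lib.MP_dd84fd_nt.En.Compare
import Pool.Agent.Lib.MP_dd84fd_nt.En.Pointw
import Pool.Agent.Lib.MP_dd84fd_nt.En.DivC
import Pool.Agent.Lib.MP_dd84fd_nt.En.Four2

/-!
# the energy theorem (module GB-EN)
-/

set_option autoImplicit false

namespace Pool.MP_dd84fd_nt.En

open Finset Pool.MP_67663b_nt.Odd

theorem energy (m : ℕ) (hm : 1 ≤ m) {ε : ℝ} (hε : 0 < ε) (K : ℝ) :
    ∃ X0 : ℕ, ∀ X : ℕ, X0 ≤ X → ∀ ξ : ℕ → ℝ, (∀ n, 0 ≤ ξ n) →
      (∀ n, ξ n ≠ 0 → Even n ∧ 2 < n ∧ n ≤ X ∧ ε * HL n < |(g n : ℝ) - HL n|) →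
      ∑ n ∈ range (X + 1), ξ n = 1 → K / X < coll m X ξ := by
  classical
  have hmR : (1 : ℝ) ≤ m := by exact_mod_cast hm
  set K1 : ℝ := max K 1 with hK1def
  have hK1 : 1 ≤ K1 := le_max_right _ _
  have hKK1 : K ≤ K1 := le_max_left _ _
  set q : ℝ := (1 / 4 : ℝ) ^ (2 * m) with hq
  have hq0 : 0 < q := by positivity
  set κ : ℝ := min 1 (q / (2 * m * K1)) with hκ
  have hκ0 : 0 < κ := lt_min one_pos (by positivity)
  have hκ1 : κ ≤ 1 := min_le_left _ _
  have hκq : (m : ℝ) * κ * K1 ≤ q / 2 := by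
    calc (m : ℝ) * κ * K1 = κ * (m * K1) := by ring
      _ ≤ q / (2 * m * K1) * (m * K1) := mul_le_mul_of_nonneg_right (min_le_right _ _) (by positivity)
      _ = q / 2 := by field_simp
  obtain ⟨ε2, c, hε2, hc, wP, hP⟩ := pointwise hε
  obtain ⟨wD, hD⟩ := div_control m hm K1 (ε := ε2 / 4) (by positivity)
  obtain ⟨wC, hC⟩ := compare m hm K1 (η := c * κ / 4) (by positivity)
  obtain ⟨w, hwdef⟩ : ∃ w : ℕ, w = max wP (max wD wC) := ⟨_, rfl⟩
  have hwP : wP ≤ w := by rw [hwdef]; exact le_max_left _ _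
  have hwD : wD ≤ w := by rw [hwdef]; exact (le_max_left _ _).trans (le_max_right _ _)
  have hwC : wC ≤ w := by rw [hwdef]; exact (le_max_right _ _).trans (le_max_right _ _)
  obtain ⟨n0, hn0⟩ := hP w hwP
  obtain ⟨XC, hXC⟩ := hC w hwC
  refine ⟨max (max XC 1) (max ⌈(n0 : ℝ) / κ⌉₊ ⌈2 * K1 / q⌉₊), fun X hX ξ hξ hbad hsum => ?_⟩
  have hXXC : XC ≤ X := ((le_max_left _ _).trans (le_max_left _ _)).trans hX
  have hX1 : 1 ≤ X := ((le_max_right _ _).trans (le_max_left _ _)).trans hX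
  have hXR : (1 : ℝ) ≤ X := by exact_mod_cast hX1
  have hXn0 : (n0 : ℝ) ≤ κ * X := by
    have h1 : (n0 : ℝ) / κ ≤ X := by
      calc (n0 : ℝ) / κ ≤ (⌈(n0 : ℝ) / κ⌉₊ : ℝ) := Nat.le_ceil _
        _ ≤ X := by exact_mod_cast ((le_max_left _ _).trans (le_max_right _ _)).trans hX
    rw [div_le_iff₀ hκ0] at h1
    linarith
  have hXq : K1 / X ≤ q / 2 := by
    have h1 : 2 * K1 / q ≤ X := by
      calc 2 * K1 / q ≤ (⌈2 * K1 / q⌉₊ : ℝ) := Nat.le_ceil _
        _ ≤ X := by exact_mod_cast ((le_max_right _ _).trans (le_max_right _ _)).trans hX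
    rw [div_le_iff₀ hq0] at h1
    rw [div_le_iff₀ (by linarith)]
    linarith
  by_contra hcon
  push Not at hcon
  have hcoll : coll m X ξ ≤ K1 / X := hcon.trans (by gcongr)
  have hξ0 : ξ 0 = 0 := by
    by_contra h
    have := (hbad 0 h).2.1
    omega
  -- small numbers
  have hsmall : ∑ n ∈ (range (X + 1)).filter (fun n => n ≤ ⌊κ * X⌋₊), ξ n ≤ 1 / 4 := by
    have h1 := small_part m X ξ hξ ⌊κ * X⌋₊
    have h2 : ((m : ℝ) * (⌊κ * X⌋₊ : ℝ) + 1) * coll m X ξ ≤ q := by
      have h3 : (⌊κ * X⌋₊ : ℝ) ≤ κ * X := Nat.floor_le (by positivity)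
      calc ((m : ℝ) * (⌊κ * X⌋₊ : ℝ) + 1) * coll m X ξ
          ≤ ((m : ℝ) * (κ * X) + 1) * (K1 / X) := by
            apply mul_le_mul _ hcoll (coll_nonneg m X ξ hξ) (by positivity)
            have := mul_le_mul_of_nonneg_left h3 (by linarith : (0 : ℝ) ≤ m)
            linarith
        _ = (m : ℝ) * κ * K1 + K1 / X := by
            field_simp
        _ ≤ q := by linarith
    have h4 : (∑ n ∈ (range (X + 1)).filter (fun n => n ≤ ⌊κ * X⌋₊), ξ n) ^ (2 * m) ≤
        (1 / 4 : ℝ) ^ (2 * m) := h1.trans h2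
    exact le_of_pow_le_pow_left₀ (by omega) (by norm_num) h4
  -- large prime factors
  obtain ⟨S, hS⟩ : ∃ S : ℕ → ℝ,
      S = fun n : ℕ => ∑ p ∈ (n.primeFactors.filter (fun p : ℕ => w < p) : Finset ℕ),
        1 / ((p : ℕ) : ℝ) := ⟨_, rfl⟩
  have hS0 : ∀ n, 0 ≤ S n := by
    intro n
    rw [hS]
    exact sum_nonneg fun p _ => by positivity
  have hdiv : ∑ n ∈ (range (X + 1)).filter (fun n => ε2 < S n), ξ n ≤ 1 / 4 := by
    have h1 : ∑ n ∈ range (X + 1), ξ n * S n ≤ ε2 / 4 := by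
      rw [hS]
      exact hD X hX1 ξ hξ hξ0 hsum hcoll w hwD
    have h2 : ε2 * ∑ n ∈ (range (X + 1)).filter (fun n => ε2 < S n), ξ n ≤
        ∑ n ∈ range (X + 1), ξ n * S n := by
      rw [Finset.mul_sum]
      calc ∑ n ∈ (range (X + 1)).filter (fun n => ε2 < S n), ε2 * ξ n
          ≤ ∑ n ∈ (range (X + 1)).filter (fun n => ε2 < S n), ξ n * S n := by
            refine sum_le_sum fun n hn => ?_
            rw [mem_filter] at hn
            rw [mul_comm]
            exact mul_le_mul_of_nonneg_left hn.2.le (hξ n)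
        _ ≤ ∑ n ∈ range (X + 1), ξ n * S n :=
            sum_le_sum_of_subset_of_nonneg (filter_subset _ _) fun n _ _ =>
              mul_nonneg (hξ n) (hS0 n)
    have h3 : ε2 * ∑ n ∈ (range (X + 1)).filter (fun n => ε2 < S n), ξ n ≤ ε2 * (1 / 4) := by
      linarith
    exact le_of_mul_le_mul_left h3 hε2
  -- the test function
  obtain ⟨sg, hsg⟩ : ∃ sg : ℕ → ℝ, sg = fun n => if HL n ≤ (g n : ℝ) then 1 else -1 := ⟨_, rfl⟩
  obtain ⟨ζ, hζ⟩ : ∃ ζ : ℕ → ℝ,
      ζ = fun n => if n ≤ ⌊κ * X⌋₊ ∨ ε2 < S n then 0 else sg n * ξ n := ⟨_, rfl⟩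
  have hsg1 : ∀ n, |sg n| = 1 := by
    intro n
    rw [hsg]
    dsimp only
    split_ifs
    · exact abs_one
    · rw [abs_neg, abs_one]
  have habs : ∀ n, |ζ n| = if n ≤ ⌊κ * X⌋₊ ∨ ε2 < S n then 0 else ξ n := by
    intro n
    rw [hζ]
    dsimp only
    split_ifs
    · exact abs_zero
    · rw [abs_mul, hsg1, one_mul, abs_of_nonneg (hξ n)]
  have habsle : ∀ n, |ζ n| ≤ ξ n := by
    intro n
    rw [habs]
    split_ifs
    · exact hξ n
    · exact le_rfl
  have hmass : 1 / 2 ≤ ∑ n ∈ range (X + 1), |ζ n| := by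
    have h1 : ∀ n ∈ range (X + 1), ξ n ≤ |ζ n| + (if n ≤ ⌊κ * X⌋₊ then ξ n else 0) +
        (if ε2 < S n then ξ n else 0) := by
      intro n _
      rw [habs]
      have := hξ n
      by_cases h2 : n ≤ ⌊κ * X⌋₊
      · rw [if_pos (Or.inl h2), if_pos h2]
        split_ifs <;> linarith
      · by_cases h3 : ε2 < S n
        · rw [if_pos (Or.inr h3), if_neg h2, if_pos h3]
          linarith
        · rw [if_neg (by tauto), if_neg h2, if_neg h3]
          linarith
    have h2 := sum_le_sum h1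
    rw [hsum, Finset.sum_add_distrib, Finset.sum_add_distrib, ← Finset.sum_filter,
      ← Finset.sum_filter] at h2
    linarith
  have hζ1 : ∑ n ∈ range (X + 1), |ζ n| ≤ 1 := by
    rw [← hsum]
    exact sum_le_sum fun n _ => habsle n
  have hζ0 : ζ 0 = 0 := by
    have h1 := habsle 0
    rw [hξ0] at h1
    exact abs_eq_zero.mp (le_antisymm h1 (abs_nonneg _))
  have hcollζ : coll m X (fun n => |ζ n|) ≤ K1 / X := by
    refine (coll_mono m X _ ξ fun n => ?_).trans hcoll
    rw [abs_abs]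
    exact habsle n
  have hcmp := hXC X hXXC ζ hζ0 hζ1 hcollζ
  -- the pointwise lower bound
  have hpt : ∀ n ∈ range (X + 1), |ζ n| * (c * κ * X) ≤ ζ n * (rG n - conv1 w n) := by
    intro n _
    by_cases h1 : n ≤ ⌊κ * X⌋₊ ∨ ε2 < S n
    · have h2 : ζ n = 0 := by rw [hζ]; exact if_pos h1
      rw [h2, abs_zero, zero_mul, zero_mul]
    · by_cases h2 : ξ n = 0
      · have h3 : ζ n = 0 := by
          have h4 := habsle n
          rw [h2] at h4
          exact abs_eq_zero.mp (le_antisymm h4 (abs_nonneg _))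
        rw [h3, abs_zero, zero_mul, zero_mul]
      · rw [not_or, not_le, not_lt] at h1
        obtain ⟨he, h2n, hnX, hdev⟩ := hbad n h2
        have hκn : κ * X < n := (Nat.floor_lt (by positivity)).mp h1.1
        have hn0n : n0 ≤ n := by
          have : (n0 : ℝ) ≤ n := by linarith
          exact_mod_cast this
        have hSn : ∑ p ∈ n.primeFactors.filter (fun p => w < p), 1 / (p : ℝ) ≤ ε2 := by
          have := h1.2
          rw [hS] at this
          exact this
        obtain ⟨hp1, hp2⟩ := hn0 n hn0n he hSn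
        have hζn : ζ n = sg n * ξ n := by
          rw [hζ]
          exact if_neg (by rw [not_or, not_le, not_lt]; exact h1)
        have habsn : |ζ n| = ξ n := by
          rw [habs]
          exact if_neg (by rw [not_or, not_le, not_lt]; exact h1)
        rw [habsn, hζn]
        have hcn : c * κ * X ≤ c * n := by
          have := mul_le_mul_of_nonneg_left hκn.le hc.le
          linarith
        by_cases h5 : HL n ≤ (g n : ℝ)
        · have h6 : sg n = 1 := by rw [hsg]; exact if_pos h5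
          rw [abs_of_nonneg (by linarith)] at hdev
          have h7 := hp1 hdev
          rw [h6, one_mul]
          exact mul_le_mul_of_nonneg_left (by linarith) (hξ n)
        · have h6 : sg n = -1 := by rw [hsg]; exact if_neg h5
          rw [not_le] at h5
          rw [abs_of_neg (by linarith), neg_sub] at hdev
          have h7 := hp2 hdev
          rw [h6]
          have h8 : -1 * ξ n * (rG n - conv1 w n) = ξ n * (conv1 w n - rG n) := by ring
          rw [h8]
          exact mul_le_mul_of_nonneg_left (by linarith) (hξ n)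
  have hlow := sum_le_sum hpt
  rw [← Finset.sum_mul] at hlow
  have h1 : 1 / 2 * (c * κ * X) ≤ (∑ n ∈ range (X + 1), |ζ n|) * (c * κ * X) :=
    mul_le_mul_of_nonneg_right hmass (by positivity)
  have h2 := (le_abs_self _).trans hcmp
  have h3 : 0 < c * κ * X := by positivity
  linarith

end Pool.MP_dd84fd_nt.En
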