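import Pool.Agent.Lib.MP_dd84fd_nt.En.Defs

/-!
# Fourier expansion of the model (module GB-FE)
-/

set_option autoImplicit false

namespace Pool.MP_dd84fd_nt.En

open Finset Pool.MP_67663b_nt.Odd

/-- coefficient -/
private noncomputable def feC (W k : ℕ) : ℂ :=
  ((ArithmeticFunction.moebius (W / Nat.gcd k W) : ℝ) / (Nat.totient (W / Nat.gcd k W) : ℝ) : ℂ)

private noncomputable def feF (n W : ℕ) : ℂ :=
  ∑ k ∈ range W, feC W k * ee ((n : ℝ) * ((k : ℝ) / W))

private theorem fe_gcd {A B : ℕ} (h : Nat.Coprime A B) (a b : ℕ) :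
    Nat.gcd ((a * B + b * A) % (A * B)) (A * B) = Nat.gcd a A * Nat.gcd b B := by
  have h1 : Nat.gcd ((a * B + b * A) % (A * B)) (A * B) = Nat.gcd (a * B + b * A) (A * B) :=
    (Nat.gcd_rec _ _).symm.trans (Nat.gcd_comm _ _)
  rw [h1, h.gcd_mul]
  congr 1
  · rw [Nat.gcd_add_mul_right_left]
    exact Nat.Coprime.gcd_mul_right_cancel a h.symm
  · rw [Nat.add_comm, Nat.gcd_add_mul_right_left]
    exact Nat.Coprime.gcd_mul_right_cancel b h

private theorem feC_mul {A B : ℕ} (h : Nat.Coprime A B) (a b : ℕ) :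
    feC (A * B) ((a * B + b * A) % (A * B)) = feC A a * feC B b := by
  unfold feC
  rw [fe_gcd h]
  have hd : A * B / (Nat.gcd a A * Nat.gcd b B) = (A / Nat.gcd a A) * (B / Nat.gcd b B) :=
    Nat.mul_div_mul_comm (Nat.gcd_dvd_right a A) (Nat.gcd_dvd_right b B)
  have hc : Nat.Coprime (A / Nat.gcd a A) (B / Nat.gcd b B) :=
    Nat.Coprime.coprime_dvd_left (Nat.div_dvd_of_dvd (Nat.gcd_dvd_right a A))
      (Nat.Coprime.coprime_dvd_right (Nat.div_dvd_of_dvd (Nat.gcd_dvd_right b B)) h)
  rw [hd, ArithmeticFunction.isMultiplicative_moebius.map_mul_of_coprime hc, Nat.totient_mul hc]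
  push_cast
  rw [div_mul_div_comm]

private theorem fe_ee {A B : ℕ} (hA : 0 < A) (hB : 0 < B) (n a b : ℕ) :
    ee ((n : ℝ) * ((((a * B + b * A) % (A * B) : ℕ) : ℝ) / ((A * B : ℕ) : ℝ))) =
      ee ((n : ℝ) * ((a : ℝ) / A)) * ee ((n : ℝ) * ((b : ℝ) / B)) := by
  have hA' : (A : ℝ) ≠ 0 := by exact_mod_cast hA.ne'
  have hB' : (B : ℝ) ≠ 0 := by exact_mod_cast hB.ne'
  set q := (a * B + b * A) / (A * B) with hq
  set r := (a * B + b * A) % (A * B) with hr
  have h1 : (A * B) * q + r = a * B + b * A := Nat.div_add_mod _ _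
  have h2 : ((A : ℝ) * B) * q + r = a * B + b * A := by exact_mod_cast h1
  rw [← ee_add]
  have h3 : (n : ℝ) * ((a : ℝ) / A) + (n : ℝ) * ((b : ℝ) / B) =
      (n : ℝ) * ((r : ℝ) / ((A * B : ℕ) : ℝ)) + (((n * q : ℕ) : ℤ) : ℝ) := by
    push_cast
    field_simp
    nlinarith [h2]
  rw [h3, ee_add_int]

private theorem fe_mul {A B : ℕ} (hA : 0 < A) (hB : 0 < B) (h : Nat.Coprime A B) (n : ℕ) :
    feF n (A * B) = feF n A * feF n B := by
  unfold feF
  rw [Finset.sum_mul_sum, ← Finset.sum_product']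
  symm
  have hAB : 0 < A * B := Nat.mul_pos hA hB
  have hinj : Set.InjOn (fun x : ℕ × ℕ => (x.1 * B + x.2 * A) % (A * B))
      (↑(range A ×ˢ range B) : Set (ℕ × ℕ)) := by
    rintro ⟨a, b⟩ hab ⟨a', b'⟩ hab' he
    simp only [Finset.coe_product, Set.mem_prod, Finset.mem_coe, Finset.mem_range] at hab hab'
    simp only at he
    have he' : (a * B + b * A) ≡ (a' * B + b' * A) [MOD A * B] := he
    have hA1 : (a * B + b * A) ≡ (a' * B + b' * A) [MOD A] := he'.of_mul_right B
    have hB1 : (a * B + b * A) ≡ (a' * B + b' * A) [MOD B] := he'.of_mul_left A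
    have hA2 : a * B ≡ a' * B [MOD A] := by
      have e1 : a * B + b * A ≡ a * B [MOD A] := by
        simp [Nat.ModEq]
      have e2 : a' * B + b' * A ≡ a' * B [MOD A] := by
        simp [Nat.ModEq]
      exact e1.symm.trans (hA1.trans e2)
    have hB2 : b * A ≡ b' * A [MOD B] := by
      have e1 : a * B + b * A ≡ b * A [MOD B] := by
        simp [Nat.ModEq]
      have e2 : a' * B + b' * A ≡ b' * A [MOD B] := by
        simp [Nat.ModEq]
      exact e1.symm.trans (hB1.trans e2)
    have hA3 : a ≡ a' [MOD A] := Nat.ModEq.cancel_right_of_coprime h hA2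
    have hB3 : b ≡ b' [MOD B] := Nat.ModEq.cancel_right_of_coprime h.symm hB2
    rw [Prod.mk.injEq]
    exact ⟨Nat.ModEq.eq_of_lt_of_lt hA3 hab.1 hab'.1, Nat.ModEq.eq_of_lt_of_lt hB3 hab.2 hab'.2⟩
  have hmaps : Set.MapsTo (fun x : ℕ × ℕ => (x.1 * B + x.2 * A) % (A * B))
      (↑(range A ×ˢ range B) : Set (ℕ × ℕ)) (↑(range (A * B)) : Set ℕ) := by
    intro x _
    simp only [Finset.mem_coe, Finset.mem_range]
    exact Nat.mod_lt _ hAB
  refine Finset.sum_nbij (fun x : ℕ × ℕ => (x.1 * B + x.2 * A) % (A * B)) ?_ hinj ?_ ?_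
  · intro x hx
    exact hmaps hx
  · exact Finset.surjOn_of_injOn_of_card_le _ hmaps hinj (by simp)
  · rintro ⟨a, b⟩ _
    simp only
    rw [feC_mul h, fe_ee hA hB]
    ring

private theorem fe_geo {p : ℕ} (hp : p.Prime) (n : ℕ) :
    ∑ k ∈ range p, ee ((n : ℝ) * ((k : ℝ) / p)) = if p ∣ n then (p : ℂ) else 0 := by
  have hp0 : (p : ℝ) ≠ 0 := by exact_mod_cast hp.ne_zero
  have hpow : ∀ k : ℕ, ee ((n : ℝ) * ((k : ℝ) / p)) = ee ((n : ℝ) / p) ^ k := by
    intro k
    induction k with
    | zero => simp [ee_zero]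
    | succ k ih =>
      rw [pow_succ, ← ih, ← ee_add]
      congr 1
      push_cast
      ring
  rw [Finset.sum_congr rfl fun k _ => hpow k]
  split_ifs with hd
  · obtain ⟨m, rfl⟩ := hd
    have h1 : ee (((p * m : ℕ) : ℝ) / p) = 1 := by
      have : ((p * m : ℕ) : ℝ) / p = ((m : ℤ) : ℝ) := by
        push_cast
        field_simp
      rw [this, ee_int]
    rw [h1]
    simp
  · have h1 : ee ((n : ℝ) / p) ≠ 1 := by
      intro h
      unfold ee at h
      rw [Complex.exp_eq_one_iff] at h
      obtain ⟨m, hm⟩ := h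
      have h2 : (((n : ℝ) / p : ℝ) : ℂ) = m := by
        have h3 : (2 * Real.pi * Complex.I : ℂ) ≠ 0 := Complex.two_pi_I_ne_zero
        apply mul_right_cancel₀ h3
        rw [← hm]
        push_cast
        ring
      have h4 : (n : ℝ) / p = m := by
        have := congrArg Complex.re h2
        simpa using this
      rw [div_eq_iff hp0] at h4
      have h5 : (n : ℤ) = m * p := by exact_mod_cast h4
      exact hd (Int.natCast_dvd_natCast.1 ⟨m, by rw [h5]; ring⟩)
    have h2 : ee ((n : ℝ) / p) ^ p = 1 := by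
      rw [← hpow p]
      have : (n : ℝ) * ((p : ℝ) / p) = ((n : ℤ) : ℝ) := by
        rw [div_self hp0]
        simp
      rw [this, ee_int]
    rw [geom_sum_eq h1, h2, sub_self, zero_div]

private theorem fe_prime {p : ℕ} (hp : p.Prime) (n : ℕ) :
    feF n p = if Nat.Coprime n p then (p : ℂ) / ((Nat.totient p : ℕ) : ℂ) else 0 := by
  have hp1 : ((p : ℂ) - 1) ≠ 0 := by
    intro h
    have : (p : ℂ) = 1 := by linear_combination h
    exact hp.ne_one (by exact_mod_cast this)
  have h0 : feF n p = 1 + ∑ k ∈ (range p).erase 0, (-1 / ((p : ℂ) - 1)) *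
      ee ((n : ℝ) * ((k : ℝ) / p)) := by
    unfold feF
    rw [← Finset.add_sum_erase _ _ (Finset.mem_range.2 hp.pos)]
    congr 1
    · simp [feC, ee_zero, Nat.div_self hp.pos]
    · refine Finset.sum_congr rfl fun k hk => ?_
      rw [Finset.mem_erase, Finset.mem_range] at hk
      have hg : Nat.gcd k p = 1 := by
        rw [Nat.gcd_comm]
        exact (Nat.Prime.coprime_iff_not_dvd hp).2
          (fun hd => absurd (Nat.le_of_dvd (Nat.pos_of_ne_zero hk.1) hd) (by omega))
      congr 1
      unfold feC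
      rw [hg, Nat.div_one, ArithmeticFunction.moebius_apply_prime hp, Nat.totient_prime hp]
      push_cast [hp.one_le]
      norm_num
  have hg := fe_geo hp n
  rw [← Finset.add_sum_erase _ _ (Finset.mem_range.2 hp.pos)] at hg
  have hz : ee ((n : ℝ) * (((0 : ℕ) : ℝ) / p)) = 1 := by simp [ee_zero]
  rw [hz] at hg
  rw [h0, ← Finset.mul_sum]
  have hc : Nat.Coprime n p ↔ ¬ p ∣ n := by
    rw [Nat.coprime_comm]
    exact Nat.Prime.coprime_iff_not_dvd hp
  have ht : ((Nat.totient p : ℕ) : ℂ) = (p : ℂ) - 1 := by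
    rw [Nat.totient_prime hp]
    push_cast [hp.one_le]
    ring
  rw [ht]
  by_cases hd : p ∣ n
  · rw [if_neg (by rw [hc]; exact fun h => h hd)]
    rw [if_pos hd] at hg
    have : ∑ k ∈ (range p).erase 0, ee ((n : ℝ) * ((k : ℝ) / p)) = (p : ℂ) - 1 := by
      linear_combination hg
    rw [this]
    field_simp
    ring
  · rw [if_pos (hc.2 hd)]
    rw [if_neg hd] at hg
    have : ∑ k ∈ (range p).erase 0, ee ((n : ℝ) * ((k : ℝ) / p)) = -1 := by
      linear_combination hg
    rw [this]
    field_simp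
    ring

private theorem fe_all (n w : ℕ) :
    feF n (primorial w) = if Nat.Coprime n (primorial w) then
      (primorial w : ℂ) / ((Nat.totient (primorial w) : ℕ) : ℂ) else 0 := by
  induction w with
  | zero =>
    have h1 : primorial 0 = 1 := by simp [primorial, Nat.not_prime_zero]
    rw [h1]
    simp [feF, feC, ee_zero]
  | succ w ih =>
    by_cases hp : (w + 1).Prime
    · have h1 : primorial (w + 1) = (w + 1) * primorial w := by
        unfold primorial
        rw [Finset.range_add_one, Finset.filter_insert, if_pos hp, Finset.prod_insert]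
        simp
      have hc : Nat.Coprime (w + 1) (primorial w) := by
        unfold primorial
        refine Nat.Coprime.prod_right fun q hq => ?_
        rw [Finset.mem_filter, Finset.mem_range] at hq
        exact (Nat.coprime_primes hp hq.2).2 (by omega)
      rw [h1, fe_mul hp.pos (primorial_pos w) hc, ih, fe_prime hp, Nat.totient_mul hc]
      by_cases h2 : Nat.Coprime n (w + 1)
      · by_cases h3 : Nat.Coprime n (primorial w)
        · rw [if_pos h2, if_pos h3, if_pos (Nat.Coprime.mul_right h2 h3)]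
          push_cast
          rw [div_mul_div_comm]
        · rw [if_neg h3, if_neg (fun h => h3 (Nat.Coprime.coprime_mul_left_right h)), mul_zero]
      · rw [if_neg h2, if_neg (fun h => h2 (Nat.Coprime.coprime_mul_right_right h)), zero_mul]
    · have h1 : primorial (w + 1) = primorial w := by
        unfold primorial
        rw [Finset.range_add_one, Finset.filter_insert, if_neg hp]
      rw [h1, ih]

theorem f1_expand (w n : ℕ) : (f1 w n : ℂ) = ∑ k ∈ range (primorial w),
    ((ArithmeticFunction.moebius (primorial w / Nat.gcd k (primorial w)) : ℝ) /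
      (Nat.totient (primorial w / Nat.gcd k (primorial w)) : ℝ) : ℂ) *
      ee ((n : ℝ) * ((k : ℝ) / primorial w)) := by
  have h := fe_all n w
  unfold feF feC at h
  rw [h]
  unfold f1
  split_ifs <;> simp

end Pool.MP_dd84fd_nt.En
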