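import Pool.Agent.Lib.MP_dd84fd_nt.En.Defs

/-!
# the logarithm identity on rough numbers (module GB-ID)
-/

set_option autoImplicit false

namespace Pool.MP_dd84fd_nt.En

open Finset Pool.MP_67663b_nt.Odd

/-- pairs `(d, m)` with `d m ≤ X` -/
private def idT (X : ℕ) : Finset (ℕ × ℕ) := ((Icc 1 X) ×ˢ (Icc 1 X)).filter (fun x => x.1 * x.2 ≤ X)

private lemma id_swap (X : ℕ) (F : ℕ → ℕ → ℂ) :
    ∑ n ∈ Icc 1 X, ∑ d ∈ n.divisors, F d (n / d) = ∑ x ∈ idT X, F x.1 x.2 := by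
  rw [Finset.sum_sigma']
  refine Finset.sum_bij' (fun s _ => (s.2, s.1 / s.2)) (fun x _ => ⟨x.1 * x.2, x.1⟩) ?_ ?_ ?_ ?_ ?_
  · rintro ⟨n, d⟩ hs
    simp only [mem_sigma, mem_Icc, Nat.mem_divisors] at hs
    obtain ⟨⟨h1, h2⟩, h3, h4⟩ := hs
    have hd : 0 < d := Nat.pos_of_dvd_of_pos h3 (by omega)
    have hq : 0 < n / d := Nat.div_pos (Nat.le_of_dvd (by omega) h3) hd
    have hdn : d ≤ n := Nat.le_of_dvd (by omega) h3
    have hqn : n / d ≤ n := Nat.div_le_self _ _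
    simp only [idT, mem_filter, mem_product, mem_Icc]
    refine ⟨⟨⟨hd, by omega⟩, ⟨hq, by omega⟩⟩, ?_⟩
    rw [Nat.mul_div_cancel' h3]; exact h2
  · rintro ⟨d, m⟩ hx
    simp only [idT, mem_filter, mem_product, mem_Icc] at hx
    obtain ⟨⟨⟨h1, h2⟩, ⟨h3, h4⟩⟩, h5⟩ := hx
    simp only [mem_sigma, mem_Icc, Nat.mem_divisors]
    have : 0 < d * m := Nat.mul_pos (by omega) (by omega)
    exact ⟨⟨by omega, h5⟩, Dvd.intro _ rfl, by omega⟩
  · rintro ⟨n, d⟩ hs
    simp only [mem_sigma, mem_Icc, Nat.mem_divisors] at hs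
    obtain ⟨⟨h1, h2⟩, h3, h4⟩ := hs
    simp only [Nat.mul_div_cancel' h3]
  · rintro ⟨d, m⟩ hx
    simp only [idT, mem_filter, mem_product, mem_Icc] at hx
    obtain ⟨⟨⟨h1, h2⟩, ⟨h3, h4⟩⟩, h5⟩ := hx
    simp only [Prod.mk.injEq, true_and]
    exact Nat.mul_div_cancel_left m (by omega)
  · rintro ⟨n, d⟩ _
    rfl

private lemma id_rho_mul {z : ℝ} {a b : ℕ} : rho z (a * b) = rho z a * rho z b := by
  classical
  unfold rho
  have h : Rough z (a * b) ↔ Rough z a ∧ Rough z b := by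
    unfold Rough
    constructor
    · intro h
      exact ⟨fun p hp hd => h p hp (hd.mul_right b), fun p hp hd => h p hp (hd.mul_left a)⟩
    · rintro ⟨h1, h2⟩ p hp hd
      rcases (hp.dvd_mul).1 hd with h3 | h3
      · exact h1 p hp h3
      · exact h2 p hp h3
  by_cases ha : Rough z a
  · by_cases hb : Rough z b
    · rw [if_pos (h.2 ⟨ha, hb⟩), if_pos ha, if_pos hb]; norm_num
    · rw [if_neg (fun hh => hb (h.1 hh).2), if_neg hb]; norm_num
  · rw [if_neg (fun hh => ha (h.1 hh).1), if_neg ha]; norm_num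

private lemma id_rho_prime {z : ℝ} {p : ℕ} (hp : p.Prime) :
    rho z p = if z ≤ (p : ℝ) then 1 else 0 := by
  classical
  unfold rho
  have h : Rough z p ↔ z ≤ (p : ℝ) := by
    unfold Rough
    constructor
    · intro h; exact h p hp dvd_rfl
    · intro h q hq hd
      rw [(Nat.prime_dvd_prime_iff_eq hq hp).1 hd]; exact h
  by_cases hz : z ≤ (p : ℝ)
  · rw [if_pos (h.2 hz), if_pos hz]
  · rw [if_neg (fun hh => hz (h.1 hh)), if_neg hz]

private lemma id_rho_nonneg (z : ℝ) (n : ℕ) : 0 ≤ rho z n := by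
  classical
  unfold rho; split_ifs <;> norm_num

private lemma id_rho_le (z : ℝ) (n : ℕ) : rho z n ≤ 1 := by
  classical
  unfold rho; split_ifs <;> norm_num

private lemma id_geom (x : ℝ) (hx0 : 0 ≤ x) (hx : x ≤ 1 / 2) (K : ℕ) (hK : 1 ≤ K) :
    ∑ k ∈ Icc 2 K, x ^ k ≤ 2 * x ^ 2 - 2 * x ^ (K + 1) := by
  induction K, hK using Nat.le_induction with
  | base => simp
  | succ K hK ih =>
    rw [Finset.sum_Icc_succ_top (by omega)]
    have h1 : x ^ (K + 1 + 1) ≤ x ^ (K + 1) * (1 / 2) := by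
      rw [pow_succ]
      exact mul_le_mul_of_nonneg_left hx (by positivity)
    linarith

private lemma id_term {z : ℝ} (hz : 2 ≤ z) {p : ℕ} (hpz : z ≤ (p : ℝ)) :
    Real.log p * (2 * (1 / (p : ℝ)) ^ 2) ≤ 8 * (1 / Real.sqrt z) * (1 / (p : ℝ) ^ (5 / 4 : ℝ)) := by
  have hp0 : (0 : ℝ) < p := by linarith
  have hz0 : 0 < z := by linarith
  have h1 : Real.log p ≤ (p : ℝ) ^ (1 / 4 : ℝ) / (1 / 4) := Real.log_le_rpow_div hp0.le (by norm_num)
  have h2 : Real.sqrt z ≤ (p : ℝ) ^ (1 / 2 : ℝ) := by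
    rw [Real.sqrt_eq_rpow]
    exact Real.rpow_le_rpow hz0.le hpz (by norm_num)
  have hs : 0 < Real.sqrt z := Real.sqrt_pos.2 hz0
  have h3 : (1 / (p : ℝ)) ^ 2 = 1 / ((p : ℝ) ^ (1 / 4 : ℝ) * (p : ℝ) ^ (1 / 2 : ℝ) * (p : ℝ) ^ (5 / 4 : ℝ)) := by
    rw [← Real.rpow_add hp0, ← Real.rpow_add hp0, one_div, one_div, inv_pow]
    congr 1
    rw [← Real.rpow_natCast]
    congr 1
    norm_num
  have hq1 : 0 < (p : ℝ) ^ (1 / 4 : ℝ) := Real.rpow_pos_of_pos hp0 _
  have hq2 : 0 < (p : ℝ) ^ (1 / 2 : ℝ) := Real.rpow_pos_of_pos hp0 _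
  have hq3 : 0 < (p : ℝ) ^ (5 / 4 : ℝ) := Real.rpow_pos_of_pos hp0 _
  rw [h3]
  have h4 : Real.log p * (2 * (1 / ((p : ℝ) ^ (1 / 4 : ℝ) * (p : ℝ) ^ (1 / 2 : ℝ) * (p : ℝ) ^ (5 / 4 : ℝ))))
      ≤ (p : ℝ) ^ (1 / 4 : ℝ) / (1 / 4) *
        (2 * (1 / ((p : ℝ) ^ (1 / 4 : ℝ) * (p : ℝ) ^ (1 / 2 : ℝ) * (p : ℝ) ^ (5 / 4 : ℝ)))) :=
    mul_le_mul_of_nonneg_right h1 (by positivity)
  refine h4.trans ?_
  have h5 : (p : ℝ) ^ (1 / 4 : ℝ) / (1 / 4) *
        (2 * (1 / ((p : ℝ) ^ (1 / 4 : ℝ) * (p : ℝ) ^ (1 / 2 : ℝ) * (p : ℝ) ^ (5 / 4 : ℝ)))) =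
      8 * (1 / (p : ℝ) ^ (1 / 2 : ℝ)) * (1 / (p : ℝ) ^ (5 / 4 : ℝ)) := by
    field_simp
    norm_num
  rw [h5]
  apply mul_le_mul_of_nonneg_right _ (by positivity)
  apply mul_le_mul_of_nonneg_left _ (by norm_num)
  exact one_div_le_one_div_of_le hs h2

open ArithmeticFunction in
/-- the contribution of proper prime powers -/
private lemma id_bad : ∃ C : ℝ, 0 < C ∧ ∀ (z : ℝ) (X : ℕ), 2 ≤ z → 1 ≤ X →
    ∑ d ∈ (Icc 1 X).filter (fun d => ¬ d.Prime), vonMangoldt d * rho z d / (d : ℝ) ≤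
      C / Real.sqrt z := by
  classical
  have hsum : Summable (fun n : ℕ => 1 / (n : ℝ) ^ (5 / 4 : ℝ)) :=
    Real.summable_one_div_nat_rpow.2 (by norm_num)
  refine ⟨8 * (∑' n : ℕ, 1 / (n : ℝ) ^ (5 / 4 : ℝ)) + 1, ?_, ?_⟩
  · have : 0 ≤ ∑' n : ℕ, 1 / (n : ℝ) ^ (5 / 4 : ℝ) := tsum_nonneg (fun n => by positivity)
    linarith
  intro z X hz hX
  have hz0 : 0 < z := by linarith
  have hs : 0 < Real.sqrt z := Real.sqrt_pos.2 hz0
  set Q : Finset (ℕ × ℕ) := ((Icc 1 X).filter (fun p : ℕ => p.Prime ∧ z ≤ (p : ℝ))) ×ˢ (Icc 2 X) with hQ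
  set Im : Finset ℕ := Q.image (fun x => x.1 ^ x.2) with hIm
  have hgn : ∀ d : ℕ, 0 ≤ vonMangoldt d * rho z d / (d : ℝ) := fun d =>
    div_nonneg (mul_nonneg vonMangoldt_nonneg (id_rho_nonneg _ _)) (Nat.cast_nonneg _)
  -- only elements of the image contribute
  have h1 : ∑ d ∈ (Icc 1 X).filter (fun d => ¬ d.Prime), vonMangoldt d * rho z d / (d : ℝ) ≤
      ∑ d ∈ Im, vonMangoldt d * rho z d / (d : ℝ) := by
    rw [← Finset.sum_filter_add_sum_filter_not ((Icc 1 X).filter (fun d => ¬ d.Prime))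
      (fun d => d ∈ Im)]
    have h2 : ∑ d ∈ ((Icc 1 X).filter (fun d => ¬ d.Prime)).filter (fun d => ¬ d ∈ Im),
        vonMangoldt d * rho z d / (d : ℝ) = 0 := by
      apply Finset.sum_eq_zero
      intro d hd
      simp only [mem_filter, mem_Icc] at hd
      obtain ⟨⟨⟨hd1, hdX⟩, hdp⟩, hdI⟩ := hd
      by_contra hne
      have hv : vonMangoldt d ≠ 0 := by
        intro h; apply hne; rw [h]; simp
      have hr : rho z d ≠ 0 := by
        intro h; apply hne; rw [h]; simp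
      have hR : Rough z d := by
        by_contra h
        apply hr
        unfold rho
        rw [if_neg h]
      rw [vonMangoldt_ne_zero_iff, isPrimePow_nat_iff] at hv
      obtain ⟨p, k, hp, hk, hpk⟩ := hv
      apply hdI
      rw [hIm, mem_image]
      refine ⟨(p, k), ?_, hpk⟩
      rw [hQ, mem_product, mem_filter, mem_Icc, mem_Icc]
      have hk2 : 2 ≤ k := by
        by_contra hc
        have : k = 1 := by omega
        rw [this, pow_one] at hpk
        exact hdp (hpk ▸ hp)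
      have hpd : p ∣ d := by rw [← hpk]; exact dvd_pow_self p (by omega)
      have hpX : p ≤ X := (Nat.le_of_dvd (by omega) hpd).trans hdX
      have hkX : k ≤ X := by
        have : k < p ^ k := Nat.lt_pow_self hp.one_lt
        have : p ^ k ≤ X := by rw [hpk]; exact hdX
        omega
      exact ⟨⟨⟨hp.one_lt.le, hpX⟩, hp, hR p hp hpd⟩, ⟨hk2, hkX⟩⟩
    rw [h2, add_zero]
    apply Finset.sum_le_sum_of_subset_of_nonneg
    · intro d hd
      rw [mem_filter] at hd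
      exact hd.2
    · intro d _ _
      exact hgn d
  have h3 : ∑ d ∈ Im, vonMangoldt d * rho z d / (d : ℝ) ≤
      ∑ x ∈ Q, vonMangoldt (x.1 ^ x.2) * rho z (x.1 ^ x.2) / ((x.1 ^ x.2 : ℕ) : ℝ) := by
    rw [hIm]
    exact Finset.sum_image_le_of_nonneg (fun x _ => hgn _)
  have h4 : ∑ x ∈ Q, vonMangoldt (x.1 ^ x.2) * rho z (x.1 ^ x.2) / ((x.1 ^ x.2 : ℕ) : ℝ) ≤
      ∑ x ∈ Q, Real.log x.1 * (1 / (x.1 : ℝ)) ^ x.2 := by
    apply Finset.sum_le_sum
    rintro ⟨p, k⟩ hx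
    rw [hQ, mem_product, mem_filter, mem_Icc, mem_Icc] at hx
    obtain ⟨⟨_, hp, _⟩, hk, _⟩ := hx
    simp only at hp hk ⊢
    rw [vonMangoldt_apply_pow (by omega), vonMangoldt_apply_prime hp]
    have hlog : 0 ≤ Real.log (p : ℝ) := Real.log_natCast_nonneg p
    push_cast
    rw [one_div, inv_pow, div_eq_mul_inv]
    apply mul_le_mul_of_nonneg_right _ (by positivity)
    have := id_rho_le z (p ^ k)
    nlinarith
  have h5 : ∑ x ∈ Q, Real.log x.1 * (1 / (x.1 : ℝ)) ^ x.2 ≤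
      ∑ p ∈ (Icc 1 X).filter (fun p : ℕ => p.Prime ∧ z ≤ (p : ℝ)),
        8 * (1 / Real.sqrt z) * (1 / (p : ℝ) ^ (5 / 4 : ℝ)) := by
    rw [hQ, Finset.sum_product]
    apply Finset.sum_le_sum
    intro p hp
    rw [mem_filter, mem_Icc] at hp
    obtain ⟨_, hpp, hpz⟩ := hp
    simp only
    rw [← Finset.mul_sum]
    have hlog : 0 ≤ Real.log (p : ℝ) := Real.log_natCast_nonneg p
    have h6 : ∑ k ∈ Icc 2 X, (1 / (p : ℝ)) ^ k ≤ 2 * (1 / (p : ℝ)) ^ 2 := by
      have h7 := id_geom (1 / (p : ℝ)) (by positivity)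
        (one_div_le_one_div_of_le (by norm_num) (hz.trans hpz)) X hX
      have h8 : 0 ≤ (1 / (p : ℝ)) ^ (X + 1) := by positivity
      linarith
    exact (mul_le_mul_of_nonneg_left h6 hlog).trans (id_term hz hpz)
  have h6 : ∑ p ∈ (Icc 1 X).filter (fun p : ℕ => p.Prime ∧ z ≤ (p : ℝ)),
        8 * (1 / Real.sqrt z) * (1 / (p : ℝ) ^ (5 / 4 : ℝ)) ≤
      8 * (1 / Real.sqrt z) * ∑' n : ℕ, 1 / (n : ℝ) ^ (5 / 4 : ℝ) := by
    rw [← Finset.mul_sum]
    apply mul_le_mul_of_nonneg_left _ (by positivity)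
    exact hsum.sum_le_tsum _ (fun n _ => by positivity)
  refine (h1.trans (h3.trans (h4.trans (h5.trans h6)))).trans ?_
  have : (0 : ℝ) ≤ 1 / Real.sqrt z := by positivity
  have e : (8 * (∑' n : ℕ, 1 / (n : ℝ) ^ (5 / 4 : ℝ)) + 1) / Real.sqrt z =
      8 * (1 / Real.sqrt z) * (∑' n : ℕ, 1 / (n : ℝ) ^ (5 / 4 : ℝ)) + 1 / Real.sqrt z := by ring
  rw [e]
  linarith

/-- the prime part -/
private lemma id_PS (z : ℝ) (X m : ℕ) (hm : 1 ≤ m) (α : ℝ) :
    PS z (((X : ℝ) + 1) / m) ((m : ℝ) * α) =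
      ∑ d ∈ (Icc 1 X).filter (fun d => d * m ≤ X ∧ d.Prime ∧ z ≤ (d : ℝ)),
        (Real.log d : ℂ) * ee (((d * m : ℕ) : ℝ) * α) := by
  unfold PS
  have e : pr z (((X : ℝ) + 1) / m) =
      (Icc 1 X).filter (fun d => d * m ≤ X ∧ d.Prime ∧ z ≤ (d : ℝ)) := by
    ext d
    rw [mem_pr, mem_filter, mem_Icc]
    have hm0 : (0 : ℝ) < m := by exact_mod_cast hm
    rw [lt_div_iff₀ hm0]
    have h1 : (d : ℝ) * m < (X : ℝ) + 1 ↔ d * m ≤ X := by
      rw [← Nat.lt_add_one_iff]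
      constructor
      · intro h; exact_mod_cast h
      · intro h; exact_mod_cast h
    rw [h1]
    constructor
    · rintro ⟨hp, hz, hd⟩
      refine ⟨⟨hp.one_lt.le, ?_⟩, hd, hp, hz⟩
      calc d = d * 1 := (mul_one d).symm
        _ ≤ d * m := Nat.mul_le_mul_left d hm
        _ ≤ X := hd
    · rintro ⟨_, hd, hp, hz⟩
      exact ⟨hp, hz, hd⟩
  rw [e]
  apply Finset.sum_congr rfl
  intro d _
  push_cast
  rw [mul_assoc]

open ArithmeticFunction in
open Classical in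
theorem log_identity : ∃ C : ℝ, 0 < C ∧ ∀ (z : ℝ) (X : ℕ) (α : ℝ), 2 ≤ z → 1 ≤ X →
    ‖∑ n ∈ Icc 1 X, ((rho z n * Real.log n : ℝ) : ℂ) * ee ((n : ℝ) * α) -
      PS z (X + 1) α -
      ∑ m ∈ (Icc 2 X).filter (Rough z), PS z (((X : ℝ) + 1) / m) ((m : ℝ) * α)‖ ≤
      C * X / Real.sqrt z := by
  obtain ⟨C, hC, hbad⟩ := id_bad
  refine ⟨C, hC, fun z X α hz hX => ?_⟩
  -- expand the logarithm
  have hS : ∑ n ∈ Icc 1 X, ((rho z n * Real.log n : ℝ) : ℂ) * ee ((n : ℝ) * α) =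
      ∑ x ∈ idT X, ((vonMangoldt x.1 * (rho z x.1 * rho z x.2) : ℝ) : ℂ) *
        ee (((x.1 * x.2 : ℕ) : ℝ) * α) := by
    rw [← id_swap X (fun d m => ((vonMangoldt d * (rho z d * rho z m) : ℝ) : ℂ) *
        ee (((d * m : ℕ) : ℝ) * α))]
    apply Finset.sum_congr rfl
    intro n hn
    rw [← vonMangoldt_sum, Finset.mul_sum]
    push_cast
    rw [Finset.sum_mul]
    apply Finset.sum_congr rfl
    intro d hd
    have hdn := (Nat.mem_divisors.1 hd).1
    have e1 : d * (n / d) = n := Nat.mul_div_cancel' hdn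
    have e2 : (rho z n : ℂ) = (rho z d : ℂ) * (rho z (n / d) : ℂ) := by
      rw [← Complex.ofReal_mul, ← id_rho_mul, e1]
    have e3 : ((d : ℝ) * ((n / d : ℕ) : ℝ)) = n := by exact_mod_cast e1
    rw [e2, e3]
    ring
  -- split into primes and non-primes
  have hsplit := Finset.sum_filter_add_sum_filter_not (idT X) (fun x => x.1.Prime)
    (fun x => ((vonMangoldt x.1 * (rho z x.1 * rho z x.2) : ℝ) : ℂ) *
        ee (((x.1 * x.2 : ℕ) : ℝ) * α))
  -- prime part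
  have hprime : ∑ x ∈ (idT X).filter (fun x => x.1.Prime),
      ((vonMangoldt x.1 * (rho z x.1 * rho z x.2) : ℝ) : ℂ) * ee (((x.1 * x.2 : ℕ) : ℝ) * α) =
      ∑ m ∈ Icc 1 X, (rho z m : ℂ) * PS z (((X : ℝ) + 1) / m) ((m : ℝ) * α) := by
    have h1 : ∀ m ∈ Icc 1 X, (rho z m : ℂ) * PS z (((X : ℝ) + 1) / m) ((m : ℝ) * α) =
        ∑ d ∈ Icc 1 X, if d * m ≤ X ∧ d.Prime then
          ((vonMangoldt d * (rho z d * rho z m) : ℝ) : ℂ) * ee (((d * m : ℕ) : ℝ) * α) else 0 := by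
      intro m hm
      rw [mem_Icc] at hm
      rw [id_PS z X m hm.1 α, Finset.mul_sum, Finset.sum_filter]
      apply Finset.sum_congr rfl
      intro d _
      by_cases hp : d.Prime
      · by_cases hX1 : d * m ≤ X
        · have k2 : d * m ≤ X ∧ d.Prime := ⟨hX1, hp⟩
          rw [if_pos k2, vonMangoldt_apply_prime hp, id_rho_prime hp]
          by_cases hzd : z ≤ (d : ℝ)
          · have k3 : d * m ≤ X ∧ d.Prime ∧ z ≤ (d : ℝ) := ⟨hX1, hp, hzd⟩
            rw [if_pos k3, if_pos hzd]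
            push_cast
            ring
          · have k3 : ¬ (d * m ≤ X ∧ d.Prime ∧ z ≤ (d : ℝ)) := fun h => hzd h.2.2
            rw [if_neg k3, if_neg hzd]
            push_cast
            ring
        · have k3 : ¬ (d * m ≤ X ∧ d.Prime ∧ z ≤ (d : ℝ)) := fun h => hX1 h.1
          have k2 : ¬ (d * m ≤ X ∧ d.Prime) := fun h => hX1 h.1
          rw [if_neg k3, if_neg k2]
      · have k3 : ¬ (d * m ≤ X ∧ d.Prime ∧ z ≤ (d : ℝ)) := fun h => hp h.2.1
        have k2 : ¬ (d * m ≤ X ∧ d.Prime) := fun h => hp h.2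
        rw [if_neg k3, if_neg k2]
    rw [Finset.sum_congr rfl h1, Finset.sum_comm]
    unfold idT
    rw [Finset.filter_filter, Finset.sum_filter, Finset.sum_product]
  -- separate m = 1
  have hone : rho z 1 = 1 := by
    unfold rho
    rw [if_pos]
    intro p hp hd
    exact absurd (Nat.dvd_one.1 hd) hp.one_lt.ne'
  have hmain : ∑ m ∈ Icc 1 X, (rho z m : ℂ) * PS z (((X : ℝ) + 1) / m) ((m : ℝ) * α) =
      PS z (X + 1) α +
      ∑ m ∈ (Icc 2 X).filter (Rough z), PS z (((X : ℝ) + 1) / m) ((m : ℝ) * α) := by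
    have e : Icc 1 X = insert 1 (Icc 2 X) := by
      ext m; simp only [mem_Icc, mem_insert]; omega
    rw [e, Finset.sum_insert (by simp), hone, Finset.sum_filter]
    congr 1
    · simp
    · apply Finset.sum_congr rfl
      intro m _
      unfold rho
      split_ifs <;> simp
  -- the error
  have herr : ‖∑ x ∈ (idT X).filter (fun x => ¬ x.1.Prime),
      ((vonMangoldt x.1 * (rho z x.1 * rho z x.2) : ℝ) : ℂ) * ee (((x.1 * x.2 : ℕ) : ℝ) * α)‖ ≤
      C * X / Real.sqrt z := by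
    have h1 : ‖∑ x ∈ (idT X).filter (fun x => ¬ x.1.Prime),
        ((vonMangoldt x.1 * (rho z x.1 * rho z x.2) : ℝ) : ℂ) * ee (((x.1 * x.2 : ℕ) : ℝ) * α)‖ ≤
        ∑ x ∈ (idT X).filter (fun x => ¬ x.1.Prime), vonMangoldt x.1 * rho z x.1 := by
      refine (norm_sum_le _ _).trans (Finset.sum_le_sum (fun x _ => ?_))
      rw [norm_mul, norm_ee, mul_one, Complex.norm_real, Real.norm_of_nonneg
        (mul_nonneg vonMangoldt_nonneg (mul_nonneg (id_rho_nonneg _ _) (id_rho_nonneg _ _)))]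
      apply mul_le_mul_of_nonneg_left _ vonMangoldt_nonneg
      have := id_rho_le z x.2
      have := id_rho_nonneg z x.1
      nlinarith
    have h2 : ∑ x ∈ (idT X).filter (fun x => ¬ x.1.Prime), vonMangoldt x.1 * rho z x.1 ≤
        ∑ d ∈ (Icc 1 X).filter (fun d => ¬ d.Prime), X * (vonMangoldt d * rho z d / (d : ℝ)) := by
      unfold idT
      rw [Finset.filter_filter, Finset.sum_filter, Finset.sum_product, Finset.sum_filter]
      apply Finset.sum_le_sum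
      intro d hd
      rw [mem_Icc] at hd
      have hd0 : (0 : ℝ) < d := by exact_mod_cast hd.1
      by_cases hp : d.Prime
      · rw [if_neg (by simpa using hp)]
        apply le_of_eq
        apply Finset.sum_eq_zero
        intro m _
        rw [if_neg (fun h => h.2 hp)]
      · rw [if_pos hp]
        have h3 : ∑ m ∈ Icc 1 X, (if (d, m).1 * (d, m).2 ≤ X ∧ ¬ (d, m).1.Prime then
            vonMangoldt (d, m).1 * rho z (d, m).1 else 0) =
            (((Icc 1 X).filter (fun m => d * m ≤ X)).card : ℝ) * (vonMangoldt d * rho z d) := by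
          rw [← Finset.sum_filter]
          simp only [hp, not_false_eq_true, and_true]
          rw [Finset.sum_const, nsmul_eq_mul]
        rw [h3]
        have h4 : (((Icc 1 X).filter (fun m => d * m ≤ X)).card : ℝ) ≤ (X : ℝ) / d := by
          rw [le_div_iff₀ hd0]
          have h5 : (Icc 1 X).filter (fun m => d * m ≤ X) ⊆ Icc 1 (X / d) := by
            intro m hm
            rw [mem_filter, mem_Icc] at hm
            rw [mem_Icc]
            refine ⟨hm.1.1, ?_⟩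
            rw [Nat.le_div_iff_mul_le (by omega)]
            rw [mul_comm]; exact hm.2
          have h6 := Finset.card_le_card h5
          rw [Nat.card_Icc, Nat.add_sub_cancel] at h6
          have h7 : ((Icc 1 X).filter (fun m => d * m ≤ X)).card * d ≤ X := by
            calc _ ≤ (X / d) * d := Nat.mul_le_mul_right d h6
              _ ≤ X := Nat.div_mul_le_self X d
          exact_mod_cast h7
        have h5 : 0 ≤ vonMangoldt d * rho z d := mul_nonneg vonMangoldt_nonneg (id_rho_nonneg _ _)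
        calc _ ≤ (X : ℝ) / d * (vonMangoldt d * rho z d) := mul_le_mul_of_nonneg_right h4 h5
          _ = X * (vonMangoldt d * rho z d / (d : ℝ)) := by ring
    have h3 := hbad z X hz hX
    refine h1.trans (h2.trans ?_)
    rw [← Finset.mul_sum]
    have h4 : (X : ℝ) * ∑ d ∈ (Icc 1 X).filter (fun d => ¬ d.Prime),
        vonMangoldt d * rho z d / (d : ℝ) ≤ X * (C / Real.sqrt z) :=
      mul_le_mul_of_nonneg_left h3 (Nat.cast_nonneg _)
    refine h4.trans (le_of_eq ?_)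
    ring
  rw [hS, ← hsplit, hprime, hmain]
  have e : PS z (X + 1) α +
      ∑ m ∈ (Icc 2 X).filter (Rough z), PS z (((X : ℝ) + 1) / m) ((m : ℝ) * α) +
      ∑ x ∈ (idT X).filter (fun x => ¬ x.1.Prime),
      ((vonMangoldt x.1 * (rho z x.1 * rho z x.2) : ℝ) : ℂ) * ee (((x.1 * x.2 : ℕ) : ℝ) * α) -
      PS z (X + 1) α -
      ∑ m ∈ (Icc 2 X).filter (Rough z), PS z (((X : ℝ) + 1) / m) ((m : ℝ) * α) =
      ∑ x ∈ (idT X).filter (fun x => ¬ x.1.Prime),
      ((vonMangoldt x.1 * (rho z x.1 * rho z x.2) : ℝ) : ℂ) * ee (((x.1 * x.2 : ℕ) : ℝ) * α) := by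
    ring
  rw [e]
  exact herr

end Pool.MP_dd84fd_nt.En
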