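import Pool.Agent.Lib.MP_dd84fd_nt.En.Defs
import Pool.Agent.Lib.MP_67663b_nt.OddB.APTheta
import Pool.Agent.Lib.MP_67663b_nt.OddB.Chebs

/-!
# primes in a residue class near the origin (module GB-MF)
-/

set_option autoImplicit false

namespace Pool.MP_dd84fd_nt.En

open Finset Pool.MP_67663b_nt.Odd

/-- partial summation -/
private lemma MF_partial (a : ℕ → ℝ) (B : ℝ) (X : ℕ)
    (hB : ∀ t ≤ X, |∑ n ∈ Icc 1 t, a n| ≤ B) (β : ℝ) :
    ‖∑ n ∈ Icc 1 X, (a n : ℂ) * ee ((n : ℝ) * β)‖ ≤ B * (1 + 2 * Real.pi * |β| * X) := by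
  have hid : ∀ X : ℕ, ∑ n ∈ Icc 1 X, (a n : ℂ) * ee ((n : ℝ) * β) =
      ((∑ n ∈ Icc 1 X, a n : ℝ) : ℂ) * ee ((X : ℝ) * β) -
      ∑ t ∈ range X, ((∑ n ∈ Icc 1 t, a n : ℝ) : ℂ) *
        (ee (((t + 1 : ℕ) : ℝ) * β) - ee ((t : ℝ) * β)) := by
    intro X
    induction X with
    | zero => simp
    | succ X ih =>
      rw [Finset.sum_Icc_succ_top (by omega), ih, Finset.sum_range_succ,
        Finset.sum_Icc_succ_top (by omega)]
      push_cast
      ring
  rw [hid]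
  have hB0 : 0 ≤ B := (abs_nonneg _).trans (hB 0 (Nat.zero_le _))
  have h1 : ‖((∑ n ∈ Icc 1 X, a n : ℝ) : ℂ) * ee ((X : ℝ) * β)‖ ≤ B := by
    rw [norm_mul, norm_ee, mul_one, Complex.norm_real, Real.norm_eq_abs]
    exact hB X le_rfl
  have h2 : ‖∑ t ∈ range X, ((∑ n ∈ Icc 1 t, a n : ℝ) : ℂ) *
      (ee (((t + 1 : ℕ) : ℝ) * β) - ee ((t : ℝ) * β))‖ ≤ X * (B * (2 * Real.pi * |β|)) := by
    refine (norm_sum_le _ _).trans ?_
    calc ∑ t ∈ range X, ‖((∑ n ∈ Icc 1 t, a n : ℝ) : ℂ) *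
          (ee (((t + 1 : ℕ) : ℝ) * β) - ee ((t : ℝ) * β))‖
        ≤ ∑ _t ∈ range X, B * (2 * Real.pi * |β|) := by
          refine sum_le_sum fun t ht => ?_
          rw [norm_mul, Complex.norm_real, Real.norm_eq_abs]
          refine mul_le_mul (hB t (by rw [mem_range] at ht; omega)) ?_ (norm_nonneg _) hB0
          refine (norm_ee_sub_ee_le _ _).trans (le_of_eq ?_)
          congr 2
          push_cast
          ring
      _ = _ := by rw [sum_const, card_range, nsmul_eq_mul]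
  refine (norm_sub_le _ _).trans ?_
  nlinarith

/-- the prime number theorem in the class, uniformly on an initial interval -/
private lemma MF_theta (q : ℕ) (hq : 0 < q) (c : ℕ) (hc : Nat.Coprime c q) {η : ℝ} (hη : 0 < η) :
    ∃ X0 : ℕ, ∀ X : ℕ, X0 ≤ X → ∀ t ≤ X,
    |∑ p ∈ (pr 0 ((t : ℝ) + 1)).filter (fun p => p ≡ c [MOD q]), Real.log p -
      (t : ℝ) / Nat.totient q| ≤ η * X := by
  classical
  have hφ : (1 : ℝ) ≤ Nat.totient q := by exact_mod_cast Nat.totient_pos.mpr hq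
  set ε : ℝ := min (η / 8) (1 / 2) with hε
  have hε0 : 0 < ε := lt_min (by positivity) (by norm_num)
  have hε1 : ε ≤ 1 := (min_le_right _ _).trans (by norm_num)
  have hε2 : ε ≤ η / 8 := min_le_left _ _
  have hlim := ap_theta hq c hc hε0 hε1
  rw [Metric.tendsto_atTop] at hlim
  obtain ⟨Y0, hY0⟩ := hlim (η / 8) (by positivity)
  refine ⟨⌈3 * |Y0| / η⌉₊ + ⌈(η / 2 + 1) / (η / 2)⌉₊, ?_⟩
  intro X hX t ht
  have hX1 : 3 * |Y0| ≤ η * X := by
    have h1 := Nat.le_ceil (3 * |Y0| / η)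
    have h2 : ((⌈3 * |Y0| / η⌉₊ : ℕ) : ℝ) ≤ X := by
      exact_mod_cast (by omega : ⌈3 * |Y0| / η⌉₊ ≤ X)
    have h3 := h1.trans h2
    rw [div_le_iff₀ hη] at h3
    linarith
  have hX2 : η / 2 + 1 ≤ η / 2 * X := by
    have h1 := Nat.le_ceil ((η / 2 + 1) / (η / 2))
    have h2 : ((⌈(η / 2 + 1) / (η / 2)⌉₊ : ℕ) : ℝ) ≤ X := by
      exact_mod_cast (by omega : ⌈(η / 2 + 1) / (η / 2)⌉₊ ≤ X)
    have h3 := h1.trans h2
    rw [div_le_iff₀ (by positivity)] at h3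
    linarith
  have htX : (t : ℝ) ≤ X := by exact_mod_cast ht
  have ht0 : (0 : ℝ) ≤ t := Nat.cast_nonneg t
  set Y : ℝ := (t : ℝ) + 1 with hY
  have hYpos : 0 < Y := by linarith
  set θ := ∑ p ∈ (pr 0 Y).filter (fun p => p ≡ c [MOD q]), Real.log (p : ℝ) with hθ
  have hlog0 : ∀ p ∈ pr 0 Y, 0 ≤ Real.log (p : ℝ) := by
    intro p hp
    rw [mem_pr] at hp
    exact Real.log_nonneg (by exact_mod_cast hp.1.one_le)
  have hθ0 : 0 ≤ θ := sum_nonneg fun p hp => hlog0 p (mem_filter.mp hp).1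
  have hθ2 : θ ≤ 2 * Y := by
    refine le_trans ?_ (sum_log_pr_le (x := 0) hYpos.le)
    exact sum_le_sum_of_subset_of_nonneg (filter_subset _ _) (fun p hp _ => hlog0 p hp)
  have htφ0 : 0 ≤ (t : ℝ) / Nat.totient q := by positivity
  have htφ : (t : ℝ) / Nat.totient q ≤ t := div_le_self ht0 hφ
  rcases lt_or_ge Y Y0 with hlt | hge
  · -- small values
    have h1 : Y ≤ |Y0| := hlt.le.trans (le_abs_self _)
    rw [abs_le]
    constructor <;> nlinarith
  · have h1 := hY0 Y hge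
    rw [Real.dist_eq] at h1
    set S1 := ∑ q_1 ∈ (pr (ε * Y) (1 * Y)).filter (fun q_1 => q_1 ≡ c [MOD q]),
      Real.log (q_1 : ℝ) with hS1
    have h2 : |S1 - (1 - ε) * Y / Nat.totient q| ≤ η / 8 * Y := by
      have h3 : S1 - (1 - ε) * Y / Nat.totient q = Y * (1 / Y * S1 - (1 - ε) / Nat.totient q) := by
        field_simp
      rw [h3, abs_mul, abs_of_pos hYpos, mul_comm]
      exact mul_le_mul_of_nonneg_right h1.le hYpos.le
    -- the remaining primes
    set S2 := ∑ p ∈ ((pr 0 Y).filter (fun p => p ≡ c [MOD q])).filter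
      (fun p : ℕ => ¬ ε * Y ≤ (p : ℝ)), Real.log (p : ℝ) with hS2
    have h4 : θ = S1 + S2 := by
      have h5 : (pr (ε * Y) (1 * Y)).filter (fun q_1 => q_1 ≡ c [MOD q]) =
          ((pr 0 Y).filter (fun p => p ≡ c [MOD q])).filter (fun p : ℕ => ε * Y ≤ (p : ℝ)) := by
        ext p
        simp only [mem_filter, mem_pr, one_mul]
        constructor
        · rintro ⟨⟨g1, g2, g3⟩, g4⟩
          exact ⟨⟨⟨g1, by positivity, g3⟩, g4⟩, g2⟩
        · rintro ⟨⟨⟨g1, _, g3⟩, g4⟩, g2⟩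
          exact ⟨⟨g1, g2, g3⟩, g4⟩
      rw [hθ, hS1, hS2, h5, Finset.sum_filter_add_sum_filter_not]
    have h6 : 0 ≤ S2 := sum_nonneg fun p hp => hlog0 p (mem_filter.mp (mem_filter.mp hp).1).1
    have h7 : S2 ≤ 2 * (ε * Y) := by
      refine le_trans ?_ (sum_log_pr_le (x := 0) (by positivity : 0 ≤ ε * Y))
      apply sum_le_sum_of_subset_of_nonneg
      · intro p hp
        simp only [mem_filter, mem_pr, not_le] at hp
        rw [mem_pr]
        exact ⟨hp.1.1.1, hp.1.1.2.1, hp.2⟩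
      · intro p hp _
        rw [mem_pr] at hp
        exact Real.log_nonneg (by exact_mod_cast hp.1.one_le)
    have h8 : |(1 - ε) * Y / Nat.totient q - (t : ℝ) / Nat.totient q| ≤ 1 + ε * Y := by
      have h9 : (1 - ε) * Y / Nat.totient q - (t : ℝ) / Nat.totient q =
          (1 - ε * Y) / Nat.totient q := by
        rw [hY]; ring
      rw [h9, abs_div, abs_of_pos (by linarith : (0 : ℝ) < Nat.totient q)]
      calc |1 - ε * Y| / (Nat.totient q : ℝ) ≤ |1 - ε * Y| := div_le_self (abs_nonneg _) hφ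
        _ ≤ |1| + |ε * Y| := abs_sub _ _
        _ = 1 + ε * Y := by rw [abs_one, abs_of_pos (by positivity)]
    have h10 : ε * Y ≤ η / 8 * Y := mul_le_mul_of_nonneg_right hε2 hYpos.le
    have h11 : θ - (t : ℝ) / Nat.totient q = (S1 - (1 - ε) * Y / Nat.totient q) + S2 +
        ((1 - ε) * Y / Nat.totient q - (t : ℝ) / Nat.totient q) := by rw [h4]; ring
    rw [h11]
    have h12 : |S2| = S2 := abs_of_nonneg h6
    have h13 := abs_add_three (S1 - (1 - ε) * Y / Nat.totient q) S2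
      ((1 - ε) * Y / Nat.totient q - (t : ℝ) / Nat.totient q)
    refine h13.trans ?_
    rw [h12]
    have h14 : η / 2 * Y ≤ η / 2 * (X + 1) := mul_le_mul_of_nonneg_left (by linarith) (by positivity)
    nlinarith

theorem F_class (q : ℕ) (hq : 0 < q) (c : ℕ) (hc : Nat.Coprime c q) (T : ℝ) {η : ℝ}
    (hη : 0 < η) : ∃ X0 : ℕ, ∀ X : ℕ, X0 ≤ X → ∀ β : ℝ, |β| ≤ T / X →
    ‖∑ p ∈ (pr 0 ((X : ℝ) + 1)).filter (fun p => p ≡ c [MOD q]),
        (Real.log p : ℂ) * ee ((p : ℝ) * β) - (1 / (Nat.totient q : ℂ)) * D X β‖ ≤ η * X := by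
  classical
  have hpi := Real.pi_pos
  have hT0 : 0 < 1 + 2 * Real.pi * |T| := by positivity
  obtain ⟨X0, hX0⟩ := MF_theta q hq c hc (η := η / (1 + 2 * Real.pi * |T|)) (by positivity)
  refine ⟨X0 + 1, ?_⟩
  intro X hX β hβ
  have hXR : (0 : ℝ) < X := by exact_mod_cast (by omega : 0 < X)
  set a : ℕ → ℝ := fun n => (if n.Prime ∧ n ≡ c [MOD q] then Real.log n else 0) -
    1 / (Nat.totient q : ℝ) with ha
  have hset : ∀ t : ℕ, (pr 0 ((t : ℝ) + 1)).filter (fun p => p ≡ c [MOD q]) =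
      (Icc 1 t).filter (fun n => n.Prime ∧ n ≡ c [MOD q]) := by
    intro t
    ext p
    simp only [mem_filter, mem_pr, mem_Icc]
    constructor
    · rintro ⟨⟨g1, _, g3⟩, g4⟩
      refine ⟨⟨g1.one_le, ?_⟩, g1, g4⟩
      have : (p : ℝ) < ((t + 1 : ℕ) : ℝ) := by push_cast; exact g3
      have := Nat.cast_lt.mp this
      omega
    · rintro ⟨⟨_, g2⟩, g3, g4⟩
      refine ⟨⟨g3, Nat.cast_nonneg p, ?_⟩, g4⟩
      have : (p : ℝ) ≤ t := by exact_mod_cast g2
      linarith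
  have hsum : ∀ t : ℕ, ∑ n ∈ Icc 1 t, a n =
      ∑ p ∈ (pr 0 ((t : ℝ) + 1)).filter (fun p => p ≡ c [MOD q]), Real.log (p : ℝ) -
      (t : ℝ) / Nat.totient q := by
    intro t
    rw [hset, ha]
    simp only
    rw [sum_sub_distrib, sum_const, Nat.card_Icc, nsmul_eq_mul, Finset.sum_filter]
    simp only [Nat.add_sub_cancel]
    ring
  have h1 : ∑ p ∈ (pr 0 ((X : ℝ) + 1)).filter (fun p => p ≡ c [MOD q]),
        (Real.log p : ℂ) * ee ((p : ℝ) * β) - (1 / (Nat.totient q : ℂ)) * D X β =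
      ∑ n ∈ Icc 1 X, (a n : ℂ) * ee ((n : ℝ) * β) := by
    rw [hset]
    unfold D
    rw [Finset.sum_filter, Finset.mul_sum, ← Finset.sum_sub_distrib]
    refine sum_congr rfl fun n _ => ?_
    rw [ha]
    simp only
    split_ifs with h
    · push_cast
      ring
    · push_cast
      ring
  rw [h1]
  refine (MF_partial a (η / (1 + 2 * Real.pi * |T|) * X) X ?_ β).trans ?_
  · intro t ht
    rw [hsum]
    exact hX0 X (by omega) t ht
  have h2 : |β| * X ≤ |T| := by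
    calc |β| * X ≤ T / X * X := mul_le_mul_of_nonneg_right hβ hXR.le
      _ = T := by field_simp
      _ ≤ |T| := le_abs_self T
  calc η / (1 + 2 * Real.pi * |T|) * X * (1 + 2 * Real.pi * |β| * X)
      = η / (1 + 2 * Real.pi * |T|) * X * (1 + 2 * Real.pi * (|β| * X)) := by ring
    _ ≤ η / (1 + 2 * Real.pi * |T|) * X * (1 + 2 * Real.pi * |T|) := by gcongr
    _ = η * X := by field_simp

end Pool.MP_dd84fd_nt.En
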