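import Pool.Agent.Lib.MP_dd84fd_nt.En.Shell
import Pool.Agent.Lib.MP_dd84fd_nt.En.BT

/-!
# mean square of the prime sum over rough multiples (module GB-MN)
-/

set_option autoImplicit false

namespace Pool.MP_dd84fd_nt.En

open Finset Pool.MP_67663b_nt.Odd

private lemma mn_bins {κ : Type*} [DecidableEq κ] {S : Finset ℕ} (f : ℕ → ℝ)
    (hf : ∀ m ∈ S, 0 ≤ f m) (key : ℕ → κ) (L B : ℝ) (hL : 0 ≤ L)
    (hcard : ∀ c ∈ S.image key, ((S.filter (fun m => key m = c)).card : ℝ) ≤ L)
    (hB : ∀ T : Finset ℕ, T ⊆ S → (∀ i ∈ T, ∀ j ∈ T, key i = key j → i = j) →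
      ∑ i ∈ T, f i ≤ B) : ∑ m ∈ S, f m ≤ L * B := by
  classical
  have hrep : ∀ c ∈ S.image key, ∃ m ∈ S, key m = c ∧ ∀ m' ∈ S, key m' = c → f m' ≤ f m := by
    intro c hc
    obtain ⟨m0, hm0, hk0⟩ := Finset.mem_image.1 hc
    have hne : (S.filter (fun m => key m = c)).Nonempty :=
      ⟨m0, Finset.mem_filter.2 ⟨hm0, hk0⟩⟩
    obtain ⟨m, hm, hmax⟩ := Finset.exists_max_image _ f hne
    rw [Finset.mem_filter] at hm
    exact ⟨m, hm.1, hm.2, fun m' h1 h2 => hmax m' (Finset.mem_filter.2 ⟨h1, h2⟩)⟩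
  choose! rep hrepS hrepk hrepmax using hrep
  have h1 : ∑ m ∈ S, f m = ∑ c ∈ S.image key, ∑ m ∈ S.filter (fun m => key m = c), f m :=
    (Finset.sum_fiberwise_of_maps_to (fun m hm => Finset.mem_image_of_mem _ hm) f).symm
  have h2 : ∀ c ∈ S.image key, ∑ m ∈ S.filter (fun m => key m = c), f m ≤ L * f (rep c) := by
    intro c hc
    have h3 : ∑ m ∈ S.filter (fun m => key m = c), f m ≤
        ∑ m ∈ S.filter (fun m => key m = c), f (rep c) := by
      refine Finset.sum_le_sum fun m hm => ?_
      rw [Finset.mem_filter] at hm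
      exact hrepmax c hc m hm.1 hm.2
    rw [Finset.sum_const, nsmul_eq_mul] at h3
    exact h3.trans (mul_le_mul_of_nonneg_right (hcard c hc) (hf _ (hrepS c hc)))
  have hinj : Set.InjOn rep (S.image key : Set κ) := by
    intro c hc c' hc' h
    rw [← hrepk c hc, ← hrepk c' hc', h]
  have h4 : ∑ c ∈ S.image key, f (rep c) = ∑ i ∈ (S.image key).image rep, f i := by
    rw [Finset.sum_image (fun c hc c' hc' h => hinj hc hc' h)]
  have h5 := hB ((S.image key).image rep) (by
      intro m hm
      obtain ⟨c, hc, rfl⟩ := Finset.mem_image.1 hm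
      exact hrepS c hc) (by
      intro i hi j hj hij
      obtain ⟨c, hc, rfl⟩ := Finset.mem_image.1 hi
      obtain ⟨c', hc', rfl⟩ := Finset.mem_image.1 hj
      rw [hrepk c hc, hrepk c' hc'] at hij
      rw [hij])
  calc ∑ m ∈ S, f m ≤ ∑ c ∈ S.image key, L * f (rep c) := by
        rw [h1]
        exact Finset.sum_le_sum h2
    _ = L * ∑ c ∈ S.image key, f (rep c) := by rw [Finset.mul_sum]
    _ ≤ L * B := by
        rw [h4]
        exact mul_le_mul_of_nonneg_left h5 hL

theorem mean_sq : ∃ C : ℝ, 0 < C ∧ ∃ z0 : ℝ, ∀ z : ℝ, z0 ≤ z → ∀ M Y : ℝ, z / 2 ≤ M →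
    z / 2 ≤ Y → ∀ (q : ℕ) (a : ℤ) (β : ℝ), 0 < q → Int.gcd a q = 1 → ∀ H : ℝ, 2 ≤ H →
    (q : ℝ) * (1 + 2 * |β| * M * Y) ≤ H → H ^ 25 ≤ z →
    ∑ m ∈ RN z M (2 * M), ‖PS z Y ((m : ℝ) * ((a : ℝ) / q + β))‖ ^ 2 ≤
      C * M * Y ^ 2 * Real.log H /
        ((Nat.totient q : ℝ) * (1 + |β| * M * Y) * Real.log z) := by
  classical
  obtain ⟨C1, hC1, Y0, hshell⟩ := shell_L2
  obtain ⟨C2, hC2, hbt⟩ := rough_ap
  refine ⟨8 * C2 * C1, by positivity, max 4 (2 * Y0), ?_⟩
  intro z hz M Y hM hY q a β hq ha H hH hqH hHz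
  have hz4 : 4 ≤ z := (le_max_left _ _).trans hz
  have hzY0 : 2 * Y0 ≤ z := (le_max_right _ _).trans hz
  have hM0 : 0 < M := by linarith
  have hM1 : 2 ≤ M := by linarith
  have hY0 : 0 < Y := by linarith
  have hYY : Y0 ≤ Y := by linarith
  have hqr : (1 : ℝ) ≤ q := by exact_mod_cast hq
  have hq0 : (0 : ℝ) < q := by linarith
  have hH0 : 0 < H := by linarith
  have hb0 : 0 ≤ |β| := abs_nonneg β
  -- powers of H
  have hH24 : (2 : ℝ) ^ 24 ≤ H ^ 24 := pow_le_pow_left₀ (by norm_num) hH 24
  have hH25 : H * 2 ^ 24 ≤ z := by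
    have : H ^ 25 = H * H ^ 24 := by ring
    rw [this] at hHz
    exact (mul_le_mul_of_nonneg_left hH24 hH0.le).trans hHz
  have hH20 : H ^ 20 ≤ Y := by
    have h5 : (2 : ℝ) ^ 5 ≤ H ^ 5 := pow_le_pow_left₀ (by norm_num) hH 5
    have : H ^ 25 = H ^ 20 * H ^ 5 := by ring
    rw [this] at hHz
    have h6 : H ^ 20 * 2 ^ 5 ≤ z := (mul_le_mul_of_nonneg_left h5 (by positivity)).trans hHz
    have h7 : 0 < H ^ 20 := by positivity
    linarith
  have hHsq : H ^ 2 ≤ z := by
    have h23 : (1 : ℝ) ≤ H ^ 23 := one_le_pow₀ (by linarith)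
    have : H ^ 25 = H ^ 2 * H ^ 23 := by ring
    rw [this] at hHz
    nlinarith [sq_nonneg H]
  set u : ℝ := |β| * Y with hu
  have hu0 : 0 ≤ u := by positivity
  have huM : |β| * M * Y = u * M := by rw [hu]; ring
  have hq1 : (q : ℝ) * (1 + 2 * (u * M)) ≤ H := by
    have : 2 * |β| * M * Y = 2 * (u * M) := by rw [hu]; ring
    rw [this] at hqH
    exact hqH
  have huM0 : 0 ≤ u * M := by positivity
  have hqH1 : (q : ℝ) ≤ H := by nlinarith
  have hquM : (q : ℝ) * (2 * (u * M)) ≤ H := by nlinarith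
  set lam : ℝ := 2 * M / (1 + u * M) with hlam
  have hden : 0 < 1 + u * M := by positivity
  have hlam0 : 0 < lam := by positivity
  have hqz : (q : ℝ) * Real.sqrt z ≤ lam := by
    rw [hlam, le_div_iff₀ hden]
    have h1 : (q : ℝ) * (1 + u * M) ≤ H := by nlinarith
    have h2 : H ≤ Real.sqrt z := Real.le_sqrt_of_sq_le hHsq
    have h3 : Real.sqrt z * Real.sqrt z = z := Real.mul_self_sqrt (by linarith)
    have h4 : 0 ≤ Real.sqrt z := Real.sqrt_nonneg z
    calc (q : ℝ) * Real.sqrt z * (1 + u * M) = (q : ℝ) * (1 + u * M) * Real.sqrt z := by ring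
      _ ≤ H * Real.sqrt z := mul_le_mul_of_nonneg_right h1 h4
      _ ≤ Real.sqrt z * Real.sqrt z := mul_le_mul_of_nonneg_right h2 h4
      _ = z := h3
      _ ≤ 2 * M := by linarith
  have hlam1 : 1 ≤ lam := by
    have h1 : 1 ≤ Real.sqrt z := by
      rw [Real.one_le_sqrt]
      linarith
    nlinarith
  have hlogz : 0 < Real.log z := Real.log_pos (by linarith)
  have hlogH : 0 < Real.log H := Real.log_pos (by linarith)
  have hφ : 0 < (Nat.totient q : ℝ) := by exact_mod_cast Nat.totient_pos.2 hq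
  set L : ℝ := C2 * (2 * lam) / ((Nat.totient q : ℝ) * Real.log z) with hL
  have hL0 : 0 ≤ L := by positivity
  set f : ℕ → ℝ := fun m => ‖PS z Y ((m : ℝ) * ((a : ℝ) / q + β))‖ ^ 2 with hf
  have hf0 : ∀ m, 0 ≤ f m := fun m => sq_nonneg _
  set key : ℕ → ℕ × ℕ := fun m => (m % q, ⌊(m : ℝ) / lam⌋₊) with hkey
  have hmem : ∀ m ∈ RN z M (2 * M), M < (m : ℝ) ∧ (m : ℝ) ≤ 2 * M ∧ Rough z m := by
    intro m hm
    unfold RN at hm
    rw [Finset.mem_filter, Finset.mem_Ioc] at hm
    refine ⟨(Nat.floor_lt hM0.le).1 hm.1.1, (Nat.le_floor_iff (by positivity)).1 hm.1.2, hm.2⟩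
  have hcop : ∀ m ∈ RN z M (2 * M), Nat.Coprime m q := by
    intro m hm
    refine Nat.Coprime.symm (Nat.Coprime.symm (Nat.coprime_of_dvd fun p hp h1 h2 => ?_))
    have h3 : z ≤ (p : ℝ) := (hmem m hm).2.2 p hp h1
    have h4 : (p : ℝ) ≤ q := by exact_mod_cast Nat.le_of_dvd hq h2
    nlinarith
  -- one parity class
  have hpar : ∀ e : ℕ, ∑ m ∈ (RN z M (2 * M)).filter (fun m : ℕ => ⌊(m : ℝ) / lam⌋₊ % 2 = e), f m ≤
      L * (C1 * Y ^ 2 * Real.log H) := by
    intro e
    refine mn_bins f (fun m _ => hf0 m) key L _ hL0 ?_ ?_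
    · -- cardinality of the bins
      intro c hc
      set x : ℝ := max 0 ((c.2 : ℝ) * lam - 1) with hx
      have hx0 : 0 ≤ x := le_max_left _ _
      have h1 := hbt z (by linarith) x (lam + 1) hx0 q c.1 hq (by linarith)
      refine le_trans ?_ (h1.trans ?_)
      · refine Nat.cast_le.2 (Finset.card_le_card ?_)
        intro m hm
        rw [Finset.mem_filter, Finset.mem_filter] at hm
        obtain ⟨⟨hmS, hme⟩, hmk⟩ := hm
        obtain ⟨hmM, hm2, hmr⟩ := hmem m hmS
        have hk1 : m % q = c.1 := by rw [← hmk]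
        have hk2 : ⌊(m : ℝ) / lam⌋₊ = c.2 := by rw [← hmk]
        have hlow : (c.2 : ℝ) * lam ≤ m := by
          rw [← le_div_iff₀ hlam0, ← hk2]
          exact Nat.floor_le (by positivity)
        have hupp : (m : ℝ) < ((c.2 : ℝ) + 1) * lam := by
          rw [← div_lt_iff₀ hlam0, ← hk2]
          exact Nat.lt_floor_add_one _
        rw [Finset.mem_filter, Finset.mem_Ioc]
        refine ⟨⟨?_, ?_⟩, hmr, ?_⟩
        · rw [Nat.floor_lt hx0, hx, max_lt_iff]
          constructor
          · linarith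
          · linarith
        · refine Nat.le_floor ?_
          have : (c.2 : ℝ) * lam - 1 ≤ x := le_max_right _ _
          nlinarith
        · rw [← hk1]
          exact (Nat.mod_modEq m q).symm
      · rw [hL]
        refine div_le_div_of_nonneg_right ?_ (by positivity)
        exact mul_le_mul_of_nonneg_left (by linarith) hC2.le
    · -- representatives
      intro T hT hinj
      have hTm : ∀ i ∈ T, i ∈ RN z M (2 * M) ∧ ⌊(i : ℝ) / lam⌋₊ % 2 = e := by
        intro i hi
        exact Finset.mem_filter.1 (hT hi)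
      have hcast : ∀ i : ℕ, (((i : ℤ) * a : ℤ) : ℝ) / (q : ℝ) + (i : ℝ) * β =
          (i : ℝ) * ((a : ℝ) / q + β) := by
        intro i
        push_cast
        ring
      have h1 := hshell Y hYY H hH hH20 z (by linarith) ℕ T (fun _ => q) (fun i => (i : ℤ) * a)
        (fun i => (i : ℝ) * β) ?_ ?_
      · simp only [hcast] at h1
        exact h1
      · intro i hi
        obtain ⟨hiS, hie⟩ := hTm i hi
        obtain ⟨hiM, hi2, hir⟩ := hmem i hiS
        refine ⟨hq, ?_, ?_⟩
        · have hc1 : IsCoprime ((i : ℤ)) (q : ℤ) := Nat.isCoprime_iff_coprime.2 (hcop i hiS)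
          have hc2 : IsCoprime a (q : ℤ) := Int.isCoprime_iff_gcd_eq_one.2 ha
          exact Int.isCoprime_iff_gcd_eq_one.1 (hc1.mul_left hc2)
        · have h2 : |(i : ℝ) * β| * Y ≤ 2 * (u * M) := by
            rw [abs_mul, abs_of_nonneg (by positivity : (0 : ℝ) ≤ (i : ℝ)), mul_assoc, ← hu]
            calc (i : ℝ) * u ≤ 2 * M * u := mul_le_mul_of_nonneg_right hi2 hu0
              _ = 2 * (u * M) := by ring
          calc (q : ℝ) * (1 + |(i : ℝ) * β| * Y) ≤ (q : ℝ) * (1 + 2 * (u * M)) :=
                mul_le_mul_of_nonneg_left (by linarith) hq0.le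
            _ ≤ H := hq1
      · -- separation
        have key2 : ∀ i ∈ T, ∀ j ∈ T, i < j → ∀ k : ℤ,
            1 / Y ≤ |((j : ℝ) - i) * (a : ℝ) / q + ((j : ℝ) - i) * β - k| := by
          intro i hi j hj hij k
          obtain ⟨hiS, hie⟩ := hTm i hi
          obtain ⟨hiM, hi2, hir⟩ := hmem i hiS
          obtain ⟨hjS, hje⟩ := hTm j hj
          obtain ⟨hjM, hj2, hjr⟩ := hmem j hjS
          have hijr : (i : ℝ) < j := by exact_mod_cast hij
          have hd0 : (0 : ℝ) < (j : ℝ) - i := by linarith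
          have hdM : (j : ℝ) - i ≤ M := by linarith
          set t : ℤ := ((j : ℤ) - i) * a - k * q with ht
          have hform : ((j : ℝ) - i) * (a : ℝ) / q + ((j : ℝ) - i) * β - k =
              (t : ℝ) / q + ((j : ℝ) - i) * β := by
            rw [ht]
            push_cast
            field_simp
            ring
          rw [hform]
          by_cases ht0 : t = 0
          · -- same class
            have hdvd : (q : ℤ) ∣ ((j : ℤ) - i) := by
              have h2 : (q : ℤ) ∣ a * ((j : ℤ) - i) := ⟨k, by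
                have : ((j : ℤ) - i) * a = k * q := by
                  have := ht.symm.trans ht0
                  linarith
                linarith [this, mul_comm a ((j : ℤ) - i), mul_comm (q : ℤ) k]⟩
              have hc2 : IsCoprime (q : ℤ) a := (Int.isCoprime_iff_gcd_eq_one.2 ha).symm
              exact hc2.dvd_of_dvd_mul_left h2
            have hmod : i % q = j % q := (Nat.modEq_iff_dvd.2 hdvd)
            have hne : ⌊(i : ℝ) / lam⌋₊ ≠ ⌊(j : ℝ) / lam⌋₊ := by
              intro hcon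
              have : key i = key j := by
                rw [hkey]
                exact Prod.ext hmod hcon
              exact hij.ne (hinj i hi j hj this)
            have hle : ⌊(i : ℝ) / lam⌋₊ ≤ ⌊(j : ℝ) / lam⌋₊ :=
              Nat.floor_mono (div_le_div_of_nonneg_right hijr.le hlam0.le)
            have hge : ⌊(i : ℝ) / lam⌋₊ + 2 ≤ ⌊(j : ℝ) / lam⌋₊ := by omega
            have hger : ((⌊(i : ℝ) / lam⌋₊ : ℕ) : ℝ) + 2 ≤ ((⌊(j : ℝ) / lam⌋₊ : ℕ) : ℝ) := by
              exact_mod_cast hge
            have h3 : (i : ℝ) / lam < (⌊(i : ℝ) / lam⌋₊ : ℝ) + 1 := Nat.lt_floor_add_one _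
            have h4 : (⌊(j : ℝ) / lam⌋₊ : ℝ) ≤ (j : ℝ) / lam := Nat.floor_le (by positivity)
            have h5 : 1 < ((j : ℝ) - i) / lam := by
              rw [sub_div]
              linarith
            have h6 : lam < (j : ℝ) - i := by
              rwa [one_lt_div hlam0] at h5
            have h7 : 1 ≤ u * M := by
              by_contra hcon
              push Not at hcon
              have : M < lam := by
                rw [hlam, lt_div_iff₀ hden]
                nlinarith
              linarith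
            have h8 : 1 ≤ u * lam := by
              rw [hlam, ← mul_div_assoc, le_div_iff₀ hden]
              nlinarith
            have h9 : 1 ≤ ((j : ℝ) - i) * |β| * Y := by
              have : ((j : ℝ) - i) * |β| * Y = u * ((j : ℝ) - i) := by rw [hu]; ring
              rw [this]
              exact h8.trans (mul_le_mul_of_nonneg_left h6.le hu0)
            rw [ht0, Int.cast_zero, zero_div, zero_add, abs_mul, abs_of_pos hd0,
              div_le_iff₀ hY0]
            exact h9
          · -- different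
            have ht1 : (1 : ℝ) ≤ |(t : ℝ)| := by
              have : (1 : ℤ) ≤ |t| := Int.one_le_abs ht0
              exact_mod_cast this
            have h2 : 1 / (q : ℝ) ≤ |(t : ℝ) / q| := by
              rw [abs_div, abs_of_pos hq0]
              exact div_le_div_of_nonneg_right ht1 hq0.le
            have h3 : |((j : ℝ) - i) * β| ≤ M * |β| := by
              rw [abs_mul, abs_of_pos hd0]
              exact mul_le_mul_of_nonneg_right hdM hb0
            have h4 : 1 / (q : ℝ) - M * |β| ≤ |(t : ℝ) / q + ((j : ℝ) - i) * β| := by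
              have := abs_sub_abs_le_abs_sub ((t : ℝ) / q) (-(((j : ℝ) - i) * β))
              rw [abs_neg, sub_neg_eq_add] at this
              linarith
            refine le_trans ?_ h4
            have h5 : M * |β| * (q * (2 * Y)) ≤ H := by
              have : M * |β| * (q * (2 * Y)) = (q : ℝ) * (2 * (u * M)) := by rw [hu]; ring
              rw [this]
              exact hquM
            have h6 : M * |β| ≤ H / (q * (2 * Y)) := by
              rw [le_div_iff₀ (by positivity)]
              exact h5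
            have h7 : 1 / Y + H / (q * (2 * Y)) ≤ 1 / (q : ℝ) := by
              have e1 : 1 / Y + H / (q * (2 * Y)) = (2 * q + H) / (q * (2 * Y)) := by
                field_simp
              rw [e1, div_le_div_iff₀ (by positivity) hq0]
              nlinarith
            linarith
        intro i hi j hj hij k
        have hcast2 : ∀ i j : ℕ, (((fun i : ℕ => (i : ℤ) * a) i : ℤ) : ℝ) / ((fun _ : ℕ => q) i : ℕ)
            + (fun i : ℕ => (i : ℝ) * β) i -
            ((((fun i : ℕ => (i : ℤ) * a) j : ℤ) : ℝ) / ((fun _ : ℕ => q) j : ℕ)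
            + (fun i : ℕ => (i : ℝ) * β) j) = ((i : ℝ) - j) * (a : ℝ) / q + ((i : ℝ) - j) * β := by
          intro i j
          push_cast
          ring
        rw [hcast2]
        rcases lt_or_gt_of_ne hij with h | h
        · have h2 := key2 i hi j hj h (-k)
          rw [← abs_neg] at h2
          refine h2.trans (le_of_eq ?_)
          congr 1
          push_cast
          ring
        · exact key2 j hj i hi h k
  -- the two parity classes together
  have hsplit : ∑ m ∈ RN z M (2 * M), f m =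
      ∑ m ∈ (RN z M (2 * M)).filter (fun m : ℕ => ⌊(m : ℝ) / lam⌋₊ % 2 = 0), f m +
      ∑ m ∈ (RN z M (2 * M)).filter (fun m : ℕ => ⌊(m : ℝ) / lam⌋₊ % 2 = 1), f m := by
    rw [← Finset.sum_filter_add_sum_filter_not (RN z M (2 * M))
      (fun m : ℕ => ⌊(m : ℝ) / lam⌋₊ % 2 = 0)]
    congr 1
    refine Finset.sum_congr (Finset.filter_congr fun m _ => ?_) fun _ _ => rfl
    omega
  have htot := add_le_add (hpar 0) (hpar 1)
  rw [← hsplit] at htot
  refine htot.trans (le_of_eq ?_)
  rw [hL, hlam, huM]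
  field_simp
  ring

end Pool.MP_dd84fd_nt.En
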