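import Pool.Agent.Lib.MP_dd84fd_nt.En.Vz
import Pool.Agent.Lib.MP_67663b_nt.OddB.GSum

/-!
# lower bounds for sums of 1/phi (module GB-MON)
-/

set_option autoImplicit false

namespace Pool.MP_dd84fd_nt.En

open Finset Pool.MP_67663b_nt.Odd

/-- The sieve sum. -/
private noncomputable def monG (R : ℕ) (P : Finset ℕ) : ℝ :=
  ∑ r ∈ (Finset.Icc 1 R).filter (fun r => Squarefree r ∧ ∀ p ∈ P, ¬ p ∣ r),
    1 / (Nat.totient r : ℝ)

private theorem monG_mono (P : Finset ℕ) {R R' : ℕ} (h : R ≤ R') : monG R P ≤ monG R' P := by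
  unfold monG
  refine Finset.sum_le_sum_of_subset_of_nonneg ?_ (fun _ _ _ => by positivity)
  intro r hr
  rw [Finset.mem_filter, Finset.mem_Icc] at hr ⊢
  exact ⟨⟨hr.1.1, hr.1.2.trans h⟩, hr.2⟩

/-- Removing one prime. -/
private theorem monG_insert (R : ℕ) (P : Finset ℕ) {p : ℕ} (hp : p.Prime) :
    (1 - (p : ℝ)⁻¹) * monG R P ≤ monG R (insert p P) := by
  have hp1 : (1 : ℝ) < p := by exact_mod_cast hp.one_lt
  have h1 : monG R P ≤ monG R (insert p P) + 1 / ((p : ℝ) - 1) * monG R (insert p P) := by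
    have hsplit : monG R P =
        (∑ r ∈ (Finset.Icc 1 R).filter (fun r => (Squarefree r ∧ ∀ q ∈ P, ¬ q ∣ r) ∧ ¬ p ∣ r),
          1 / (Nat.totient r : ℝ)) +
        ∑ r ∈ (Finset.Icc 1 R).filter (fun r => (Squarefree r ∧ ∀ q ∈ P, ¬ q ∣ r) ∧ p ∣ r),
          1 / (Nat.totient r : ℝ) := by
      have h0 := Finset.sum_filter_add_sum_filter_not
        ((Finset.Icc 1 R).filter (fun r => Squarefree r ∧ ∀ q ∈ P, ¬ q ∣ r)) (fun r => p ∣ r)
        (fun r => 1 / (Nat.totient r : ℝ))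
      rw [Finset.filter_filter, Finset.filter_filter] at h0
      unfold monG
      linarith
    rw [hsplit]
    refine add_le_add (le_of_eq ?_) ?_
    · unfold monG
      refine Finset.sum_congr ?_ fun _ _ => rfl
      ext r
      simp only [Finset.mem_filter, Finset.mem_insert, forall_eq_or_imp]
      tauto
    · unfold monG
      rw [Finset.mul_sum]
      refine le_trans (le_of_eq ?_) (Finset.sum_le_sum_of_subset_of_nonneg
        (s := ((Finset.Icc 1 (R / p)).filter
          (fun r => Squarefree r ∧ ∀ q ∈ insert p P, ¬ q ∣ r)).filter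
            (fun s => ∀ q ∈ P, ¬ q ∣ p * s)) ?_ ?_)
      · symm
        refine Finset.sum_bij (fun s _ => p * s) ?_ ?_ ?_ ?_
        · intro s hs
          simp only [Finset.mem_filter, Finset.mem_Icc, Finset.mem_insert, forall_eq_or_imp] at hs
          obtain ⟨⟨⟨hs1, hs2⟩, hsq, hps, hPs⟩, hq⟩ := hs
          simp only [Finset.mem_filter, Finset.mem_Icc]
          refine ⟨⟨?_, ?_⟩, ⟨?_, hq⟩, dvd_mul_right p s⟩
          · exact Nat.one_le_iff_ne_zero.mpr (mul_ne_zero hp.ne_zero (by omega))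
          · calc p * s ≤ p * (R / p) := Nat.mul_le_mul_left p hs2
              _ ≤ R := Nat.mul_div_le R p
          · exact (Nat.squarefree_mul ((Nat.Prime.coprime_iff_not_dvd hp).mpr hps)).mpr
              ⟨hp.squarefree, hsq⟩
        · intro s _ s' _ h
          exact Nat.eq_of_mul_eq_mul_left hp.pos h
        · intro r hr
          simp only [Finset.mem_filter, Finset.mem_Icc] at hr
          obtain ⟨⟨hr1, hr2⟩, ⟨hsq, hq⟩, hpr⟩ := hr
          obtain ⟨s, rfl⟩ := hpr
          have hs0 : s ≠ 0 := by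
            rintro rfl
            simp at hr1
          have hcop : ¬ p ∣ s := by
            intro hd
            obtain ⟨t, rfl⟩ := hd
            have := hsq p ⟨t, by ring⟩
            exact hp.one_lt.ne' (Nat.isUnit_iff.mp this)
          refine ⟨s, ?_, rfl⟩
          simp only [Finset.mem_filter, Finset.mem_Icc, Finset.mem_insert, forall_eq_or_imp]
          refine ⟨⟨⟨Nat.one_le_iff_ne_zero.mpr hs0, ?_⟩, ?_, hcop, ?_⟩, hq⟩
          · exact (Nat.le_div_iff_mul_le hp.pos).mpr (by rw [mul_comm]; exact hr2)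
          · exact hsq.squarefree_of_dvd (dvd_mul_left s p)
          · intro q hqP hqs
            exact hq q hqP (hqs.mul_left p)
        · intro s hs
          simp only [Finset.mem_filter, Finset.mem_Icc, Finset.mem_insert, forall_eq_or_imp] at hs
          obtain ⟨⟨⟨hs1, hs2⟩, hsq, hps, hPs⟩, hq⟩ := hs
          rw [Nat.totient_mul ((Nat.Prime.coprime_iff_not_dvd hp).mpr hps), Nat.totient_prime hp]
          push_cast [hp.one_le]
          rw [one_div_mul_one_div]
      · intro s hs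
        simp only [Finset.mem_filter, Finset.mem_Icc] at hs ⊢
        exact ⟨⟨hs.1.1.1, hs.1.1.2.trans (Nat.div_le_self R p)⟩, hs.1.2⟩
      · intro s _ _
        have : 0 < (p : ℝ) - 1 := by linarith
        positivity
  have h2 : 0 < (p : ℝ) - 1 := by linarith
  have h3 : monG R P ≤ (p : ℝ) / (p - 1) * monG R (insert p P) := by
    refine h1.trans (le_of_eq ?_)
    field_simp
    ring
  calc (1 - (p : ℝ)⁻¹) * monG R P ≤
        (1 - (p : ℝ)⁻¹) * ((p : ℝ) / (p - 1) * monG R (insert p P)) := by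
        refine mul_le_mul_of_nonneg_left h3 ?_
        have : (p : ℝ)⁻¹ ≤ 1 := inv_le_one_of_one_le₀ hp1.le
        linarith
    _ = monG R (insert p P) := by
        have : (p : ℝ) ≠ 0 := by linarith
        field_simp

private theorem monG_nonneg (R : ℕ) (P : Finset ℕ) : 0 ≤ monG R P := by
  unfold monG
  positivity

/-- Removing a set of primes. -/
private theorem monG_prod (R : ℕ) (P : Finset ℕ) (hP : ∀ p ∈ P, p.Prime) :
    (∏ p ∈ P, (1 - (p : ℝ)⁻¹)) * monG R ∅ ≤ monG R P := by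
  induction P using Finset.induction_on with
  | empty => simp
  | insert p P hpP ih =>
    rw [Finset.prod_insert hpP, mul_assoc]
    have h1 := ih (fun q hq => hP q (Finset.mem_insert_of_mem hq))
    have h2 := monG_insert R P (hP p (Finset.mem_insert_self p P))
    have hp1 : (1 : ℝ) < p := by exact_mod_cast (hP p (Finset.mem_insert_self p P)).one_lt
    have h3 : (0 : ℝ) ≤ 1 - (p : ℝ)⁻¹ := by
      have : (p : ℝ)⁻¹ ≤ 1 := inv_le_one_of_one_le₀ hp1.le
      linarith
    exact (mul_le_mul_of_nonneg_left h1 h3).trans h2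

/-- The radical class of a squarefree number. -/
private theorem mon_class {R r : ℕ} (hr : Squarefree r) :
    ∑ n ∈ (Finset.Icc 1 R).filter (fun n => ∏ p ∈ n.primeFactors, p = r), (1 : ℝ) / n ≤
      1 / (Nat.totient r : ℝ) := by
  have hr0 : r ≠ 0 := hr.ne_zero
  have hr1 : (0 : ℝ) < r := by
    have := Nat.pos_of_ne_zero hr0
    exact_mod_cast this
  have h := EulerProduct.summable_and_hasSum_factoredNumbers_prod_filter_prime_geometric
    (f := Pool.MP_67663b_nt.Mert.invHom) (fun {p} hp => by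
      have h1 : (2 : ℝ) ≤ p := by exact_mod_cast hp.two_le
      change ‖(p : ℝ)⁻¹‖ < 1
      rw [norm_inv, Real.norm_of_nonneg (by linarith)]
      exact inv_lt_one_of_one_lt₀ (by linarith)) r.primeFactors
  have hprod : ∏ p ∈ r.primeFactors with p.Prime, (1 - Pool.MP_67663b_nt.Mert.invHom p)⁻¹ =
      (r : ℝ) / (Nat.totient r : ℝ) := by
    have h1 : r.primeFactors.filter Nat.Prime = r.primeFactors := by
      rw [Finset.filter_eq_self]
      intro p hp
      exact Nat.prime_of_mem_primeFactors hp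
    rw [h1]
    have h2 := Nat.totient_eq_mul_prod_factors r
    have h3 : (Nat.totient r : ℝ) = r * ∏ p ∈ r.primeFactors, (1 - (p : ℝ)⁻¹) := by
      have h4 := congrArg (fun x : ℚ => (x : ℝ)) h2
      push_cast at h4
      exact h4
    have h5 : ∏ p ∈ r.primeFactors, (1 - Pool.MP_67663b_nt.Mert.invHom p)⁻¹ =
        (∏ p ∈ r.primeFactors, (1 - (p : ℝ)⁻¹))⁻¹ := by
      rw [← Finset.prod_inv_distrib]
      rfl
    rw [h5, h3]
    have h6 : ∏ p ∈ r.primeFactors, (1 - (p : ℝ)⁻¹) ≠ 0 := by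
      rw [Finset.prod_ne_zero_iff]
      intro p hp
      have h7 : (2 : ℝ) ≤ p := by exact_mod_cast (Nat.prime_of_mem_primeFactors hp).two_le
      have h8 : (p : ℝ)⁻¹ < 1 := inv_lt_one_of_one_lt₀ (by linarith)
      linarith
    field_simp
  have hsum := h.2
  rw [hprod] at hsum
  set T := (Finset.Icc 1 R).filter (fun n => ∏ p ∈ n.primeFactors, p = r) with hT
  have hdvd : ∀ n ∈ T, r ∣ n ∧ n ≠ 0 := by
    intro n hn
    rw [hT, Finset.mem_filter, Finset.mem_Icc] at hn
    exact ⟨hn.2 ▸ Nat.prod_primeFactors_dvd n, by omega⟩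
  have hmem : ∀ n ∈ T, n / r ∈ Nat.factoredNumbers r.primeFactors := by
    intro n hn
    obtain ⟨⟨m, hm⟩, hn0⟩ := hdvd n hn
    rw [hT, Finset.mem_filter] at hn
    have hm0 : m ≠ 0 := by
      rintro rfl
      exact hn0 (by rw [hm, mul_zero])
    have : n / r = m := by rw [hm, Nat.mul_div_cancel_left _ (Nat.pos_of_ne_zero hr0)]
    rw [this, Nat.mem_factoredNumbers_iff_primeFactors_subset]
    refine ⟨hm0, ?_⟩
    have h1 : m.primeFactors ⊆ n.primeFactors :=
      Nat.primeFactors_mono ⟨r, by rw [hm]; ring⟩ hn0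
    have h2 : n.primeFactors = r.primeFactors := by
      rw [← hn.2]
      exact (Nat.primeFactors_prod (fun p hp => Nat.prime_of_mem_primeFactors hp)).symm
    rw [← h2]
    exact h1
  have hinj : ∀ n ∈ T, ∀ n' ∈ T, n / r = n' / r → n = n' := by
    intro n hn n' hn' h
    rw [← Nat.mul_div_cancel' (hdvd n hn).1, ← Nat.mul_div_cancel' (hdvd n' hn').1, h]
  have h3 : ∑ n ∈ T, (1 : ℝ) / n = 1 / (r : ℝ) *
      ∑ m ∈ T.attach.map ⟨fun n => (⟨n.1 / r, hmem n.1 n.2⟩ : Nat.factoredNumbers r.primeFactors),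
        fun a b hab => Subtype.ext (hinj a.1 a.2 b.1 b.2 (congrArg (fun x => x.1) hab))⟩,
        Pool.MP_67663b_nt.Mert.invHom m.1 := by
    rw [Finset.sum_map, Finset.mul_sum, ← Finset.sum_attach]
    refine Finset.sum_congr rfl fun n _ => ?_
    obtain ⟨⟨m, hm⟩, hn0⟩ := hdvd n.1 n.2
    have hm0 : (m : ℝ) ≠ 0 := by
      have : m ≠ 0 := by
        rintro rfl
        exact hn0 (by rw [hm, mul_zero])
      exact_mod_cast this
    have h4 : n.1 / r = m := by rw [hm, Nat.mul_div_cancel_left _ (Nat.pos_of_ne_zero hr0)]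
    have h5 : Pool.MP_67663b_nt.Mert.invHom (n.1 / r) = (m : ℝ)⁻¹ := by
      rw [h4]
      rfl
    change (1 : ℝ) / (n.1 : ℝ) = 1 / (r : ℝ) * Pool.MP_67663b_nt.Mert.invHom (n.1 / r)
    rw [h5, hm]
    push_cast
    field_simp
  rw [h3]
  have h4 := sum_le_hasSum (T.attach.map ⟨fun n => (⟨n.1 / r, hmem n.1 n.2⟩ :
      Nat.factoredNumbers r.primeFactors), fun a b hab => Subtype.ext
        (hinj a.1 a.2 b.1 b.2 (congrArg (fun x => x.1) hab))⟩) (fun m _ => by
    change (0 : ℝ) ≤ ((m : ℕ) : ℝ)⁻¹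
    positivity) hsum
  calc _ ≤ 1 / (r : ℝ) * ((r : ℝ) / (Nat.totient r : ℝ)) :=
        mul_le_mul_of_nonneg_left h4 (by positivity)
    _ = _ := by
      field_simp

/-- `log R ≤ G(R)`. -/
private theorem mon_log (x : ℝ) (hx : 1 ≤ x) (R : ℕ) (hR : R = ⌊x⌋₊) :
    Real.log x ≤ monG R ∅ := by
  have h1 : Real.log x ≤ ∑ n ∈ Finset.Icc 1 R, (1 : ℝ) / n := by
    have h2 := log_add_one_le_harmonic R
    rw [harmonic_eq_sum_Icc] at h2
    push_cast at h2
    have h3 : Real.log x ≤ Real.log ((R : ℝ) + 1) := by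
      refine Real.log_le_log (by linarith) ?_
      rw [hR]
      exact (Nat.lt_floor_add_one x).le
    refine h3.trans (h2.trans (le_of_eq ?_))
    simp only [one_div]
  refine h1.trans ?_
  unfold monG
  have hmaps : ∀ n ∈ Finset.Icc 1 R, ∏ p ∈ n.primeFactors, p ∈
      (Finset.Icc 1 R).filter (fun r => Squarefree r ∧ ∀ p ∈ (∅ : Finset ℕ), ¬ p ∣ r) := by
    intro n hn
    rw [Finset.mem_Icc] at hn
    have hd := Nat.prod_primeFactors_dvd n
    rw [Finset.mem_filter, Finset.mem_Icc]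
    refine ⟨⟨?_, (Nat.le_of_dvd (by omega) hd).trans hn.2⟩, ?_, by simp⟩
    · exact Nat.one_le_iff_ne_zero.mpr (fun h => by
        rw [h, zero_dvd_iff] at hd
        omega)
    · refine Finset.squarefree_prod_of_pairwise_isCoprime (fun p hp q hq hpq => ?_)
        (fun p hp => (Nat.prime_of_mem_primeFactors hp).squarefree)
      simp only [← Nat.coprime_iff_isRelPrime]
      exact (Nat.coprime_primes (Nat.prime_of_mem_primeFactors hp)
        (Nat.prime_of_mem_primeFactors hq)).mpr hpq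
  rw [← Finset.sum_fiberwise_of_maps_to hmaps]
  refine Finset.sum_le_sum fun r hr => ?_
  rw [Finset.mem_filter] at hr
  exact mon_class hr.2.1


theorem sum_inv_phi_ge (R : ℝ) (hR : 1 ≤ R) :
    Real.log R ≤ ∑ r ∈ (Icc 1 ⌊R⌋₊).filter Squarefree, 1 / (Nat.totient r : ℝ) := by
  refine (mon_log R hR _ rfl).trans (le_of_eq ?_)
  unfold monG
  refine Finset.sum_congr ?_ fun _ _ => rfl
  ext r
  simp

private theorem mon_prod_tot (q : ℕ) (hq : 0 < q) :
    (Nat.totient q : ℝ) / q = ∏ p ∈ q.primeFactors, (1 - (p : ℝ)⁻¹) := by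
  have h2 := Nat.totient_eq_mul_prod_factors q
  have h3 : (Nat.totient q : ℝ) = q * ∏ p ∈ q.primeFactors, (1 - (p : ℝ)⁻¹) := by
    have h4 := congrArg (fun x : ℚ => (x : ℝ)) h2
    push_cast at h4
    exact h4
  have hq' : (q : ℝ) ≠ 0 := by exact_mod_cast hq.ne'
  rw [h3, mul_div_cancel_left₀ _ hq']

theorem sum_inv_phi_coprime_ge (R : ℝ) (hR : 1 ≤ R) (q : ℕ) (hq : 0 < q) :
    (Nat.totient q : ℝ) / q * Real.log R ≤
      ∑ r ∈ (Icc 1 ⌊R⌋₊).filter (fun r => Squarefree r ∧ Nat.Coprime r q),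
        1 / (Nat.totient r : ℝ) := by
  have h1 := monG_prod ⌊R⌋₊ q.primeFactors (fun p hp => Nat.prime_of_mem_primeFactors hp)
  have h2 := mon_log R hR _ rfl
  rw [mon_prod_tot q hq]
  have h4 : 0 ≤ ∏ p ∈ q.primeFactors, (1 - (p : ℝ)⁻¹) := by
    refine Finset.prod_nonneg fun p hp => ?_
    have h5 : (2 : ℝ) ≤ p := by exact_mod_cast (Nat.prime_of_mem_primeFactors hp).two_le
    have h6 : (p : ℝ)⁻¹ < 1 := inv_lt_one_of_one_lt₀ (by linarith)
    linarith
  refine (mul_le_mul_of_nonneg_left h2 h4).trans (h1.trans (le_of_eq ?_))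
  unfold monG
  refine Finset.sum_congr ?_ fun _ _ => rfl
  ext r
  simp only [Finset.mem_filter, Finset.mem_Icc]
  refine and_congr_right fun hr => and_congr_right fun _ => ?_
  constructor
  · intro h
    refine Nat.coprime_of_dvd fun p hp hpr hpq => ?_
    exact h p (Nat.mem_primeFactors.2 ⟨hp, hpq, hq.ne'⟩) hpr
  · intro h p hp hpr
    have h1 := Nat.prime_of_mem_primeFactors hp
    have h2 := Nat.dvd_gcd hpr (Nat.dvd_of_mem_primeFactors hp)
    rw [Nat.Coprime] at h
    rw [h] at h2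
    exact h1.one_lt.ne' (Nat.dvd_one.1 h2)

theorem sum_inv_phi_rough_ge : ∃ c : ℝ, 0 < c ∧ ∀ H : ℝ, 2 ≤ H → ∀ R : ℝ, 1 ≤ R →
    c * Real.log R / Real.log H ≤ ∑ r ∈ RS H R, 1 / (Nat.totient r : ℝ) := by
  obtain ⟨C, hC, hV⟩ := V_inv_le
  refine ⟨1 / (2 * C), by positivity, fun H hH R hR => ?_⟩
  have h1 := monG_prod ⌊R⌋₊ (pr 0 (H + 1)) (fun p hp => (mem_pr.1 hp).1)
  have h2 := mon_log R hR _ rfl
  have hlog : 0 ≤ Real.log R := Real.log_nonneg hR
  have hlH : 0 < Real.log H := Real.log_pos (by linarith)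
  have hVp := V_pos (H + 1)
  have hV1 := hV (H + 1) (by linarith)
  have hl2 : Real.log (H + 1) ≤ 2 * Real.log H := by
    have : Real.log (H + 1) ≤ Real.log (H ^ 2) :=
      Real.log_le_log (by linarith) (by nlinarith)
    rwa [Real.log_pow, Nat.cast_ofNat] at this
  have hVge : 1 / (2 * C) / Real.log H ≤ V (H + 1) := by
    have h3 : 1 / V (H + 1) ≤ 2 * C * Real.log H := by
      refine hV1.trans ?_
      nlinarith
    rw [div_le_iff₀ hVp] at h3
    rw [div_div, div_le_iff₀ (by positivity)]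
    linarith
  have hVeq : V (H + 1) = ∏ p ∈ pr 0 (H + 1), (1 - (p : ℝ)⁻¹) := by
    unfold V
    refine Finset.prod_congr rfl fun p _ => ?_
    rw [one_div]
  rw [← hVeq] at h1
  calc 1 / (2 * C) * Real.log R / Real.log H = 1 / (2 * C) / Real.log H * Real.log R := by ring
    _ ≤ V (H + 1) * Real.log R := mul_le_mul_of_nonneg_right hVge hlog
    _ ≤ V (H + 1) * monG ⌊R⌋₊ ∅ := mul_le_mul_of_nonneg_left h2 hVp.le
    _ ≤ monG ⌊R⌋₊ (pr 0 (H + 1)) := h1
    _ ≤ ∑ r ∈ RS H R, 1 / (Nat.totient r : ℝ) := by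
      unfold monG RS
      classical
      refine Finset.sum_le_sum_of_subset_of_nonneg ?_ (fun _ _ _ => by positivity)
      intro r hr
      rw [Finset.mem_filter] at hr ⊢
      refine ⟨hr.1, hr.2.1, fun p hp hpr => ?_⟩
      by_contra hcon
      rw [not_lt] at hcon
      exact hr.2.2 p (mem_pr.2 ⟨hp, by positivity, by linarith⟩) hpr

end Pool.MP_dd84fd_nt.En
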