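import Pool.Agent.Lib.MP_dd84fd_nt.En.Defs

/-!
# reciprocal sums over a block (module GB-R1)
-/

set_option autoImplicit false

namespace Pool.MP_dd84fd_nt.En

open Finset Pool.MP_67663b_nt.Odd

theorem mn_nonneg {M : ℝ} (hM : 0 ≤ M) (θ : ℝ) : 0 ≤ mn M θ := by
  unfold mn
  split_ifs
  · exact hM
  · positivity

theorem mn_le (M θ : ℝ) : mn M θ ≤ M := by
  unfold mn
  split_ifs with h
  · exact le_rfl
  · have h0 : 0 ≤ |θ - round θ| := abs_nonneg _
    have h1 : 0 < |θ - round θ| := by
      rcases h0.lt_or_eq with h2 | h2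
      · exact h2
      · exfalso
        apply h
        rw [← h2]
        norm_num
    rw [div_le_iff₀ (by positivity)]
    push Not at h
    linarith

private theorem r1_mn_le_inv (M θ : ℝ) (h1 : 0 < |θ - round θ|) :
    mn M θ ≤ 1 / (2 * |θ - round θ|) := by
  unfold mn
  split_ifs with h
  · rw [le_div_iff₀ (by positivity)]
    linarith
  · exact le_rfl

private theorem r1_mn_le_of_le (M θ c : ℝ) (hc : 0 < c) (h1 : c ≤ |θ - round θ|) :
    mn M θ ≤ 1 / (2 * c) := by
  refine (r1_mn_le_inv M θ (lt_of_lt_of_le hc h1)).trans ?_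
  exact one_div_le_one_div_of_le (by positivity) (by linarith)

theorem mn_mono {M M' : ℝ} (hM : 0 ≤ M) (h : M ≤ M') (θ : ℝ) : mn M θ ≤ mn M' θ := by
  by_cases h1 : 2 * M' * |θ - round θ| ≤ 1
  · have h2 : mn M' θ = M' := by unfold mn; rw [if_pos h1]
    rw [h2]
    exact (mn_le M θ).trans h
  · have h2 : mn M' θ = 1 / (2 * |θ - round θ|) := by unfold mn; rw [if_neg h1]
    rw [h2]
    have h0 : 0 ≤ |θ - round θ| := abs_nonneg _
    have h3 : 0 < |θ - round θ| := by
      rcases h0.lt_or_eq with h4 | h4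
      · exact h4
      · exfalso
        apply h1
        rw [← h4]
        norm_num
    exact r1_mn_le_inv M θ h3

/-- the sum of the reciprocals below `q` -/
private theorem r1_harm (q : ℕ) (hq : 0 < q) :
    ∑ k ∈ range q, 1 / (k : ℝ) ≤ 1 + Real.log q := by
  obtain ⟨n, rfl⟩ : ∃ n, q = n + 1 := ⟨q - 1, by omega⟩
  rw [Finset.sum_range_succ']
  have h1 := harmonic_le_one_add_log n
  have h2 : ((harmonic n : ℚ) : ℝ) = ∑ k ∈ range n, 1 / (((k + 1 : ℕ)) : ℝ) := by
    unfold harmonic
    push_cast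
    refine Finset.sum_congr rfl fun i _ => ?_
    rw [one_div]
  rw [h2] at h1
  have h3 : Real.log n ≤ Real.log ((n + 1 : ℕ) : ℝ) := by
    rcases Nat.eq_zero_or_pos n with h4 | h4
    · subst h4
      simp
    · apply Real.log_le_log (by exact_mod_cast h4)
      push_cast
      linarith
  simp only [Nat.cast_zero, div_zero, add_zero]
  linarith

private theorem r1_log_aux (q : ℕ) (hq : 0 < q) :
    1 + Real.log q ≤ 2 * Real.log (2 * q) := by
  have hq' : (1 : ℝ) ≤ q := by exact_mod_cast hq
  have h1 : Real.log (2 * q) = Real.log 2 + Real.log q := Real.log_mul (by norm_num) (by positivity)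
  have h2 : 0 ≤ Real.log q := Real.log_nonneg hq'
  have h3 := Real.log_two_gt_d9
  rw [h1]
  linarith

/-- the distance of `u = x - m` to the integers -/
private theorem r1_dist (x : ℝ) (m : ℤ) (lo hi : ℝ) (h1 : lo ≤ x - m) (h2 : hi ≤ 1 - (x - m)) :
    lo ≤ |x - round x| ∨ hi ≤ |x - round x| := by
  rcases le_or_gt (round x) m with h | h
  · left
    have h3 : ((round x : ℤ) : ℝ) ≤ m := by exact_mod_cast h
    have h4 := le_abs_self (x - round x)
    linarith
  · right
    have h3 : ((m : ℤ) : ℝ) + 1 ≤ (round x : ℝ) := by exact_mod_cast h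
    have h4 := neg_abs_le (x - round x)
    linarith

private theorem r1_inj (q : ℕ) (a A : ℤ) (hq : 0 < q) (hg : Int.gcd a q = 1) (S : Finset ℕ)
    (hS : ∀ r ∈ S, r < q) :
    Set.InjOn (fun r : ℕ => ((A + r * a) % q).toNat) S := by
  intro r hr s hs hrs
  have hr1 := hS r hr
  have hs1 := hS s hs
  simp only at hrs
  have hq' : (0 : ℤ) < q := by exact_mod_cast hq
  have h1 : ((A + r * a) % q) = ((A + s * a) % q) := by
    have e1 := Int.emod_nonneg (A + r * a) hq'.ne'
    have e2 := Int.emod_nonneg (A + s * a) hq'.ne'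
    omega
  have h2 : (q : ℤ) ∣ (A + r * a) - (A + s * a) := Int.ModEq.dvd (Eq.symm h1)
  have h3 : (q : ℤ) ∣ ((r : ℤ) - s) * a := by
    have : (A + r * a) - (A + s * a) = ((r : ℤ) - s) * a := by ring
    rwa [this] at h2
  have h4 : (q : ℤ) ∣ (r : ℤ) - s := by
    refine Int.dvd_of_dvd_mul_left_of_gcd_one h3 ?_
    rw [Int.gcd_comm]
    exact hg
  obtain ⟨c, hc⟩ := h4
  have h5 : c = 0 := by
    rcases lt_trichotomy c 0 with h | h | h
    · exfalso
      have : (q : ℤ) * c ≤ -q := by nlinarith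
      omega
    · exact h
    · exfalso
      have : (q : ℤ) ≤ q * c := by nlinarith
      omega
  subst h5
  omega

theorem block_mn : ∃ C : ℝ, 0 < C ∧ ∀ (θ : ℝ) (q : ℕ) (a : ℤ), 0 < q → Int.gcd a q = 1 →
    |θ - (a : ℝ) / q| ≤ 1 / (q : ℝ) ^ 2 → ∀ (M : ℝ) (h0 : ℕ), 1 ≤ M →
    ∑ r ∈ range q, mn M (((h0 + r : ℕ) : ℝ) * θ) ≤ C * (M + q * Real.log (2 * q)) := by
  refine ⟨4, by norm_num, ?_⟩
  intro θ q a hq hg hθ M h0 hM
  have hq0 : (0 : ℝ) < q := by exact_mod_cast hq
  have hqz : (0 : ℤ) < q := by exact_mod_cast hq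
  set A : ℤ := ⌊(h0 : ℝ) * θ * q⌋ with hA
  set κ : ℕ → ℕ := fun r => ((A + r * a) % q).toNat with hκ
  set G : ℕ → ℝ := fun k => if k ≤ 1 then M else (q : ℝ) / (2 * ((k : ℝ) - 1)) with hG
  have hG0 : ∀ k, 0 ≤ G k := by
    intro k
    rw [hG]
    simp only
    split_ifs with h
    · linarith
    · push Not at h
      have : (2 : ℝ) ≤ k := by exact_mod_cast h
      have : 0 < (k : ℝ) - 1 := by linarith
      positivity
  have hκlt : ∀ r, κ r < q := by
    intro r
    have e1 := Int.emod_nonneg (A + r * a) hqz.ne'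
    have e2 := Int.emod_lt_of_pos (A + r * a) hqz
    rw [hκ]
    simp only
    omega
  have key : ∀ r ∈ range q, mn M (((h0 + r : ℕ) : ℝ) * θ) ≤ G (κ r) + G (q - 1 - κ r) := by
    intro r hr
    have hrq : (r : ℝ) ≤ q := by
      have := Finset.mem_range.mp hr
      exact_mod_cast this.le
    set x : ℝ := ((h0 + r : ℕ) : ℝ) * θ with hx
    set m : ℤ := (A + r * a) / q with hm
    set β : ℝ := θ - a / q with hβ
    have e1 := Int.emod_nonneg (A + r * a) hqz.ne'
    have hk1 : ((κ r : ℕ) : ℤ) = (A + r * a) % q := by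
      rw [hκ]
      simp only
      omega
    have hk2 : (A : ℝ) + r * a = q * m + κ r := by
      have : (A + r * a : ℤ) = q * m + κ r := by
        rw [hk1, hm]
        exact (Int.mul_ediv_add_emod (A + r * a) q).symm
      exact_mod_cast this
    have hf1 : (A : ℝ) ≤ (h0 : ℝ) * θ * q := Int.floor_le _
    have hf2 : (h0 : ℝ) * θ * q < A + 1 := Int.lt_floor_add_one _
    have hrβ : |r * β| ≤ 1 / q := by
      rw [abs_mul, abs_of_nonneg (Nat.cast_nonneg r)]
      calc (r : ℝ) * |β| ≤ q * (1 / (q : ℝ) ^ 2) :=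
            mul_le_mul hrq hθ (abs_nonneg _) hq0.le
        _ = 1 / q := by field_simp
    have hrβ1 := (abs_le.mp hrβ).1
    have hrβ2 := (abs_le.mp hrβ).2
    have hxe : x = m + (κ r + ((h0 : ℝ) * θ * q - A)) / q + r * β := by
      rw [hx, hβ]
      have : (m : ℝ) = (A + r * a - κ r) / q := by
        rw [eq_div_iff hq0.ne']
        linarith
      rw [this]
      push_cast
      field_simp
      ring
    have hlo : ((κ r : ℝ) - 1) / q ≤ x - m := by
      have h1 : (κ r : ℝ) / q ≤ (κ r + ((h0 : ℝ) * θ * q - A)) / q := by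
        apply div_le_div_of_nonneg_right _ hq0.le
        linarith
      have h2 : ((κ r : ℝ) - 1) / q = (κ r : ℝ) / q - 1 / q := by ring
      rw [h2]
      linarith
    have hhi : (((q - 1 - κ r : ℕ) : ℝ) - 1) / q ≤ 1 - (x - m) := by
      have h0' := hκlt r
      have h1 : (κ r + ((h0 : ℝ) * θ * q - A)) / q ≤ (κ r + 1) / q := by
        apply div_le_div_of_nonneg_right _ hq0.le
        linarith
      have h2 : ((q - 1 - κ r : ℕ) : ℝ) = q - 1 - κ r := by
        rw [Nat.cast_sub (by omega), Nat.cast_sub (by omega)]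
        norm_num
      have h3 : (((q - 1 - κ r : ℕ) : ℝ) - 1) / q = 1 - (κ r + 1) / q - 1 / q := by
        rw [h2]
        field_simp
        ring
      rw [h3]
      linarith
    have main : ∀ k : ℕ, ((k : ℝ) - 1) / q ≤ |x - round x| → mn M x ≤ G k := by
      intro k hk
      rw [hG]
      simp only
      split_ifs with h
      · exact mn_le M x
      · push Not at h
        have h2 : (2 : ℝ) ≤ k := by exact_mod_cast h
        have h3 : 0 < (k : ℝ) - 1 := by linarith
        refine (r1_mn_le_of_le M x (((k : ℝ) - 1) / q) (by positivity) hk).trans ?_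
        apply le_of_eq
        field_simp
    rcases r1_dist x m _ _ hlo hhi with h | h
    · have := main _ h
      have := hG0 (q - 1 - κ r)
      linarith
    · have := main _ h
      have := hG0 (κ r)
      linarith
  have hinj : Set.InjOn κ (range q : Finset ℕ) := by
    have := r1_inj q a A hq hg (range q) (fun r hr => Finset.mem_range.mp hr)
    exact this
  have hsum1 : ∑ r ∈ range q, (G (κ r) + G (q - 1 - κ r)) ≤
      ∑ k ∈ range q, (G k + G (q - 1 - k)) := by
    rw [← Finset.sum_image (g := κ) (f := fun k => G k + G (q - 1 - k)) hinj]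
    apply Finset.sum_le_sum_of_subset_of_nonneg
    · intro k hk
      obtain ⟨r, _, rfl⟩ := Finset.mem_image.mp hk
      exact Finset.mem_range.mpr (hκlt r)
    · intro k _ _
      have := hG0 k
      have := hG0 (q - 1 - k)
      linarith
  have hsum2 : ∑ k ∈ range q, (G k + G (q - 1 - k)) = 2 * ∑ k ∈ range q, G k := by
    rw [Finset.sum_add_distrib, Finset.sum_range_reflect]
    ring
  have hsum3 : ∑ k ∈ range q, G k ≤ 2 * M + (q / 2) * (1 + Real.log q) := by
    have h1 : ∀ k ∈ range q, G k ≤ (if k ≤ 1 then M else 0) + (q / 2) * (1 / ((k - 1 : ℕ) : ℝ)) := by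
      intro k _
      rw [hG]
      simp only
      split_ifs with h
      · have : 0 ≤ (q : ℝ) / 2 * (1 / ((k - 1 : ℕ) : ℝ)) := by positivity
        linarith
      · push Not at h
        rw [Nat.cast_sub (by omega), Nat.cast_one]
        have h2 : (2 : ℝ) ≤ k := by exact_mod_cast h
        have h3 : 0 < (k : ℝ) - 1 := by linarith
        apply le_of_eq
        field_simp
        ring
    refine (Finset.sum_le_sum h1).trans ?_
    rw [Finset.sum_add_distrib, ← Finset.mul_sum]
    have h2 : ∑ k ∈ range q, (if k ≤ 1 then M else 0) ≤ 2 * M := by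
      rw [← Finset.sum_filter, Finset.sum_const, nsmul_eq_mul]
      apply mul_le_mul_of_nonneg_right _ (by linarith)
      have : (filter (fun k => k ≤ 1) (range q)).card ≤ (range 2).card := by
        apply Finset.card_le_card
        intro k hk
        rw [Finset.mem_filter] at hk
        rw [Finset.mem_range]
        omega
      rw [Finset.card_range] at this
      exact_mod_cast this
    have h3 : ∑ k ∈ range q, 1 / ((k - 1 : ℕ) : ℝ) ≤ 1 + Real.log q := by
      refine le_trans ?_ (r1_harm q hq)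
      obtain ⟨n, rfl⟩ : ∃ n, q = n + 1 := ⟨q - 1, by omega⟩
      rw [Finset.sum_range_succ', Finset.sum_range_succ]
      simp only [Nat.add_sub_cancel, Nat.zero_sub, Nat.cast_zero, div_zero, add_zero]
      have : 0 ≤ 1 / (n : ℝ) := by positivity
      linarith
    have h4 := mul_le_mul_of_nonneg_left h3 (by positivity : (0 : ℝ) ≤ (q : ℝ) / 2)
    linarith
  have hlog := r1_log_aux q hq
  have hfin : (q : ℝ) * (1 + Real.log q) ≤ q * (2 * Real.log (2 * q)) :=
    mul_le_mul_of_nonneg_left hlog hq0.le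
  have := Finset.sum_le_sum key
  have hlogn : 0 ≤ (q : ℝ) * Real.log (2 * q) := by
    apply mul_nonneg hq0.le
    apply Real.log_nonneg
    have : (1 : ℝ) ≤ q := by exact_mod_cast hq
    linarith
  linarith

theorem small_mn : ∃ C : ℝ, 0 < C ∧ ∀ (θ : ℝ) (q : ℕ) (a : ℤ), 0 < q → Int.gcd a q = 1 →
    |θ - (a : ℝ) / q| ≤ 1 / (q : ℝ) ^ 2 → ∀ (M : ℕ → ℝ), (∀ h, 1 ≤ M h) →
    ∑ h ∈ Icc 1 (q / 2), mn (M h) ((h : ℝ) * θ) ≤ C * (q * Real.log (2 * q)) := by
  refine ⟨4, by norm_num, ?_⟩
  intro θ q a hq hg hθ M hM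
  have hq0 : (0 : ℝ) < q := by exact_mod_cast hq
  have hqz : (0 : ℤ) < q := by exact_mod_cast hq
  set κ : ℕ → ℕ := fun r => (((0 : ℤ) + r * a) % q).toNat with hκ
  set G : ℕ → ℝ := fun k => (q : ℝ) * (1 / (k : ℝ)) with hG
  have hG0 : ∀ k, 0 ≤ G k := by
    intro k
    rw [hG]
    positivity
  have hκlt : ∀ r, κ r < q := by
    intro r
    have e1 := Int.emod_nonneg ((0 : ℤ) + r * a) hqz.ne'
    have e2 := Int.emod_lt_of_pos ((0 : ℤ) + r * a) hqz
    rw [hκ]
    simp only
    omega
  have hIcc : ∀ r ∈ Icc 1 (q / 2), r < q := by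
    intro r hr
    rw [Finset.mem_Icc] at hr
    omega
  have hinj : Set.InjOn κ (Icc 1 (q / 2) : Finset ℕ) :=
    r1_inj q a 0 hq hg (Icc 1 (q / 2)) hIcc
  have key : ∀ r ∈ Icc 1 (q / 2), mn (M r) ((r : ℝ) * θ) ≤ G (κ r) + G (q - κ r) := by
    intro r hr
    have hr1 := Finset.mem_Icc.mp hr
    have hrq : (r : ℝ) ≤ q / 2 := by
      have : 2 * r ≤ q := by omega
      have : (2 * r : ℝ) ≤ q := by exact_mod_cast this
      linarith
    set x : ℝ := (r : ℝ) * θ with hx
    set m : ℤ := ((0 : ℤ) + r * a) / q with hm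
    set β : ℝ := θ - a / q with hβ
    have e1 := Int.emod_nonneg ((0 : ℤ) + r * a) hqz.ne'
    have hk1 : ((κ r : ℕ) : ℤ) = ((0 : ℤ) + r * a) % q := by
      rw [hκ]
      simp only
      omega
    have hk2 : (r : ℝ) * a = q * m + κ r := by
      have : (r * a : ℤ) = q * m + κ r := by
        rw [hk1, hm, Int.mul_ediv_add_emod]
        ring
      exact_mod_cast this
    have hkpos : 0 < κ r := by
      rcases Nat.eq_zero_or_pos (κ r) with h | h
      · exfalso
        have h2 : (q : ℤ) ∣ r * a := by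
          have : ((0 : ℤ) + r * a) % q = 0 := by
            rw [← hk1, h]
            rfl
          have := Int.dvd_of_emod_eq_zero this
          rwa [zero_add] at this
        have h3 : (q : ℤ) ∣ (r : ℤ) := by
          refine Int.dvd_of_dvd_mul_left_of_gcd_one h2 ?_
          rw [Int.gcd_comm]
          exact hg
        have h4 : q ∣ r := by exact_mod_cast h3
        have := Nat.le_of_dvd (by omega) h4
        omega
      · exact h
    have hrβ : |r * β| ≤ 1 / (2 * q) := by
      rw [abs_mul, abs_of_nonneg (Nat.cast_nonneg r)]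
      calc (r : ℝ) * |β| ≤ (q / 2) * (1 / (q : ℝ) ^ 2) :=
            mul_le_mul hrq hθ (abs_nonneg _) (by positivity)
        _ = 1 / (2 * q) := by field_simp
    have hrβ1 := (abs_le.mp hrβ).1
    have hrβ2 := (abs_le.mp hrβ).2
    have hxe : x = m + (κ r : ℝ) / q + r * β := by
      rw [hx, hβ]
      have : (m : ℝ) = (r * a - κ r) / q := by
        rw [eq_div_iff hq0.ne']
        linarith
      rw [this]
      field_simp
      ring
    have hkr : (1 : ℝ) ≤ κ r := by exact_mod_cast hkpos
    have hlo : (κ r : ℝ) / (2 * q) ≤ x - m := by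
      have h1 : (κ r : ℝ) / (2 * q) + 1 / (2 * q) ≤ (κ r : ℝ) / q := by
        rw [← add_div, div_le_div_iff₀ (by positivity) (by positivity)]
        nlinarith
      linarith
    have hhi : ((q - κ r : ℕ) : ℝ) / (2 * q) ≤ 1 - (x - m) := by
      have h0' := hκlt r
      have h2 : ((q - κ r : ℕ) : ℝ) = q - κ r := Nat.cast_sub (by omega)
      have h3 : (1 : ℝ) ≤ (q : ℝ) - κ r := by
        rw [← h2]
        have : 1 ≤ q - κ r := by omega
        exact_mod_cast this
      have h1 : ((q : ℝ) - κ r) / (2 * q) + 1 / (2 * q) ≤ 1 - (κ r : ℝ) / q := by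
        have h4 : 1 - (κ r : ℝ) / q = ((q : ℝ) - κ r) / q := by field_simp
        rw [h4, ← add_div, div_le_div_iff₀ (by positivity) (by positivity)]
        nlinarith
      rw [h2]
      linarith
    have main : ∀ k : ℕ, 0 < k → (k : ℝ) / (2 * q) ≤ |x - round x| → mn (M r) x ≤ G k := by
      intro k hk0 hk
      have hk0' : (0 : ℝ) < k := by exact_mod_cast hk0
      refine (r1_mn_le_of_le (M r) x ((k : ℝ) / (2 * q)) (by positivity) hk).trans ?_
      rw [hG]
      apply le_of_eq
      field_simp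
    rcases r1_dist x m _ _ hlo hhi with h | h
    · have := main _ hkpos h
      have := hG0 (q - κ r)
      linarith
    · have h0' := hκlt r
      have := main _ (by omega) h
      have := hG0 (κ r)
      linarith
  have hsum1 : ∑ r ∈ Icc 1 (q / 2), (G (κ r) + G (q - κ r)) ≤
      ∑ k ∈ range (q + 1), (G k + G (q - k)) := by
    rw [← Finset.sum_image (g := κ) (f := fun k => G k + G (q - k)) hinj]
    apply Finset.sum_le_sum_of_subset_of_nonneg
    · intro k hk
      obtain ⟨r, _, rfl⟩ := Finset.mem_image.mp hk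
      have := hκlt r
      exact Finset.mem_range.mpr (by omega)
    · intro k _ _
      have := hG0 k
      have := hG0 (q - k)
      linarith
  have hsum2 : ∑ k ∈ range (q + 1), (G k + G (q - k)) = 2 * ∑ k ∈ range (q + 1), G k := by
    rw [Finset.sum_add_distrib]
    have := Finset.sum_range_reflect G (q + 1)
    simp only [Nat.add_sub_cancel] at this
    rw [this]
    ring
  have hsum3 : ∑ k ∈ range (q + 1), G k ≤ q * (1 + Real.log q) + 1 := by
    rw [Finset.sum_range_succ]
    have h1 : ∑ k ∈ range q, G k ≤ q * (1 + Real.log q) := by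
      rw [hG, ← Finset.mul_sum]
      exact mul_le_mul_of_nonneg_left (r1_harm q hq) hq0.le
    have h2 : G q = 1 := by
      rw [hG]
      field_simp
    rw [h2]
    linarith
  have := Finset.sum_le_sum key
  have hlog1 : Real.log (2 * q) = Real.log 2 + Real.log q :=
    Real.log_mul (by norm_num) (by positivity)
  have hq1 : (1 : ℝ) ≤ q := by exact_mod_cast hq
  have h2 : 0 ≤ Real.log q := Real.log_nonneg hq1
  have h3 := Real.log_two_gt_d9
  rcases Nat.lt_or_ge q 2 with hq2 | hq2
  · have : q = 1 := by omega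
    subst this
    simp
    have : 0 ≤ Real.log 2 := Real.log_nonneg (by norm_num)
    linarith
  · have hq2' : (2 : ℝ) ≤ q := by exact_mod_cast hq2
    have h5 : Real.log 2 ≤ Real.log q := Real.log_le_log (by norm_num) hq2'
    have h6 : 1 + Real.log q + 1 / 2 ≤ 2 * Real.log (2 * q) := by
      rw [hlog1]
      linarith
    have h7 : (q : ℝ) * (1 + Real.log q) + 1 ≤ q * (2 * Real.log (2 * q)) := by
      have := mul_le_mul_of_nonneg_left h6 hq0.le
      nlinarith
    linarith

end Pool.MP_dd84fd_nt.En
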