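import Pool.Agent.Lib.MP_dd84fd_nt.En.Defs
import Pool.Agent.Lib.MP_67663b_nt.OddB.Montgomery

/-!
# the Selberg function on rough numbers (module GB-SA)
-/

set_option autoImplicit false

namespace Pool.MP_dd84fd_nt.En

open Finset Pool.MP_67663b_nt.Odd

theorem one_le_GG {R z : ℝ} (hR : 1 ≤ R) : 1 ≤ GG R z := by
  classical
  unfold GG
  have h1 : 1 ∈ DD R z := by
    unfold DD
    rw [Finset.mem_filter, Finset.mem_Icc]
    refine ⟨⟨le_rfl, Nat.le_floor (by exact_mod_cast hR)⟩, squarefree_one, ?_⟩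
    intro p hp hp1
    exact absurd (Nat.dvd_one.1 hp1) hp.one_lt.ne'
  have h2 := Finset.single_le_sum (f := fun r : ℕ => 1 / (Nat.totient r : ℝ))
    (fun r _ => by positivity) h1
  simpa using h2

theorem nu_nonneg (R z : ℝ) (n : ℕ) : 0 ≤ nu R z n := sq_nonneg _

private lemma sa_sum_Fr (R z : ℝ) (F : ℕ → ℕ → ℂ) :
    ∑ x ∈ Fr R z, F x.1 x.2 =
      ∑ r ∈ DD R z, ∑ b ∈ (range r).filter (Nat.Coprime r), F r b := by
  classical
  unfold Fr
  rw [Finset.sum_filter, Finset.sum_product]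
  refine Finset.sum_congr rfl fun r hr => ?_
  have hrR : r ≤ ⌊R⌋₊ := by
    unfold DD at hr
    rw [Finset.mem_filter, Finset.mem_Icc] at hr
    exact hr.1.2
  rw [← Finset.sum_filter]
  refine Finset.sum_congr ?_ fun _ _ => rfl
  ext b
  simp only [Finset.mem_filter, Finset.mem_range]
  constructor
  · rintro ⟨_, h1, h2⟩
    exact ⟨h1, h2.symm⟩
  · rintro ⟨h1, h2⟩
    exact ⟨by omega, h1, h2.symm⟩

theorem nu_rough {R z : ℝ} (hR : 1 ≤ R) {n : ℕ} (hn : Rough z n) : nu R z n = 1 := by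
  classical
  have hG : 0 < GG R z := lt_of_lt_of_le one_pos (one_le_GG hR)
  have hLam : Lam R z n = 1 := by
    unfold Lam
    rw [sa_sum_Fr R z (fun r b => (wt R z r : ℂ) * ee ((n : ℝ) * ((b : ℝ) / (r : ℝ))))]
    have h1 : ∀ r ∈ DD R z, ∑ b ∈ (range r).filter (Nat.Coprime r),
        (wt R z r : ℂ) * ee ((n : ℝ) * ((b : ℝ) / (r : ℝ))) =
        (((1 / (Nat.totient r : ℝ)) / GG R z : ℝ) : ℂ) := by
      intro r hr
      unfold DD at hr
      rw [Finset.mem_filter, Finset.mem_Icc] at hr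
      obtain ⟨⟨hr1, hrR⟩, hsq, hpr⟩ := hr
      have hcop : Nat.Coprime n r := by
        refine Nat.coprime_of_dvd fun p hp h1 h2 => ?_
        have := hn p hp h1
        have := hpr p hp h2
        linarith
      rw [← Finset.mul_sum, ramanujan_coprime hsq hcop]
      unfold wt
      have hmu : ((ArithmeticFunction.moebius r : ℤ) : ℝ) * (ArithmeticFunction.moebius r : ℤ) = 1 := by
        have := ArithmeticFunction.moebius_sq_eq_one_of_squarefree hsq
        rw [← sq]
        exact_mod_cast this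
      have hφ : (0 : ℝ) < Nat.totient r := by exact_mod_cast Nat.totient_pos.2 hr1
      have h3 : ((ArithmeticFunction.moebius r : ℤ) : ℝ) / (GG R z * (Nat.totient r : ℝ)) *
          ((ArithmeticFunction.moebius r : ℤ) : ℝ) = (1 / (Nat.totient r : ℝ)) / GG R z := by
        rw [div_mul_eq_mul_div, hmu]
        field_simp
      rw [← h3]
      push_cast
      ring
    rw [Finset.sum_congr rfl h1, ← Complex.ofReal_sum, ← Finset.sum_div]
    have h2 : (∑ r ∈ DD R z, 1 / (Nat.totient r : ℝ)) / GG R z = 1 := by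
      unfold GG at hG ⊢
      exact div_self hG.ne'
    rw [h2, Complex.ofReal_one]
  unfold nu
  rw [hLam]
  simp

theorem rho_le_nu {R z : ℝ} (hR : 1 ≤ R) (n : ℕ) : rho z n ≤ nu R z n := by
  unfold rho
  split_ifs with h
  · rw [nu_rough hR h]
  · exact nu_nonneg R z n

end Pool.MP_dd84fd_nt.En
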