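import Pool.Agent.Lib.MP_dd84fd_nt.En.Defs

/-!
# matched pairs of fractions (module GB-SB1)
-/

set_option autoImplicit false

namespace Pool.MP_dd84fd_nt.En

open Finset Pool.MP_67663b_nt.Odd

lemma SB1_mem_DD {R z : ℝ} {r : ℕ} : r ∈ DD R z ↔
    (1 ≤ r ∧ r ≤ ⌊R⌋₊) ∧ Squarefree r ∧ ∀ p : ℕ, p.Prime → p ∣ r → (p : ℝ) < z := by
  classical
  unfold DD
  rw [mem_filter, mem_Icc]

lemma SB1_mem_Fr {R z : ℝ} {x : ℕ × ℕ} : x ∈ Fr R z ↔
    x.1 ∈ DD R z ∧ x.2 < x.1 ∧ Nat.Coprime x.2 x.1 := by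
  unfold Fr
  rw [mem_filter, mem_product, mem_range]
  constructor
  · rintro ⟨⟨h1, -⟩, h2, h3⟩; exact ⟨h1, h2, h3⟩
  · rintro ⟨h1, h2, h3⟩
    have := (SB1_mem_DD.1 h1).1.2
    exact ⟨⟨h1, by omega⟩, h2, h3⟩

lemma SB1_one_mem {R z : ℝ} (hR : 1 ≤ R) : 1 ∈ DD R z := by
  rw [SB1_mem_DD]
  refine ⟨⟨le_rfl, Nat.le_floor (by simpa using hR)⟩, squarefree_one, ?_⟩
  intro p hp hp1
  exact absurd (Nat.dvd_one.1 hp1) hp.ne_one

lemma SB1_GG_pos {R z : ℝ} (hR : 1 ≤ R) : 0 < GG R z := by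
  unfold GG
  have h1 : ∀ r ∈ DD R z, (0 : ℝ) ≤ 1 / (Nat.totient r : ℝ) := fun r _ => by positivity
  have h2 := Finset.single_le_sum h1 (SB1_one_mem (z := z) hR)
  refine lt_of_lt_of_le ?_ h2
  simp

lemma SB1_sum_div {R z : ℝ} (d : ℕ) :
    ∑ r ∈ (DD R z).filter (fun r => d ∣ r), 1 / (Nat.totient r : ℝ) ≤
      GG R z * (1 / (Nat.totient d : ℝ)) := by
  classical
  have hterm : ∀ r ∈ (DD R z).filter (fun r => d ∣ r), 1 / (Nat.totient r : ℝ) =
      (1 / (Nat.totient (r / d) : ℝ)) * (1 / (Nat.totient d : ℝ)) := by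
    intro r hr
    rw [mem_filter] at hr
    obtain ⟨h1, s, rfl⟩ := hr
    have hsq := (SB1_mem_DD.1 h1).2.1
    have hpos := (SB1_mem_DD.1 h1).1.1
    have hd : 0 < d := Nat.pos_of_mul_pos_right hpos
    have hcop : Nat.Coprime d s := Nat.coprime_of_squarefree_mul hsq
    rw [Nat.mul_div_cancel_left _ hd, Nat.totient_mul hcop]
    push_cast
    rw [one_div_mul_one_div, mul_comm]
  rw [Finset.sum_congr rfl hterm, ← Finset.sum_mul]
  refine mul_le_mul_of_nonneg_right ?_ (by positivity)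
  have hinj : Set.InjOn (fun r => r / d) ((DD R z).filter (fun r => d ∣ r) : Finset ℕ) := by
    intro r hr s hs hrs
    rw [mem_coe, mem_filter] at hr hs
    simp only at hrs
    rw [← Nat.div_mul_cancel hr.2, ← Nat.div_mul_cancel hs.2, hrs]
  rw [← Finset.sum_image (f := fun r => 1 / (Nat.totient r : ℝ)) hinj]
  unfold GG
  refine Finset.sum_le_sum_of_subset_of_nonneg ?_ fun _ _ _ => by positivity
  intro s hs
  rw [mem_image] at hs
  obtain ⟨r, hr, rfl⟩ := hs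
  rw [mem_filter] at hr
  obtain ⟨h1, s, rfl⟩ := hr
  obtain ⟨⟨h2, h3⟩, h4, h5⟩ := SB1_mem_DD.1 h1
  have hd : 0 < d := Nat.pos_of_mul_pos_right h2
  have hs0 : 0 < s := Nat.pos_of_mul_pos_left h2
  rw [Nat.mul_div_cancel_left _ hd, SB1_mem_DD]
  refine ⟨⟨hs0, ?_⟩, h4.squarefree_of_dvd (Dvd.intro_left _ rfl), ?_⟩
  · exact (Nat.le_mul_of_pos_left s hd).trans h3
  · intro p hp hps
    exact h5 p hp (hps.mul_left d)

lemma SB1_sumsq {R z : ℝ} (hR : 1 ≤ R) (d : ℕ) :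
    ∑ x ∈ (Fr R z).filter (fun x => d ∣ x.1), (1 / (GG R z * (Nat.totient x.1 : ℝ))) ^ 2 ≤
      1 / GG R z * (1 / (Nat.totient d : ℝ)) := by
  classical
  have hG := SB1_GG_pos (z := z) hR
  have hmap : ∀ x ∈ (Fr R z).filter (fun x => d ∣ x.1), x.1 ∈ (DD R z).filter (fun r => d ∣ r) := by
    intro x hx
    rw [mem_filter] at hx ⊢
    exact ⟨(SB1_mem_Fr.1 hx.1).1, hx.2⟩
  rw [← Finset.sum_fiberwise_of_maps_to hmap]
  have hfib : ∀ r ∈ (DD R z).filter (fun r => d ∣ r),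
      ∑ x ∈ ((Fr R z).filter (fun x => d ∣ x.1)).filter (fun x => x.1 = r),
        (1 / (GG R z * (Nat.totient x.1 : ℝ))) ^ 2 ≤
      (1 / GG R z) ^ 2 * (1 / (Nat.totient r : ℝ)) := by
    intro r hr
    rw [mem_filter] at hr
    have hr1 := (SB1_mem_DD.1 hr.1).1.1
    have hφ : (0 : ℝ) < Nat.totient r := by exact_mod_cast Nat.totient_pos.2 hr1
    have h1 : ∀ x ∈ ((Fr R z).filter (fun x => d ∣ x.1)).filter (fun x => x.1 = r),
        (1 / (GG R z * (Nat.totient x.1 : ℝ))) ^ 2 =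
          (1 / (GG R z * (Nat.totient r : ℝ))) ^ 2 := by
      intro x hx
      rw [(mem_filter.1 hx).2]
    rw [Finset.sum_congr rfl h1, Finset.sum_const, nsmul_eq_mul]
    have hcard : #(((Fr R z).filter (fun x => d ∣ x.1)).filter (fun x => x.1 = r)) ≤
        Nat.totient r := by
      rw [Nat.totient]
      refine Finset.card_le_card_of_injOn (fun x => x.2) ?_ ?_
      · intro x hx
        rw [mem_coe, mem_filter, mem_filter, SB1_mem_Fr] at hx
        obtain ⟨⟨⟨-, h2, h3⟩, -⟩, h4⟩ := hx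
        rw [mem_coe, mem_filter, mem_range, ← h4]
        exact ⟨h2, h3.symm⟩
      · intro x hx y hy hxy
        rw [mem_coe, mem_filter] at hx hy
        exact Prod.ext (hx.2.trans hy.2.symm) hxy
    have hcard' : (#(((Fr R z).filter (fun x => d ∣ x.1)).filter (fun x => x.1 = r)) : ℝ) ≤
        Nat.totient r := by exact_mod_cast hcard
    calc _ ≤ (Nat.totient r : ℝ) * (1 / (GG R z * (Nat.totient r : ℝ))) ^ 2 :=
          mul_le_mul_of_nonneg_right hcard' (by positivity)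
      _ = (1 / GG R z) ^ 2 * (1 / (Nat.totient r : ℝ)) := by
          field_simp
  refine (Finset.sum_le_sum hfib).trans ?_
  rw [← Finset.mul_sum]
  calc (1 / GG R z) ^ 2 * ∑ r ∈ (DD R z).filter (fun r => d ∣ r), 1 / (Nat.totient r : ℝ)
      ≤ (1 / GG R z) ^ 2 * (GG R z * (1 / (Nat.totient d : ℝ))) :=
        mul_le_mul_of_nonneg_left (SB1_sum_div d) (by positivity)
    _ = 1 / GG R z * (1 / (Nat.totient d : ℝ)) := by
        rw [← mul_assoc]
        congr 1
        field_simp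

/-- reduced fractions in `[0, 1)` are determined by their class modulo one -/
lemma SB1_unique {r b r' b' : ℕ} (h1 : b < r) (h2 : Nat.Coprime b r) (h1' : b' < r')
    (h2' : Nat.Coprime b' r') (k : ℤ) (h : (b : ℝ) / (r : ℝ) - (b' : ℝ) / (r' : ℝ) = k) :
    r = r' ∧ b = b' := by
  have hr : (0 : ℝ) < r := by exact_mod_cast (by omega : 0 < r)
  have hr' : (0 : ℝ) < r' := by exact_mod_cast (by omega : 0 < r')
  have u1 : (b : ℝ) / r < 1 := by rw [div_lt_one hr]; exact_mod_cast h1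
  have u2 : (b' : ℝ) / r' < 1 := by rw [div_lt_one hr']; exact_mod_cast h1'
  have v1 : (0 : ℝ) ≤ (b : ℝ) / r := by positivity
  have v2 : (0 : ℝ) ≤ (b' : ℝ) / r' := by positivity
  have k1 : k < 1 := by
    have : (k : ℝ) < ((1 : ℤ) : ℝ) := by push_cast; linarith
    exact_mod_cast this
  have k2 : -1 < k := by
    have : ((-1 : ℤ) : ℝ) < (k : ℝ) := by push_cast; linarith
    exact_mod_cast this
  have k0 : k = 0 := by omega
  rw [k0] at h
  have h3 : (b : ℝ) / r = (b' : ℝ) / r' := by push_cast at h; linarith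
  rw [div_eq_div_iff hr.ne' hr'.ne'] at h3
  have h4 : b * r' = b' * r := by exact_mod_cast h3
  have d1 : r ∣ r' := by
    apply h2.symm.dvd_of_dvd_mul_left
    rw [h4]
    exact Dvd.intro_left _ rfl
  have d2 : r' ∣ r := by
    apply h2'.symm.dvd_of_dvd_mul_left
    rw [← h4]
    exact Dvd.intro_left _ rfl
  have h5 := Nat.dvd_antisymm d1 d2
  refine ⟨h5, ?_⟩
  rw [h5] at h4
  exact Nat.eq_of_mul_eq_mul_right (by omega) h4

lemma SB1_dvd_lcm {q r b r' b' : ℕ} (hq : 0 < q) (hr : 0 < r) (hr' : 0 < r') (a : ℤ)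
    (ha : Int.gcd a q = 1) (k : ℤ)
    (h : (a : ℝ) / q + (b : ℝ) / (r : ℝ) - (b' : ℝ) / (r' : ℝ) = k) : q ∣ Nat.lcm r r' := by
  obtain ⟨s, hs⟩ := Nat.dvd_lcm_left r r'
  obtain ⟨s', hs'⟩ := Nat.dvd_lcm_right r r'
  obtain ⟨L, hL⟩ : ∃ L, L = Nat.lcm r r' := ⟨_, rfl⟩
  rw [← hL] at hs hs' ⊢
  have hq' : (q : ℝ) ≠ 0 := by positivity
  have hr0 : (r : ℝ) ≠ 0 := by positivity
  have hr0' : (r' : ℝ) ≠ 0 := by positivity
  have e1 : (L : ℝ) = r * s := by exact_mod_cast hs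
  have e2 : (L : ℝ) = r' * s' := by exact_mod_cast hs'
  have h1 : (a : ℝ) * L = q * (k * L - b * s + b' * s') := by
    have h2 : (b : ℝ) / r * L = b * s := by rw [e1]; field_simp
    have h3 : (b' : ℝ) / r' * L = b' * s' := by rw [e2]; field_simp
    have h4 : (a : ℝ) = q * (k - b / r + b' / r') := by
      have : (a : ℝ) / q = k - b / r + b' / r' := by linarith
      rw [← this]
      field_simp
    calc (a : ℝ) * L = q * (k * L - (b : ℝ) / r * L + (b' : ℝ) / r' * L) := by rw [h4]; ring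
      _ = _ := by rw [h2, h3]
  have h2 : a * (L : ℤ) = q * (k * L - b * s + b' * s') := by exact_mod_cast h1
  have h3 : (q : ℤ) ∣ a * (L : ℤ) := ⟨_, h2⟩
  have h4 : IsCoprime (q : ℤ) a := by
    rw [Int.isCoprime_iff_gcd_eq_one, Int.gcd_comm]; exact ha
  have h5 : (q : ℤ) ∣ (L : ℤ) := h4.dvd_of_dvd_mul_left h3
  exact_mod_cast h5

open Classical in
theorem matched {R z : ℝ} (hR : 1 ≤ R) (q : ℕ) (hq : 0 < q) (a : ℤ) (ha : Int.gcd a q = 1) :
    ∑ x ∈ ((Fr R z) ×ˢ (Fr R z)).filter (fun x => ∃ k : ℤ,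
        (a : ℝ) / q + (x.1.2 : ℝ) / (x.1.1 : ℝ) - (x.2.2 : ℝ) / (x.2.1 : ℝ) = k),
      |wt R z x.1.1| * |wt R z x.2.1| ≤
      (q.divisors.card : ℝ) / (GG R z * Real.sqrt (Nat.totient q)) := by
  have hG := SB1_GG_pos (z := z) hR
  obtain ⟨P, hP⟩ : ∃ P : Finset ((ℕ × ℕ) × (ℕ × ℕ)), P = ((Fr R z) ×ˢ (Fr R z)).filter
    (fun x => ∃ k : ℤ, (a : ℝ) / q + (x.1.2 : ℝ) / (x.1.1 : ℝ) - (x.2.2 : ℝ) / (x.2.1 : ℝ) = k) :=
    ⟨_, rfl⟩
  rw [← hP]
  have hmem : ∀ x ∈ P, x.1 ∈ Fr R z ∧ x.2 ∈ Fr R z ∧ ∃ k : ℤ,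
      (a : ℝ) / q + (x.1.2 : ℝ) / (x.1.1 : ℝ) - (x.2.2 : ℝ) / (x.2.1 : ℝ) = k := by
    intro x hx
    rw [hP, mem_filter, mem_product] at hx
    exact ⟨hx.1.1, hx.1.2, hx.2⟩
  have hwt : ∀ r : ℕ, |wt R z r| ≤ 1 / (GG R z * (Nat.totient r : ℝ)) := by
    intro r
    unfold wt
    rw [abs_div, abs_of_nonneg (by positivity : (0 : ℝ) ≤ GG R z * (Nat.totient r : ℝ))]
    refine div_le_div_of_nonneg_right ?_ (by positivity)
    have := ArithmeticFunction.abs_moebius_le_one (n := r)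
    exact_mod_cast this
  have hmap : ∀ x ∈ P, Nat.gcd q x.2.1 ∈ q.divisors := by
    intro x _
    rw [Nat.mem_divisors]
    exact ⟨Nat.gcd_dvd_left _ _, hq.ne'⟩
  rw [← Finset.sum_fiberwise_of_maps_to hmap]
  have hφ : (0 : ℝ) < Nat.totient q := by exact_mod_cast Nat.totient_pos.2 hq
  have hfib : ∀ d ∈ q.divisors, ∑ x ∈ P.filter (fun x => Nat.gcd q x.2.1 = d),
      |wt R z x.1.1| * |wt R z x.2.1| ≤ 1 / (GG R z * Real.sqrt (Nat.totient q)) := by
    intro d hd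
    rcases (P.filter (fun x => Nat.gcd q x.2.1 = d)).eq_empty_or_nonempty with he | hne
    · rw [he, Finset.sum_empty]
      positivity
    -- properties of the fibre
    have hprop : ∀ x ∈ P.filter (fun x => Nat.gcd q x.2.1 = d),
        Squarefree q ∧ d ∣ x.2.1 ∧ q / d ∣ x.1.1 := by
      intro x hx
      rw [mem_filter] at hx
      obtain ⟨hxP, hxd⟩ := hx
      obtain ⟨m1, m2, k, hk⟩ := hmem x hxP
      obtain ⟨n1, -, -⟩ := SB1_mem_Fr.1 m1
      obtain ⟨n2, -, -⟩ := SB1_mem_Fr.1 m2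
      obtain ⟨⟨r1, -⟩, s1, -⟩ := SB1_mem_DD.1 n1
      obtain ⟨⟨r2, -⟩, s2, -⟩ := SB1_mem_DD.1 n2
      have hlcm := SB1_dvd_lcm hq r1 r2 a ha k hk
      have hlsq : Squarefree (Nat.lcm x.1.1 x.2.1) := by
        rw [Nat.squarefree_iff_prime_squarefree]
        intro p hp hpp
        rw [← pow_two, hp.pow_dvd_iff_le_factorization (Nat.lcm_ne_zero (by omega) (by omega)),
          Nat.factorization_lcm (by omega) (by omega), Finsupp.sup_apply] at hpp
        have t1 := (Nat.squarefree_iff_factorization_le_one (by omega)).1 s1 p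
        have t2 := (Nat.squarefree_iff_factorization_le_one (by omega)).1 s2 p
        have : max (x.1.1.factorization p) (x.2.1.factorization p) ≤ 1 := max_le t1 t2
        exact absurd (le_trans hpp this) (by norm_num)
      have hqsq : Squarefree q := hlsq.squarefree_of_dvd hlcm
      refine ⟨hqsq, ?_, ?_⟩
      · rw [← hxd]; exact Nat.gcd_dvd_right _ _
      · -- `q / d` divides `r`
        have hdq : d ∣ q := by rw [← hxd]; exact Nat.gcd_dvd_left _ _
        obtain ⟨e, he⟩ := hdq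
        have hd0 : 0 < d := Nat.pos_of_mul_pos_right (he ▸ hq)
        rw [he, Nat.mul_div_cancel_left _ hd0]
        have hcop : Nat.Coprime e x.2.1 := by
          rw [Nat.coprime_iff_gcd_eq_one]
          by_contra hne1
          obtain ⟨p, hp, hpd⟩ := Nat.exists_prime_and_dvd hne1
          have p1 : p ∣ e := hpd.trans (Nat.gcd_dvd_left _ _)
          have p2 : p ∣ x.2.1 := hpd.trans (Nat.gcd_dvd_right _ _)
          have p3 : p ∣ d := by
            rw [← hxd]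
            exact Nat.dvd_gcd (he ▸ p1.mul_left d) p2
          have p4 : p * p ∣ q := by
            rw [he]; exact mul_dvd_mul p3 p1
          exact hp.one_lt.ne' (Nat.isUnit_iff.1 (hqsq p p4))
        have h1 : e ∣ x.1.1 * x.2.1 :=
          ((Dvd.intro_left d he.symm).trans hlcm).trans (Nat.lcm_dvd_mul _ _)
        exact hcop.dvd_of_dvd_mul_right h1
    obtain ⟨x₀, hx₀⟩ := hne
    have hqsq := (hprop x₀ hx₀).1
    have hdq : d ∣ q := Nat.dvd_of_mem_divisors hd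
    have hφmul : (Nat.totient d : ℝ) * (Nat.totient (q / d) : ℝ) = Nat.totient q := by
      obtain ⟨e, he⟩ := hdq
      have hd0 : 0 < d := Nat.pos_of_mul_pos_right (he ▸ hq)
      rw [he, Nat.mul_div_cancel_left _ hd0, Nat.totient_mul (Nat.coprime_of_squarefree_mul
        (he ▸ hqsq))]
      push_cast
      rfl
    have hCS : ∑ x ∈ P.filter (fun x => Nat.gcd q x.2.1 = d), |wt R z x.1.1| * |wt R z x.2.1| ≤
        Real.sqrt (∑ x ∈ P.filter (fun x => Nat.gcd q x.2.1 = d),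
          (1 / (GG R z * (Nat.totient x.1.1 : ℝ))) ^ 2) *
        Real.sqrt (∑ x ∈ P.filter (fun x => Nat.gcd q x.2.1 = d),
          (1 / (GG R z * (Nat.totient x.2.1 : ℝ))) ^ 2) := by
      refine (Finset.sum_le_sum fun x _ => mul_le_mul (hwt x.1.1) (hwt x.2.1) (abs_nonneg _)
        (by positivity)).trans ?_
      exact Real.sum_mul_le_sqrt_mul_sqrt _ _ _
    have hS1 : ∑ x ∈ P.filter (fun x => Nat.gcd q x.2.1 = d),
          (1 / (GG R z * (Nat.totient x.1.1 : ℝ))) ^ 2 ≤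
        1 / GG R z * (1 / (Nat.totient (q / d) : ℝ)) := by
      have hinj : Set.InjOn (fun x : (ℕ × ℕ) × (ℕ × ℕ) => x.1)
          (P.filter (fun x => Nat.gcd q x.2.1 = d) : Finset _) := by
        intro x hx y hy hxy
        rw [mem_coe, mem_filter] at hx hy
        obtain ⟨-, m2, k, hk⟩ := hmem x hx.1
        obtain ⟨-, n2, l, hl⟩ := hmem y hy.1
        obtain ⟨-, u1, u2⟩ := SB1_mem_Fr.1 m2
        obtain ⟨-, v1, v2⟩ := SB1_mem_Fr.1 n2
        simp only at hxy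
        have h1 := SB1_unique u1 u2 v1 v2 (l - k) (by
          rw [hxy] at hk
          push_cast
          linarith)
        exact Prod.ext hxy (Prod.ext h1.1 h1.2)
      rw [← Finset.sum_image (f := fun x : ℕ × ℕ =>
        (1 / (GG R z * (Nat.totient x.1 : ℝ))) ^ 2) hinj]
      refine le_trans (Finset.sum_le_sum_of_subset_of_nonneg ?_ fun _ _ _ => by positivity)
        (SB1_sumsq hR (q / d))
      intro y hy
      rw [mem_image] at hy
      obtain ⟨x, hx, rfl⟩ := hy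
      rw [mem_filter]
      exact ⟨(hmem x (mem_filter.1 hx).1).1, (hprop x hx).2.2⟩
    have hS2 : ∑ x ∈ P.filter (fun x => Nat.gcd q x.2.1 = d),
          (1 / (GG R z * (Nat.totient x.2.1 : ℝ))) ^ 2 ≤
        1 / GG R z * (1 / (Nat.totient d : ℝ)) := by
      have hinj : Set.InjOn (fun x : (ℕ × ℕ) × (ℕ × ℕ) => x.2)
          (P.filter (fun x => Nat.gcd q x.2.1 = d) : Finset _) := by
        intro x hx y hy hxy
        rw [mem_coe, mem_filter] at hx hy
        obtain ⟨m1, -, k, hk⟩ := hmem x hx.1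
        obtain ⟨n1, -, l, hl⟩ := hmem y hy.1
        obtain ⟨-, u1, u2⟩ := SB1_mem_Fr.1 m1
        obtain ⟨-, v1, v2⟩ := SB1_mem_Fr.1 n1
        simp only at hxy
        have h1 := SB1_unique u1 u2 v1 v2 (k - l) (by
          rw [hxy] at hk
          push_cast
          linarith)
        exact Prod.ext (Prod.ext h1.1 h1.2) hxy
      rw [← Finset.sum_image (f := fun x : ℕ × ℕ =>
        (1 / (GG R z * (Nat.totient x.1 : ℝ))) ^ 2) hinj]
      refine le_trans (Finset.sum_le_sum_of_subset_of_nonneg ?_ fun _ _ _ => by positivity)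
        (SB1_sumsq hR d)
      intro y hy
      rw [mem_image] at hy
      obtain ⟨x, hx, rfl⟩ := hy
      rw [mem_filter]
      exact ⟨(hmem x (mem_filter.1 hx).1).2.1, (hprop x hx).2.1⟩
    refine hCS.trans ?_
    refine (mul_le_mul (Real.sqrt_le_sqrt hS1) (Real.sqrt_le_sqrt hS2) (Real.sqrt_nonneg _)
      (Real.sqrt_nonneg _)).trans (le_of_eq ?_)
    rw [← Real.sqrt_mul (by positivity)]
    have e1 : 1 / GG R z * (1 / (Nat.totient (q / d) : ℝ)) *
        (1 / GG R z * (1 / (Nat.totient d : ℝ))) = (1 / GG R z) ^ 2 * (1 / (Nat.totient q : ℝ)) := by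
      rw [← hφmul]
      ring
    rw [e1, Real.sqrt_mul (by positivity), Real.sqrt_sq (by positivity), Real.sqrt_div zero_le_one,
      Real.sqrt_one, one_div_mul_one_div]
  refine (Finset.sum_le_sum hfib).trans (le_of_eq ?_)
  rw [Finset.sum_const, nsmul_eq_mul, mul_one_div]

end Pool.MP_dd84fd_nt.En
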