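import Pool.Agent.Lib.MP_dd84fd_nt.En.SelA
import Pool.Agent.Lib.MP_dd84fd_nt.En.SelB1
import Pool.Agent.Lib.MP_dd84fd_nt.En.Geo

/-!
# exponential sum of the Selberg majorant (module GB-SB2)
-/

set_option autoImplicit false

namespace Pool.MP_dd84fd_nt.En

open Finset Pool.MP_67663b_nt.Odd

private theorem sb2_mem_Fr {R z : ℝ} {x : ℕ × ℕ} (hx : x ∈ Fr R z) :
    1 ≤ x.1 ∧ x.1 ≤ ⌊R⌋₊ ∧ x.1 ∈ DD R z ∧ x.2 < x.1 ∧ Nat.Coprime x.2 x.1 := by
  classical
  unfold Fr at hx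
  rw [mem_filter, mem_product] at hx
  have h1 := hx.1.1
  unfold DD at h1
  rw [mem_filter, mem_Icc] at h1
  exact ⟨h1.1.1, h1.1.2, hx.1.1, hx.2.1, hx.2.2⟩

/-- the total weight -/
private theorem sb2_total {R z : ℝ} (hR : 1 ≤ R) : ∑ x ∈ Fr R z, |wt R z x.1| ≤ R := by
  classical
  have hG := one_le_GG (z := z) hR
  have h1 : ∀ x ∈ Fr R z, |wt R z x.1| ≤ 1 / (Nat.totient x.1 : ℝ) := by
    intro x hx
    obtain ⟨hx1, -, -, -, -⟩ := sb2_mem_Fr hx
    have hphi : (0 : ℝ) < Nat.totient x.1 := by exact_mod_cast Nat.totient_pos.2 hx1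
    unfold wt
    rw [abs_div, abs_of_pos (mul_pos (by linarith) hphi)]
    have h2 : |((ArithmeticFunction.moebius x.1 : ℤ) : ℝ)| ≤ 1 := by
      have := ArithmeticFunction.abs_moebius_le_one (n := x.1)
      exact_mod_cast this
    apply div_le_div₀ (by norm_num) h2 hphi
    nlinarith
  refine (sum_le_sum h1).trans ?_
  have h3 : ∑ x ∈ Fr R z, 1 / (Nat.totient x.1 : ℝ) ≤
      ∑ r ∈ DD R z, ∑ b ∈ (range r).filter (fun b => Nat.Coprime r b),
        1 / (Nat.totient r : ℝ) := by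
    rw [sum_sigma' (DD R z) (fun r => (range r).filter (fun b => Nat.Coprime r b))
      (fun r _ => 1 / (Nat.totient r : ℝ))]
    refine le_of_eq (sum_bij (fun x _ => (⟨x.1, x.2⟩ : Σ _ : ℕ, ℕ)) ?_ ?_ ?_ ?_)
    · intro x hx
      obtain ⟨-, -, hD, hlt, hc⟩ := sb2_mem_Fr hx
      rw [mem_sigma, mem_filter, mem_range]
      exact ⟨hD, hlt, hc.symm⟩
    · intro x _ y _ h
      simp only [Sigma.mk.injEq, heq_eq_eq] at h
      exact Prod.ext h.1 h.2
    · rintro ⟨r, b⟩ h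
      rw [mem_sigma, mem_filter, mem_range] at h
      refine ⟨(r, b), ?_, rfl⟩
      unfold Fr
      rw [mem_filter, mem_product, mem_range]
      refine ⟨⟨h.1, ?_⟩, h.2.1, h.2.2.symm⟩
      have h4 := h.1
      unfold DD at h4
      rw [mem_filter, mem_Icc] at h4
      have h5 := h4.1.2
      have h6 := h.2.1
      simp only at h5 h6 ⊢
      omega
    · intro x _
      rfl
  refine h3.trans ?_
  have h4 : ∀ r ∈ DD R z, ∑ b ∈ (range r).filter (fun b => Nat.Coprime r b),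
      1 / (Nat.totient r : ℝ) = 1 := by
    intro r hr
    unfold DD at hr
    rw [mem_filter, mem_Icc] at hr
    have hphi : (0 : ℝ) < Nat.totient r := by exact_mod_cast Nat.totient_pos.2 hr.1.1
    rw [sum_const, nsmul_eq_mul, ← Nat.totient_eq_card_coprime, mul_one_div, div_self hphi.ne']
  rw [sum_congr rfl h4, sum_const, nsmul_eq_mul, mul_one]
  have h5 : (DD R z).card ≤ ⌊R⌋₊ := by
    unfold DD
    refine (card_filter_le _ _).trans ?_
    rw [Nat.card_Icc, Nat.add_sub_cancel]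
  calc ((DD R z).card : ℝ) ≤ (⌊R⌋₊ : ℝ) := by exact_mod_cast h5
    _ ≤ R := Nat.floor_le (by linarith)

private theorem sb2_nu {R z : ℝ} (n : ℕ) :
    (nu R z n : ℂ) = ∑ x ∈ Fr R z ×ˢ Fr R z, ((wt R z x.1.1 : ℂ) * (wt R z x.2.1 : ℂ)) *
      ee ((n : ℝ) * ((x.1.2 : ℝ) / (x.1.1 : ℝ) - (x.2.2 : ℝ) / (x.2.1 : ℝ))) := by
  have h1 : (nu R z n : ℂ) = Lam R z n * (starRingEnd ℂ) (Lam R z n) := by
    unfold nu
    rw [Complex.mul_conj, Complex.normSq_eq_norm_sq]
  rw [h1]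
  unfold Lam
  rw [map_sum, sum_mul_sum, sum_product]
  apply sum_congr rfl
  intro x _
  apply sum_congr rfl
  intro y _
  rw [map_mul, Complex.conj_ofReal, conj_ee]
  have h2 : ee ((n : ℝ) * ((x.2 : ℝ) / (x.1 : ℝ) - (y.2 : ℝ) / (y.1 : ℝ))) =
      ee ((n : ℝ) * ((x.2 : ℝ) / (x.1 : ℝ))) * ee (-((n : ℝ) * ((y.2 : ℝ) / (y.1 : ℝ)))) := by
    rw [← ee_add]
    congr 1
    ring
  simp only
  rw [h2]
  ring

private theorem sb2_D_int (t : ℕ) (k : ℤ) (β : ℝ) : D t ((k : ℝ) + β) = D t β := by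
  unfold D
  apply sum_congr rfl
  intro n _
  have : (n : ℝ) * ((k : ℝ) + β) = (n : ℝ) * β + (((n : ℤ) * k : ℤ) : ℝ) := by
    push_cast
    ring
  rw [this, ee_add_int]

theorem nu_exp {R z : ℝ} (hR : 1 ≤ R) (t q : ℕ) (hq : 0 < q) (a : ℤ) (ha : Int.gcd a q = 1)
    (β : ℝ) (hβ : |β| ≤ 1 / (2 * q * R ^ 2)) :
    ‖∑ n ∈ Icc 1 t, (nu R z n : ℂ) * ee ((n : ℝ) * ((a : ℝ) / q + β))‖ ≤
      ‖D t β‖ * ((q.divisors.card : ℝ) / (GG R z * Real.sqrt (Nat.totient q))) + q * R ^ 4 := by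
  classical
  have hq0 : (0 : ℝ) < q := by exact_mod_cast hq
  have hR0 : 0 < R := by linarith
  set α : (ℕ × ℕ) × (ℕ × ℕ) → ℝ := fun x =>
    (a : ℝ) / q + (x.1.2 : ℝ) / (x.1.1 : ℝ) - (x.2.2 : ℝ) / (x.2.1 : ℝ) with hα
  have h1 : ∑ n ∈ Icc 1 t, (nu R z n : ℂ) * ee ((n : ℝ) * ((a : ℝ) / q + β)) =
      ∑ x ∈ Fr R z ×ˢ Fr R z, ((wt R z x.1.1 : ℂ) * (wt R z x.2.1 : ℂ)) *
        D t (α x + β) := by
    calc ∑ n ∈ Icc 1 t, (nu R z n : ℂ) * ee ((n : ℝ) * ((a : ℝ) / q + β)) =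
        ∑ n ∈ Icc 1 t, ∑ x ∈ Fr R z ×ˢ Fr R z, ((wt R z x.1.1 : ℂ) * (wt R z x.2.1 : ℂ)) *
          ee ((n : ℝ) * (α x + β)) := by
          apply sum_congr rfl
          intro n _
          rw [sb2_nu, sum_mul]
          apply sum_congr rfl
          intro x _
          rw [mul_assoc, ← ee_add]
          congr 2
          simp only [hα]
          ring
      _ = _ := by
          rw [sum_comm]
          apply sum_congr rfl
          intro x _
          rw [← mul_sum]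
          rfl
  rw [h1]
  have h2 : ∀ x ∈ Fr R z ×ˢ Fr R z,
      ‖((wt R z x.1.1 : ℂ) * (wt R z x.2.1 : ℂ)) * D t (α x + β)‖ ≤
      (if ∃ k : ℤ, α x = k then |wt R z x.1.1| * |wt R z x.2.1| * ‖D t β‖ else 0) +
      |wt R z x.1.1| * |wt R z x.2.1| * (q * R ^ 2) := by
    intro x hx
    rw [mem_product] at hx
    rw [norm_mul, norm_mul, Complex.norm_real, Complex.norm_real, Real.norm_eq_abs,
      Real.norm_eq_abs]
    split_ifs with hk
    · obtain ⟨k, hk⟩ := hk
      rw [hk, sb2_D_int]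
      have : 0 ≤ |wt R z x.1.1| * |wt R z x.2.1| * (q * R ^ 2) := by positivity
      linarith
    · rw [zero_add]
      apply mul_le_mul_of_nonneg_left _ (by positivity)
      obtain ⟨hr1, hr1R, -, -, -⟩ := sb2_mem_Fr hx.1
      obtain ⟨hr2, hr2R, -, -, -⟩ := sb2_mem_Fr hx.2
      have hR1 : (x.1.1 : ℝ) ≤ R :=
        (Nat.cast_le.2 hr1R).trans (Nat.floor_le hR0.le)
      have hR2 : (x.2.1 : ℝ) ≤ R :=
        (Nat.cast_le.2 hr2R).trans (Nat.floor_le hR0.le)
      have hp1 : (0 : ℝ) < x.1.1 := by exact_mod_cast hr1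
      have hp2 : (0 : ℝ) < x.2.1 := by exact_mod_cast hr2
      set θ := α x + β with hθ
      -- distance of `α x` to the integers
      have h3 : 1 / (q * R ^ 2) ≤ |α x - round θ| := by
        have h4 : (q : ℝ) * x.1.1 * x.2.1 * (α x - round θ) =
            ((a * x.1.1 * x.2.1 + q * x.1.2 * x.2.1 - q * x.1.1 * x.2.2 -
              q * x.1.1 * x.2.1 * round θ : ℤ) : ℝ) := by
          simp only [hα]
          push_cast
          field_simp
        have h5 : (a * x.1.1 * x.2.1 + q * x.1.2 * x.2.1 - q * x.1.1 * x.2.2 -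
              q * x.1.1 * x.2.1 * round θ : ℤ) ≠ 0 := by
          intro h0
          rw [h0, Int.cast_zero] at h4
          have h6 : α x - round θ = 0 := by
            rcases mul_eq_zero.1 h4 with h | h
            · exfalso
              have : 0 < (q : ℝ) * x.1.1 * x.2.1 := by positivity
              linarith
            · exact h
          exact hk ⟨round θ, by linarith⟩
        have h6 : (1 : ℝ) ≤ |(q : ℝ) * x.1.1 * x.2.1 * (α x - round θ)| := by
          rw [h4]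
          exact_mod_cast Int.one_le_abs h5
        rw [abs_mul, abs_of_pos (by positivity : 0 < (q : ℝ) * x.1.1 * x.2.1)] at h6
        rw [div_le_iff₀ (by positivity)]
        have h7 : (q : ℝ) * x.1.1 * x.2.1 ≤ q * R ^ 2 := by
          rw [mul_assoc]
          apply mul_le_mul_of_nonneg_left _ hq0.le
          rw [pow_two]
          exact mul_le_mul hR1 hR2 hp2.le hR0.le
        calc (1 : ℝ) ≤ (q : ℝ) * x.1.1 * x.2.1 * |α x - round θ| := h6
          _ ≤ q * R ^ 2 * |α x - round θ| := mul_le_mul_of_nonneg_right h7 (abs_nonneg _)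
          _ = _ := by ring
      have h4 : 1 / (2 * q * R ^ 2) ≤ |θ - round θ| := by
        have h5 : |α x - round θ| ≤ |θ - round θ| + |β| := by
          have : α x - round θ = (θ - round θ) - β := by
            rw [hθ]
            ring
          rw [this]
          exact abs_sub _ _
        have h6 : 1 / (q * R ^ 2) = 2 * (1 / (2 * q * R ^ 2)) := by
          field_simp
        linarith
      have h5 : 0 < |θ - round θ| := lt_of_lt_of_le (by positivity) h4
      have h6 := norm_sum_Ioc_le 0 t θ h5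
      have h7 : D t θ = ∑ k ∈ Ioc 0 t, ee ((k : ℝ) * θ) := rfl
      rw [h7]
      refine h6.trans ?_
      rw [div_le_iff₀ (by positivity)]
      calc (1 : ℝ) = q * R ^ 2 * (2 * (1 / (2 * q * R ^ 2))) := by
            field_simp
        _ ≤ q * R ^ 2 * (2 * |θ - round θ|) := by
            apply mul_le_mul_of_nonneg_left _ (by positivity)
            linarith
  refine (norm_sum_le _ _).trans ((sum_le_sum h2).trans ?_)
  rw [sum_add_distrib]
  apply add_le_add
  · rw [← sum_filter, ← sum_mul, mul_comm]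
    apply mul_le_mul_of_nonneg_left _ (norm_nonneg _)
    have h3 := matched (z := z) hR q hq a ha
    exact h3
  · rw [← sum_mul]
    have h3 : ∑ x ∈ Fr R z ×ˢ Fr R z, |wt R z x.1.1| * |wt R z x.2.1| =
        (∑ x ∈ Fr R z, |wt R z x.1|) * ∑ x ∈ Fr R z, |wt R z x.1| := by
      rw [sum_mul_sum, sum_product]
    rw [h3]
    have h4 := sb2_total (z := z) hR
    have h5 : 0 ≤ ∑ x ∈ Fr R z, |wt R z x.1| := sum_nonneg (fun x _ => abs_nonneg _)
    calc (∑ x ∈ Fr R z, |wt R z x.1|) * (∑ x ∈ Fr R z, |wt R z x.1|) * (q * R ^ 2) ≤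
        R * R * (q * R ^ 2) := by
          apply mul_le_mul_of_nonneg_right _ (by positivity)
          exact mul_le_mul h4 h4 h5 hR0.le
      _ = q * R ^ 4 := by ring

theorem nu_sum {R z : ℝ} (hR : 1 ≤ R) (t : ℕ) :
    ∑ n ∈ Icc 1 t, nu R z n ≤ t / GG R z + R ^ 4 := by
  have h1 := nu_exp (z := z) hR t 1 one_pos 0 (by simp) 0 (by simp; positivity)
  have h2 : ∑ n ∈ Icc 1 t, (nu R z n : ℂ) * ee ((n : ℝ) * (((0 : ℤ) : ℝ) / ((1 : ℕ) : ℝ) + 0)) =
      ((∑ n ∈ Icc 1 t, nu R z n : ℝ) : ℂ) := by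
    push_cast
    apply sum_congr rfl
    intro n _
    rw [zero_div, add_zero, mul_zero, ee_zero, mul_one]
  rw [h2, Complex.norm_real, Real.norm_eq_abs,
    abs_of_nonneg (sum_nonneg (fun n _ => nu_nonneg R z n))] at h1
  have h3 := norm_D_le t 0
  have hG := one_le_GG (z := z) hR
  simp only [Nat.divisors_one, card_singleton, Nat.cast_one, Nat.totient_one, Real.sqrt_one,
    mul_one, one_mul, mul_one_div] at h1
  have h4 : ‖D t 0‖ / GG R z ≤ t / GG R z := div_le_div_of_nonneg_right h3 (by linarith)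
  linarith

end Pool.MP_dd84fd_nt.En
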