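import Pool.Agent.Lib.MP_dd84fd_nt.En.Vz

/-!
# lower bound for G (module GB-SC)
-/

set_option autoImplicit false

namespace Pool.MP_dd84fd_nt.En

open Finset Pool.MP_67663b_nt.Odd

private theorem SC_cop (S : Finset ℕ) (hS : ∀ p ∈ S, p.Prime) (a : ℕ) (ha : a.Prime)
    (haS : a ∉ S) : Nat.Coprime a (∏ p ∈ S, p) := by
  refine Nat.Coprime.prod_right ?_
  intro p hp
  rw [Nat.coprime_primes ha (hS p hp)]
  rintro rfl
  exact haS hp

private theorem SC_tot (S : Finset ℕ) (hS : ∀ p ∈ S, p.Prime) :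
    (Nat.totient (∏ p ∈ S, p) : ℝ) = ∏ p ∈ S, ((p : ℝ) - 1) := by
  induction S using Finset.induction_on with
  | empty => simp
  | insert a S haS ih =>
    have hS' : ∀ p ∈ S, p.Prime := fun p hp => hS p (mem_insert_of_mem hp)
    have ha : a.Prime := hS a (mem_insert_self a S)
    rw [prod_insert haS, prod_insert haS, Nat.totient_mul (SC_cop S hS' a ha haS),
      Nat.totient_prime ha]
    push_cast [Nat.cast_sub ha.one_le]
    rw [ih hS']

private theorem SC_sqf (S : Finset ℕ) (hS : ∀ p ∈ S, p.Prime) :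
    Squarefree (∏ p ∈ S, p) := by
  induction S using Finset.induction_on with
  | empty => simp
  | insert a S haS ih =>
    have hS' : ∀ p ∈ S, p.Prime := fun p hp => hS p (mem_insert_of_mem hp)
    have ha : a.Prime := hS a (mem_insert_self a S)
    rw [prod_insert haS, Nat.squarefree_mul (SC_cop S hS' a ha haS)]
    exact ⟨ha.squarefree, ih hS'⟩

private theorem SC_exp_le {x : ℝ} (h0 : 0 ≤ x) (h1 : x ≤ 1) : Real.exp x - 1 ≤ 2 * x := by
  have h := Real.abs_exp_sub_one_sub_id_le (x := x) (by rw [abs_of_nonneg h0]; exact h1)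
  have h2 := (abs_le.1 h).2
  nlinarith

theorem GG_ge : ∃ C1 : ℝ, 0 < C1 ∧ ∀ z : ℝ, 2 ≤ z → ∀ R : ℝ, 1 ≤ R →
    1 - C1 * Real.exp (-(Real.log R / Real.log z)) ≤ GG R z * V z := by
  classical
  have hl2 : 0 < Real.log 2 := Real.log_pos (by norm_num)
  refine ⟨Real.exp (2 + 4 / Real.log 2), Real.exp_pos _, ?_⟩
  intro z hz R hR
  have hlz : Real.log 2 ≤ Real.log z := Real.log_le_log (by norm_num) hz
  have hlz0 : 0 < Real.log z := by linarith
  set P : Finset ℕ := pr 0 z with hP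
  set κ : ℝ := 1 / Real.log z with hκ
  have hκ0 : 0 < κ := by positivity
  have hPp : ∀ p ∈ P, p.Prime := fun p hp => (mem_pr.1 hp).1
  have hPz : ∀ p ∈ P, (p : ℝ) < z := fun p hp => (mem_pr.1 hp).2.2
  have hge2 : ∀ p ∈ P, (2 : ℝ) ≤ p := fun p hp => by exact_mod_cast (hPp p hp).two_le
  have hsubp : ∀ S ∈ P.powerset, ∀ p ∈ S, p.Prime := fun S hS p hp =>
    hPp p (mem_powerset.1 hS hp)
  -- total sum
  have htot : (∑ S ∈ P.powerset, 1 / (Nat.totient (∏ p ∈ S, p) : ℝ)) * V z = 1 := by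
    have h1 : ∑ S ∈ P.powerset, 1 / (Nat.totient (∏ p ∈ S, p) : ℝ) =
        ∏ p ∈ P, (1 + 1 / ((p : ℝ) - 1)) := by
      rw [prod_one_add]
      refine sum_congr rfl ?_
      intro S hS
      rw [SC_tot S (hsubp S hS)]
      simp only [one_div]
      rw [prod_inv_distrib]
    rw [h1]
    unfold V
    rw [← hP, ← prod_mul_distrib]
    refine prod_eq_one ?_
    intro p hp
    have h2 := hge2 p hp
    have h3 : (p : ℝ) - 1 ≠ 0 := by linarith
    have h4 : (p : ℝ) ≠ 0 := by linarith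
    field_simp
    ring
  -- tail
  have hpow : ∀ S ∈ P.powerset, ∀ c : ℝ, (((∏ p ∈ S, p : ℕ) : ℝ)) ^ c = ∏ p ∈ S, (p : ℝ) ^ c := by
    intro S hS c
    push_cast
    rw [Real.finsetProd_rpow]
    intro i _
    exact Nat.cast_nonneg _
  have hprodpos : ∀ S ∈ P.powerset, (0 : ℝ) < ((∏ p ∈ S, p : ℕ) : ℝ) := by
    intro S hS
    have : 0 < ∏ p ∈ S, p := prod_pos (fun p hp => (hsubp S hS p hp).pos)
    exact_mod_cast this
  have htail : ∀ S ∈ P.powerset, R < ((∏ p ∈ S, p : ℕ) : ℝ) →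
      1 / (Nat.totient (∏ p ∈ S, p) : ℝ) ≤
        R ^ (-κ) * ∏ p ∈ S, ((p : ℝ) ^ κ / ((p : ℝ) - 1)) := by
    intro S hS hRS
    have h1 : (1 : ℝ) ≤ R ^ (-κ) * ((∏ p ∈ S, p : ℕ) : ℝ) ^ κ := by
      rw [Real.rpow_neg (by linarith), ← div_eq_inv_mul,
        ← Real.div_rpow (hprodpos S hS).le (by linarith)]
      refine Real.one_le_rpow ?_ hκ0.le
      rw [le_div_iff₀ (by linarith)]
      linarith
    rw [hpow S hS κ] at h1
    rw [prod_div_distrib, ← mul_div_assoc, ← SC_tot S (hsubp S hS)]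
    have h2 : (0 : ℝ) < (Nat.totient (∏ p ∈ S, p) : ℝ) := by
      have : 0 < Nat.totient (∏ p ∈ S, p) :=
        Nat.totient_pos.2 (prod_pos (fun p hp => (hsubp S hS p hp).pos))
      exact_mod_cast this
    exact div_le_div_of_nonneg_right h1 h2.le
  -- the DD sum dominates the sum over small products
  have hDD : ∑ S ∈ P.powerset with ((∏ p ∈ S, p : ℕ) : ℝ) ≤ R,
      1 / (Nat.totient (∏ p ∈ S, p) : ℝ) ≤ GG R z := by
    have hinj : Set.InjOn (fun S : Finset ℕ => ∏ p ∈ S, p)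
        (P.powerset.filter (fun S => ((∏ p ∈ S, p : ℕ) : ℝ) ≤ R) : Set (Finset ℕ)) := by
      intro S hS T hT hST
      simp only [coe_filter, Set.mem_ofPred_eq] at hS hT
      have h1 := Nat.primeFactors_prod (s := S) (hsubp S hS.1)
      have h2 := Nat.primeFactors_prod (s := T) (hsubp T hT.1)
      rw [← h1, ← h2]
      simp only at hST
      rw [hST]
    have e := sum_image (f := fun r : ℕ => 1 / (Nat.totient r : ℝ)) hinj
    rw [← e]
    unfold GG
    refine sum_le_sum_of_subset_of_nonneg ?_ ?_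
    · intro r hr
      rw [mem_image] at hr
      obtain ⟨S, hS, rfl⟩ := hr
      rw [mem_filter] at hS
      unfold DD
      rw [mem_filter, mem_Icc]
      have hpos : 0 < ∏ p ∈ S, p := prod_pos (fun p hp => (hsubp S hS.1 p hp).pos)
      refine ⟨⟨hpos, Nat.le_floor hS.2⟩, SC_sqf S (hsubp S hS.1), ?_⟩
      intro p hp hpd
      have hmem : p ∈ (∏ p ∈ S, p).primeFactors := Nat.mem_primeFactors.2 ⟨hp, hpd, hpos.ne'⟩
      rw [Nat.primeFactors_prod (hsubp S hS.1)] at hmem
      exact hPz p (mem_powerset.1 hS.1 hmem)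
    · intro r _ _
      positivity
  -- split
  have hsplit : ∑ S ∈ P.powerset, 1 / (Nat.totient (∏ p ∈ S, p) : ℝ) ≤
      GG R z + R ^ (-κ) * ∏ p ∈ P, (1 + (p : ℝ) ^ κ / ((p : ℝ) - 1)) := by
    rw [← sum_filter_add_sum_filter_not P.powerset
      (fun S => ((∏ p ∈ S, p : ℕ) : ℝ) ≤ R)]
    refine add_le_add hDD ?_
    rw [prod_one_add, mul_sum]
    refine le_trans (sum_le_sum (fun S hS => htail S (mem_filter.1 hS).1
      (not_le.1 (mem_filter.1 hS).2))) ?_
    refine sum_le_sum_of_subset_of_nonneg (filter_subset _ _) ?_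
    intro S hS _
    refine mul_nonneg (Real.rpow_nonneg (by linarith) _) (prod_nonneg ?_)
    intro p hp
    have := hge2 p (mem_powerset.1 hS hp)
    exact div_nonneg (Real.rpow_nonneg (by linarith) _) (by linarith)
  have hVz := V_pos z
  have hmain : (∏ p ∈ P, (1 + (p : ℝ) ^ κ / ((p : ℝ) - 1))) * V z ≤
      Real.exp (2 + 4 / Real.log 2) := by
    unfold V
    rw [← hP, ← prod_mul_distrib]
    have h1 : ∀ p ∈ P, (1 + (p : ℝ) ^ κ / ((p : ℝ) - 1)) * (1 - 1 / (p : ℝ)) ≤
        Real.exp (2 * κ * (Real.log p / p)) := by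
      intro p hp
      have h2 := hge2 p hp
      have h3 : (0 : ℝ) < (p : ℝ) - 1 := by linarith
      have h4 : (0 : ℝ) < (p : ℝ) := by linarith
      have e1 : (1 + (p : ℝ) ^ κ / ((p : ℝ) - 1)) * (1 - 1 / (p : ℝ)) =
          ((p : ℝ) ^ κ - 1) / p + 1 := by
        field_simp
        ring
      rw [e1]
      refine le_trans ?_ (Real.add_one_le_exp _)
      have hlogp : 0 ≤ Real.log p := Real.log_nonneg (by linarith)
      have hx : κ * Real.log p ≤ 1 := by
        rw [hκ, one_div, inv_mul_le_iff₀ hlz0, mul_one]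
        exact Real.log_le_log h4 (hPz p hp).le
      have h5 := SC_exp_le (mul_nonneg hκ0.le hlogp) hx
      have h6 : (p : ℝ) ^ κ = Real.exp (κ * Real.log p) := by
        rw [Real.rpow_def_of_pos h4, mul_comm]
      rw [h6]
      have h7 : 2 * κ * (Real.log p / p) = 2 * (κ * Real.log p) / p := by ring
      rw [h7]
      have h8 := div_le_div_of_nonneg_right h5 h4.le
      linarith
    refine (prod_le_prod ?_ h1).trans ?_
    · intro p hp
      have h2 := hge2 p hp
      have h3 : (0 : ℝ) < (p : ℝ) - 1 := by linarith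
      have h4 : 1 / (p : ℝ) ≤ 1 := by
        rw [div_le_one (by linarith)]; linarith
      refine mul_nonneg ?_ (by linarith)
      have := div_nonneg (Real.rpow_nonneg (show (0 : ℝ) ≤ p by linarith) κ) h3.le
      linarith
    · rw [← Real.exp_sum, ← mul_sum]
      refine Real.exp_le_exp.2 ?_
      have h1 := sum_log_div (z := z) (by linarith)
      rw [← hP] at h1
      have h2 : 2 * κ * ∑ p ∈ P, Real.log (p : ℝ) / p ≤ 2 * κ * (Real.log z + 2) :=
        mul_le_mul_of_nonneg_left h1 (by positivity)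
      refine h2.trans ?_
      have h3 : 2 * κ * (Real.log z + 2) = 2 + 4 / Real.log z := by
        rw [hκ]
        field_simp
        ring
      rw [h3]
      have h4 : 4 / Real.log z ≤ 4 / Real.log 2 := div_le_div_of_nonneg_left (by norm_num) hl2 hlz
      linarith
  have hR' : R ^ (-κ) = Real.exp (-(Real.log R / Real.log z)) := by
    rw [Real.rpow_def_of_pos (by linarith), hκ]
    congr 1
    ring
  have h1 : 1 ≤ (GG R z + R ^ (-κ) * ∏ p ∈ P, (1 + (p : ℝ) ^ κ / ((p : ℝ) - 1))) * V z := by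
    exact htot.symm.le.trans (mul_le_mul_of_nonneg_right hsplit hVz.le)
  have h2 : R ^ (-κ) * ((∏ p ∈ P, (1 + (p : ℝ) ^ κ / ((p : ℝ) - 1))) * V z) ≤
      R ^ (-κ) * Real.exp (2 + 4 / Real.log 2) :=
    mul_le_mul_of_nonneg_left hmain (Real.rpow_nonneg (by linarith) _)
  rw [← hR']
  nlinarith

end Pool.MP_dd84fd_nt.En
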