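import Pool.Agent.Lib.MP_dd84fd_nt.En.SelA
import Pool.Agent.Lib.MP_dd84fd_nt.En.SelB2
import Pool.Agent.Lib.MP_dd84fd_nt.En.SelC

/-!
# lower bound for the number of rough numbers (module GB-SD)
-/

set_option autoImplicit false

namespace Pool.MP_dd84fd_nt.En

open Finset Pool.MP_67663b_nt.Odd

private theorem sd_mem_RN {z b : ℝ} {m : ℕ} :
    m ∈ RN z 0 b ↔ (1 ≤ m ∧ m ≤ ⌊b⌋₊) ∧ Rough z m := by
  classical
  unfold RN
  rw [mem_filter, mem_Ioc, Nat.floor_zero]
  rfl

private theorem sd_leg (S : Finset ℕ) (hS : ∀ p ∈ S, p.Prime) : ∀ t : ℝ, 0 ≤ t →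
    |(((Icc 1 ⌊t⌋₊).filter (fun m => ∀ p ∈ S, ¬ p ∣ m)).card : ℝ) -
      t * ∏ p ∈ S, (1 - 1 / (p : ℝ))| ≤ 2 ^ S.card := by
  induction S using Finset.induction_on with
  | empty =>
    intro t ht
    have h1 := Nat.floor_le ht
    have h2 := Nat.lt_floor_add_one t
    simp only [notMem_empty, false_imp_iff, implies_true, filter_true, Nat.card_Icc,
      prod_empty, mul_one, card_empty, pow_zero, Nat.add_sub_cancel]
    rw [abs_le]
    constructor <;> linarith
  | insert p S hp ih =>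
    intro t ht
    have hpp : p.Prime := hS p (mem_insert_self p S)
    have hp0 : (0 : ℝ) < p := by exact_mod_cast hpp.pos
    have hS' : ∀ q ∈ S, q.Prime := fun q hq => hS q (mem_insert_of_mem hq)
    have h1 := ih hS' t ht
    have h2 := ih hS' (t / p) (by positivity)
    have key : ((Icc 1 ⌊t⌋₊).filter (fun m => ∀ q ∈ insert p S, ¬ q ∣ m)).card +
        ((Icc 1 ⌊t / p⌋₊).filter (fun m => ∀ q ∈ S, ¬ q ∣ m)).card =
        ((Icc 1 ⌊t⌋₊).filter (fun m => ∀ q ∈ S, ¬ q ∣ m)).card := by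
      have e1 : ((Icc 1 ⌊t⌋₊).filter (fun m => ∀ q ∈ insert p S, ¬ q ∣ m)) =
          ((Icc 1 ⌊t⌋₊).filter (fun m => ∀ q ∈ S, ¬ q ∣ m)).filter (fun m => ¬ p ∣ m) := by
        ext m
        simp only [mem_filter, mem_insert, forall_eq_or_imp]
        tauto
      have e2 : ((Icc 1 ⌊t / p⌋₊).filter (fun m => ∀ q ∈ S, ¬ q ∣ m)).card =
          (((Icc 1 ⌊t⌋₊).filter (fun m => ∀ q ∈ S, ¬ q ∣ m)).filter (fun m => p ∣ m)).card := by
        refine card_bij (fun m _ => p * m) ?_ ?_ ?_
        · intro m hm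
          rw [mem_filter, mem_Icc, Nat.floor_div_natCast, Nat.le_div_iff_mul_le hpp.pos] at hm
          rw [mem_filter, mem_filter, mem_Icc]
          refine ⟨⟨⟨Nat.mul_pos hpp.pos hm.1.1, by rw [mul_comm]; exact hm.1.2⟩, ?_⟩,
            dvd_mul_right p m⟩
          intro q hq hqm
          rcases (Nat.Prime.dvd_mul (hS' q hq)).1 hqm with h | h
          · have := (Nat.prime_dvd_prime_iff_eq (hS' q hq) hpp).1 h
            subst this
            exact hp hq
          · exact hm.2 q hq h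
        · intro a _ b _ h
          exact Nat.eq_of_mul_eq_mul_left hpp.pos h
        · intro m hm
          rw [mem_filter, mem_filter, mem_Icc] at hm
          obtain ⟨⟨⟨hm1, hm2⟩, hm3⟩, k, rfl⟩ := hm
          refine ⟨k, ?_, rfl⟩
          rw [mem_filter, mem_Icc, Nat.floor_div_natCast, Nat.le_div_iff_mul_le hpp.pos]
          refine ⟨⟨Nat.pos_of_ne_zero ?_, by rw [mul_comm]; exact hm2⟩, ?_⟩
          · rintro rfl
            simp at hm1
          · intro q hq hqk
            exact hm3 q hq (hqk.mul_left p)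
      rw [e1, e2, add_comm]
      exact card_filter_add_card_filter_not _
    have key' : (((Icc 1 ⌊t⌋₊).filter (fun m => ∀ q ∈ insert p S, ¬ q ∣ m)).card : ℝ) +
        (((Icc 1 ⌊t / p⌋₊).filter (fun m => ∀ q ∈ S, ¬ q ∣ m)).card : ℝ) =
        (((Icc 1 ⌊t⌋₊).filter (fun m => ∀ q ∈ S, ¬ q ∣ m)).card : ℝ) := by
      exact_mod_cast key
    rw [prod_insert hp, card_insert_of_notMem hp, pow_succ]
    rw [abs_le] at h1 h2 ⊢
    set P := ∏ x ∈ S, (1 - 1 / (x : ℝ)) with hP
    have e3 : t * ((1 - 1 / (p : ℝ)) * P) = t * P - t / p * P := by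
      field_simp
    rw [e3]
    constructor
    · linarith [h1.1, h2.2]
    · linarith [h1.2, h2.1]

private theorem sd_card_pr {z : ℝ} (x : ℝ) (hz : 0 ≤ z) : ((pr x z).card : ℝ) ≤ z := by
  have h : pr x z ⊆ Icc 1 ⌊z⌋₊ := by
    intro p hp
    rw [mem_pr] at hp
    rw [mem_Icc]
    exact ⟨hp.1.pos, Nat.le_floor hp.2.2.le⟩
  have h1 := card_le_card h
  rw [Nat.card_Icc, Nat.add_sub_cancel] at h1
  calc ((pr x z).card : ℝ) ≤ (⌊z⌋₊ : ℝ) := by exact_mod_cast h1
    _ ≤ z := Nat.floor_le hz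

private theorem sd_legendre {z t : ℝ} (hz : 0 ≤ z) (ht : 0 ≤ t) :
    t * V z - Real.exp z ≤ ((RN z 0 t).card : ℝ) := by
  have h := sd_leg (pr 0 z) (fun p hp => (mem_pr.1 hp).1) t ht
  have e : (Icc 1 ⌊t⌋₊).filter (fun m => ∀ p ∈ pr 0 z, ¬ p ∣ m) = RN z 0 t := by
    ext m
    rw [sd_mem_RN, mem_filter, mem_Icc]
    refine and_congr_right (fun _ => ?_)
    unfold Rough
    constructor
    · intro h p hp hpm
      by_contra hlt
      push Not at hlt
      exact h p (mem_pr.2 ⟨hp, Nat.cast_nonneg p, hlt⟩) hpm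
    · intro h p hp hpm
      rw [mem_pr] at hp
      exact absurd (h p hp.1 hpm) (not_le.2 hp.2.2)
  rw [e] at h
  have h2 : (2 : ℝ) ^ (pr 0 z).card ≤ Real.exp z := by
    have h3 : (2 : ℝ) ≤ Real.exp 1 := by
      have := Real.add_one_le_exp 1
      linarith
    calc (2 : ℝ) ^ (pr 0 z).card ≤ (Real.exp 1) ^ (pr 0 z).card :=
          pow_le_pow_left₀ (by norm_num) h3 _
      _ = Real.exp ((pr 0 z).card : ℝ) := by rw [← Real.exp_nat_mul, mul_one]
      _ ≤ Real.exp z := Real.exp_le_exp.2 (sd_card_pr 0 hz)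
  have h4 : V z = ∏ p ∈ pr 0 z, (1 - 1 / (p : ℝ)) := rfl
  rw [← h4] at h
  have h5 := (abs_le.1 h).1
  linarith

private theorem sd_buch {z1 z t : ℝ} :
    ((RN z1 0 t).card : ℝ) ≤ (RN z 0 t).card +
      ∑ p ∈ pr z1 z, ((RN p 0 (t / p)).card : ℝ) := by
  have h : RN z1 0 t ⊆ RN z 0 t ∪
      (pr z1 z).biUnion (fun p => (RN p 0 (t / p)).image (fun m => p * m)) := by
    intro m hm
    rw [mem_union]
    by_cases hr : m ∈ RN z 0 t
    · exact Or.inl hr
    · right
      rw [sd_mem_RN] at hm hr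
      have hr' : ¬ Rough z m := fun h => hr ⟨hm.1, h⟩
      unfold Rough at hr'
      push Not at hr'
      obtain ⟨q, hq, hqm, hqz⟩ := hr'
      have hm1 : m ≠ 1 := by
        rintro rfl
        exact hq.one_lt.ne' (Nat.dvd_one.1 hqm)
      have hp : m.minFac.Prime := Nat.minFac_prime hm1
      have hpq : m.minFac ≤ q := Nat.minFac_le_of_dvd hq.two_le hqm
      rw [mem_biUnion]
      refine ⟨m.minFac, ?_, ?_⟩
      · rw [mem_pr]
        refine ⟨hp, hm.2 _ hp (Nat.minFac_dvd m), lt_of_le_of_lt ?_ hqz⟩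
        exact_mod_cast hpq
      · rw [mem_image]
        obtain ⟨k, hk⟩ := Nat.minFac_dvd m
        refine ⟨k, ?_, hk.symm⟩
        rw [sd_mem_RN, Nat.floor_div_natCast, Nat.le_div_iff_mul_le hp.pos]
        refine ⟨⟨Nat.pos_of_ne_zero ?_, ?_⟩, ?_⟩
        · rintro rfl
          rw [mul_zero] at hk
          omega
        · rw [mul_comm, ← hk]
          exact hm.1.2
        · intro r hr hrk
          have : m.minFac ≤ r := Nat.minFac_le_of_dvd hr.two_le
            (by rw [hk]; exact hrk.mul_left _)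
          exact_mod_cast this
  have h1 := (card_le_card h).trans (card_union_le _ _)
  have h2 : ((pr z1 z).biUnion (fun p => (RN p 0 (t / p)).image (fun m => p * m))).card ≤
      ∑ p ∈ pr z1 z, (RN p 0 (t / p)).card :=
    card_biUnion_le.trans (sum_le_sum (fun p _ => card_image_le))
  have h3 := h1.trans (Nat.add_le_add_left h2 _)
  exact_mod_cast h3

private theorem sd_up {z t R : ℝ} (hR : 1 ≤ R) (ht : 0 ≤ t) :
    ((RN z 0 t).card : ℝ) ≤ t / GG R z + R ^ 4 := by
  classical
  have h1 : ((RN z 0 t).card : ℝ) = ∑ n ∈ Icc 1 ⌊t⌋₊, rho z n := by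
    unfold rho
    rw [sum_ite, sum_const_zero, add_zero, sum_const, nsmul_eq_mul, mul_one]
    congr 2
    ext m
    rw [sd_mem_RN, mem_filter, mem_Icc]
  have h2 := nu_sum (z := z) hR ⌊t⌋₊
  have h3 := one_le_GG (z := z) hR
  calc ((RN z 0 t).card : ℝ) = ∑ n ∈ Icc 1 ⌊t⌋₊, rho z n := h1
    _ ≤ ∑ n ∈ Icc 1 ⌊t⌋₊, nu R z n := sum_le_sum (fun n _ => rho_le_nu hR n)
    _ ≤ (⌊t⌋₊ : ℝ) / GG R z + R ^ 4 := h2
    _ ≤ t / GG R z + R ^ 4 := by
      have := div_le_div_of_nonneg_right (Nat.floor_le ht) (by linarith : 0 ≤ GG R z)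
      linarith

/-- one prime of Buchstab's identity -/
private theorem sd_term {C1 : ℝ} (hC1 : 0 < C1)
    (hG : ∀ z : ℝ, 2 ≤ z → ∀ R : ℝ, 1 ≤ R →
      1 - C1 * Real.exp (-(Real.log R / Real.log z)) ≤ GG R z * V z)
    {z t : ℝ} (ht : 1 ≤ t) (hK : (16 * C1 + 4) * Real.log z ≤ Real.log t)
    {p : ℕ} (hp : p.Prime) (hpz : (p : ℝ) < z) :
    ((RN p 0 (t / p)).card : ℝ) ≤ t * (V p / p) +
      (1024 * C1 * Real.exp (1 / 8) * Real.exp (-(1 / 16 * (Real.log t / Real.log z))) * t /
        Real.log t ^ 2) * (Real.log p / p) + t ^ (1 / 2 : ℝ) := by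
  have hp2 : (2 : ℝ) ≤ p := by exact_mod_cast hp.two_le
  have hp0 : (0 : ℝ) < p := by linarith
  have hlp : 0 < Real.log p := Real.log_pos (by linarith)
  have hlz : Real.log p ≤ Real.log z := Real.log_le_log hp0 hpz.le
  have hlz0 : 0 < Real.log z := lt_of_lt_of_le hlp hlz
  have ht0 : (0 : ℝ) < t := by linarith
  set L := Real.log t with hL
  have hKp : (16 * C1 + 4) * Real.log p ≤ L :=
    (mul_le_mul_of_nonneg_left hlz (by positivity)).trans hK
  have hL0 : 0 < L := lt_of_lt_of_le (by positivity) hKp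
  have hlogtp : Real.log (t / p) = L - Real.log p := Real.log_div ht0.ne' hp0.ne'
  have htp : 1 ≤ t / p := by
    have : 0 ≤ Real.log (t / p) := by
      rw [hlogtp]
      nlinarith [mul_pos hC1 hlp]
    exact (Real.log_nonneg_iff (by positivity)).1 this
  have htp0 : 0 < t / p := by positivity
  set R := (t / p) ^ (1 / 8 : ℝ) with hRdef
  have hR : 1 ≤ R := Real.one_le_rpow htp (by norm_num)
  have hR4 : R ^ 4 = (t / p) ^ (1 / 2 : ℝ) := by
    rw [hRdef, ← Real.rpow_natCast, ← Real.rpow_mul htp0.le]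
    norm_num
  have hlogR : Real.log R = 1 / 8 * (L - Real.log p) := by
    rw [hRdef, Real.log_rpow htp0, hlogtp]
  have hq : Real.log R / Real.log p = L / (8 * Real.log p) - 1 / 8 := by
    rw [hlogR]
    field_simp
  set x := C1 * Real.exp (-(Real.log R / Real.log p)) with hx
  have hx0 : 0 ≤ x := by positivity
  have hx1 : x ≤ 1 / 2 := by
    have h1 : 2 * C1 + 3 / 8 ≤ Real.log R / Real.log p := by
      rw [hq, ← sub_nonneg]
      have : L / (8 * Real.log p) - 1 / 8 - (2 * C1 + 3 / 8) =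
          (L - (16 * C1 + 4) * Real.log p) / (8 * Real.log p) := by
        field_simp
        ring
      rw [this]
      apply div_nonneg <;> [linarith; positivity]
    have h2 : 2 * C1 ≤ Real.exp (Real.log R / Real.log p) := by
      have := Real.add_one_le_exp (Real.log R / Real.log p)
      linarith
    rw [hx, Real.exp_neg, ← div_eq_mul_inv, div_le_iff₀ (Real.exp_pos _)]
    linarith
  have hGV := hG p hp2 R hR
  rw [← hx] at hGV
  have hG1 := one_le_GG (z := (p : ℝ)) hR
  have hV := V_pos (p : ℝ)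
  have hinv : 1 / GG R p ≤ V p * (1 + 2 * x) := by
    rw [div_le_iff₀ (by linarith)]
    have h1 : (1 - x) * (1 + 2 * x) ≤ GG R p * V p * (1 + 2 * x) :=
      mul_le_mul_of_nonneg_right hGV (by linarith)
    nlinarith
  have hxC : x ≤ 512 * C1 * Real.exp (1 / 8) * Real.exp (-(1 / 16 * (L / Real.log z))) *
      (Real.log p ^ 2 / L ^ 2) := by
    have h1 : Real.exp (-(Real.log R / Real.log p)) = Real.exp (1 / 8) *
        (Real.exp (-(L / (16 * Real.log p))) * Real.exp (-(L / (16 * Real.log p)))) := by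
      rw [← Real.exp_add, ← Real.exp_add, hq]
      congr 1
      field_simp
      ring
    have h2 : Real.exp (-(L / (16 * Real.log p))) ≤
        Real.exp (-(1 / 16 * (L / Real.log z))) := by
      apply Real.exp_le_exp.2
      apply neg_le_neg
      rw [show 1 / 16 * (L / Real.log z) = L / (16 * Real.log z) by field_simp]
      apply div_le_div_of_nonneg_left hL0.le (by positivity)
      linarith
    have h3 : Real.exp (-(L / (16 * Real.log p))) ≤ 512 * (Real.log p ^ 2 / L ^ 2) := by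
      have hy : 0 < L / (16 * Real.log p) := by positivity
      have h4 := Real.quadratic_le_exp_of_nonneg hy.le
      have h5 : (L / (16 * Real.log p)) ^ 2 / 2 ≤ Real.exp (L / (16 * Real.log p)) := by
        linarith
      rw [Real.exp_neg]
      have h6 : 512 * (Real.log p ^ 2 / L ^ 2) = ((L / (16 * Real.log p)) ^ 2 / 2)⁻¹ := by
        field_simp
        norm_num
      rw [h6]
      exact inv_anti₀ (by positivity) h5
    rw [hx, h1]
    calc C1 * (Real.exp (1 / 8) * (Real.exp (-(L / (16 * Real.log p))) *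
          Real.exp (-(L / (16 * Real.log p))))) ≤
          C1 * (Real.exp (1 / 8) * (Real.exp (-(1 / 16 * (L / Real.log z))) *
            (512 * (Real.log p ^ 2 / L ^ 2)))) := by
          gcongr
      _ = _ := by ring
  have hVl := V_le (z := (p : ℝ)) hp2
  have hup := sd_up (z := (p : ℝ)) hR htp0.le
  have h7 : t / p / GG R p ≤ t * (V p / p) +
      (1024 * C1 * Real.exp (1 / 8) * Real.exp (-(1 / 16 * (L / Real.log z))) * t /
        L ^ 2) * (Real.log p / p) := by
    calc t / p / GG R p = t / p * (1 / GG R p) := by ring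
      _ ≤ t / p * (V p * (1 + 2 * x)) := mul_le_mul_of_nonneg_left hinv htp0.le
      _ = t * (V p / p) + 2 * (t / p) * (V p * x) := by ring
      _ ≤ t * (V p / p) + 2 * (t / p) * (1 / Real.log p * (512 * C1 * Real.exp (1 / 8) *
          Real.exp (-(1 / 16 * (L / Real.log z))) * (Real.log p ^ 2 / L ^ 2))) := by
        have := mul_le_mul hVl hxC hx0 (by positivity)
        have h8 := mul_le_mul_of_nonneg_left this (by positivity : 0 ≤ 2 * (t / (p : ℝ)))
        linarith
      _ = _ := by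
        field_simp
        ring
  have h9 : R ^ 4 ≤ t ^ (1 / 2 : ℝ) := by
    rw [hR4]
    apply Real.rpow_le_rpow htp0.le _ (by norm_num)
    exact div_le_self ht0.le (by linarith)
  linarith

theorem phi_lower : ∃ C c K0 : ℝ, 0 < C ∧ 0 < c ∧ 1 ≤ K0 ∧ ∀ z : ℝ, 2 ≤ z → ∀ t : ℝ, 1 ≤ t →
    K0 * Real.log z ≤ Real.log t →
    t * V z - C * (t / Real.log z) * Real.exp (-(c * (Real.log t / Real.log z))) -
      C * t ^ (4 / 5 : ℝ) ≤ ((RN z 0 t).card : ℝ) := by
  obtain ⟨C1, hC1, hG⟩ := GG_ge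
  refine ⟨4096 * C1 * Real.exp (1 / 8) + 2, 1 / 16, 16 * C1 + 4, by positivity, by norm_num,
    by linarith, ?_⟩
  intro z hz t ht hK
  set B := Real.exp (-(1 / 16 * (Real.log t / Real.log z))) with hB
  have hB0 : 0 < B := Real.exp_pos _
  have hE0 : 0 < Real.exp (1 / 8) := Real.exp_pos _
  have ht0 : (0 : ℝ) < t := by linarith
  have hl2 := Real.log_two_gt_d9
  have hlz2 : 2 / 3 ≤ Real.log z := by
    have := Real.log_le_log (by norm_num) hz
    linarith
  have hlz0 : 0 < Real.log z := by linarith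
  have hLz : Real.log z ≤ Real.log t / 4 := by
    nlinarith [mul_pos hC1 hlz0]
  have hL0 : 0 < Real.log t := by linarith
  have hexp : Real.exp (Real.log t / 4) ≤ t ^ (4 / 5 : ℝ) := by
    rw [Real.rpow_def_of_pos ht0]
    apply Real.exp_le_exp.2
    linarith
  have ht45 : 0 < t ^ (4 / 5 : ℝ) := by positivity
  by_cases hcase : z ≤ Real.log t / 4
  · have h1 := sd_legendre (z := z) (t := t) (by linarith) ht0.le
    have h2 : Real.exp z ≤ t ^ (4 / 5 : ℝ) := (Real.exp_le_exp.2 hcase).trans hexp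
    have h3 : 0 ≤ (4096 * C1 * Real.exp (1 / 8) + 2) * (t / Real.log z) * B := by positivity
    have h4 : 0 ≤ (4096 * C1 * Real.exp (1 / 8) + 1) * t ^ (4 / 5 : ℝ) := by positivity
    linarith
  · push Not at hcase
    set z1 := Real.log t / 4 with hz1
    have hz10 : 0 ≤ z1 := by positivity
    have h1 := sd_legendre (z := z1) (t := t) hz10 ht0.le
    have h2 := sd_buch (z1 := z1) (z := z) (t := t)
    have h3 : ∑ p ∈ pr z1 z, ((RN p 0 (t / p)).card : ℝ) ≤
        ∑ p ∈ pr z1 z, (t * (V p / p) + (1024 * C1 * Real.exp (1 / 8) * B * t /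
          Real.log t ^ 2) * (Real.log p / p) + t ^ (1 / 2 : ℝ)) := by
      apply sum_le_sum
      intro p hp
      rw [mem_pr] at hp
      exact sd_term hC1 hG ht hK hp.1 hp.2.2
    rw [sum_add_distrib, sum_add_distrib, ← mul_sum, ← mul_sum, sum_const, nsmul_eq_mul] at h3
    have h4 := V_tele (z1 := z1) (z := z) hcase.le
    have h5 : ∑ p ∈ pr z1 z, Real.log (p : ℝ) / p ≤ Real.log z + 2 := by
      refine le_trans ?_ (sum_log_div (z := z) (by linarith))
      apply sum_le_sum_of_subset_of_nonneg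
      · intro p hp
        rw [mem_pr] at hp ⊢
        exact ⟨hp.1, Nat.cast_nonneg p, hp.2.2⟩
      · intro p hp _
        rw [mem_pr] at hp
        have : (1 : ℝ) ≤ p := by exact_mod_cast hp.1.pos
        exact div_nonneg (Real.log_nonneg this) (by linarith)
    have h6 : (1024 * C1 * Real.exp (1 / 8) * B * t / Real.log t ^ 2) *
        ∑ p ∈ pr z1 z, Real.log (p : ℝ) / p ≤
        4096 * C1 * Real.exp (1 / 8) * (t / Real.log z) * B := by
      calc (1024 * C1 * Real.exp (1 / 8) * B * t / Real.log t ^ 2) *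
          ∑ p ∈ pr z1 z, Real.log (p : ℝ) / p ≤
          (1024 * C1 * Real.exp (1 / 8) * B * t / Real.log z ^ 2) * (4 * Real.log z) := by
            apply mul_le_mul _ (by linarith) _ (by positivity)
            · apply div_le_div_of_nonneg_left (by positivity) (by positivity)
              apply pow_le_pow_left₀ hlz0.le
              linarith
            · apply sum_nonneg
              intro p hp
              rw [mem_pr] at hp
              have : (1 : ℝ) ≤ p := by exact_mod_cast hp.1.pos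
              exact div_nonneg (Real.log_nonneg this) (by linarith)
        _ = _ := by
          field_simp
          ring
    have h7 : ((pr z1 z).card : ℝ) * t ^ (1 / 2 : ℝ) ≤ t ^ (4 / 5 : ℝ) := by
      have h8 : ((pr z1 z).card : ℝ) ≤ z := sd_card_pr z1 (by linarith)
      have h9 : z ≤ t ^ (1 / 4 : ℝ) := by
        rw [Real.rpow_def_of_pos ht0, ← Real.log_le_iff_le_exp (by linarith)]
        linarith
      calc ((pr z1 z).card : ℝ) * t ^ (1 / 2 : ℝ) ≤ t ^ (1 / 4 : ℝ) * t ^ (1 / 2 : ℝ) :=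
            mul_le_mul_of_nonneg_right (h8.trans h9) (by positivity)
        _ = t ^ (3 / 4 : ℝ) := by
            rw [← Real.rpow_add ht0]
            norm_num
        _ ≤ t ^ (4 / 5 : ℝ) := Real.rpow_le_rpow_of_exponent_le ht (by norm_num)
    have h10 : t * V z = t * V z1 - t * ∑ p ∈ pr z1 z, V p / p := by
      rw [← h4]
      ring
    have h11 : 0 ≤ 2 * (t / Real.log z) * B := by positivity
    have h12 : 0 ≤ 4096 * C1 * Real.exp (1 / 8) * t ^ (4 / 5 : ℝ) := by positivity
    have h13 : (4096 * C1 * Real.exp (1 / 8) + 2) * (t / Real.log z) * B =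
      4096 * C1 * Real.exp (1 / 8) * (t / Real.log z) * B + 2 * (t / Real.log z) * B := by ring
    have h14 : (4096 * C1 * Real.exp (1 / 8) + 2) * t ^ (4 / 5 : ℝ) =
      4096 * C1 * Real.exp (1 / 8) * t ^ (4 / 5 : ℝ) + 2 * t ^ (4 / 5 : ℝ) := by ring
    linarith

end Pool.MP_dd84fd_nt.En
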