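import Pool.Agent.Lib.MP_dd84fd_nt.En.SelD

/-!
# exponential sum over rough numbers (module GB-SE)
-/

set_option autoImplicit false

namespace Pool.MP_dd84fd_nt.En

open Finset Pool.MP_67663b_nt.Odd

private theorem se_card (z : ℝ) (t : ℕ) :
    ((RN z 0 t).card : ℝ) = ∑ n ∈ Icc 1 t, rho z n := by
  classical
  unfold rho
  rw [sum_ite, sum_const_zero, add_zero, sum_const, nsmul_eq_mul, mul_one]
  congr 2
  ext m
  unfold RN
  rw [mem_filter, mem_Ioc, Nat.floor_zero, Nat.floor_natCast, mem_filter, mem_Icc]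
  rfl

theorem rough_exp : ∃ C c K0 : ℝ, 0 < C ∧ 0 < c ∧ 1 ≤ K0 ∧ ∀ z : ℝ, 2 ≤ z → ∀ t : ℕ, 1 ≤ t →
    K0 * Real.log z ≤ Real.log t → ∀ (q : ℕ) (a : ℤ) (β : ℝ), 0 < q → Int.gcd a q = 1 →
    |β| ≤ 1 / (2 * q * (t : ℝ) ^ (1 / 8 : ℝ)) →
    ‖∑ n ∈ Icc 1 t, (rho z n : ℂ) * ee ((n : ℝ) * ((a : ℝ) / q + β))‖ ≤
      C / Real.log z * (‖D t β‖ * ((q.divisors.card : ℝ) / Real.sqrt (Nat.totient q))) +
      C * (t / Real.log z) * Real.exp (-(c * (Real.log t / Real.log z))) +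
      C * q * (t : ℝ) ^ (4 / 5 : ℝ) := by
  obtain ⟨C1, hC1, hG⟩ := GG_ge
  obtain ⟨C, c, K0, hC, hc, hK0, hphi⟩ := phi_lower
  refine ⟨2 * C1 + C + 2, min c (1 / 16), max K0 (32 * C1), by positivity, by positivity,
    hK0.trans (le_max_left _ _), ?_⟩
  intro z hz t ht hK q a β hq ha hβ
  have ht1 : (1 : ℝ) ≤ t := by exact_mod_cast ht
  have ht0 : (0 : ℝ) < t := by linarith
  have hq1 : (1 : ℝ) ≤ q := by exact_mod_cast hq
  have hlz : 0 < Real.log z := Real.log_pos (by linarith)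
  have hL : 0 ≤ Real.log t := Real.log_nonneg ht1
  have hK1 : K0 * Real.log z ≤ Real.log t :=
    (mul_le_mul_of_nonneg_right (le_max_left _ _) hlz.le).trans hK
  have hK2 : 32 * C1 * Real.log z ≤ Real.log t :=
    (mul_le_mul_of_nonneg_right (le_max_right _ _) hlz.le).trans hK
  set R := (t : ℝ) ^ (1 / 16 : ℝ) with hRdef
  have hR : 1 ≤ R := Real.one_le_rpow ht1 (by norm_num)
  have hR2 : R ^ 2 = (t : ℝ) ^ (1 / 8 : ℝ) := by
    rw [hRdef, ← Real.rpow_natCast, ← Real.rpow_mul ht0.le]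
    norm_num
  have hR4 : R ^ 4 = (t : ℝ) ^ (1 / 4 : ℝ) := by
    rw [hRdef, ← Real.rpow_natCast, ← Real.rpow_mul ht0.le]
    norm_num
  have hlogR : Real.log R = 1 / 16 * Real.log t := by
    rw [hRdef, Real.log_rpow ht0]
  set x := C1 * Real.exp (-(Real.log R / Real.log z)) with hx
  have hx0 : 0 ≤ x := by positivity
  have hx1 : x ≤ 1 / 2 := by
    have h1 : 2 * C1 ≤ Real.log R / Real.log z := by
      rw [hlogR, le_div_iff₀ hlz]
      linarith
    have h2 : 2 * C1 ≤ Real.exp (Real.log R / Real.log z) := by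
      have := Real.add_one_le_exp (Real.log R / Real.log z)
      linarith
    rw [hx, Real.exp_neg, ← div_eq_mul_inv, div_le_iff₀ (Real.exp_pos _)]
    linarith
  have hGV := hG z hz R hR
  rw [← hx] at hGV
  have hG1 := one_le_GG (z := z) hR
  have hV := V_pos z
  have hVl := V_le hz
  have hinv : 1 / GG R z ≤ V z * (1 + 2 * x) := by
    rw [div_le_iff₀ (by linarith)]
    have h1 : (1 - x) * (1 + 2 * x) ≤ GG R z * V z * (1 + 2 * x) :=
      mul_le_mul_of_nonneg_right hGV (by linarith)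
    nlinarith
  have hinv2 : 1 / GG R z ≤ 2 / Real.log z := by
    calc 1 / GG R z ≤ V z * (1 + 2 * x) := hinv
      _ ≤ 1 / Real.log z * 2 := mul_le_mul hVl (by linarith) (by positivity) (by positivity)
      _ = 2 / Real.log z := by ring
  -- the exponential sum of `nu`
  have hnu := nu_exp (z := z) hR t q hq a ha β (by rw [hR2]; exact hβ)
  rw [hR4] at hnu
  set T := (q.divisors.card : ℝ) / Real.sqrt (Nat.totient q) with hT
  have hT0 : 0 ≤ T := by positivity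
  have hnu2 : ‖D t β‖ * ((q.divisors.card : ℝ) / (GG R z * Real.sqrt (Nat.totient q))) ≤
      2 / Real.log z * (‖D t β‖ * T) := by
    calc ‖D t β‖ * ((q.divisors.card : ℝ) / (GG R z * Real.sqrt (Nat.totient q))) =
          1 / GG R z * (‖D t β‖ * T) := by
          rw [hT]
          ring
      _ ≤ 2 / Real.log z * (‖D t β‖ * T) :=
          mul_le_mul_of_nonneg_right hinv2 (mul_nonneg (norm_nonneg _) hT0)
  -- the difference
  have hphi1 := hphi z hz t ht1 hK1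
  rw [se_card] at hphi1
  have hsum := nu_sum (z := z) hR t
  rw [hR4] at hsum
  have hdiff : ∑ n ∈ Icc 1 t, (nu R z n - rho z n) ≤ 2 * x * (t * V z) + (t : ℝ) ^ (1 / 4 : ℝ) +
      C * (t / Real.log z) * Real.exp (-(c * (Real.log t / Real.log z))) +
      C * (t : ℝ) ^ (4 / 5 : ℝ) := by
    rw [sum_sub_distrib]
    have h1 : (t : ℝ) / GG R z ≤ t * (V z * (1 + 2 * x)) := by
      calc (t : ℝ) / GG R z = t * (1 / GG R z) := by ring
        _ ≤ _ := mul_le_mul_of_nonneg_left hinv ht0.le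
    linarith
  have hsplit : ‖∑ n ∈ Icc 1 t, (rho z n : ℂ) * ee ((n : ℝ) * ((a : ℝ) / q + β))‖ ≤
      ‖∑ n ∈ Icc 1 t, (nu R z n : ℂ) * ee ((n : ℝ) * ((a : ℝ) / q + β))‖ +
      ∑ n ∈ Icc 1 t, (nu R z n - rho z n) := by
    have e : ∑ n ∈ Icc 1 t, (rho z n : ℂ) * ee ((n : ℝ) * ((a : ℝ) / q + β)) =
        ∑ n ∈ Icc 1 t, (nu R z n : ℂ) * ee ((n : ℝ) * ((a : ℝ) / q + β)) -
        ∑ n ∈ Icc 1 t, ((nu R z n - rho z n : ℝ) : ℂ) * ee ((n : ℝ) * ((a : ℝ) / q + β)) := by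
      rw [← sum_sub_distrib]
      apply sum_congr rfl
      intro n _
      push_cast
      ring
    rw [e]
    refine (norm_sub_le _ _).trans (add_le_add le_rfl ?_)
    refine (norm_sum_le _ _).trans (sum_le_sum (fun n _ => ?_))
    rw [norm_mul, norm_ee, mul_one, Complex.norm_real, Real.norm_eq_abs,
      abs_of_nonneg (sub_nonneg.2 (rho_le_nu hR n))]
  -- compare the exponentials
  have hE1 : Real.exp (-(c * (Real.log t / Real.log z))) ≤
      Real.exp (-(min c (1 / 16) * (Real.log t / Real.log z))) := by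
    apply Real.exp_le_exp.2
    apply neg_le_neg
    exact mul_le_mul_of_nonneg_right (min_le_left _ _) (by positivity)
  have hE2 : Real.exp (-(Real.log R / Real.log z)) ≤
      Real.exp (-(min c (1 / 16) * (Real.log t / Real.log z))) := by
    apply Real.exp_le_exp.2
    apply neg_le_neg
    rw [hlogR, mul_div_assoc]
    exact mul_le_mul_of_nonneg_right (min_le_right _ _) (by positivity)
  set E := Real.exp (-(min c (1 / 16) * (Real.log t / Real.log z))) with hE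
  have hE0 : 0 < E := Real.exp_pos _
  have h1 : C * (t / Real.log z) * Real.exp (-(c * (Real.log t / Real.log z))) ≤
      C * (t / Real.log z) * E := mul_le_mul_of_nonneg_left hE1 (by positivity)
  have h2 : 2 * x * (t * V z) ≤ 2 * C1 * (t / Real.log z) * E := by
    calc 2 * x * (t * V z) ≤ 2 * (C1 * E) * (t * (1 / Real.log z)) := by
          apply mul_le_mul _ (mul_le_mul_of_nonneg_left hVl ht0.le) (by positivity)
            (by positivity)
          apply mul_le_mul_of_nonneg_left _ (by norm_num)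
          exact mul_le_mul_of_nonneg_left hE2 hC1.le
      _ = _ := by ring
  have h3 : (t : ℝ) ^ (1 / 4 : ℝ) ≤ (t : ℝ) ^ (4 / 5 : ℝ) :=
    Real.rpow_le_rpow_of_exponent_le ht1 (by norm_num)
  have ht45 : 0 < (t : ℝ) ^ (4 / 5 : ℝ) := by positivity
  have h4 : q * (t : ℝ) ^ (1 / 4 : ℝ) ≤ q * (t : ℝ) ^ (4 / 5 : ℝ) :=
    mul_le_mul_of_nonneg_left h3 (by linarith)
  have h5 : (t : ℝ) ^ (4 / 5 : ℝ) ≤ q * (t : ℝ) ^ (4 / 5 : ℝ) := by
    nlinarith
  have h6 : C * (t : ℝ) ^ (4 / 5 : ℝ) ≤ C * (q * (t : ℝ) ^ (4 / 5 : ℝ)) :=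
    mul_le_mul_of_nonneg_left h5 hC.le
  have h7 : 0 ≤ (2 * C1 + C) / Real.log z * (‖D t β‖ * T) := by positivity
  have h8 : 0 ≤ 2 * (t / Real.log z) * E := by positivity
  have h9 : 0 ≤ 2 * C1 * (q * (t : ℝ) ^ (4 / 5 : ℝ)) := by positivity
  have e1 : (2 * C1 + C + 2) / Real.log z * (‖D t β‖ * T) =
      (2 * C1 + C) / Real.log z * (‖D t β‖ * T) + 2 / Real.log z * (‖D t β‖ * T) := by ring
  have e2 : (2 * C1 + C + 2) * (t / Real.log z) * E = 2 * C1 * (t / Real.log z) * E +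
      C * (t / Real.log z) * E + 2 * (t / Real.log z) * E := by ring
  have e3 : (2 * C1 + C + 2) * q * (t : ℝ) ^ (4 / 5 : ℝ) =
      2 * C1 * (q * (t : ℝ) ^ (4 / 5 : ℝ)) + C * (q * (t : ℝ) ^ (4 / 5 : ℝ)) +
      2 * (q * (t : ℝ) ^ (4 / 5 : ℝ)) := by ring
  rw [e1, e2, e3]
  linarith

end Pool.MP_dd84fd_nt.En
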