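import Pool.Agent.Lib.MP_dd84fd_nt.En.SelE

/-!
# the same with the weight log n (module GB-SF)
-/

set_option autoImplicit false

namespace Pool.MP_dd84fd_nt.En

open Finset Pool.MP_67663b_nt.Odd

/-- summation by parts -/
private theorem sf_abel (a : ℕ → ℂ) (X : ℕ) (hX : 1 ≤ X) :
    ∑ n ∈ Icc 1 X, (Real.log n : ℂ) * a n = (Real.log X : ℂ) * ∑ n ∈ Icc 1 X, a n -
      ∑ t ∈ Ico 1 X, ((Real.log ((t + 1 : ℕ) : ℝ) - Real.log t : ℝ) : ℂ) *
        ∑ n ∈ Icc 1 t, a n := by
  induction X, hX using Nat.le_induction with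
  | base => simp
  | succ X hX ih =>
    rw [Finset.sum_Icc_succ_top (by omega), ih, Finset.sum_Icc_succ_top (by omega) (fun n => a n),
      Finset.sum_Ico_succ_top hX]
    push_cast
    ring

/-- integral comparison -/
private theorem sf_sum (X : ℕ) (b : ℝ) (hb : 0 < b) :
    ∑ t ∈ Icc 1 X, 1 / (1 + (t : ℝ) * b) ≤ Real.log (1 + X * b) / b := by
  induction X with
  | zero => simp
  | succ X ih =>
    rw [Finset.sum_Icc_succ_top (by omega)]
    have h0 : 0 < 1 + (X : ℝ) * b := by positivity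
    have h1 : 0 < 1 + ((X + 1 : ℕ) : ℝ) * b := by positivity
    have h2 := Real.one_sub_inv_le_log_of_pos (div_pos h1 h0)
    rw [Real.log_div h1.ne' h0.ne', inv_div] at h2
    have h3 : 1 - (1 + (X : ℝ) * b) / (1 + ((X + 1 : ℕ) : ℝ) * b) =
        b * (1 / (1 + ((X + 1 : ℕ) : ℝ) * b)) := by
      field_simp
      push_cast
      ring
    rw [h3] at h2
    have h4 : 1 / (1 + ((X + 1 : ℕ) : ℝ) * b) ≤
        (Real.log (1 + ((X + 1 : ℕ) : ℝ) * b) - Real.log (1 + (X : ℝ) * b)) / b := by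
      rw [le_div_iff₀ hb, mul_comm]
      exact h2
    calc _ ≤ Real.log (1 + X * b) / b +
        (Real.log (1 + ((X + 1 : ℕ) : ℝ) * b) - Real.log (1 + (X : ℝ) * b)) / b :=
          add_le_add ih h4
      _ = _ := by rw [← add_div]; congr 1; ring

private theorem sf_sum' (X : ℕ) (b : ℝ) (hb : 0 ≤ b) :
    ∑ t ∈ Icc 1 X, 1 / (1 + (t : ℝ) * b) ≤
      2 * X * ((1 + Real.log (1 + b * X)) / (1 + b * X)) := by
  have hX : (0 : ℝ) ≤ X := Nat.cast_nonneg X
  have hu : 0 ≤ b * X := by positivity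
  have hlog : 0 ≤ Real.log (1 + b * X) := Real.log_nonneg (by linarith)
  rcases le_or_gt (b * X) 1 with h | h
  · calc ∑ t ∈ Icc 1 X, 1 / (1 + (t : ℝ) * b) ≤ ∑ t ∈ Icc 1 X, 1 := by
          refine Finset.sum_le_sum fun t _ => ?_
          rw [div_le_one (by positivity)]
          have : (0 : ℝ) ≤ (t : ℝ) * b := by positivity
          linarith
      _ = X := by simp
      _ ≤ 2 * X * ((1 + Real.log (1 + b * X)) / (1 + b * X)) := by
          rw [mul_div_assoc', le_div_iff₀ (by linarith)]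
          nlinarith
  · have hb0 : 0 < b := by
      by_contra hcon
      have : b = 0 := le_antisymm (not_lt.1 hcon) hb
      rw [this, zero_mul] at h
      linarith
    refine (sf_sum X b hb0).trans ?_
    rw [mul_comm (X : ℝ) b, mul_div_assoc', div_le_div_iff₀ hb0 (by linarith)]
    nlinarith

theorem rough_log_exp : ∃ C c K0 : ℝ, 0 < C ∧ 0 < c ∧ 1 ≤ K0 ∧ ∃ X0 : ℕ, ∀ z : ℝ, 2 ≤ z →
    ∀ X : ℕ, X0 ≤ X → K0 * Real.log z ≤ Real.log X → ∀ (q : ℕ) (a : ℤ) (β : ℝ), 0 < q →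
    Int.gcd a q = 1 → |β| ≤ 1 / (2 * q * (X : ℝ) ^ (1 / 8 : ℝ)) →
    ‖∑ n ∈ Icc 1 X, ((rho z n * Real.log n : ℝ) : ℂ) * ee ((n : ℝ) * ((a : ℝ) / q + β))‖ ≤
      C * (Real.log X / Real.log z) * X *
        ((q.divisors.card : ℝ) / Real.sqrt (Nat.totient q) *
          ((1 + Real.log (1 + |β| * X)) / (1 + |β| * X)) +
          Real.exp (-(c * (Real.log X / Real.log z)))) +
      C * q * (X : ℝ) ^ (9 / 10 : ℝ) := by
  obtain ⟨C, c, K0, hC, hc, hK0, hexp⟩ := rough_exp
  have hl2 : 0 < Real.log 2 := Real.log_pos (by norm_num)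
  refine ⟨C * (2 + 4 / Real.log 2) + C * (1 + 1 / Real.log 2) + (11 * C + 1), c / 2, 2 * K0,
    by positivity, by positivity, by linarith, 2, ?_⟩
  intro z hz X hX hK q a β hq hgcd hβ
  have hX' : (2 : ℝ) ≤ X := by exact_mod_cast hX
  have hX0 : (0 : ℝ) < X := by linarith
  have hX1 : (1 : ℝ) ≤ X := by linarith
  have hq' : (0 : ℝ) < q := by exact_mod_cast hq
  have hq1 : (1 : ℝ) ≤ q := by exact_mod_cast hq
  have hlz2 : Real.log 2 ≤ Real.log z := Real.log_le_log (by norm_num) hz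
  have hlz : 0 < Real.log z := by linarith
  have hL2 : Real.log 2 ≤ Real.log X := Real.log_le_log (by norm_num) hX'
  have hL : 0 < Real.log X := by linarith
  have hβ0 := abs_nonneg β
  have hX8 : 1 ≤ (X : ℝ) ^ (1 / 8 : ℝ) := Real.one_le_rpow hX1 (by norm_num)
  have hβ2 : |β| ≤ 1 / 2 := by
    refine hβ.trans ?_
    apply one_div_le_one_div_of_le (by norm_num)
    nlinarith
  obtain ⟨T, hT⟩ : ∃ T, T = (q.divisors.card : ℝ) / Real.sqrt (Nat.totient q) := ⟨_, rfl⟩
  have hT0 : 0 ≤ T := by rw [hT]; positivity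
  obtain ⟨E, hE⟩ : ∃ E, E = Real.exp (-(c / 2 * (Real.log X / Real.log z))) := ⟨_, rfl⟩
  have hE0 : 0 < E := by rw [hE]; exact Real.exp_pos _
  obtain ⟨U, hU⟩ : ∃ U, U = (1 + Real.log (1 + |β| * X)) / (1 + |β| * X) := ⟨_, rfl⟩
  have hlogu : 0 ≤ Real.log (1 + |β| * X) := by
    apply Real.log_nonneg
    have : 0 ≤ |β| * X := by positivity
    linarith
  have hU0 : 0 ≤ U := by rw [hU]; positivity
  obtain ⟨A, hA⟩ : ∃ A : ℕ → ℂ, ∀ t, A t =
      ∑ n ∈ Icc 1 t, (rho z n : ℂ) * ee ((n : ℝ) * ((a : ℝ) / q + β)) := ⟨_, fun _ => rfl⟩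
  -- the trivial bound
  have hrho : ∀ n, |rho z n| ≤ 1 := by
    intro n
    rw [rho]
    split_ifs <;> simp
  have htriv : ∀ t : ℕ, ‖A t‖ ≤ t := by
    intro t
    rw [hA]
    calc ‖∑ n ∈ Icc 1 t, (rho z n : ℂ) * ee ((n : ℝ) * ((a : ℝ) / q + β))‖
        ≤ ∑ n ∈ Icc 1 t, ‖(rho z n : ℂ) * ee ((n : ℝ) * ((a : ℝ) / q + β))‖ := norm_sum_le _ _
      _ ≤ ∑ n ∈ Icc 1 t, 1 := by
          refine Finset.sum_le_sum fun n _ => ?_
          rw [norm_mul, norm_ee, mul_one, Complex.norm_real, Real.norm_eq_abs]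
          exact hrho n
      _ = t := by simp
  -- the main bound
  have hmain : ∀ t : ℕ, 1 ≤ t → t ≤ X → (X : ℝ) ≤ t * t → ‖A t‖ ≤
      C / Real.log z * (2 * t / (1 + t * |β|) * T) + C * (t / Real.log z) * E +
        C * q * (t : ℝ) ^ (4 / 5 : ℝ) := by
    intro t ht1 htX hXt
    have ht0 : (0 : ℝ) < t := by exact_mod_cast ht1
    have htX' : (t : ℝ) ≤ X := by exact_mod_cast htX
    have hlt : Real.log X ≤ 2 * Real.log t := by
      have h1 := Real.log_le_log hX0 hXt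
      rw [Real.log_mul ht0.ne' ht0.ne'] at h1
      linarith
    have h1 := hexp z hz t ht1 (by nlinarith) q a β hq hgcd (by
      refine hβ.trans ?_
      apply one_div_le_one_div_of_le (by positivity)
      apply mul_le_mul_of_nonneg_left _ (by positivity)
      exact Real.rpow_le_rpow ht0.le htX' (by norm_num))
    rw [← hA, ← hT] at h1
    refine h1.trans ?_
    have h2 : ‖D t β‖ ≤ 2 * t / (1 + t * |β|) := by
      rw [le_div_iff₀ (by positivity)]
      exact norm_D_mul t β hβ2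
    have h3 : Real.exp (-(c * (Real.log t / Real.log z))) ≤ E := by
      rw [hE, Real.exp_le_exp, neg_le_neg_iff]
      have h4 : Real.log X / Real.log z ≤ 2 * (Real.log t / Real.log z) := by
        rw [mul_div_assoc']
        exact div_le_div_of_nonneg_right hlt hlz.le
      nlinarith
    have h4 : C / Real.log z * (‖D t β‖ * T) ≤ C / Real.log z * (2 * t / (1 + t * |β|) * T) := by
      apply mul_le_mul_of_nonneg_left _ (by positivity)
      exact mul_le_mul_of_nonneg_right h2 hT0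
    have h5 : C * (t / Real.log z) * Real.exp (-(c * (Real.log t / Real.log z))) ≤
        C * (t / Real.log z) * E := mul_le_mul_of_nonneg_left h3 (by positivity)
    linarith
  -- summation by parts
  have habel : ∑ n ∈ Icc 1 X, ((rho z n * Real.log n : ℝ) : ℂ) * ee ((n : ℝ) * ((a : ℝ) / q + β)) =
      (Real.log X : ℂ) * A X -
        ∑ t ∈ Ico 1 X, ((Real.log ((t + 1 : ℕ) : ℝ) - Real.log t : ℝ) : ℂ) * A t := by
    have h1 := sf_abel (fun n => (rho z n : ℂ) * ee ((n : ℝ) * ((a : ℝ) / q + β))) X (by omega)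
    simp only [← hA] at h1
    rw [← h1]
    refine Finset.sum_congr rfl fun n _ => ?_
    push_cast
    ring
  rw [habel, ← hT, ← hU, ← hE]
  have hlogstep : ∀ t : ℕ, 1 ≤ t → 0 ≤ Real.log ((t + 1 : ℕ) : ℝ) - Real.log t ∧
      Real.log ((t + 1 : ℕ) : ℝ) - Real.log t ≤ 1 / t := by
    intro t ht
    have ht0 : (0 : ℝ) < t := by exact_mod_cast ht
    constructor
    · rw [sub_nonneg]
      apply Real.log_le_log ht0
      push_cast
      linarith
    · rw [← Real.log_div (by positivity) ht0.ne']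
      have h1 := Real.log_le_sub_one_of_pos (x := ((t + 1 : ℕ) : ℝ) / t) (by positivity)
      refine h1.trans (le_of_eq ?_)
      push_cast
      field_simp
      ring
  -- bound of the terms
  have hterm : ∀ t ∈ Ico 1 X, ‖((Real.log ((t + 1 : ℕ) : ℝ) - Real.log t : ℝ) : ℂ) * A t‖ ≤
      (if t * t < X then 1 else 0) + 2 * C / Real.log z * T * (1 / (1 + (t : ℝ) * |β|)) +
        C / Real.log z * E + C * q * (X : ℝ) ^ (-(1 / 10) : ℝ) := by
    intro t ht
    rw [Finset.mem_Ico] at ht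
    have ht0 : (0 : ℝ) < t := by exact_mod_cast ht.1
    obtain ⟨h1, h2⟩ := hlogstep t ht.1
    rw [norm_mul, Complex.norm_real, Real.norm_eq_abs, abs_of_nonneg h1]
    have h3 : (Real.log ((t + 1 : ℕ) : ℝ) - Real.log t) * ‖A t‖ ≤ 1 / t * ‖A t‖ :=
      mul_le_mul_of_nonneg_right h2 (norm_nonneg _)
    refine h3.trans ?_
    have h4 : 0 ≤ 2 * C / Real.log z * T * (1 / (1 + (t : ℝ) * |β|)) := by positivity
    have h5 : 0 ≤ C / Real.log z * E := by positivity
    have h6 : 0 ≤ C * q * (X : ℝ) ^ (-(1 / 10) : ℝ) := by positivity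
    by_cases hsm : t * t < X
    · rw [if_pos hsm]
      have h7 : 1 / (t : ℝ) * ‖A t‖ ≤ 1 := by
        rw [one_div, inv_mul_le_iff₀ ht0, mul_one]
        exact htriv t
      linarith
    · rw [if_neg hsm]
      have hXt : (X : ℝ) ≤ t * t := by
        have : X ≤ t * t := not_lt.1 hsm
        exact_mod_cast this
      have h7 := mul_le_mul_of_nonneg_left (hmain t ht.1 ht.2.le hXt)
        (by positivity : (0 : ℝ) ≤ 1 / t)
      refine h7.trans ?_
      have h8 : (t : ℝ) ^ (4 / 5 : ℝ) / t ≤ (X : ℝ) ^ (-(1 / 10) : ℝ) := by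
        have h9 : (t : ℝ) ^ (4 / 5 : ℝ) / t = (t : ℝ) ^ (-(1 / 5) : ℝ) := by
          rw [div_eq_iff ht0.ne']
          nth_rewrite 3 [← Real.rpow_one (t : ℝ)]
          rw [← Real.rpow_add ht0]
          norm_num
        have h10 : ((t : ℝ) * t) ^ (-(1 / 10) : ℝ) = (t : ℝ) ^ (-(1 / 5) : ℝ) := by
          rw [Real.mul_rpow ht0.le ht0.le, ← Real.rpow_add ht0]
          norm_num
        rw [h9, ← h10]
        exact Real.rpow_le_rpow_of_nonpos hX0 hXt (by norm_num)
      have h11 : 1 / (t : ℝ) * (C / Real.log z * (2 * t / (1 + t * |β|) * T) +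
          C * (t / Real.log z) * E + C * q * (t : ℝ) ^ (4 / 5 : ℝ)) =
          2 * C / Real.log z * T * (1 / (1 + (t : ℝ) * |β|)) + C / Real.log z * E +
            C * q * ((t : ℝ) ^ (4 / 5 : ℝ) / t) := by
        have h12 : 1 + (t : ℝ) * |β| ≠ 0 := by positivity
        field_simp
      rw [h11]
      have h13 := mul_le_mul_of_nonneg_left h8 (by positivity : (0 : ℝ) ≤ C * q)
      linarith
  have hsum := Finset.sum_le_sum hterm
  rw [Finset.sum_add_distrib, Finset.sum_add_distrib, Finset.sum_add_distrib, ← Finset.mul_sum,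
    Finset.sum_const, Finset.sum_const, nsmul_eq_mul, nsmul_eq_mul, Nat.card_Ico] at hsum
  -- the four sums
  have hX9 : (X : ℝ) * (X : ℝ) ^ (-(1 / 10) : ℝ) = (X : ℝ) ^ (9 / 10 : ℝ) := by
    nth_rewrite 1 [← Real.rpow_one (X : ℝ)]
    rw [← Real.rpow_add hX0]
    norm_num
  have hX90 : 0 < (X : ℝ) ^ (9 / 10 : ℝ) := Real.rpow_pos_of_pos hX0 _
  have hs1 : ∑ t ∈ Ico 1 X, (if t * t < X then (1 : ℝ) else 0) ≤ q * (X : ℝ) ^ (9 / 10 : ℝ) := by
    have h1 : ∑ t ∈ Ico 1 X, (if t * t < X then (1 : ℝ) else 0) ≤ Nat.sqrt X := by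
      rw [Finset.sum_ite, Finset.sum_const_zero, add_zero, Finset.sum_const, nsmul_eq_mul, mul_one]
      have h2 : ((Ico 1 X).filter fun t => t * t < X) ⊆ Icc 1 (Nat.sqrt X) := by
        intro t ht
        rw [Finset.mem_filter, Finset.mem_Ico] at ht
        rw [Finset.mem_Icc]
        exact ⟨ht.1.1, Nat.le_sqrt.2 ht.2.le⟩
      have h3 := Finset.card_le_card h2
      rw [Nat.card_Icc, Nat.add_sub_cancel] at h3
      exact_mod_cast h3
    have h2 : (Nat.sqrt X : ℝ) ≤ Real.sqrt X := by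
      apply Real.le_sqrt_of_sq_le
      have := Nat.sqrt_le' X
      exact_mod_cast this
    have h3 : Real.sqrt X ≤ (X : ℝ) ^ (9 / 10 : ℝ) := by
      rw [Real.sqrt_eq_rpow]
      exact Real.rpow_le_rpow_of_exponent_le hX1 (by norm_num)
    have h4 : (X : ℝ) ^ (9 / 10 : ℝ) ≤ q * (X : ℝ) ^ (9 / 10 : ℝ) :=
      le_mul_of_one_le_left hX90.le hq1
    linarith
  have hs2 : ∑ t ∈ Ico 1 X, 1 / (1 + (t : ℝ) * |β|) ≤ 2 * X * U := by
    rw [hU]
    refine le_trans ?_ (sf_sum' X |β| hβ0)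
    apply Finset.sum_le_sum_of_subset_of_nonneg
    · intro t ht
      rw [Finset.mem_Ico] at ht
      rw [Finset.mem_Icc]
      omega
    · intro t _ _
      positivity
  have hcard : ((X - 1 : ℕ) : ℝ) ≤ X := by exact_mod_cast Nat.sub_le X 1
  have hLz : Real.log 2 / Real.log z ≤ Real.log X / Real.log z :=
    div_le_div_of_nonneg_right hL2 hlz.le
  have hone : 1 / Real.log z ≤ 1 / Real.log 2 * (Real.log X / Real.log z) := by
    have : 1 / Real.log z = 1 / Real.log 2 * (Real.log 2 / Real.log z) := by field_simp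
    rw [this]
    exact mul_le_mul_of_nonneg_left hLz (by positivity)
  -- the first term
  have hfirst : ‖(Real.log X : ℂ) * A X‖ ≤
      C * 2 * (Real.log X / Real.log z) * X * (T * U) +
        C * (Real.log X / Real.log z) * X * E + 10 * C * (q * (X : ℝ) ^ (9 / 10 : ℝ)) := by
    rw [norm_mul, Complex.norm_real, Real.norm_eq_abs, abs_of_pos hL]
    have h1 := mul_le_mul_of_nonneg_left (hmain X (by omega) le_rfl (by nlinarith)) hL.le
    refine h1.trans ?_
    have h2 : 1 / (1 + (X : ℝ) * |β|) ≤ U := by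
      rw [hU, mul_comm (X : ℝ)]
      apply div_le_div_of_nonneg_right _ (by positivity)
      linarith
    have h3 : Real.log X * (X : ℝ) ^ (4 / 5 : ℝ) ≤ 10 * (X : ℝ) ^ (9 / 10 : ℝ) := by
      have h4 : Real.log X ≤ 10 * (X : ℝ) ^ (1 / 10 : ℝ) := by
        have h5 := Real.log_le_rpow_div hX0.le (by norm_num : (0 : ℝ) < 1 / 10)
        linarith
      calc Real.log X * (X : ℝ) ^ (4 / 5 : ℝ)
          ≤ 10 * (X : ℝ) ^ (1 / 10 : ℝ) * (X : ℝ) ^ (4 / 5 : ℝ) :=
            mul_le_mul_of_nonneg_right h4 (by positivity)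
        _ = 10 * (X : ℝ) ^ (9 / 10 : ℝ) := by
            rw [mul_assoc, ← Real.rpow_add hX0]
            norm_num
    have h5 : Real.log X * (C / Real.log z * (2 * X / (1 + X * |β|) * T) +
        C * (X / Real.log z) * E + C * q * (X : ℝ) ^ (4 / 5 : ℝ)) =
        C * 2 * (Real.log X / Real.log z) * X * T * (1 / (1 + X * |β|)) +
        C * (Real.log X / Real.log z) * X * E +
        C * q * (Real.log X * (X : ℝ) ^ (4 / 5 : ℝ)) := by
      have h12 : 1 + (X : ℝ) * |β| ≠ 0 := by positivity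
      field_simp
    rw [h5]
    have h6 := mul_le_mul_of_nonneg_left h2
      (by positivity : (0 : ℝ) ≤ C * 2 * (Real.log X / Real.log z) * X * T)
    have h7 := mul_le_mul_of_nonneg_left h3 (by positivity : (0 : ℝ) ≤ C * q)
    have h8 : C * 2 * (Real.log X / Real.log z) * X * T * U =
        C * 2 * (Real.log X / Real.log z) * X * (T * U) := by ring
    rw [h8] at h6
    linarith
  -- the sum
  have hsecond : ‖∑ t ∈ Ico 1 X, ((Real.log ((t + 1 : ℕ) : ℝ) - Real.log t : ℝ) : ℂ) * A t‖ ≤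
      C * (4 / Real.log 2) * (Real.log X / Real.log z) * X * (T * U) +
        C * (1 / Real.log 2) * (Real.log X / Real.log z) * X * E +
        (C + 1) * (q * (X : ℝ) ^ (9 / 10 : ℝ)) := by
    refine (norm_sum_le _ _).trans (hsum.trans ?_)
    have h1 : 2 * C / Real.log z * T * ∑ t ∈ Ico 1 X, 1 / (1 + (t : ℝ) * |β|) ≤
        C * (4 / Real.log 2) * (Real.log X / Real.log z) * X * (T * U) := by
      calc 2 * C / Real.log z * T * ∑ t ∈ Ico 1 X, 1 / (1 + (t : ℝ) * |β|)
          ≤ 2 * C / Real.log z * T * (2 * X * U) := mul_le_mul_of_nonneg_left hs2 (by positivity)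
        _ = 4 * C * X * (T * U) * (1 / Real.log z) := by ring
        _ ≤ 4 * C * X * (T * U) * (1 / Real.log 2 * (Real.log X / Real.log z)) :=
            mul_le_mul_of_nonneg_left hone (by positivity)
        _ = _ := by ring
    have h2 : ((X - 1 : ℕ) : ℝ) * (C / Real.log z * E) ≤
        C * (1 / Real.log 2) * (Real.log X / Real.log z) * X * E := by
      calc ((X - 1 : ℕ) : ℝ) * (C / Real.log z * E) ≤ X * (C / Real.log z * E) :=
            mul_le_mul_of_nonneg_right hcard (by positivity)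
        _ = C * X * E * (1 / Real.log z) := by ring
        _ ≤ C * X * E * (1 / Real.log 2 * (Real.log X / Real.log z)) :=
            mul_le_mul_of_nonneg_left hone (by positivity)
        _ = _ := by ring
    have h3 : ((X - 1 : ℕ) : ℝ) * (C * q * (X : ℝ) ^ (-(1 / 10) : ℝ)) ≤
        C * (q * (X : ℝ) ^ (9 / 10 : ℝ)) := by
      calc ((X - 1 : ℕ) : ℝ) * (C * q * (X : ℝ) ^ (-(1 / 10) : ℝ))
          ≤ X * (C * q * (X : ℝ) ^ (-(1 / 10) : ℝ)) :=
            mul_le_mul_of_nonneg_right hcard (by positivity)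
        _ = C * (q * ((X : ℝ) * (X : ℝ) ^ (-(1 / 10) : ℝ))) := by ring
        _ = C * (q * (X : ℝ) ^ (9 / 10 : ℝ)) := by rw [hX9]
    linarith
  refine (norm_sub_le _ _).trans ((add_le_add hfirst hsecond).trans ?_)
  have hP1 : 0 ≤ (Real.log X / Real.log z) * X * (T * U) := by positivity
  have hP2 : 0 ≤ (Real.log X / Real.log z) * X * E := by positivity
  have hP3 : 0 ≤ q * (X : ℝ) ^ (9 / 10 : ℝ) := by positivity
  obtain ⟨P1, hP1'⟩ : ∃ P1, P1 = (Real.log X / Real.log z) * X * (T * U) := ⟨_, rfl⟩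
  obtain ⟨P2, hP2'⟩ : ∃ P2, P2 = (Real.log X / Real.log z) * X * E := ⟨_, rfl⟩
  obtain ⟨P3, hP3'⟩ : ∃ P3, P3 = q * (X : ℝ) ^ (9 / 10 : ℝ) := ⟨_, rfl⟩
  rw [← hP1'] at hP1
  rw [← hP2'] at hP2
  rw [← hP3'] at hP3
  have hLHS : C * 2 * (Real.log X / Real.log z) * X * (T * U) +
        C * (Real.log X / Real.log z) * X * E + 10 * C * (q * (X : ℝ) ^ (9 / 10 : ℝ)) +
      (C * (4 / Real.log 2) * (Real.log X / Real.log z) * X * (T * U) +
        C * (1 / Real.log 2) * (Real.log X / Real.log z) * X * E +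
        (C + 1) * (q * (X : ℝ) ^ (9 / 10 : ℝ))) =
      C * (2 + 4 / Real.log 2) * P1 + C * (1 + 1 / Real.log 2) * P2 + (11 * C + 1) * P3 := by
    rw [hP1', hP2', hP3']
    ring
  have hRHS : ∀ C' : ℝ, C' * (Real.log X / Real.log z) * X * (T * U + E) +
      C' * q * (X : ℝ) ^ (9 / 10 : ℝ) = C' * P1 + C' * P2 + C' * P3 := by
    intro C'
    rw [hP1', hP2', hP3']
    ring
  rw [hLHS, hRHS]
  have hc1 : 0 ≤ C * (2 + 4 / Real.log 2) := by positivity
  have hc2 : 0 ≤ C * (1 + 1 / Real.log 2) := by positivity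
  have hc3 : 0 ≤ 11 * C + 1 := by positivity
  have e1 := mul_nonneg hc1 hP2
  have e2 := mul_nonneg hc1 hP3
  have e3 := mul_nonneg hc2 hP1
  have e4 := mul_nonneg hc2 hP3
  have e5 := mul_nonneg hc3 hP1
  have e6 := mul_nonneg hc3 hP2
  linarith

end Pool.MP_dd84fd_nt.En
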