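import Pool.Agent.Lib.MP_dd84fd_nt.En.Mon
import Pool.Agent.Lib.MP_67663b_nt.OddB.Montgomery
import Pool.Agent.Lib.MP_67663b_nt.OddB.LSieve
import Pool.Agent.Lib.MP_67663b_nt.OddB.Chebs

/-!
# mean square on points of small height (module GB-SH)
-/

set_option autoImplicit false

namespace Pool.MP_dd84fd_nt.En

open Finset Pool.MP_67663b_nt.Odd

private lemma SH_mem_RS {H R : ℝ} {r : ℕ} (h : r ∈ RS H R) :
    1 ≤ r ∧ (r : ℝ) ≤ R ∧ Squarefree r ∧ ∀ p : ℕ, p.Prime → p ∣ r → H < (p : ℝ) := by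
  classical
  unfold RS at h
  rw [mem_filter, mem_Icc] at h
  refine ⟨h.1.1, ?_, h.2.1, h.2.2⟩
  have h1 := h.1.2
  have hR : 0 ≤ R := by
    by_contra hneg
    push Not at hneg
    rw [Nat.floor_of_nonpos hneg.le] at h1
    omega
  exact (Nat.le_floor_iff hR).mp h1

private lemma SH_coprime_small {H R : ℝ} {r q : ℕ} (h : r ∈ RS H R) (hq : 0 < q)
    (hqH : (q : ℝ) ≤ H) : Nat.Coprime r q := by
  rw [Nat.coprime_iff_gcd_eq_one]
  by_contra hne
  obtain ⟨p, hp, hpd⟩ := Nat.exists_prime_and_dvd hne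
  have h1 := (SH_mem_RS h).2.2.2 p hp (hpd.trans (Nat.gcd_dvd_left _ _))
  have h2 : p ≤ q := Nat.le_of_dvd hq (hpd.trans (Nat.gcd_dvd_right _ _))
  have h3 : (p : ℝ) ≤ q := by exact_mod_cast h2
  linarith

/-- arithmetic of the shifted fractions -/
private lemma SH_arith {H R : ℝ} {q q' r r' b b' : ℕ} {a a' k : ℤ} (hq : 0 < q) (hq' : 0 < q')
    (hqH : (q : ℝ) ≤ H) (hqH' : (q' : ℝ) ≤ H) (hr : r ∈ RS H R) (hr' : r' ∈ RS H R)
    (hb : b < r) (hb' : b' < r') (hbr : Nat.Coprime r b) (hbr' : Nat.Coprime r' b')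
    (h0 : (a : ℝ) / q - (a' : ℝ) / q' + ((b : ℝ) / r - (b' : ℝ) / r') - k = 0) :
    r = r' ∧ b = b' := by
  have hr0 : 0 < r := by omega
  have hr0' : 0 < r' := by omega
  have e1 : ((q : ℤ) * q') * ((b : ℤ) * r' - b' * r) =
      (k * q * q' - a * q' + a' * q) * (r * r') := by
    have hqR : (q : ℝ) ≠ 0 := by exact_mod_cast hq.ne'
    have hqR' : (q' : ℝ) ≠ 0 := by exact_mod_cast hq'.ne'
    have hrR : (r : ℝ) ≠ 0 := by exact_mod_cast hr0.ne'
    have hrR' : (r' : ℝ) ≠ 0 := by exact_mod_cast hr0'.ne'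
    have h1 : (((q : ℤ) * q') * ((b : ℤ) * r' - b' * r) : ℝ) =
        (k * q * q' - a * q' + a' * q) * (r * r') := by
      push_cast
      field_simp at h0
      linear_combination h0
    exact_mod_cast h1
  have c1 : IsCoprime (r : ℤ) ((q : ℤ) * q') :=
    (Nat.isCoprime_iff_coprime.mpr (SH_coprime_small hr hq hqH)).mul_right
      (Nat.isCoprime_iff_coprime.mpr (SH_coprime_small hr hq' hqH'))
  have c2 : IsCoprime (r' : ℤ) ((q : ℤ) * q') :=
    (Nat.isCoprime_iff_coprime.mpr (SH_coprime_small hr' hq hqH)).mul_right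
      (Nat.isCoprime_iff_coprime.mpr (SH_coprime_small hr' hq' hqH'))
  have cb : IsCoprime (r : ℤ) (b : ℤ) := Nat.isCoprime_iff_coprime.mpr hbr
  have cb' : IsCoprime (r' : ℤ) (b' : ℤ) := Nat.isCoprime_iff_coprime.mpr hbr'
  have d1 : (r : ℤ) ∣ r' := by
    have h1 : (r : ℤ) ∣ ((q : ℤ) * q') * (b * r') := by
      refine ⟨(k * q * q' - a * q' + a' * q) * r' + q * q' * b', ?_⟩
      linear_combination e1
    exact cb.dvd_of_dvd_mul_left (c1.dvd_of_dvd_mul_left h1)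
  have d2 : (r' : ℤ) ∣ r := by
    have h1 : (r' : ℤ) ∣ ((q : ℤ) * q') * (b' * r) := by
      refine ⟨q * q' * b - (k * q * q' - a * q' + a' * q) * r, ?_⟩
      linear_combination -e1
    exact cb'.dvd_of_dvd_mul_left (c2.dvd_of_dvd_mul_left h1)
  have hrr : r = r' := Nat.dvd_antisymm (by exact_mod_cast d1) (by exact_mod_cast d2)
  subst hrr
  refine ⟨rfl, ?_⟩
  have e2 : ((q : ℤ) * q') * ((b : ℤ) - b') = (k * q * q' - a * q' + a' * q) * r := by
    have hr1 : (r : ℤ) ≠ 0 := by exact_mod_cast hr0.ne'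
    apply mul_right_cancel₀ hr1
    linear_combination e1
  have d3 : (r : ℤ) ∣ (b : ℤ) - b' := by
    have h1 : (r : ℤ) ∣ ((q : ℤ) * q') * ((b : ℤ) - b') :=
      ⟨k * q * q' - a * q' + a' * q, by rw [e2]; ring⟩
    exact c1.dvd_of_dvd_mul_left h1
  have h4 : (b : ℤ) - b' = 0 := by
    apply Int.eq_zero_of_abs_lt_dvd d3
    rw [abs_lt]
    constructor <;> omega
  omega

/-- a nonzero rational number with known denominator is not small -/
private lemma SH_den {q q' r r' b b' : ℕ} {a a' k : ℤ} (hq : 0 < q) (hq' : 0 < q')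
    (hr : 0 < r) (hr' : 0 < r')
    (h0 : (a : ℝ) / q - (a' : ℝ) / q' + ((b : ℝ) / r - (b' : ℝ) / r') - k ≠ 0) :
    1 / ((q : ℝ) * q' * r * r') ≤
      |(a : ℝ) / q - (a' : ℝ) / q' + ((b : ℝ) / r - (b' : ℝ) / r') - k| := by
  have hqR : (0 : ℝ) < q := by exact_mod_cast hq
  have hqR' : (0 : ℝ) < q' := by exact_mod_cast hq'
  have hrR : (0 : ℝ) < r := by exact_mod_cast hr
  have hrR' : (0 : ℝ) < r' := by exact_mod_cast hr'
  set D : ℝ := (q : ℝ) * q' * r * r' with hD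
  have hD0 : 0 < D := by positivity
  set m : ℤ := a * q' * r * r' - a' * q * r * r' + (b * r' - b' * r) * q * q' -
    k * (q * q' * r * r') with hm
  have e1 : (a : ℝ) / q - (a' : ℝ) / q' + ((b : ℝ) / r - (b' : ℝ) / r') - k = m / D := by
    rw [hm, hD]
    push_cast
    field_simp
  rw [e1] at h0 ⊢
  have hm0 : m ≠ 0 := by
    rintro h
    rw [h] at h0
    simp at h0
  have h1 : (1 : ℝ) ≤ |(m : ℝ)| := by
    have := Int.one_le_abs hm0
    exact_mod_cast this
  rw [abs_div, abs_of_pos hD0]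
  exact div_le_div_of_nonneg_right h1 hD0.le

theorem shell_L2 : ∃ C : ℝ, 0 < C ∧ ∃ Y0 : ℝ, ∀ Y : ℝ, Y0 ≤ Y → ∀ H : ℝ, 2 ≤ H → H ^ 20 ≤ Y →
    ∀ z : ℝ, 0 ≤ z → ∀ (ι : Type) [DecidableEq ι] (s : Finset ι) (q : ι → ℕ) (a : ι → ℤ)
      (γ : ι → ℝ),
      (∀ i ∈ s, 0 < q i ∧ Int.gcd (a i) (q i) = 1 ∧ (q i : ℝ) * (1 + |γ i| * Y) ≤ H) →
      (∀ i ∈ s, ∀ j ∈ s, i ≠ j → ∀ k : ℤ,
        1 / Y ≤ |((a i : ℝ) / q i + γ i) - ((a j : ℝ) / q j + γ j) - k|) →
      ∑ i ∈ s, ‖PS z Y ((a i : ℝ) / q i + γ i)‖ ^ 2 ≤ C * Y ^ 2 * Real.log H := by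
  obtain ⟨c, hc, hRS⟩ := sum_inv_phi_rough_ge
  refine ⟨2 * (1 + 4 * Real.pi) * (8 / c + 2), by positivity, 16, ?_⟩
  intro Y hY H hH hHY z hz ι _ s q a γ hqa hsep
  have hpi := Real.pi_pos
  have hY0 : 0 < Y := by linarith
  set R : ℝ := Real.sqrt (Real.sqrt Y) with hR
  have hR2 : R ^ 2 = Real.sqrt Y := Real.sq_sqrt (Real.sqrt_nonneg _)
  have hR4 : R ^ 4 = Y := by
    rw [show R ^ 4 = (R ^ 2) ^ 2 by ring, hR2, Real.sq_sqrt hY0.le]
  have hR0 : 0 ≤ R := Real.sqrt_nonneg _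
  have hRge : 2 ≤ R := by
    by_contra hlt
    push Not at hlt
    have : R ^ 4 < 2 ^ 4 := pow_lt_pow_left₀ hlt hR0 (by norm_num)
    rw [hR4] at this
    linarith
  have hlogR : Real.log R = Real.log Y / 4 := by
    rw [← hR4, Real.log_pow]
    push_cast
    ring
  have hlogH : Real.log 2 ≤ Real.log H := Real.log_le_log (by norm_num) hH
  have hl2 := Real.log_two_gt_d9
  have hlogY : 0 < Real.log Y := Real.log_pos (by linarith)
  set th : ι → ℝ := fun i => (a i : ℝ) / q i + γ i with hth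
  -- the sums over the small and the large primes
  set A1 : Finset ℕ := (pr z Y).filter (fun p => (p : ℝ) ≤ R) with hA1
  set A2 : Finset ℕ := (pr z Y).filter (fun p => ¬ (p : ℝ) ≤ R) with hA2
  have hsplit : ∀ x, PS z Y x = (∑ n ∈ A1, (Real.log n : ℂ) * ee (n * x)) +
      ∑ n ∈ A2, (Real.log n : ℂ) * ee (n * x) := by
    intro x
    unfold PS
    rw [hA1, hA2, Finset.sum_filter_add_sum_filter_not]
  have hN1 : ∀ n ∈ A1, (n : ℝ) ≤ Y := by
    intro n hn
    rw [hA1, mem_filter, mem_pr] at hn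
    exact hn.1.2.2.le
  have hN2 : ∀ n ∈ A2, (n : ℝ) ≤ Y := by
    intro n hn
    rw [hA2, mem_filter, mem_pr] at hn
    exact hn.1.2.2.le
  have hYinv : (1 / Y)⁻¹ = Y := by rw [one_div, inv_inv]
  have hY1 : 1 / Y ≤ 1 := by rw [div_le_one hY0]; linarith
  -- heights
  have hqi : ∀ i ∈ s, (q i : ℝ) ≤ H ∧ |γ i| ≤ H / Y := by
    intro i hi
    obtain ⟨h1, _, h3⟩ := hqa i hi
    have h1' : (1 : ℝ) ≤ q i := by exact_mod_cast h1
    have h4 : 0 ≤ |γ i| := abs_nonneg _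
    have h5 : 0 ≤ |γ i| * Y := by positivity
    constructor
    · nlinarith
    · rw [le_div_iff₀ hY0]
      nlinarith
  -- small primes
  have hsm : ∑ i ∈ s, ‖∑ n ∈ A1, (Real.log n : ℂ) * ee (n * th i)‖ ^ 2 ≤
      (Y + 4 * Real.pi * Y) * Y := by
    have h1 := large_sieve_c s th (δ := 1 / Y) (by positivity) hY1 hsep A1
      (fun n => (Real.log n : ℂ)) hY0 hN1
    rw [hYinv] at h1
    refine h1.trans (mul_le_mul_of_nonneg_left ?_ (by positivity))
    have h2 : ∀ n ∈ A1, ‖(Real.log n : ℂ)‖ ^ 2 ≤ R ^ 2 := by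
      intro n hn
      rw [hA1, mem_filter, mem_pr] at hn
      have h3 : (1 : ℝ) ≤ n := by exact_mod_cast hn.1.1.one_le
      have h4 : 0 ≤ Real.log n := Real.log_nonneg h3
      have h5 : Real.log n ≤ n := by
        have := Real.log_le_sub_one_of_pos (by linarith : (0 : ℝ) < n)
        linarith
      rw [Complex.norm_real, Real.norm_eq_abs, abs_of_nonneg h4]
      exact pow_le_pow_left₀ h4 (h5.trans hn.2) 2
    have h6 : (A1.card : ℝ) ≤ R := by
      have h7 : A1 ⊆ Icc 1 ⌊R⌋₊ := by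
        intro n hn
        rw [hA1, mem_filter, mem_pr] at hn
        rw [mem_Icc]
        exact ⟨hn.1.1.one_le, Nat.le_floor hn.2⟩
      have h8 := card_le_card h7
      rw [Nat.card_Icc] at h8
      have h9 : A1.card ≤ ⌊R⌋₊ := by omega
      calc (A1.card : ℝ) ≤ (⌊R⌋₊ : ℝ) := by exact_mod_cast h9
        _ ≤ R := Nat.floor_le hR0
    calc ∑ n ∈ A1, ‖(Real.log n : ℂ)‖ ^ 2 ≤ A1.card • R ^ 2 := sum_le_card_nsmul _ _ _ h2
      _ = A1.card * R ^ 2 := by rw [nsmul_eq_mul]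
      _ ≤ R * R ^ 2 := mul_le_mul_of_nonneg_right h6 (by positivity)
      _ ≤ R ^ 4 := by
        have : R * R ^ 2 * 1 ≤ R * R ^ 2 * R := mul_le_mul_of_nonneg_left (by linarith) (by positivity)
        nlinarith
      _ = Y := hR4
  -- large primes
  have hlg : (∑ r ∈ RS H R, 1 / (Nat.totient r : ℝ)) *
      ∑ i ∈ s, ‖∑ n ∈ A2, (Real.log n : ℂ) * ee (n * th i)‖ ^ 2 ≤
      (Y + 4 * Real.pi * Y) * (Real.log Y * (2 * Y)) := by
    set P : Finset (Σ _ : ℕ, ℕ) := (RS H R).sigma (fun r => (range r).filter (Nat.Coprime r)) with hP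
    have hcop : ∀ r ∈ RS H R, ∀ n ∈ A2, Nat.Coprime n r := by
      intro r hr n hn
      rw [hA2, mem_filter, mem_pr] at hn
      obtain ⟨h1, h2, _, _⟩ := SH_mem_RS hr
      rw [Nat.Prime.coprime_iff_not_dvd hn.1.1]
      intro hd
      have h3 : n ≤ r := Nat.le_of_dvd h1 hd
      have h4 : (n : ℝ) ≤ r := by exact_mod_cast h3
      exact hn.2 (h4.trans h2)
    have hmont : ∀ i ∈ s, ∀ r ∈ RS H R,
        1 / (Nat.totient r : ℝ) * ‖∑ n ∈ A2, (Real.log n : ℂ) * ee (n * th i)‖ ^ 2 ≤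
        ∑ b ∈ (range r).filter (Nat.Coprime r),
          ‖∑ n ∈ A2, (Real.log n : ℂ) * ee (n * (th i + (b : ℝ) / r))‖ ^ 2 := by
      intro i _ r hr
      obtain ⟨h1, _, h3, _⟩ := SH_mem_RS hr
      have hφ : (0 : ℝ) < Nat.totient r := by exact_mod_cast Nat.totient_pos.mpr h1
      have h4 := montgomery h3 A2 (hcop r hr) (fun n => (Real.log n : ℂ)) (th i)
      rw [one_div, inv_mul_le_iff₀ hφ]
      exact h4
    have hsum : (∑ r ∈ RS H R, 1 / (Nat.totient r : ℝ)) *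
        ∑ i ∈ s, ‖∑ n ∈ A2, (Real.log n : ℂ) * ee (n * th i)‖ ^ 2 ≤
        ∑ y ∈ s ×ˢ P, ‖∑ n ∈ A2, (Real.log n : ℂ) *
          ee (n * (th y.1 + (y.2.2 : ℝ) / y.2.1))‖ ^ 2 := by
      rw [mul_comm, Finset.sum_mul, Finset.sum_product]
      refine sum_le_sum fun i hi => ?_
      rw [Finset.mul_sum, hP, Finset.sum_sigma]
      refine sum_le_sum fun r hr => ?_
      rw [mul_comm]
      exact hmont i hi r hr
    refine hsum.trans ?_
    have hsp : ∀ y ∈ s ×ˢ P, ∀ y' ∈ s ×ˢ P, y ≠ y' → ∀ k : ℤ,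
        1 / Y ≤ |(th y.1 + (y.2.2 : ℝ) / y.2.1) - (th y'.1 + (y'.2.2 : ℝ) / y'.2.1) - k| := by
      rintro ⟨i, ⟨r, b⟩⟩ hy ⟨i', ⟨r', b'⟩⟩ hy' hne k
      rw [mem_product, hP, mem_sigma, mem_filter, mem_range] at hy hy'
      obtain ⟨hi, hr, hb, hbr⟩ := hy
      obtain ⟨hi', hr', hb', hbr'⟩ := hy'
      simp only at hi hr hb hbr hi' hr' hb' hbr' ⊢
      by_cases hrb : r = r' ∧ b = b'
      · obtain ⟨rfl, rfl⟩ := hrb
        have hii : i ≠ i' := by
          rintro rfl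
          exact hne rfl
        have h1 := hsep i hi i' hi' hii k
        have e1 : (th i + (b : ℝ) / r) - (th i' + (b : ℝ) / r) - k =
          ((a i : ℝ) / q i + γ i) - ((a i' : ℝ) / q i' + γ i') - k := by
          rw [hth]; ring
        rw [e1]
        exact h1
      · obtain ⟨hq1, _, _⟩ := hqa i hi
        obtain ⟨hq2, _, _⟩ := hqa i' hi'
        obtain ⟨hqH, hγ⟩ := hqi i hi
        obtain ⟨hqH', hγ'⟩ := hqi i' hi'
        obtain ⟨hr1, hrR, _, _⟩ := SH_mem_RS hr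
        obtain ⟨hr1', hrR', _, _⟩ := SH_mem_RS hr'
        have hx0 : (a i : ℝ) / q i - (a i' : ℝ) / q i' + ((b : ℝ) / r - (b' : ℝ) / r') - k ≠ 0 := by
          intro h0
          exact hrb (SH_arith hq1 hq2 hqH hqH' hr hr' hb hb' hbr hbr' h0)
        have hx := SH_den hq1 hq2 hr1 hr1' hx0
        set x := (a i : ℝ) / q i - (a i' : ℝ) / q i' + ((b : ℝ) / r - (b' : ℝ) / r') - k with hxdef
        have e1 : (th i + (b : ℝ) / r) - (th i' + (b' : ℝ) / r') - k = x + (γ i - γ i') := by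
          rw [hth, hxdef]; ring
        rw [e1]
        have hqR : (0 : ℝ) < q i := by exact_mod_cast hq1
        have hqR' : (0 : ℝ) < q i' := by exact_mod_cast hq2
        have hrR0 : (0 : ℝ) < r := by exact_mod_cast hr1
        have hrR0' : (0 : ℝ) < r' := by exact_mod_cast hr1'
        have hden : (q i : ℝ) * q i' * r * r' ≤ H ^ 2 * R ^ 2 := by
          calc (q i : ℝ) * q i' * r * r' ≤ H * H * R * R := by gcongr
            _ = H ^ 2 * R ^ 2 := by ring
        have h1 : 1 / (H ^ 2 * R ^ 2) ≤ |x| := by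
          refine le_trans ?_ hx
          exact one_div_le_one_div_of_le (by positivity) hden
        have h2 : |γ i - γ i'| ≤ 2 * H / Y := by
          calc |γ i - γ i'| ≤ |γ i| + |γ i'| := abs_sub _ _
            _ ≤ H / Y + H / Y := add_le_add hγ hγ'
            _ = 2 * H / Y := by ring
        have h3 : |x| - |γ i - γ i'| ≤ |x + (γ i - γ i')| := by
          have := abs_sub_abs_le_abs_sub x (-(γ i - γ i'))
          rw [abs_neg, sub_neg_eq_add] at this
          exact this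
        have h4 : 1 / Y + 2 * H / Y ≤ 1 / (H ^ 2 * R ^ 2) := by
          rw [← add_div, div_le_div_iff₀ hY0 (by positivity)]
          have h5 : H ^ 10 ≤ R ^ 2 := by
            by_contra hlt
            push Not at hlt
            have h6 : (R ^ 2) ^ 2 < (H ^ 10) ^ 2 := pow_lt_pow_left₀ hlt (by positivity) (by norm_num)
            rw [← pow_mul, ← pow_mul] at h6
            norm_num at h6
            rw [hR4] at h6
            linarith
          have h7 : (1 + 2 * H) * H ^ 2 ≤ H ^ 10 := by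
            have h8 : 1 + 2 * H ≤ H ^ 8 := by
              have h9 : (4 : ℝ) ≤ H ^ 2 := by nlinarith
              have h10 : H ^ 8 = H ^ 2 * H ^ 2 * H ^ 2 * H * H := by ring
              have h11 : (64 : ℝ) ≤ H ^ 2 * H ^ 2 * H ^ 2 := by nlinarith [mul_le_mul h9 h9 (by norm_num) (by positivity)]
              rw [h10]
              nlinarith [mul_le_mul h11 hH (by norm_num) (by positivity)]
            calc (1 + 2 * H) * H ^ 2 ≤ H ^ 8 * H ^ 2 := mul_le_mul_of_nonneg_right h8 (by positivity)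
              _ = H ^ 10 := by ring
          calc (1 + 2 * H) * (H ^ 2 * R ^ 2) = ((1 + 2 * H) * H ^ 2) * R ^ 2 := by ring
            _ ≤ H ^ 10 * R ^ 2 := mul_le_mul_of_nonneg_right h7 (by positivity)
            _ ≤ R ^ 2 * R ^ 2 := mul_le_mul_of_nonneg_right h5 (by positivity)
            _ = 1 * Y := by rw [← hR4]; ring
        linarith
    classical
    have h1 := large_sieve_c (s ×ˢ P) (fun y : ι × (Σ _ : ℕ, ℕ) => th y.1 + (y.2.2 : ℝ) / y.2.1)
      (δ := 1 / Y) (by positivity) hY1 hsp A2 (fun n => (Real.log n : ℂ)) hY0 hN2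
    rw [hYinv] at h1
    refine h1.trans (mul_le_mul_of_nonneg_left ?_ (by positivity))
    calc ∑ n ∈ A2, ‖(Real.log n : ℂ)‖ ^ 2 ≤ ∑ n ∈ A2, Real.log Y * Real.log n := by
          refine sum_le_sum fun n hn => ?_
          rw [hA2, mem_filter, mem_pr] at hn
          have h3 : (1 : ℝ) ≤ n := by exact_mod_cast hn.1.1.one_le
          have h4 : 0 ≤ Real.log n := Real.log_nonneg h3
          have h5 : Real.log n ≤ Real.log Y := Real.log_le_log (by linarith) hn.1.2.2.le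
          rw [Complex.norm_real, Real.norm_eq_abs, abs_of_nonneg h4, sq]
          exact mul_le_mul_of_nonneg_right h5 h4
      _ = Real.log Y * ∑ n ∈ A2, Real.log n := by rw [Finset.mul_sum]
      _ ≤ Real.log Y * ∑ n ∈ pr z Y, Real.log n := by
          apply mul_le_mul_of_nonneg_left _ hlogY.le
          apply sum_le_sum_of_subset_of_nonneg (filter_subset _ _)
          intro n hn _
          rw [mem_pr] at hn
          exact Real.log_nonneg (by exact_mod_cast hn.1.one_le)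
      _ ≤ Real.log Y * (2 * Y) := mul_le_mul_of_nonneg_left (sum_log_pr_le hY0.le) hlogY.le
  -- conclusion
  have hRSle := hRS H hH R (by linarith)
  rw [hlogR] at hRSle
  set T := ∑ i ∈ s, ‖∑ n ∈ A2, (Real.log n : ℂ) * ee (n * th i)‖ ^ 2 with hT
  have hT0 : 0 ≤ T := by rw [hT]; positivity
  have hlogH0 : 0 < Real.log H := by linarith
  have hTle : T ≤ (1 + 4 * Real.pi) * (8 / c) * Y ^ 2 * Real.log H := by
    have h1 : c * (Real.log Y / 4) / Real.log H * T ≤
        (Y + 4 * Real.pi * Y) * (Real.log Y * (2 * Y)) :=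
      (mul_le_mul_of_nonneg_right hRSle hT0).trans hlg
    have h2 : c * (Real.log Y / 4) / Real.log H * T =
        T * (c * Real.log Y / (4 * Real.log H)) := by
      field_simp
    rw [h2, ← le_div_iff₀ (by positivity)] at h1
    refine h1.trans (le_of_eq ?_)
    field_simp
    ring
  calc ∑ i ∈ s, ‖PS z Y ((a i : ℝ) / q i + γ i)‖ ^ 2
      ≤ ∑ i ∈ s, (2 * ‖∑ n ∈ A1, (Real.log n : ℂ) * ee (n * th i)‖ ^ 2 +
        2 * ‖∑ n ∈ A2, (Real.log n : ℂ) * ee (n * th i)‖ ^ 2) := by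
        refine sum_le_sum fun i _ => ?_
        rw [hsplit]
        have h1 := norm_add_le (∑ n ∈ A1, (Real.log n : ℂ) * ee (n * th i))
          (∑ n ∈ A2, (Real.log n : ℂ) * ee (n * th i))
        have h2 := pow_le_pow_left₀ (norm_nonneg _) h1 2
        refine h2.trans ?_
        nlinarith [sq_nonneg (‖∑ n ∈ A1, (Real.log n : ℂ) * ee (n * th i)‖ -
          ‖∑ n ∈ A2, (Real.log n : ℂ) * ee (n * th i)‖)]
    _ = 2 * ∑ i ∈ s, ‖∑ n ∈ A1, (Real.log n : ℂ) * ee (n * th i)‖ ^ 2 + 2 * T := by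
        rw [sum_add_distrib, ← Finset.mul_sum, ← Finset.mul_sum]
    _ ≤ 2 * ((Y + 4 * Real.pi * Y) * Y) +
        2 * ((1 + 4 * Real.pi) * (8 / c) * Y ^ 2 * Real.log H) := by linarith
    _ ≤ 2 * (1 + 4 * Real.pi) * (8 / c + 2) * Y ^ 2 * Real.log H := by
        have h1 : (Y + 4 * Real.pi * Y) * Y ≤ (1 + 4 * Real.pi) * Y ^ 2 * (2 * Real.log H) := by
          have h2 : (Y + 4 * Real.pi * Y) * Y = (1 + 4 * Real.pi) * Y ^ 2 * 1 := by ring
          rw [h2]
          exact mul_le_mul_of_nonneg_left (by linarith) (by positivity)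
        nlinarith

end Pool.MP_dd84fd_nt.En
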