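import Pool.Agent.Lib.MP_dd84fd_nt.En.TypeII1
import Pool.Agent.Lib.MP_dd84fd_nt.En.Dyad

/-!
# the bilinear sum at small height (module GB-T3)
-/

set_option autoImplicit false

namespace Pool.MP_dd84fd_nt.En

open Finset Pool.MP_67663b_nt.Odd

private lemma t3_zero {z : ℝ} {X m : ℕ} (hz : 0 < z) (h : (X : ℝ) + 1 ≤ z * m) (φ : ℝ) :
    PS z (((X : ℝ) + 1) / m) φ = 0 := by
  have hm : 0 < (m : ℝ) := by
    by_contra hcon
    have h1 : (m : ℝ) ≤ 0 := not_lt.1 hcon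
    have h2 : (0 : ℝ) ≤ X := Nat.cast_nonneg X
    nlinarith
  unfold PS
  rw [Finset.sum_eq_zero]
  intro p hp
  rw [mem_pr] at hp
  exfalso
  have h3 : ((X : ℝ) + 1) / m ≤ z := by
    rw [div_le_iff₀ hm]
    exact h
  linarith [hp.2.1, hp.2.2]

open Classical in
theorem typeII : ∃ C : ℝ, 0 < C ∧ ∃ z0 : ℝ, 2 ≤ z0 ∧ ∀ z : ℝ, z0 ≤ z → ∀ X : ℕ, z ^ 2 ≤ X →
    ∀ (q : ℕ) (a : ℤ) (β h : ℝ), 0 < q → Int.gcd a q = 1 → h = (q : ℝ) * (1 + |β| * X) →
    (4 * h) ^ 30 ≤ z →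
    ∑ m ∈ (Icc 2 X).filter (Rough z),
      ‖PS z (((X : ℝ) + 1) / m) ((m : ℝ) * ((a : ℝ) / q + β))‖ ≤
      C * (Real.log X / Real.log z) ^ 2 * X * Real.log (4 * h) * h ^ (-(1 / 3 : ℝ)) := by
  obtain ⟨C, hC, z0, hz0, hblock⟩ := typeII_block
  refine ⟨4 * C, by positivity, z0, hz0, ?_⟩
  intro z hz X hX q a β h hq ha hh hhz
  have hz2 : 2 ≤ z := hz0.trans hz
  have hXr : (4 : ℝ) ≤ X := by nlinarith
  have hX2 : 2 ≤ X := by
    have : (2 : ℝ) ≤ X := by linarith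
    exact_mod_cast this
  have hlogX : 0 < Real.log X := Real.log_pos (by linarith)
  have hlogz : 0 < Real.log z := Real.log_pos (by linarith)
  have hqr : (1 : ℝ) ≤ q := by exact_mod_cast hq
  have hh1 : 1 ≤ h := by
    rw [hh]
    have : 0 ≤ |β| * X := by positivity
    nlinarith
  have hlogh : 0 < Real.log (4 * h) := Real.log_pos (by linarith)
  have hB0 : 0 ≤ C * (Real.log X / (Real.log z) ^ 2) * X * Real.log (4 * h) *
      h ^ (-(1 / 3 : ℝ)) := by positivity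
  have h1 := dyadic z hz2 X hX2
    (fun m => ‖PS z (((X : ℝ) + 1) / m) ((m : ℝ) * ((a : ℝ) / q + β))‖)
    (fun m => norm_nonneg _) (fun m hm => by
      change ‖PS z (((X : ℝ) + 1) / m) ((m : ℝ) * ((a : ℝ) / q + β))‖ = 0
      rw [t3_zero (by linarith) hm, norm_zero]) _ hB0
    (fun M h1 h2 => hblock z hz X hX M h1 h2 q a β h hq ha hh hhz)
  refine h1.trans (le_of_eq ?_)
  field_simp

end Pool.MP_dd84fd_nt.En
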