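import Pool.Agent.Lib.MP_dd84fd_nt.En.Ident
import Pool.Agent.Lib.MP_dd84fd_nt.En.SelF
import Pool.Agent.Lib.MP_dd84fd_nt.En.TypeII2
import Pool.Agent.Lib.MP_dd84fd_nt.En.Tot
import Pool.Agent.Lib.MP_67663b_nt.OddB.Chebs

/-!
# log-free bound at small height (module GB-VA)
-/

set_option autoImplicit false

namespace Pool.MP_dd84fd_nt.En

open Finset Pool.MP_67663b_nt.Odd

lemma VA_PS_split (z : ℝ) (X : ℕ) (α : ℝ) (hz : z ≤ (X : ℝ) + 1) :
    PS 0 ((X : ℝ) + 1) α = PS 0 z α + PS z ((X : ℝ) + 1) α := by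
  classical
  unfold PS
  rw [← Finset.sum_union]
  · refine Finset.sum_congr ?_ fun _ _ => rfl
    ext p
    rw [mem_union, mem_pr, mem_pr, mem_pr]
    constructor
    · rintro ⟨h1, h2, h3⟩
      rcases lt_or_ge (p : ℝ) z with h | h
      · exact Or.inl ⟨h1, h2, h⟩
      · exact Or.inr ⟨h1, h, h3⟩
    · rintro (⟨h1, h2, h3⟩ | ⟨h1, h2, h3⟩)
      · exact ⟨h1, h2, by linarith⟩
      · exact ⟨h1, Nat.cast_nonneg _, h3⟩
  · rw [Finset.disjoint_left]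
    intro p hp hp'
    rw [mem_pr] at hp hp'
    linarith [hp.2.2, hp'.2.1]

/-- powers of the logarithm -/
lemma VA_log_pow (h : ℝ) (hh : 1 ≤ h) :
    1 ≤ Real.log (4 * h) ∧ (Real.log (4 * h)) ^ 3 ≤ 186624 * h ^ ((1 : ℝ) / 12) := by
  have h4 : Real.log 4 ≤ Real.log (4 * h) := Real.log_le_log (by norm_num) (by linarith)
  have h41 : 1 ≤ Real.log 4 := by
    have : Real.log 4 = 2 * Real.log 2 := by
      rw [show (4 : ℝ) = 2 ^ 2 by norm_num, Real.log_pow]; norm_num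
    rw [this]
    linarith [Real.log_two_gt_d9]
  have hA : 1 ≤ Real.log (4 * h) := h41.trans h4
  refine ⟨hA, ?_⟩
  have h1 : Real.log (4 * h) ≤ (4 * h) ^ ((1 : ℝ) / 36) / (1 / 36) :=
    Real.log_le_rpow_div (by linarith) (by norm_num)
  have h2 : (4 * h) ^ ((1 : ℝ) / 36) / (1 / 36) = 36 * (4 * h) ^ ((1 : ℝ) / 36) := by
    field_simp
  rw [h2] at h1
  calc (Real.log (4 * h)) ^ 3 ≤ (36 * (4 * h) ^ ((1 : ℝ) / 36)) ^ 3 :=
        pow_le_pow_left₀ (by linarith) h1 3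
    _ = 46656 * ((4 * h) ^ ((1 : ℝ) / 36)) ^ 3 := by ring
    _ = 46656 * (4 * h) ^ ((1 : ℝ) / 12) := by
        rw [← Real.rpow_natCast, ← Real.rpow_mul (by linarith)]
        norm_num
    _ = 46656 * ((4 : ℝ) ^ ((1 : ℝ) / 12) * h ^ ((1 : ℝ) / 12)) := by
        rw [Real.mul_rpow (by norm_num) (by linarith)]
    _ ≤ 46656 * (4 * h ^ ((1 : ℝ) / 12)) := by
        have h3 : (4 : ℝ) ^ ((1 : ℝ) / 12) ≤ 4 := by
          calc (4 : ℝ) ^ ((1 : ℝ) / 12) ≤ (4 : ℝ) ^ (1 : ℝ) :=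
                Real.rpow_le_rpow_of_exponent_le (by norm_num) (by norm_num)
            _ = 4 := Real.rpow_one 4
        have h5 : 0 ≤ h ^ ((1 : ℝ) / 12) := Real.rpow_nonneg (by linarith) _
        gcongr
    _ = 186624 * h ^ ((1 : ℝ) / 12) := by ring

/-- `(1 + log y) / y ≤ (5/2) y^(-1/3)` -/
lemma VA_log_div (y : ℝ) (hy : 1 ≤ y) :
    (1 + Real.log y) / y ≤ 5 / 2 * y ^ (-(1 / 3 : ℝ)) := by
  have hy0 : 0 < y := by linarith
  have h1 : Real.log y ≤ y ^ ((2 : ℝ) / 3) / (2 / 3) :=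
    Real.log_le_rpow_div hy0.le (by norm_num)
  have h2 : (1 : ℝ) ≤ y ^ ((2 : ℝ) / 3) := Real.one_le_rpow hy (by norm_num)
  have h3 : 1 + Real.log y ≤ 5 / 2 * y ^ ((2 : ℝ) / 3) := by
    have : y ^ ((2 : ℝ) / 3) / (2 / 3) = 3 / 2 * y ^ ((2 : ℝ) / 3) := by ring
    rw [this] at h1
    linarith
  rw [div_le_iff₀ hy0]
  have h4 : y ^ (-(1 / 3 : ℝ)) * y = y ^ ((2 : ℝ) / 3) := by
    nth_rewrite 2 [← Real.rpow_one y]
    rw [← Real.rpow_add hy0]
    norm_num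
  rw [mul_assoc, h4]
  exact h3

/-- `X` is large in terms of `B` -/
lemma VA_large (c1 B G w : ℝ) (hc1 : 0 < c1) (hw : 0 ≤ w)
    (hG : G = (30 + w) * (2 + 4 * |B|) ^ 2 / c1) (l : ℝ) (hl : 1 ≤ l) (hlG : G ^ 2 ≤ l) :
    (30 + w) * (2 + |B| * Real.log l) ^ 2 ≤ c1 * l := by
  have hl0 : 0 < l := by linarith
  have hG0 : 0 ≤ G := by rw [hG]; positivity
  have h1 : Real.log l ≤ l ^ ((1 : ℝ) / 4) / (1 / 4) :=
    Real.log_le_rpow_div hl0.le (by norm_num)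
  have h2 : (1 : ℝ) ≤ l ^ ((1 : ℝ) / 4) := Real.one_le_rpow hl (by norm_num)
  have h3 : 2 + |B| * Real.log l ≤ (2 + 4 * |B|) * l ^ ((1 : ℝ) / 4) := by
    have h4 : |B| * Real.log l ≤ |B| * (4 * l ^ ((1 : ℝ) / 4)) := by
      refine mul_le_mul_of_nonneg_left ?_ (abs_nonneg B)
      linarith
    nlinarith
  have h5 : 0 ≤ 2 + |B| * Real.log l := by
    have := Real.log_nonneg hl
    positivity
  have h6 : (l ^ ((1 : ℝ) / 4)) ^ 2 = Real.sqrt l := by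
    rw [← Real.rpow_natCast, ← Real.rpow_mul hl0.le, Real.sqrt_eq_rpow]
    norm_num
  have h7 : G ≤ Real.sqrt l := Real.le_sqrt_of_sq_le hlG
  calc (30 + w) * (2 + |B| * Real.log l) ^ 2 ≤
        (30 + w) * ((2 + 4 * |B|) * l ^ ((1 : ℝ) / 4)) ^ 2 := by
        refine mul_le_mul_of_nonneg_left (pow_le_pow_left₀ h5 h3 2) (by positivity)
    _ = c1 * (G * Real.sqrt l) := by
        rw [mul_pow, h6, hG]
        field_simp
    _ ≤ c1 * (Real.sqrt l * Real.sqrt l) := by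
        refine mul_le_mul_of_nonneg_left ?_ hc1.le
        exact mul_le_mul_of_nonneg_right h7 (Real.sqrt_nonneg _)
    _ = c1 * l := by rw [Real.mul_self_sqrt hl0.le]

theorem vin_small : ∃ C : ℝ, 0 < C ∧ ∀ B : ℝ, ∃ X0 : ℕ, ∀ X : ℕ, X0 ≤ X →
    ∀ (q : ℕ) (a : ℤ) (β : ℝ), 0 < q → Int.gcd a q = 1 →
    (q : ℝ) * (1 + |β| * X) ≤ (Real.log X) ^ B →
    ‖PS 0 (X + 1) ((a : ℝ) / q + β)‖ ≤
      C * X * ((q : ℝ) * (1 + |β| * X)) ^ (-(1 / 4 : ℝ)) := by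
  classical
  obtain ⟨C1, hC1, hid⟩ := log_identity
  obtain ⟨C2, c, K0, hC2, hc, hK0, X1, hrough⟩ := rough_log_exp
  obtain ⟨C3, hC3, z0, hz0, htype⟩ := typeII
  obtain ⟨C4, hC4, htau⟩ := tau_div_sqrt_totient
  obtain ⟨c1, hc1⟩ : ∃ c1 : ℝ, c1 = min c (min (1 / K0) (1 / 2)) := ⟨_, rfl⟩
  have hK00 : 0 < K0 := by linarith
  have hc10 : 0 < c1 := by
    rw [hc1]
    exact lt_min hc (lt_min (by positivity) (by norm_num))
  have hc1c : c1 ≤ c := by rw [hc1]; exact min_le_left _ _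
  have hc1K : c1 ≤ 1 / K0 := by rw [hc1]; exact (min_le_right _ _).trans (min_le_left _ _)
  have hc12 : c1 ≤ 1 / 2 := by rw [hc1]; exact (min_le_right _ _).trans (min_le_right _ _)
  have hlz0 : 0 ≤ Real.log z0 := Real.log_nonneg (by linarith)
  refine ⟨2 + C1 + C2 + C2 * (1 / c1) * (5 / 2 * C4 + 1) * 186624 +
    C3 * (1 / c1) ^ 2 * 186624, by positivity, fun B => ?_⟩
  obtain ⟨G, hG⟩ : ∃ G : ℝ, G = (30 + Real.log z0) * (2 + 4 * |B|) ^ 2 / c1 := ⟨_, rfl⟩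
  refine ⟨max X1 (max 3 ⌈Real.exp (G ^ 2)⌉₊), fun X hX q a β hq ha hB => ?_⟩
  have hX1 : X1 ≤ X := (le_max_left _ _).trans hX
  have hX3 : 3 ≤ X := ((le_max_left _ _).trans (le_max_right _ _)).trans hX
  have hXG : ⌈Real.exp (G ^ 2)⌉₊ ≤ X := ((le_max_right _ _).trans (le_max_right _ _)).trans hX
  have hXr : (3 : ℝ) ≤ X := by exact_mod_cast hX3
  have hX0 : (0 : ℝ) < X := by linarith
  obtain ⟨l, hl⟩ : ∃ l : ℝ, l = Real.log X := ⟨_, rfl⟩
  have hXl : (X : ℝ) = Real.exp l := by rw [hl, Real.exp_log hX0]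
  have hl1 : 1 ≤ l := by
    rw [hl, Real.le_log_iff_exp_le hX0]
    have := Real.exp_one_lt_d9
    linarith
  have hlG : G ^ 2 ≤ l := by
    rw [hl, Real.le_log_iff_exp_le hX0]
    exact (Nat.le_ceil _).trans (by exact_mod_cast hXG)
  have hlarge := VA_large c1 B G (Real.log z0) hc10 hlz0 hG l hl1 hlG
  -- the height
  obtain ⟨u, hu⟩ : ∃ u : ℝ, u = |β| * X := ⟨_, rfl⟩
  have hu0 : 0 ≤ u := by rw [hu]; positivity
  obtain ⟨h, hh⟩ : ∃ h : ℝ, h = (q : ℝ) * (1 + |β| * X) := ⟨_, rfl⟩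
  have hq1 : (1 : ℝ) ≤ q := by exact_mod_cast hq
  have hq0 : (0 : ℝ) < q := by linarith
  have hhu : h = q * (1 + u) := by rw [hh, hu]
  have hh1 : 1 ≤ h := by
    rw [hhu]; exact one_le_mul_of_one_le_of_one_le hq1 (by linarith only [hu0])
  have hh0 : 0 < h := by linarith
  obtain ⟨hA1, hA3⟩ := VA_log_pow h hh1
  obtain ⟨A, hA⟩ : ∃ A : ℝ, A = Real.log (4 * h) := ⟨_, rfl⟩
  rw [← hA] at hA1 hA3
  have hA0 : 0 < A := by linarith
  have h4h : 4 * h = Real.exp A := by rw [hA, Real.exp_log (by positivity)]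
  obtain ⟨g, hg⟩ : ∃ g : ℝ, g = 2 + |B| * Real.log l := ⟨_, rfl⟩
  rw [← hg] at hlarge
  have hAg : A ≤ g := by
    have e1 : h ≤ l ^ |B| := by
      rw [hh]
      refine hB.trans ?_
      rw [← hl]
      exact Real.rpow_le_rpow_of_exponent_le hl1 (le_abs_self B)
    have e2 : Real.log h ≤ |B| * Real.log l := by
      calc Real.log h ≤ Real.log (l ^ |B|) := Real.log_le_log hh0 e1
        _ = |B| * Real.log l := Real.log_rpow (by linarith) _
    have e3 : Real.log 4 ≤ 2 := by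
      have : Real.log 4 = 2 * Real.log 2 := by
        rw [show (4 : ℝ) = 2 ^ 2 by norm_num, Real.log_pow]; norm_num
      rw [this]
      linarith [Real.log_two_lt_d9]
    rw [hA, hg, Real.log_mul (by norm_num) hh0.ne']
    linarith
  have hg1 : 1 ≤ g := hA1.trans hAg
  have hAA : A ^ 2 ≤ g ^ 2 := pow_le_pow_left₀ hA0.le hAg 2
  have hgg : g ≤ g ^ 2 := le_self_pow₀ hg1 two_ne_zero
  have hAsq : A ≤ A ^ 2 := le_self_pow₀ hA1 two_ne_zero
  have hlarge' : 30 * g ^ 2 + Real.log z0 * g ^ 2 ≤ c1 * l := by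
    rw [← add_mul]; exact hlarge
  have hcl : c1 * l ≤ 1 / 2 * l := mul_le_mul_of_nonneg_right hc12 (by linarith only [hl1])
  have h30 : 30 * A ^ 2 ≤ c1 * l := by
    have : 0 ≤ Real.log z0 * g ^ 2 := by positivity
    linarith only [this, hlarge', hAA]
  have hz0A : Real.log z0 * A ≤ c1 * l := by
    have e1 : Real.log z0 * A ≤ Real.log z0 * g ^ 2 :=
      mul_le_mul_of_nonneg_left (hAg.trans hgg) hlz0
    have e2 : 0 ≤ g ^ 2 := by positivity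
    linarith only [e1, e2, hlarge']
  have hlA : 60 * A ≤ l := by
    linarith only [h30, hcl, hAsq]
  -- the parameter z
  obtain ⟨z, hz⟩ : ∃ z : ℝ, z = Real.exp (c1 * l / A) := ⟨_, rfl⟩
  have hlogz : Real.log z = c1 * l / A := by rw [hz, Real.log_exp]
  have hzpos : 0 < z := by rw [hz]; exact Real.exp_pos _
  have hzz0 : z0 ≤ z := by
    have e1 : Real.log z0 ≤ c1 * l / A := by rw [le_div_iff₀ hA0]; exact hz0A
    calc z0 = Real.exp (Real.log z0) := (Real.exp_log (by linarith)).symm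
      _ ≤ z := by rw [hz]; exact Real.exp_le_exp.2 e1
  have hz2 : 2 ≤ z := hz0.trans hzz0
  have h4h30 : (4 * h) ^ 30 ≤ z := by
    rw [h4h, ← Real.exp_nat_mul, hz]
    refine Real.exp_le_exp.2 ?_
    rw [le_div_iff₀ hA0]
    push_cast
    have e1 : 30 * A * A = 30 * A ^ 2 := by ring
    rw [e1]
    exact h30
  have hzX : z ^ 2 ≤ X := by
    rw [hz, hXl, ← Real.exp_nat_mul]
    refine Real.exp_le_exp.2 ?_
    push_cast
    have e1 : c1 * l / A ≤ c1 * l := div_le_self (by positivity) hA1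
    linarith only [e1, hcl]
  have hK1 : Real.log X / Real.log z = A / c1 := by
    rw [hlogz, ← hl]
    have : l ≠ 0 := by linarith
    field_simp
  have hK0z : K0 * Real.log z ≤ Real.log X := by
    rw [hlogz, ← hl]
    have e1 : K0 * c1 ≤ 1 := by
      calc K0 * c1 ≤ K0 * (1 / K0) := mul_le_mul_of_nonneg_left hc1K hK00.le
        _ = 1 := by field_simp
    have e2 : c1 * l / A ≤ c1 * l := div_le_self (by positivity) hA1
    calc K0 * (c1 * l / A) ≤ K0 * (c1 * l) := mul_le_mul_of_nonneg_left e2 hK00.le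
      _ = (K0 * c1) * l := by ring
      _ ≤ 1 * l := mul_le_mul_of_nonneg_right e1 (by linarith)
      _ = l := one_mul l
  -- consequences of the size of X
  have hhA : h ≤ Real.exp A := by rw [← h4h]; linarith
  have hβ : |β| ≤ 1 / (2 * q * (X : ℝ) ^ (1 / 8 : ℝ)) := by
    have hX8 : 0 < (X : ℝ) ^ (1 / 8 : ℝ) := Real.rpow_pos_of_pos hX0 _
    rw [le_div_iff₀ (by positivity)]
    have e1 : |β| * q * X ≤ h := by
      have e0 : (q : ℝ) * (1 + |β| * X) = q + |β| * q * X := by ring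
      rw [hh, e0]
      linarith only [hq0]
    have e2 : 2 * h * (X : ℝ) ^ (1 / 8 : ℝ) ≤ X := by
      have e3 : 2 * h ≤ Real.exp A := by rw [← h4h]; linarith
      have e4 : (X : ℝ) ^ (1 / 8 : ℝ) = Real.exp (l * (1 / 8)) := by
        rw [hXl, ← Real.exp_mul]
      rw [e4]
      calc 2 * h * Real.exp (l * (1 / 8)) ≤ Real.exp A * Real.exp (l * (1 / 8)) :=
            mul_le_mul_of_nonneg_right e3 (Real.exp_pos _).le
        _ = Real.exp (A + l * (1 / 8)) := (Real.exp_add _ _).symm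
        _ ≤ Real.exp l := Real.exp_le_exp.2 (by linarith)
        _ = X := hXl.symm
    have e5 : |β| * (2 * q * (X : ℝ) ^ (1 / 8 : ℝ)) * X ≤ 1 * X := by
      calc |β| * (2 * q * (X : ℝ) ^ (1 / 8 : ℝ)) * X
          = 2 * (|β| * q * X) * (X : ℝ) ^ (1 / 8 : ℝ) := by ring
        _ ≤ 2 * h * (X : ℝ) ^ (1 / 8 : ℝ) := by gcongr
        _ ≤ X := e2
        _ = 1 * X := (one_mul _).symm
    exact le_of_mul_le_mul_right e5 hX0
  -- the target
  obtain ⟨E, hE⟩ : ∃ E : ℝ, E = (X : ℝ) * h ^ (-(1 / 4 : ℝ)) := ⟨_, rfl⟩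
  have hhm : Real.exp (-(A / 4)) ≤ h ^ (-(1 / 4 : ℝ)) := by
    have e1 : Real.exp (-(A / 4)) = (Real.exp A) ^ (-(1 / 4 : ℝ)) := by
      rw [← Real.exp_mul]
      congr 1
      ring
    rw [e1]
    exact Real.rpow_le_rpow_of_nonpos hh0 hhA (by norm_num)
  have hEexp : Real.exp (l - A / 4) ≤ E := by
    rw [hE, sub_eq_add_neg, Real.exp_add, ← hXl]
    exact mul_le_mul_of_nonneg_left hhm hX0.le
  have hE0 : 0 ≤ E := (Real.exp_pos _).le.trans hEexp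
  have t1 : 2 * z ≤ 2 * E := by
    have e1 : z ≤ Real.exp (l - A / 4) := by
      rw [hz]
      refine Real.exp_le_exp.2 ?_
      have e2 : c1 * l / A ≤ c1 * l := div_le_self (by positivity) hA1
      linarith only [e2, hcl, hlA, hA0]
    linarith only [e1, hEexp]
  have t2 : C2 * q * (X : ℝ) ^ (9 / 10 : ℝ) ≤ C2 * E := by
    have e1 : (q : ℝ) ≤ h := by
      rw [hhu]; exact le_mul_of_one_le_right hq0.le (by linarith only [hu0])
    have e2 : (X : ℝ) ^ (9 / 10 : ℝ) = Real.exp (l * (9 / 10)) := by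
      rw [hXl, ← Real.exp_mul]
    have e3 : (q : ℝ) * (X : ℝ) ^ (9 / 10 : ℝ) ≤ E := by
      refine le_trans ?_ hEexp
      rw [e2]
      calc (q : ℝ) * Real.exp (l * (9 / 10)) ≤ Real.exp A * Real.exp (l * (9 / 10)) :=
            mul_le_mul_of_nonneg_right (e1.trans hhA) (Real.exp_pos _).le
        _ = Real.exp (A + l * (9 / 10)) := (Real.exp_add _ _).symm
        _ ≤ Real.exp (l - A / 4) := Real.exp_le_exp.2 (by linarith)
    calc C2 * q * (X : ℝ) ^ (9 / 10 : ℝ) = C2 * (q * (X : ℝ) ^ (9 / 10 : ℝ)) := by ring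
      _ ≤ C2 * E := mul_le_mul_of_nonneg_left e3 hC2.le
  have t3 : C1 * X / Real.sqrt z ≤ C1 * E := by
    have hsz : 0 < Real.sqrt z := Real.sqrt_pos.2 hzpos
    have e1 : Real.exp (A / 4) ≤ Real.sqrt z := by
      apply Real.le_sqrt_of_sq_le
      rw [← Real.exp_nat_mul, hz]
      refine Real.exp_le_exp.2 ?_
      rw [le_div_iff₀ hA0]
      push_cast
      have e0 : 2 * (A / 4) * A = 1 / 2 * A ^ 2 := by ring
      rw [e0]
      linarith only [h30, sq_nonneg A]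
    have e2 : 1 / Real.sqrt z ≤ h ^ (-(1 / 4 : ℝ)) := by
      refine le_trans ?_ hhm
      rw [Real.exp_neg, ← one_div]
      exact one_div_le_one_div_of_le (Real.exp_pos _) e1
    calc C1 * X / Real.sqrt z = C1 * (X * (1 / Real.sqrt z)) := by ring
      _ ≤ C1 * (X * h ^ (-(1 / 4 : ℝ))) := by gcongr
      _ = C1 * E := by rw [hE]
  -- powers of h
  have hpow : h ^ ((1 : ℝ) / 12) * h ^ (-(1 / 3 : ℝ)) = h ^ (-(1 / 4 : ℝ)) := by
    rw [← Real.rpow_add hh0]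
    norm_num
  have hh3 : 0 < h ^ (-(1 / 3 : ℝ)) := Real.rpow_pos_of_pos hh0 _
  have hAA3 : A ≤ A ^ 3 := le_self_pow₀ hA1 (by norm_num)
  -- rough part
  have t4 : C2 * (Real.log X / Real.log z) * X *
        ((q.divisors.card : ℝ) / Real.sqrt (Nat.totient q) *
          ((1 + Real.log (1 + |β| * X)) / (1 + |β| * X)) +
          Real.exp (-(c * (Real.log X / Real.log z)))) ≤
      C2 * (1 / c1) * (5 / 2 * C4 + 1) * 186624 * E := by
    rw [hK1, ← hu]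
    have e1 : (q.divisors.card : ℝ) / Real.sqrt (Nat.totient q) *
        ((1 + Real.log (1 + u)) / (1 + u)) ≤ 5 / 2 * C4 * h ^ (-(1 / 3 : ℝ)) := by
      have e2 := htau q hq
      have e3 := VA_log_div (1 + u) (by linarith)
      have e4 : 0 ≤ (1 + Real.log (1 + u)) / (1 + u) := by
        have := Real.log_nonneg (by linarith : (1 : ℝ) ≤ 1 + u)
        positivity
      calc _ ≤ (C4 * (q : ℝ) ^ (-(1 / 3 : ℝ))) * (5 / 2 * (1 + u) ^ (-(1 / 3 : ℝ))) :=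
            mul_le_mul e2 e3 e4 (by positivity)
        _ = 5 / 2 * C4 * ((q : ℝ) ^ (-(1 / 3 : ℝ)) * (1 + u) ^ (-(1 / 3 : ℝ))) := by ring
        _ = 5 / 2 * C4 * h ^ (-(1 / 3 : ℝ)) := by
            rw [← Real.mul_rpow hq0.le (by linarith), ← hhu]
    have e5 : Real.exp (-(c * (A / c1))) ≤ h ^ (-(1 / 3 : ℝ)) := by
      have e6 : A ≤ c * (A / c1) := by
        rw [mul_div_assoc', le_div_iff₀ hc10, mul_comm A c1]
        exact mul_le_mul_of_nonneg_right hc1c hA0.le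
      have e7 : (Real.exp A) ^ (-(1 / 3 : ℝ)) ≤ h ^ (-(1 / 3 : ℝ)) :=
        Real.rpow_le_rpow_of_nonpos hh0 hhA (by norm_num)
      refine le_trans ?_ e7
      rw [← Real.exp_mul]
      exact Real.exp_le_exp.2 (by linarith)
    have e8 : A ≤ 186624 * h ^ ((1 : ℝ) / 12) := hAA3.trans hA3
    calc C2 * (A / c1) * X * ((q.divisors.card : ℝ) / Real.sqrt (Nat.totient q) *
          ((1 + Real.log (1 + u)) / (1 + u)) + Real.exp (-(c * (A / c1))))
        ≤ C2 * (A / c1) * X * (5 / 2 * C4 * h ^ (-(1 / 3 : ℝ)) + h ^ (-(1 / 3 : ℝ))) :=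
          mul_le_mul_of_nonneg_left (add_le_add e1 e5) (by positivity)
      _ = C2 * (1 / c1) * (5 / 2 * C4 + 1) * X * (A * h ^ (-(1 / 3 : ℝ))) := by ring
      _ ≤ C2 * (1 / c1) * (5 / 2 * C4 + 1) * X *
          (186624 * h ^ ((1 : ℝ) / 12) * h ^ (-(1 / 3 : ℝ))) := by
          refine mul_le_mul_of_nonneg_left ?_ (by positivity)
          exact mul_le_mul_of_nonneg_right e8 hh3.le
      _ = C2 * (1 / c1) * (5 / 2 * C4 + 1) * 186624 *
          (X * (h ^ ((1 : ℝ) / 12) * h ^ (-(1 / 3 : ℝ)))) := by ring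
      _ = _ := by rw [hpow, ← hE]
  -- type II part
  have t5 : C3 * (Real.log X / Real.log z) ^ 2 * X * Real.log (4 * h) * h ^ (-(1 / 3 : ℝ)) ≤
      C3 * (1 / c1) ^ 2 * 186624 * E := by
    rw [hK1, ← hA]
    calc C3 * (A / c1) ^ 2 * X * A * h ^ (-(1 / 3 : ℝ))
        = C3 * (1 / c1) ^ 2 * X * (A ^ 3 * h ^ (-(1 / 3 : ℝ))) := by ring
      _ ≤ C3 * (1 / c1) ^ 2 * X * (186624 * h ^ ((1 : ℝ) / 12) * h ^ (-(1 / 3 : ℝ))) := by
          refine mul_le_mul_of_nonneg_left ?_ (by positivity)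
          exact mul_le_mul_of_nonneg_right hA3 hh3.le
      _ = C3 * (1 / c1) ^ 2 * 186624 *
          (X * (h ^ ((1 : ℝ) / 12) * h ^ (-(1 / 3 : ℝ)))) := by ring
      _ = _ := by rw [hpow, ← hE]
  -- assembly
  obtain ⟨α, hα⟩ : ∃ α : ℝ, α = (a : ℝ) / q + β := ⟨_, rfl⟩
  have r1 := hid z X α hz2 (by omega)
  have r2 := hrough z hz2 X hX1 hK0z q a β hq ha hβ
  have r3 := htype z hzz0 X hzX q a β h hq ha hh h4h30
  rw [← hα] at r2 r3
  have r4 : ‖PS 0 z α‖ ≤ 2 * z := norm_PS_le hzpos.le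
  have hzX1 : z ≤ (X : ℝ) + 1 := by
    have e1 : z ≤ z ^ 2 := le_self_pow₀ (by linarith only [hz2]) two_ne_zero
    linarith only [e1, hzX]
  rw [← hα, VA_PS_split z X α hzX1, ← hh, mul_assoc, ← hE]
  have r5 : ‖∑ m ∈ (Icc 2 X).filter (Rough z), PS z (((X : ℝ) + 1) / m) ((m : ℝ) * α)‖ ≤
      ∑ m ∈ (Icc 2 X).filter (Rough z), ‖PS z (((X : ℝ) + 1) / m) ((m : ℝ) * α)‖ :=
    norm_sum_le _ _
  obtain ⟨S1, hS1⟩ : ∃ S1 : ℂ, S1 = ∑ n ∈ Icc 1 X, ((rho z n * Real.log n : ℝ) : ℂ) *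
    ee ((n : ℝ) * α) := ⟨_, rfl⟩
  obtain ⟨S2, hS2⟩ : ∃ S2 : ℂ, S2 = ∑ m ∈ (Icc 2 X).filter (Rough z),
    PS z (((X : ℝ) + 1) / m) ((m : ℝ) * α) := ⟨_, rfl⟩
  rw [← hS1, ← hS2] at r1
  rw [← hS1] at r2
  rw [← hS2] at r5
  have r6 : ‖PS z ((X : ℝ) + 1) α‖ ≤ ‖S1‖ + ‖S2‖ + C1 * X / Real.sqrt z := by
    have e1 : PS z ((X : ℝ) + 1) α = S1 - S2 - (S1 - PS z ((X : ℝ) + 1) α - S2) := by ring
    calc ‖PS z ((X : ℝ) + 1) α‖ = ‖S1 - S2 - (S1 - PS z ((X : ℝ) + 1) α - S2)‖ := by rw [← e1]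
      _ ≤ ‖S1 - S2‖ + ‖S1 - PS z ((X : ℝ) + 1) α - S2‖ := norm_sub_le _ _
      _ ≤ (‖S1‖ + ‖S2‖) + C1 * X / Real.sqrt z := add_le_add (norm_sub_le _ _) r1
  have r7 : ‖PS 0 z α + PS z ((X : ℝ) + 1) α‖ ≤ ‖PS 0 z α‖ + ‖PS z ((X : ℝ) + 1) α‖ :=
    norm_add_le _ _
  have r8 : ‖S1‖ ≤ C2 * (1 / c1) * (5 / 2 * C4 + 1) * 186624 * E + C2 * E :=
    r2.trans (add_le_add t4 t2)
  have r9 : ‖S2‖ ≤ C3 * (1 / c1) ^ 2 * 186624 * E := (r5.trans r3).trans t5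
  calc ‖PS 0 z α + PS z ((X : ℝ) + 1) α‖ ≤ 2 * E + (C2 * (1 / c1) * (5 / 2 * C4 + 1) * 186624 * E +
        C2 * E + C3 * (1 / c1) ^ 2 * 186624 * E + C1 * E) := by linarith
    _ = _ := by ring

end Pool.MP_dd84fd_nt.En
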