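import Pool.Agent.Lib.MP_dd84fd_nt.En.Shell
import Pool.Agent.Lib.MP_dd84fd_nt.En.VinA

/-!
# L^s norm of the prime sum over one shell (module GB-TF1)
-/

set_option autoImplicit false

namespace Pool.MP_dd84fd_nt.En

open Finset Pool.MP_67663b_nt.Odd

private lemma TF1_growth (B : ℝ) : ∃ X0 : ℕ, ∀ X : ℕ, X0 ≤ X →
    (2 * (Real.log X) ^ B) ^ 20 ≤ (X : ℝ) + 1 := by
  have h1 : (fun x : ℝ => Real.log x ^ B) =o[Filter.atTop] fun x => x ^ (1 / 40 : ℝ) :=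
    isLittleO_log_rpow_rpow_atTop B (by norm_num)
  have h2 := h1.bound (c := 1 / 2) (by norm_num)
  have h3 := (tendsto_natCast_atTop_atTop (R := ℝ)).eventually
    (h2.and (Filter.eventually_ge_atTop (1 : ℝ)))
  obtain ⟨X0, hX0⟩ := Filter.eventually_atTop.1 h3
  refine ⟨X0, fun X hX => ?_⟩
  obtain ⟨h4, h5⟩ := hX0 X hX
  have h5' : (0 : ℝ) < X := by linarith
  rw [Real.norm_of_nonneg (Real.rpow_nonneg h5'.le _)] at h4
  have h6 : Real.log X ^ B ≤ 1 / 2 * (X : ℝ) ^ (1 / 40 : ℝ) := (Real.le_norm_self _).trans h4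
  have h7 : 0 ≤ Real.log X ^ B := Real.rpow_nonneg (Real.log_nonneg h5) _
  calc (2 * (Real.log X) ^ B) ^ 20 ≤ ((X : ℝ) ^ (1 / 40 : ℝ)) ^ 20 := by
        apply pow_le_pow_left₀ (by positivity)
        linarith
    _ = (X : ℝ) ^ (1 / 2 : ℝ) := by
        rw [← Real.rpow_natCast, ← Real.rpow_mul h5'.le]
        norm_num
    _ ≤ (X : ℝ) ^ (1 : ℝ) := Real.rpow_le_rpow_of_exponent_le h5 (by norm_num)
    _ = X := Real.rpow_one _
    _ ≤ X + 1 := by linarith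

private lemma TF1_sep {J X : ℕ} (hJ : 0 < J) (hX : 0 < X) {i j : ℕ} (hi : i < J * X)
    (hj : j < J * X) (hmod : i % J = j % J) (hne : i ≠ j) (l : ℤ) :
    1 / ((X : ℝ) + 1) ≤ |(i : ℝ) / (J * X) - (j : ℝ) / (J * X) - l| := by
  have hJ' : (0 : ℝ) < J := by exact_mod_cast hJ
  have hX' : (0 : ℝ) < X := by exact_mod_cast hX
  obtain ⟨m, hm⟩ : ∃ m : ℤ, (i : ℤ) - j = J * m := by
    have h1 : (J : ℤ) ∣ (i : ℤ) - j := by
      have h2 : j ≡ i [MOD J] := hmod.symm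
      exact (Nat.modEq_iff_dvd).1 h2
    exact h1
  have h1 : (i : ℝ) / (J * X) - (j : ℝ) / (J * X) - l = ((m - l * X : ℤ) : ℝ) / X := by
    have h2 : (i : ℝ) - j = J * m := by exact_mod_cast hm
    have h3 : (i : ℝ) = J * m + j := by linarith
    rw [h3]
    push_cast
    field_simp
    ring
  rw [h1, abs_div, abs_of_pos hX']
  have h4 : m - l * X ≠ 0 := by
    intro h5
    have h6 : m = l * X := by linarith
    rw [h6] at hm
    have h7 : (i : ℤ) - j = l * (J * X) := by rw [hm]; ring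
    have hl : l = 0 := by
      have hpos : (0 : ℤ) < J * X := by positivity
      have hi' : (i : ℤ) < J * X := by exact_mod_cast hi
      have hj' : (j : ℤ) < J * X := by exact_mod_cast hj
      have hi0 : (0 : ℤ) ≤ i := by positivity
      have hj0 : (0 : ℤ) ≤ j := by positivity
      by_contra hl
      rcases lt_or_gt_of_ne hl with hl' | hl'
      · have : l * (J * X) ≤ -1 * (J * X) :=
          mul_le_mul_of_nonneg_right (by omega) hpos.le
        linarith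
      · have : 1 * (J * X) ≤ l * (J * X) :=
          mul_le_mul_of_nonneg_right (by omega) hpos.le
        linarith
    rw [hl, zero_mul] at h7
    apply hne
    omega
  have h5 : (1 : ℝ) ≤ |((m - l * X : ℤ) : ℝ)| := by
    rw [← Int.cast_abs]
    exact_mod_cast Int.one_le_abs h4
  rw [div_le_div_iff₀ (by positivity) hX']
  nlinarith

open Classical in
theorem shell_tail {s : ℝ} (hs : 2 < s) (J : ℕ) (hJ : 0 < J) : ∃ C : ℝ, 0 < C ∧ ∀ B : ℝ,
    ∃ X0 : ℕ, ∀ X : ℕ, X0 ≤ X → ∀ k : ℕ, (2 : ℝ) ^ (k + 1) ≤ (Real.log X) ^ B →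
    ∑ j ∈ (range (J * X)).filter (fun j : ℕ => Ht (2 ^ (k + 1)) X ((j : ℝ) / (J * X)) ∧
        ¬ Ht (2 ^ k) X ((j : ℝ) / (J * X))),
      ‖PS 0 (X + 1) ((j : ℝ) / (J * X))‖ ^ s ≤
      C * ((k : ℝ) + 2) * ((2 : ℝ) ^ k) ^ (-((s - 2) / 4)) * (X : ℝ) ^ s := by
  obtain ⟨C1, hC1, hvin⟩ := vin_small
  obtain ⟨C2, hC2, Y0, hshell⟩ := shell_L2
  have hJ' : (0 : ℝ) < J := by exact_mod_cast hJ
  refine ⟨4 * J * C2 * C1 ^ (s - 2), by positivity, fun B => ?_⟩
  obtain ⟨X1, hX1⟩ := hvin B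
  obtain ⟨X2, hX2⟩ := TF1_growth B
  refine ⟨X1 + X2 + ⌈Y0⌉₊ + 1, fun X hX k hk => ?_⟩
  have hXpos : 0 < X := by omega
  have hXr : (0 : ℝ) < X := by exact_mod_cast hXpos
  have hX1r : (1 : ℝ) ≤ X := by exact_mod_cast hXpos
  have hY0 : Y0 ≤ (X : ℝ) + 1 := by
    have h1 : Y0 ≤ ⌈Y0⌉₊ := Nat.le_ceil Y0
    have h2 : (⌈Y0⌉₊ : ℝ) ≤ X := by exact_mod_cast (by omega : ⌈Y0⌉₊ ≤ X)
    linarith
  set θ : ℕ → ℝ := fun j => (j : ℝ) / (J * X) with hθ
  set S := (range (J * X)).filter (fun j : ℕ => Ht (2 ^ (k + 1)) X ((j : ℝ) / (J * X)) ∧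
        ¬ Ht (2 ^ k) X ((j : ℝ) / (J * X))) with hS
  have hw : ∀ j ∈ S, ∃ (q : ℕ) (a : ℤ), 0 < q ∧ Int.gcd a q = 1 ∧
      (q : ℝ) * (1 + X * |θ j - (a : ℝ) / q|) ≤ 2 ^ (k + 1) ∧
      (2 : ℝ) ^ k < (q : ℝ) * (1 + X * |θ j - (a : ℝ) / q|) := by
    intro j hj
    obtain ⟨-, ⟨q, a, hq, ha, h1⟩, h2⟩ := Finset.mem_filter.1 hj
    refine ⟨q, a, hq, ha, h1, ?_⟩
    by_contra h3
    push Not at h3
    exact h2 ⟨q, a, hq, ha, h3⟩
  choose! q a hq hga hup hlow using hw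
  set β : ℕ → ℝ := fun j => θ j - (a j : ℝ) / q j with hβ
  have hθβ : ∀ j, (a j : ℝ) / q j + β j = θ j := fun j => by rw [hβ]; ring
  set M : ℝ := C1 * X * ((2 : ℝ) ^ k) ^ (-(1 / 4 : ℝ)) with hM
  have hM0 : 0 ≤ M := by positivity
  have hPS : ∀ j ∈ S, ‖PS 0 (X + 1) (θ j)‖ ≤ M := by
    intro j hj
    have h1 : (q j : ℝ) * (1 + |β j| * X) ≤ (Real.log X) ^ B := by
      have h2 := hup j hj
      rw [mul_comm |β j|]
      exact h2.trans hk
    have h2 := hX1 X (by omega) (q j) (a j) (β j) (hq j hj) (hga j hj) h1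
    rw [hθβ] at h2
    refine h2.trans ?_
    rw [hM]
    apply mul_le_mul_of_nonneg_left _ (by positivity)
    have h3 : (2 : ℝ) ^ k ≤ (q j : ℝ) * (1 + |β j| * X) := by
      rw [mul_comm |β j|]
      exact (hlow j hj).le
    exact Real.rpow_le_rpow_of_nonpos (by positivity) h3 (by norm_num)
  -- the mean square
  have hclass : ∀ ρ ∈ range J, ∑ j ∈ S.filter (fun j => j % J = ρ), ‖PS 0 (X + 1) (θ j)‖ ^ 2 ≤
      C2 * (4 * (X : ℝ) ^ 2) * (k + 2) := by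
    intro ρ _
    have hH2 : (2 : ℝ) ≤ 2 ^ (k + 2) := by
      calc (2 : ℝ) = 2 ^ 1 := by norm_num
        _ ≤ 2 ^ (k + 2) := pow_le_pow_right₀ (by norm_num) (by omega)
    have hH20 : ((2 : ℝ) ^ (k + 2)) ^ 20 ≤ (X : ℝ) + 1 := by
      refine le_trans ?_ (hX2 X (by omega))
      apply pow_le_pow_left₀ (by positivity)
      calc (2 : ℝ) ^ (k + 2) = 2 * 2 ^ (k + 1) := by ring
        _ ≤ 2 * (Real.log X) ^ B := by linarith
    have h1 := hshell ((X : ℝ) + 1) hY0 (2 ^ (k + 2)) hH2 hH20 0 le_rfl ℕ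
      (S.filter (fun j => j % J = ρ)) q a β ?_ ?_
    · have h2 : ∀ j ∈ S.filter (fun j => j % J = ρ), ‖PS 0 (X + 1) (θ j)‖ ^ 2 =
          ‖PS 0 (X + 1) ((a j : ℝ) / q j + β j)‖ ^ 2 := fun j _ => by rw [hθβ]
      rw [Finset.sum_congr rfl h2]
      refine h1.trans ?_
      have h3 : Real.log (2 ^ (k + 2)) ≤ (k : ℝ) + 2 := by
        rw [Real.log_pow]
        push_cast
        have h4 : Real.log 2 ≤ 1 := by
          have := Real.log_two_lt_d9
          linarith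
        have h5 : (0 : ℝ) ≤ (k : ℝ) + 2 := by positivity
        nlinarith
      have h4 : ((X : ℝ) + 1) ^ 2 ≤ 4 * (X : ℝ) ^ 2 := by nlinarith
      have h5 : 0 ≤ Real.log (2 ^ (k + 2)) := Real.log_nonneg (by linarith)
      exact mul_le_mul (mul_le_mul_of_nonneg_left h4 hC2.le) h3 h5 (by positivity)
    · intro j hj
      have hj' := (Finset.mem_filter.1 hj).1
      refine ⟨hq j hj', hga j hj', ?_⟩
      have h2 := hup j hj'
      have h3 : |β j| * ((X : ℝ) + 1) ≤ 2 * (X * |β j|) := by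
        have := abs_nonneg (β j)
        nlinarith
      have hq0 : (0 : ℝ) ≤ q j := by positivity
      calc (q j : ℝ) * (1 + |β j| * ((X : ℝ) + 1)) ≤ (q j : ℝ) * (2 * (1 + X * |β j|)) := by
            apply mul_le_mul_of_nonneg_left _ hq0
            linarith
        _ = 2 * ((q j : ℝ) * (1 + X * |β j|)) := by ring
        _ ≤ 2 * 2 ^ (k + 1) := by
            apply mul_le_mul_of_nonneg_left _ (by norm_num)
            exact h2
        _ = 2 ^ (k + 2) := by ring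
    · intro i hi j hj hij l
      rw [hθβ, hθβ]
      obtain ⟨hi1, hi2⟩ := Finset.mem_filter.1 hi
      obtain ⟨hj1, hj2⟩ := Finset.mem_filter.1 hj
      exact TF1_sep hJ hXpos (Finset.mem_range.1 (Finset.mem_filter.1 hi1).1)
        (Finset.mem_range.1 (Finset.mem_filter.1 hj1).1) (by rw [hi2, hj2]) hij l
  have hL2 : ∑ j ∈ S, ‖PS 0 (X + 1) (θ j)‖ ^ 2 ≤ J * (C2 * (4 * (X : ℝ) ^ 2) * (k + 2)) := by
    rw [← Finset.sum_fiberwise_of_maps_to (s := S) (t := range J) (g := fun j => j % J)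
      (fun j _ => Finset.mem_range.2 (Nat.mod_lt _ hJ))]
    refine (Finset.sum_le_sum hclass).trans ?_
    rw [Finset.sum_const, Finset.card_range, nsmul_eq_mul]
  have hterm : ∀ j ∈ S, ‖PS 0 (X + 1) (θ j)‖ ^ s ≤ M ^ (s - 2) * ‖PS 0 (X + 1) (θ j)‖ ^ 2 := by
    intro j hj
    have h0 : 0 ≤ ‖PS 0 (X + 1) (θ j)‖ := norm_nonneg _
    rcases h0.eq_or_lt with h1 | h1
    · rw [← h1, Real.zero_rpow (by linarith)]
      positivity
    · have h2 : ‖PS 0 (X + 1) (θ j)‖ ^ s = ‖PS 0 (X + 1) (θ j)‖ ^ (s - 2) *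
          ‖PS 0 (X + 1) (θ j)‖ ^ 2 := by
        rw [← Real.rpow_natCast, ← Real.rpow_add h1]
        congr 1
        push_cast
        ring
      rw [h2]
      apply mul_le_mul_of_nonneg_right _ (by positivity)
      exact Real.rpow_le_rpow h0 (hPS j hj) (by linarith)
  refine (Finset.sum_le_sum hterm).trans ?_
  rw [← Finset.mul_sum]
  refine (mul_le_mul_of_nonneg_left hL2 (by positivity)).trans (le_of_eq ?_)
  have h1 : M ^ (s - 2) = C1 ^ (s - 2) * (X : ℝ) ^ (s - 2) *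
      ((2 : ℝ) ^ k) ^ (-((s - 2) / 4)) := by
    rw [hM, Real.mul_rpow (by positivity) (by positivity), Real.mul_rpow hC1.le hXr.le,
      ← Real.rpow_mul (by positivity)]
    congr 2
    ring
  have h2 : (X : ℝ) ^ s = (X : ℝ) ^ (s - 2) * (X : ℝ) ^ 2 := by
    rw [← Real.rpow_natCast, ← Real.rpow_add hXr]
    congr 1
    push_cast
    ring
  rw [h1, h2]
  ring

end Pool.MP_dd84fd_nt.En
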