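import Pool.Agent.Lib.MP_dd84fd_nt.En.F1Exp
import Pool.Agent.Lib.MP_dd84fd_nt.En.Geo

/-!
# pointwise bound for the model (module GB-TM1)
-/

set_option autoImplicit false

namespace Pool.MP_dd84fd_nt.En

open Finset Pool.MP_67663b_nt.Odd

private lemma TM1_mn_nonneg (X : ℕ) (y : ℝ) : 0 ≤ mn X y := by
  unfold mn
  split_ifs
  · exact Nat.cast_nonneg _
  · have := abs_nonneg (y - round y)
    positivity

private lemma TM1_mn_le (X : ℕ) (y : ℝ) {W : ℝ} (hW : 0 < W)
    (h : 1 / (2 * W) ≤ |y - round y|) : mn X y ≤ W := by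
  have hX : (0 : ℝ) ≤ X := Nat.cast_nonneg _
  have hd : 0 < |y - round y| := lt_of_lt_of_le (by positivity) h
  unfold mn
  rw [div_le_iff₀ (by positivity)] at h
  split_ifs with h1
  · have h2 : (X : ℝ) * 1 ≤ X * (|y - round y| * (2 * W)) := mul_le_mul_of_nonneg_left h hX
    have h3 : (2 * (X : ℝ) * |y - round y|) * W ≤ 1 * W := mul_le_mul_of_nonneg_right h1 hW.le
    linarith
  · rw [div_le_iff₀ (by positivity)]
    linarith

/-- at most one `k` has `θ + k/W` close to an integer -/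
private lemma TM1_unique {W : ℕ} (hW : 0 < W) (θ : ℝ) {k k' : ℕ} (hk : k < W) (hk' : k' < W)
    (h : |(θ + (k : ℝ) / W) - round (θ + (k : ℝ) / W)| < 1 / (2 * W))
    (h' : |(θ + (k' : ℝ) / W) - round (θ + (k' : ℝ) / W)| < 1 / (2 * W)) : k = k' := by
  have hW0 : (0 : ℝ) < W := by exact_mod_cast hW
  set a := round (θ + (k : ℝ) / W)
  set b := round (θ + (k' : ℝ) / W)
  have h1 : |((k : ℝ) - k') - W * ((a : ℝ) - b)| < 1 := by
    have e : ((k : ℝ) - k') - W * ((a : ℝ) - b) =
        W * (((θ + (k : ℝ) / W) - a) - ((θ + (k' : ℝ) / W) - b)) := by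
      field_simp
      ring
    rw [e, abs_mul, abs_of_pos hW0]
    have h2 := (abs_sub (((θ + (k : ℝ) / W) - a)) ((θ + (k' : ℝ) / W) - b))
    have h3 : |((θ + (k : ℝ) / W) - a) - ((θ + (k' : ℝ) / W) - b)| < 1 / W := by
      have : (1 : ℝ) / W = 1 / (2 * W) + 1 / (2 * W) := by field_simp; norm_num
      rw [this]
      linarith
    calc (W : ℝ) * |((θ + (k : ℝ) / W) - a) - ((θ + (k' : ℝ) / W) - b)| < W * (1 / W) :=
          mul_lt_mul_of_pos_left h3 hW0
      _ = 1 := by field_simp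
  have h2 : |((k : ℤ) - k') - W * (a - b)| < 1 := by
    have : ((|((k : ℤ) - k') - W * (a - b)| : ℤ) : ℝ) < ((1 : ℤ) : ℝ) := by
      push_cast
      exact h1
    exact_mod_cast this
  have h3 : ((k : ℤ) - k') - W * (a - b) = 0 := Int.abs_lt_one_iff.1 h2
  have h4 : ((k : ℤ) - k') = 0 := by
    refine Int.eq_zero_of_abs_lt_dvd (m := (W : ℤ)) ⟨a - b, by linarith⟩ ?_
    rw [abs_lt]
    constructor <;> omega
  omega

private lemma TM1_expand (w X : ℕ) (θ : ℝ) : F1 w X θ = ∑ k ∈ range (primorial w),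
    ((ArithmeticFunction.moebius (primorial w / Nat.gcd k (primorial w)) : ℝ) /
      (Nat.totient (primorial w / Nat.gcd k (primorial w)) : ℝ) : ℂ) *
      D X (θ + (k : ℝ) / primorial w) := by
  unfold F1 D
  simp_rw [f1_expand, Finset.sum_mul, Finset.mul_sum]
  rw [Finset.sum_comm]
  refine Finset.sum_congr rfl fun k _ => Finset.sum_congr rfl fun n _ => ?_
  rw [mul_assoc, ← ee_add]
  congr 2
  ring

theorem F1_pointwise (w X : ℕ) (θ : ℝ) {s : ℝ} (hs : 1 ≤ s) :
    ‖F1 w X θ‖ ^ s ≤ (2 : ℝ) ^ (s - 1) *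
      (∑ k ∈ range (primorial w), (mn X (θ + (k : ℝ) / primorial w) /
          (Nat.totient (primorial w / Nat.gcd k (primorial w)) : ℝ)) ^ s +
        ((primorial w : ℝ) ^ 2) ^ s) := by
  have hWpos : 0 < primorial w := primorial_pos w
  set W := primorial w with hW
  have hW0 : (0 : ℝ) < W := by exact_mod_cast hWpos
  set ph : ℕ → ℝ := fun k => (Nat.totient (W / Nat.gcd k W) : ℝ) with hph
  have hph1 : ∀ k, 1 ≤ ph k := by
    intro k
    have : 0 < W / Nat.gcd k W :=
      Nat.div_pos (Nat.le_of_dvd hWpos (Nat.gcd_dvd_right _ _)) (Nat.gcd_pos_of_pos_right _ hWpos)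
    have h2 : 1 ≤ Nat.totient (W / Nat.gcd k W) := Nat.totient_pos.2 this
    simp only [hph]
    exact_mod_cast h2
  have hnn : ∀ k : ℕ, 0 ≤ mn X (θ + (k : ℝ) / W) / ph k := fun k =>
    div_nonneg (TM1_mn_nonneg _ _) (by linarith [hph1 k])
  have hbound : ‖F1 w X θ‖ ≤ ∑ k ∈ range W, mn X (θ + (k : ℝ) / W) / ph k := by
    rw [TM1_expand]
    refine (norm_sum_le _ _).trans (Finset.sum_le_sum fun k _ => ?_)
    rw [norm_mul, mul_comm, div_eq_mul_inv]
    refine mul_le_mul (norm_D_le_mn _ _) ?_ (norm_nonneg _) (TM1_mn_nonneg _ _)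
    rw [norm_div, Complex.norm_real, Complex.norm_real, Real.norm_eq_abs, Real.norm_eq_abs,
      Nat.abs_cast, div_eq_mul_inv]
    have h1 : |((ArithmeticFunction.moebius (W / Nat.gcd k W) : ℤ) : ℝ)| ≤ 1 := by
      have := ArithmeticFunction.abs_moebius_le_one (n := W / Nat.gcd k W)
      exact_mod_cast this
    have h2 : 0 ≤ (ph k)⁻¹ := inv_nonneg.2 (by linarith [hph1 k])
    calc _ ≤ 1 * (ph k)⁻¹ := mul_le_mul_of_nonneg_right h1 h2
      _ = (ph k)⁻¹ := one_mul _
  have hsplit : ∃ x : ℝ, 0 ≤ x ∧ x ^ s ≤ ∑ k ∈ range W, (mn X (θ + (k : ℝ) / W) / ph k) ^ s ∧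
      ∑ k ∈ range W, mn X (θ + (k : ℝ) / W) / ph k ≤ x + (W : ℝ) ^ 2 := by
    by_cases hex : ∃ k ∈ range W, |(θ + (k : ℝ) / W) - round (θ + (k : ℝ) / W)| < 1 / (2 * W)
    · obtain ⟨k0, hk0, hk1⟩ := hex
      refine ⟨mn X (θ + (k0 : ℝ) / W) / ph k0, hnn k0, ?_, ?_⟩
      · exact Finset.single_le_sum (f := fun k : ℕ => (mn X (θ + (k : ℝ) / W) / ph k) ^ s)
          (fun k _ => Real.rpow_nonneg (hnn k) _) hk0
      · rw [← Finset.add_sum_erase _ _ hk0]
        refine add_le_add le_rfl ?_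
        calc ∑ k ∈ (range W).erase k0, mn X (θ + (k : ℝ) / W) / ph k
            ≤ ∑ _k ∈ (range W).erase k0, (W : ℝ) := by
              refine Finset.sum_le_sum fun k hk => ?_
              rw [Finset.mem_erase] at hk
              refine (div_le_self (TM1_mn_nonneg _ _) (hph1 k)).trans (TM1_mn_le X _ hW0 ?_)
              by_contra hlt
              push Not at hlt
              exact hk.1 (TM1_unique hWpos θ (Finset.mem_range.1 hk.2) (Finset.mem_range.1 hk0)
                hlt hk1)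
          _ = (((range W).erase k0).card : ℝ) * W := by rw [Finset.sum_const, nsmul_eq_mul]
          _ ≤ (W : ℝ) * W := by
              refine mul_le_mul_of_nonneg_right ?_ hW0.le
              have := Finset.card_le_card (Finset.erase_subset k0 (range W))
              rw [Finset.card_range] at this
              exact_mod_cast this
          _ = (W : ℝ) ^ 2 := by ring
    · push Not at hex
      refine ⟨0, le_rfl, ?_, ?_⟩
      · rw [Real.zero_rpow (by linarith)]
        exact Finset.sum_nonneg fun k _ => Real.rpow_nonneg (hnn k) _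
      · rw [zero_add]
        calc ∑ k ∈ range W, mn X (θ + (k : ℝ) / W) / ph k ≤ ∑ _k ∈ range W, (W : ℝ) := by
              refine Finset.sum_le_sum fun k hk => ?_
              exact (div_le_self (TM1_mn_nonneg _ _) (hph1 k)).trans
                (TM1_mn_le X _ hW0 (hex k hk))
          _ = (W : ℝ) ^ 2 := by
              rw [Finset.sum_const, nsmul_eq_mul, Finset.card_range]; ring
  obtain ⟨x, hx0, hx1, hx2⟩ := hsplit
  have hW2 : (0 : ℝ) ≤ (W : ℝ) ^ 2 := by positivity
  calc ‖F1 w X θ‖ ^ s ≤ (x + (W : ℝ) ^ 2) ^ s :=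
        Real.rpow_le_rpow (norm_nonneg _) (hbound.trans hx2) (by linarith)
    _ ≤ (2 : ℝ) ^ (s - 1) * (x ^ s + ((W : ℝ) ^ 2) ^ s) := by
        have h := NNReal.rpow_add_le_mul_rpow_add_rpow (Real.toNNReal x)
          (Real.toNNReal ((W : ℝ) ^ 2)) hs
        have h2 : ((((Real.toNNReal x) + (Real.toNNReal ((W : ℝ) ^ 2))) ^ s : NNReal) : ℝ) ≤
            (((2 : NNReal) ^ (s - 1) * ((Real.toNNReal x) ^ s +
              (Real.toNNReal ((W : ℝ) ^ 2)) ^ s) : NNReal) : ℝ) := by exact_mod_cast h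
        rw [NNReal.coe_rpow, NNReal.coe_mul, NNReal.coe_rpow, NNReal.coe_add, NNReal.coe_add,
          NNReal.coe_rpow, NNReal.coe_rpow, Real.coe_toNNReal _ hx0, Real.coe_toNNReal _ hW2] at h2
        exact h2
    _ ≤ _ := by
        refine mul_le_mul_of_nonneg_left ?_ (by positivity)
        linarith

end Pool.MP_dd84fd_nt.En
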