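import Pool.Agent.Lib.MP_dd84fd_nt.En.Mean
import Pool.Agent.Lib.MP_dd84fd_nt.En.Tot

/-!
# bilinear sum, one dyadic block (module GB-T2)
-/

set_option autoImplicit false

namespace Pool.MP_dd84fd_nt.En

open Finset Pool.MP_67663b_nt.Odd

open Classical in
private theorem t2_mem_RN {z a b : ℝ} (ha : 0 ≤ a) (hb : 0 ≤ b) {m : ℕ} :
    m ∈ RN z a b ↔ a < m ∧ (m : ℝ) ≤ b ∧ Rough z m := by
  unfold RN
  rw [Finset.mem_filter, Finset.mem_Ioc, Nat.floor_lt ha, Nat.le_floor_iff hb, and_assoc]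

private theorem t2_norm_PS_le (x y φ : ℝ) : ‖PS x y φ‖ ≤ ∑ p ∈ pr x y, Real.log (p : ℝ) := by
  unfold PS
  refine norm_sum_le_of_le _ fun p _ => ?_
  rw [norm_mul, norm_ee, mul_one, Complex.norm_real, Real.norm_eq_abs,
    abs_of_nonneg (Real.log_natCast_nonneg p)]

private theorem t2_PS_diff (z u v φ : ℝ) (huv : u ≤ v) :
    ‖PS z v φ‖ ≤ ‖PS z u φ‖ + ∑ p ∈ pr (max z u) v, Real.log (p : ℝ) := by
  classical
  have h1 : pr z v = pr z u ∪ pr (max z u) v := by
    ext p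
    rw [Finset.mem_union, mem_pr, mem_pr, mem_pr, max_le_iff]
    constructor
    · rintro ⟨hp, h1, h2⟩
      rcases lt_or_ge (p : ℝ) u with h3 | h3
      · exact Or.inl ⟨hp, h1, h3⟩
      · exact Or.inr ⟨hp, ⟨h1, h3⟩, h2⟩
    · rintro (⟨hp, h1, h2⟩ | ⟨hp, ⟨h1, h3⟩, h2⟩)
      · exact ⟨hp, h1, h2.trans_le huv⟩
      · exact ⟨hp, h1, h2⟩
  have h2 : Disjoint (pr z u) (pr (max z u) v) := by
    rw [Finset.disjoint_left]
    intro p hp hp'
    rw [mem_pr] at hp hp'
    have := (le_max_right z u).trans hp'.2.1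
    linarith [hp.2.2]
  have h3 : PS z v φ = PS z u φ + PS (max z u) v φ := by
    unfold PS
    rw [h1, Finset.sum_union h2]
  rw [h3]
  exact (norm_add_le _ _).trans (add_le_add le_rfl (t2_norm_PS_le _ _ _))

private theorem t2_sum_biUnion (s : Finset ℕ) (t : ℕ → Finset ℕ) (f : ℕ → ℝ)
    (hf : ∀ m, 0 ≤ f m) : ∑ m ∈ s.biUnion t, f m ≤ ∑ j ∈ s, ∑ m ∈ t j, f m := by
  classical
  induction s using Finset.induction_on with
  | empty => simp
  | insert a s ha ih =>
    rw [Finset.biUnion_insert, Finset.sum_insert ha]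
    have h1 := Finset.sum_union_inter (s₁ := t a) (s₂ := s.biUnion t) (f := f)
    have h0 : 0 ≤ ∑ m ∈ t a ∩ s.biUnion t, f m := Finset.sum_nonneg fun m _ => hf m
    linarith

private theorem t2_cover (z M : ℝ) (hM0 : 0 < M) (L : ℕ) (hL0 : (0 : ℝ) < L) :
    RN z M (2 * M) ⊆ (range L).biUnion fun j =>
      RN z (M * (1 + (j : ℝ) / L)) (M * (1 + ((j + 1 : ℕ) : ℝ) / L)) := by
  intro m hm
  rw [t2_mem_RN hM0.le (by linarith)] at hm
  obtain ⟨hm1, hm2, hm3⟩ := hm
  obtain ⟨t, ht⟩ : ∃ t : ℝ, t = ((m : ℝ) / M - 1) * L := ⟨_, rfl⟩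
  have ht0 : 0 < t := by
    have h1 : 1 < (m : ℝ) / M := by
      rw [lt_div_iff₀ hM0]
      linarith
    rw [ht]
    exact mul_pos (by linarith) hL0
  have htL : t ≤ L := by
    have h1 : (m : ℝ) / M ≤ 2 := by
      rw [div_le_iff₀ hM0]
      linarith
    have h2 : (m : ℝ) / M - 1 ≤ 1 := by linarith
    rw [ht]
    calc ((m : ℝ) / M - 1) * L ≤ 1 * L := mul_le_mul_of_nonneg_right h2 hL0.le
      _ = L := one_mul _
  have hc0 : 0 < ⌈t⌉₊ := Nat.ceil_pos.2 ht0
  obtain ⟨j, hj⟩ : ∃ j, ⌈t⌉₊ = j + 1 := ⟨⌈t⌉₊ - 1, by omega⟩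
  have hjL : j < L := by
    have : ⌈t⌉₊ ≤ L := Nat.ceil_le.2 htL
    omega
  have hj1 : (j : ℝ) < t := by
    have := Nat.ceil_lt_add_one ht0.le
    rw [hj] at this
    push_cast at this
    linarith
  have hj2 : t ≤ (j : ℝ) + 1 := by
    have := Nat.le_ceil t
    rw [hj] at this
    push_cast at this
    exact this
  have hmt : (m : ℝ) = M * (1 + t / L) := by
    rw [ht]
    field_simp
    ring
  rw [Finset.mem_biUnion]
  refine ⟨j, mem_range.2 hjL, ?_⟩
  rw [t2_mem_RN (by positivity) (by positivity)]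
  refine ⟨?_, ?_, hm3⟩
  · rw [hmt]
    apply mul_lt_mul_of_pos_left _ hM0
    have : (j : ℝ) / L < t / L := div_lt_div_of_pos_right hj1 hL0
    linarith
  · rw [hmt]
    apply mul_le_mul_of_nonneg_left _ hM0.le
    have : t / L ≤ ((j + 1 : ℕ) : ℝ) / L := by
      push_cast
      exact div_le_div_of_nonneg_right hj2 hL0.le
    linarith

private theorem t2_phi (q : ℕ) (hq : 0 < q) (h B : ℝ) (hB : 0 ≤ B) (hh : h = (q : ℝ) * (1 + B)) :
    h ≤ (Nat.totient q : ℝ) * (1 + B) * (2 * Real.log (4 * h)) := by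
  have hφ0 : (0 : ℝ) < Nat.totient q := by exact_mod_cast Nat.totient_pos.2 hq
  have hqR : (1 : ℝ) ≤ q := by exact_mod_cast hq
  have hh1 : 1 ≤ h := by
    rw [hh]
    nlinarith
  have hh0 : 0 < h := by linarith
  have hqh : (q : ℝ) ≤ h := by
    rw [hh]
    nlinarith
  have h1 := totient_ge q hq
  have h2 : 1 + Real.logb 2 q ≤ 2 * Real.log (4 * h) := by
    have hl2 : (0.69 : ℝ) < Real.log 2 := by
      have := Real.log_two_gt_d9
      linarith
    have h3 : Real.logb 2 q ≤ Real.log h / Real.log 2 := by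
      unfold Real.logb
      apply div_le_div_of_nonneg_right _ (by linarith)
      exact Real.log_le_log (by linarith) hqh
    have h4 : Real.log (4 * h) = 2 * Real.log 2 + Real.log h := by
      rw [Real.log_mul (by norm_num) hh0.ne']
      have : (4 : ℝ) = 2 ^ 2 := by norm_num
      rw [this, Real.log_pow]
      norm_num
    have h5 : 0 ≤ Real.log h := Real.log_nonneg hh1
    have h6 : Real.log h / Real.log 2 ≤ 2 * Real.log h := by
      rw [div_le_iff₀ (by linarith)]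
      nlinarith
    linarith
  calc h = (q : ℝ) * (1 + B) := hh
    _ ≤ ((Nat.totient q : ℝ) * (1 + Real.logb 2 q)) * (1 + B) :=
        mul_le_mul_of_nonneg_right h1 (by linarith)
    _ ≤ ((Nat.totient q : ℝ) * (2 * Real.log (4 * h))) * (1 + B) := by
        apply mul_le_mul_of_nonneg_right _ (by linarith)
        exact mul_le_mul_of_nonneg_left h2 hφ0.le
    _ = _ := by ring

/-- `L / √(L h) ≤ 2 h^(-1/3)` -/
private theorem t2_pow (L h g : ℝ) (hL : 0 < L) (hg : 0 < g) (hh : h = g ^ 3)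
    (hLg : L ≤ 2 * g) : L / Real.sqrt (L * h) ≤ 2 * (1 / g) := by
  have hh0 : 0 < h := by rw [hh]; positivity
  have hLh0 : 0 < L * h := mul_pos hL hh0
  rw [div_le_iff₀ (Real.sqrt_pos.2 hLh0)]
  apply le_of_sq_le_sq _ (by positivity)
  rw [mul_pow, Real.sq_sqrt hLh0.le]
  have e : (2 * (1 / g)) ^ 2 * (L * h) = 4 * g * L := by
    rw [hh]
    field_simp
    ring
  rw [e]
  nlinarith

/-- one sub-block -/
private theorem t2_cs (s : Finset ℕ) (f : ℕ → ℝ) (c v b : ℝ) (hb : 0 ≤ b)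
    (hc : (s.card : ℝ) ≤ c) (hv : ∑ m ∈ s, f m ^ 2 ≤ v) (hcv : c * v ≤ b ^ 2) :
    ∑ m ∈ s, f m ≤ b := by
  have h1 : (∑ m ∈ s, f m) ^ 2 ≤ (s.card : ℝ) * ∑ m ∈ s, f m ^ 2 := sq_sum_le_card_mul_sum_sq
  have h0 : 0 ≤ ∑ m ∈ s, f m ^ 2 := Finset.sum_nonneg fun _ _ => sq_nonneg _
  have h2 : (∑ m ∈ s, f m) ^ 2 ≤ b ^ 2 := by
    refine h1.trans (le_trans ?_ hcv)
    exact mul_le_mul hc hv h0 ((Nat.cast_nonneg _).trans hc)
  exact le_of_sq_le_sq h2 hb |> fun h => h

theorem typeII_block : ∃ C : ℝ, 0 < C ∧ ∃ z0 : ℝ, 2 ≤ z0 ∧ ∀ z : ℝ, z0 ≤ z → ∀ X : ℕ,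
    z ^ 2 ≤ X → ∀ M : ℝ, z / 2 ≤ M → M < ((X : ℝ) + 1) / z →
    ∀ (q : ℕ) (a : ℤ) (β h : ℝ), 0 < q → Int.gcd a q = 1 → h = (q : ℝ) * (1 + |β| * X) →
    (4 * h) ^ 30 ≤ z →
    ∑ m ∈ RN z M (2 * M), ‖PS z (((X : ℝ) + 1) / m) ((m : ℝ) * ((a : ℝ) / q + β))‖ ≤
      C * (Real.log X / (Real.log z) ^ 2) * X * Real.log (4 * h) * h ^ (-(1 / 3 : ℝ)) := by
  classical
  obtain ⟨C1, hC1, hps⟩ := prime_short
  obtain ⟨C2, hC2, hrs⟩ := rough_short
  obtain ⟨C3, hC3, z3, hms⟩ := mean_sq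
  set κ : ℝ := 4 * C2 * C3 with hκ
  have hκ0 : 0 < κ := by positivity
  refine ⟨4 * C1 * C2 + 2 * Real.sqrt κ, by positivity, max z3 4, le_trans (by norm_num)
    (le_max_right _ _), ?_⟩
  intro z hz X hX M hM1 hM2 q a β h hq hqa hh hhz
  have hz4 : 4 ≤ z := (le_max_right _ _).trans hz
  have hz3 : z3 ≤ z := (le_max_left _ _).trans hz
  have hz0 : 0 < z := by linarith
  have hz2 : 2 ≤ z := by linarith
  have hX16 : (16 : ℝ) ≤ X := by nlinarith
  have hX0 : (0 : ℝ) < X := by linarith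
  have hqR : (1 : ℝ) ≤ q := by exact_mod_cast hq
  have hβX : 0 ≤ |β| * X := by positivity
  have hh1 : 1 ≤ h := by
    rw [hh]
    nlinarith
  have hh0 : 0 < h := by linarith
  have hqh : (q : ℝ) ≤ h := by
    rw [hh]
    nlinarith
  -- powers of `h`
  have h3pos : 0 < h ^ (1 / 3 : ℝ) := by positivity
  have h3one : 1 ≤ h ^ (1 / 3 : ℝ) := Real.one_le_rpow hh1 (by norm_num)
  have h3le : h ^ (1 / 3 : ℝ) ≤ h := by
    calc h ^ (1 / 3 : ℝ) ≤ h ^ (1 : ℝ) := Real.rpow_le_rpow_of_exponent_le hh1 (by norm_num)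
      _ = h := Real.rpow_one h
  have h3neg : h ^ (-(1 / 3 : ℝ)) = 1 / h ^ (1 / 3 : ℝ) := by
    rw [Real.rpow_neg hh0.le, one_div (h ^ (1 / 3 : ℝ))]
  have h3cube : (h ^ (1 / 3 : ℝ)) ^ 3 = h := by
    rw [← Real.rpow_natCast, ← Real.rpow_mul hh0.le]
    norm_num
  have h4z : (4 * h) ^ 2 ≤ z := by
    refine le_trans ?_ hhz
    exact pow_le_pow_right₀ (by linarith) (by norm_num)
  have h4s : 4 * h ≤ Real.sqrt z := Real.le_sqrt_of_sq_le h4z
  have hss : Real.sqrt z * Real.sqrt z = z := Real.mul_self_sqrt hz0.le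
  have hs0 : 0 < Real.sqrt z := Real.sqrt_pos.2 hz0
  have hlz : 0 < Real.log z := Real.log_pos (by linarith)
  have hlX : 2 * Real.log z ≤ Real.log X := by
    have := Real.log_le_log (by positivity) hX
    rw [Real.log_pow] at this
    exact_mod_cast this
  have hlX0 : 0 < Real.log X := by linarith
  have hl4 : 1 ≤ Real.log (4 * h) := by
    have h1 : Real.exp 1 ≤ 4 * h := by
      have := Real.exp_one_lt_d9
      linarith
    rw [Real.le_log_iff_exp_le (by positivity)]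
    exact h1
  -- `L`
  set L : ℕ := ⌈h ^ (1 / 3 : ℝ)⌉₊ with hL
  have hLge : h ^ (1 / 3 : ℝ) ≤ L := Nat.le_ceil _
  have hLle : (L : ℝ) ≤ 2 * h ^ (1 / 3 : ℝ) := by
    have := Nat.ceil_lt_add_one h3pos.le
    linarith
  have hL0 : (0 : ℝ) < L := lt_of_lt_of_le h3pos hLge
  have hLs : 2 * (L : ℝ) ≤ Real.sqrt z := by linarith
  -- `Y`
  have hM0 : 0 < M := by linarith
  set Y : ℝ := ((X : ℝ) + 1) / M with hY
  have hzY : z < Y := by
    rw [hY, lt_div_iff₀ hM0]
    rw [lt_div_iff₀ hz0] at hM2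
    linarith
  have hY0 : 0 < Y := by linarith
  have hMY : M * Y = X + 1 := by
    rw [hY]
    field_simp
  set θ : ℝ := (a : ℝ) / q + β with hθ
  set Mj : ℕ → ℝ := fun j => M * (1 + (j : ℝ) / L) with hMj
  have hMj_pos : ∀ j, 0 < Mj j := fun j => by
    simp only [hMj]
    positivity
  have hMj_ge : ∀ j, M ≤ Mj j := fun j => by
    simp only [hMj]
    have : 0 ≤ (j : ℝ) / L := by positivity
    nlinarith
  have hMj_le : ∀ j, j ≤ L → Mj j ≤ 2 * M := fun j hj => by
    simp only [hMj]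
    have : (j : ℝ) / L ≤ 1 := by
      rw [div_le_one hL0]
      exact_mod_cast hj
    nlinarith
  have hMj_succ : ∀ j, Mj (j + 1) = Mj j + M / L := fun j => by
    simp only [hMj]
    push_cast
    field_simp
    ring
  set Yj : ℕ → ℝ := fun j => ((X : ℝ) + 1) / Mj (j + 1) with hYj
  have hYj0 : ∀ j, 0 < Yj j := fun j => by
    simp only [hYj]
    have := hMj_pos (j + 1)
    positivity
  have hYj_le : ∀ j, Yj j ≤ Y := fun j => by
    simp only [hYj, hY]
    exact div_le_div_of_nonneg_left (by positivity) hM0 (hMj_ge _)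
  have hYj_ge : ∀ j, j < L → Y / 2 ≤ Yj j := fun j hj => by
    simp only [hYj, hY]
    rw [div_div, mul_comm M 2]
    exact div_le_div_of_nonneg_left (by positivity) (hMj_pos _) (hMj_le _ hj)
  have hgap : ∀ j, ((X : ℝ) + 1) / Mj j ≤ Yj j + Y / L := fun j => by
    have h1 : ((X : ℝ) + 1) / Mj j - Yj j = ((X : ℝ) + 1) * (M / L) / (Mj j * Mj (j + 1)) := by
      simp only [hYj]
      have e1 := (hMj_pos j).ne'
      have e2 := (hMj_pos (j + 1)).ne'
      rw [div_sub_div _ _ e1 e2, hMj_succ j]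
      congr 1
      ring
    have h2 : ((X : ℝ) + 1) * (M / L) / (Mj j * Mj (j + 1)) ≤
        ((X : ℝ) + 1) * (M / L) / (M * M) := by
      apply div_le_div_of_nonneg_left (by positivity) (by positivity)
      exact mul_le_mul (hMj_ge _) (hMj_ge _) hM0.le (hMj_pos _).le
    have h3 : ((X : ℝ) + 1) * (M / L) / (M * M) = Y / L := by
      rw [hY]
      field_simp
    linarith
  -- cover
  have hcover : RN z M (2 * M) ⊆ (range L).biUnion fun j => RN z (Mj j) (Mj (j + 1)) := by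
    exact t2_cover z M hM0 L hL0
  -- cardinality of a sub-block
  have hcard : ∀ j, ((RN z (Mj j) (Mj (j + 1))).card : ℝ) ≤ C2 * (M / L) / Real.log z := by
    intro j
    rw [hMj_succ j]
    refine hrs z hz2 (Mj j) (M / L) (hMj_pos _).le ?_
    rw [le_div_iff₀ hL0]
    nlinarith
  -- the error
  set E : ℝ := C1 * (Y / L) * (2 * Real.log X) / Real.log z with hE
  have hE0 : 0 ≤ E := by positivity
  have hlY : Real.sqrt z ≤ Y / L := by
    rw [le_div_iff₀ hL0]
    nlinarith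
  have hdiff : ∀ j, ∀ m ∈ RN z (Mj j) (Mj (j + 1)),
      ‖PS z (((X : ℝ) + 1) / m) ((m : ℝ) * θ)‖ ≤ ‖PS z (Yj j) ((m : ℝ) * θ)‖ + E := by
    intro j m hm
    rw [t2_mem_RN (hMj_pos _).le (hMj_pos _).le] at hm
    obtain ⟨hm1, hm2, hm3⟩ := hm
    have hm0 : (0 : ℝ) < m := (hMj_pos j).trans hm1
    have h1 : Yj j ≤ ((X : ℝ) + 1) / m := by
      simp only [hYj]
      exact div_le_div_of_nonneg_left (by positivity) hm0 hm2
    have h2 : ((X : ℝ) + 1) / m ≤ Yj j + Y / L := by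
      refine le_trans ?_ (hgap j)
      exact div_le_div_of_nonneg_left (by positivity) (hMj_pos j) hm1.le
    refine (t2_PS_diff z (Yj j) _ _ h1).trans (add_le_add le_rfl ?_)
    set u : ℝ := max z (Yj j) with hu
    have h3 : ∑ p ∈ pr u (((X : ℝ) + 1) / m), Real.log (p : ℝ) ≤
        ∑ p ∈ pr u (u + Y / L), Real.log (p : ℝ) := by
      apply Finset.sum_le_sum_of_subset_of_nonneg
      · intro p hp
        rw [mem_pr] at hp ⊢
        refine ⟨hp.1, hp.2.1, hp.2.2.trans_le (h2.trans ?_)⟩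
        have := le_max_right z (Yj j)
        linarith
      · intro p _ _
        exact Real.log_natCast_nonneg p
    refine h3.trans ((hps z hz2 u (Y / L) (le_max_left _ _) hlY).trans ?_)
    rw [hE]
    apply div_le_div_of_nonneg_right _ hlz.le
    apply mul_le_mul_of_nonneg_left _ (by positivity)
    have hu1 : u ≤ Y := max_le hzY.le (hYj_le j)
    have hYL : Y / L ≤ Y := by
      apply div_le_self hY0.le
      linarith
    have hY4 : Y ≤ ((X : ℝ) + 1) / 2 := by
      rw [hY]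
      exact div_le_div_of_nonneg_left (by positivity) (by norm_num) (by linarith)
    have h5 : u + Y / L ≤ (X : ℝ) ^ 2 := by nlinarith
    have h6 : 0 < u + Y / L := by
      have : 0 < u := lt_of_lt_of_le hz0 (le_max_left _ _)
      positivity
    calc Real.log (u + Y / L) ≤ Real.log ((X : ℝ) ^ 2) := Real.log_le_log h6 h5
      _ = 2 * Real.log X := by
          rw [Real.log_pow]
          norm_num
  -- totient
  have hφ0 : (0 : ℝ) < Nat.totient q := by exact_mod_cast Nat.totient_pos.2 hq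
  have hφ : h ≤ (Nat.totient q : ℝ) * (1 + |β| * X) * (2 * Real.log (4 * h)) :=
    t2_phi q hq h (|β| * X) hβX hh
  -- main part of a sub-block
  set Bd : ℝ := Real.sqrt κ * ((X : ℝ) + 1) * Real.log (4 * h) /
    (Real.log z * Real.sqrt (L * h)) with hBd
  have hLh0 : 0 < (L : ℝ) * h := by positivity
  have hsLh : 0 < Real.sqrt (L * h) := Real.sqrt_pos.2 hLh0
  have hBd0 : 0 ≤ Bd := by positivity
  have hmain : ∀ j, j < L → ∑ m ∈ RN z (Mj j) (Mj (j + 1)), ‖PS z (Yj j) ((m : ℝ) * θ)‖ ≤ Bd := by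
    intro j hj
    have hYz : z / 2 ≤ Yj j := by
      have := hYj_ge j hj
      linarith
    have hMYj : M * Yj j ≤ (X : ℝ) + 1 := by
      rw [← hMY]
      exact mul_le_mul_of_nonneg_left (hYj_le j) hM0.le
    have hMYj2 : ((X : ℝ) + 1) / 2 ≤ M * Yj j := by
      have := mul_le_mul_of_nonneg_left (hYj_ge j hj) hM0.le
      have e : M * (Y / 2) = ((X : ℝ) + 1) / 2 := by rw [← hMY]; ring
      linarith
    have hH : (q : ℝ) * (1 + 2 * |β| * M * Yj j) ≤ 4 * h := by
      have h1 : 2 * |β| * M * Yj j = 2 * |β| * (M * Yj j) := by ring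
      have h2 : 2 * |β| * (M * Yj j) ≤ 2 * |β| * (2 * X) :=
        mul_le_mul_of_nonneg_left (by linarith) (by positivity)
      rw [h1, hh]
      have h3 : (q : ℝ) * (1 + 2 * |β| * (M * Yj j)) ≤ q * (1 + 2 * |β| * (2 * X)) :=
        mul_le_mul_of_nonneg_left (by linarith) (by linarith)
      nlinarith
    have hH25 : (4 * h) ^ 25 ≤ z :=
      (pow_le_pow_right₀ (by linarith) (by norm_num)).trans hhz
    have hm := hms z hz3 M (Yj j) hM1 hYz q a β hq hqa (4 * h) (by linarith) hH hH25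
    have hsub : RN z (Mj j) (Mj (j + 1)) ⊆ RN z M (2 * M) := by
      intro m hm
      rw [t2_mem_RN (hMj_pos _).le (hMj_pos _).le] at hm
      rw [t2_mem_RN hM0.le (by linarith)]
      exact ⟨(hMj_ge j).trans_lt hm.1, hm.2.1.trans (hMj_le _ hj), hm.2.2⟩
    have hv : ∑ m ∈ RN z (Mj j) (Mj (j + 1)), ‖PS z (Yj j) ((m : ℝ) * θ)‖ ^ 2 ≤
        C3 * M * Y ^ 2 * Real.log (4 * h) /
          ((Nat.totient q : ℝ) * ((1 + |β| * X) / 2) * Real.log z) := by
      refine (Finset.sum_le_sum_of_subset_of_nonneg hsub fun _ _ _ => sq_nonneg _).trans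
        (hm.trans ?_)
      have h1 : (1 + |β| * X) / 2 ≤ 1 + |β| * M * Yj j := by
        have e : |β| * M * Yj j = |β| * (M * Yj j) := by ring
        have h2 : |β| * ((X : ℝ) / 2) ≤ |β| * (M * Yj j) :=
          mul_le_mul_of_nonneg_left (by linarith) (abs_nonneg _)
        rw [e]
        nlinarith
      have h0 : 0 < (1 + |β| * X) / 2 := by positivity
      have hnum : C3 * M * Yj j ^ 2 * Real.log (4 * h) ≤ C3 * M * Y ^ 2 * Real.log (4 * h) := by
        apply mul_le_mul_of_nonneg_right _ (by linarith)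
        apply mul_le_mul_of_nonneg_left _ (by positivity)
        exact pow_le_pow_left₀ (hYj0 j).le (hYj_le j) 2
      apply div_le_div₀ (by positivity) hnum (by positivity)
      apply mul_le_mul_of_nonneg_right _ hlz.le
      exact mul_le_mul_of_nonneg_left h1 hφ0.le
    refine t2_cs _ _ _ _ Bd hBd0 (hcard j) hv ?_
    -- product of the two bounds
    have hβ1 : 0 < 1 + |β| * X := by linarith
    have e1 : C2 * (M / L) / Real.log z * (C3 * M * Y ^ 2 * Real.log (4 * h) /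
        ((Nat.totient q : ℝ) * ((1 + |β| * X) / 2) * Real.log z)) =
        2 * C2 * C3 * ((X : ℝ) + 1) ^ 2 * Real.log (4 * h) / (L * (Real.log z) ^ 2) *
          (1 / ((Nat.totient q : ℝ) * (1 + |β| * X))) := by
      rw [← hMY]
      field_simp
    have e2 : Bd ^ 2 = κ * ((X : ℝ) + 1) ^ 2 * (Real.log (4 * h)) ^ 2 /
        ((Real.log z) ^ 2 * (L * h)) := by
      rw [hBd, div_pow, mul_pow, mul_pow, mul_pow, Real.sq_sqrt hκ0.le, Real.sq_sqrt hLh0.le]
    have h3 : 1 / ((Nat.totient q : ℝ) * (1 + |β| * X)) ≤ 2 * Real.log (4 * h) / h := by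
      rw [div_le_div_iff₀ (by positivity) hh0]
      calc 1 * h ≤ (Nat.totient q : ℝ) * (1 + |β| * X) * (2 * Real.log (4 * h)) := by
            rw [one_mul]
            exact hφ
        _ = _ := by ring
    rw [e1, e2]
    calc 2 * C2 * C3 * ((X : ℝ) + 1) ^ 2 * Real.log (4 * h) / (L * (Real.log z) ^ 2) *
          (1 / ((Nat.totient q : ℝ) * (1 + |β| * X)))
        ≤ 2 * C2 * C3 * ((X : ℝ) + 1) ^ 2 * Real.log (4 * h) / (L * (Real.log z) ^ 2) *
          (2 * Real.log (4 * h) / h) := by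
            apply mul_le_mul_of_nonneg_left h3
            have : 0 ≤ Real.log (4 * h) := by linarith
            positivity
      _ = κ * ((X : ℝ) + 1) ^ 2 * (Real.log (4 * h)) ^ 2 /
        ((Real.log z) ^ 2 * (L * h)) := by
            rw [hκ]
            field_simp
            ring
  -- sum over the sub-blocks
  have hsum : ∑ m ∈ RN z M (2 * M), ‖PS z (((X : ℝ) + 1) / m) ((m : ℝ) * θ)‖ ≤
      (L : ℝ) * (Bd + C2 * (M / L) / Real.log z * E) := by
    calc ∑ m ∈ RN z M (2 * M), ‖PS z (((X : ℝ) + 1) / m) ((m : ℝ) * θ)‖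
        ≤ ∑ m ∈ (range L).biUnion (fun j => RN z (Mj j) (Mj (j + 1))),
            ‖PS z (((X : ℝ) + 1) / m) ((m : ℝ) * θ)‖ :=
          Finset.sum_le_sum_of_subset_of_nonneg hcover fun _ _ _ => norm_nonneg _
      _ ≤ ∑ j ∈ range L, ∑ m ∈ RN z (Mj j) (Mj (j + 1)),
            ‖PS z (((X : ℝ) + 1) / m) ((m : ℝ) * θ)‖ :=
          t2_sum_biUnion _ _ _ (fun _ => norm_nonneg _)
      _ ≤ ∑ _j ∈ range L, (Bd + C2 * (M / L) / Real.log z * E) := by
          refine Finset.sum_le_sum fun j hj => ?_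
          rw [mem_range] at hj
          calc ∑ m ∈ RN z (Mj j) (Mj (j + 1)), ‖PS z (((X : ℝ) + 1) / m) ((m : ℝ) * θ)‖
              ≤ ∑ m ∈ RN z (Mj j) (Mj (j + 1)), (‖PS z (Yj j) ((m : ℝ) * θ)‖ + E) :=
                Finset.sum_le_sum fun m hm => hdiff j m hm
            _ = ∑ m ∈ RN z (Mj j) (Mj (j + 1)), ‖PS z (Yj j) ((m : ℝ) * θ)‖ +
                ((RN z (Mj j) (Mj (j + 1))).card : ℝ) * E := by
                rw [Finset.sum_add_distrib, Finset.sum_const, nsmul_eq_mul]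
            _ ≤ Bd + C2 * (M / L) / Real.log z * E :=
                add_le_add (hmain j hj) (mul_le_mul_of_nonneg_right (hcard j) hE0)
      _ = (L : ℝ) * (Bd + C2 * (M / L) / Real.log z * E) := by
          rw [Finset.sum_const, card_range, nsmul_eq_mul]
  refine hsum.trans ?_
  have hX2 : (X : ℝ) + 1 ≤ 2 * X := by linarith
  -- first term
  have t1 : (L : ℝ) * Bd ≤ 2 * Real.sqrt κ * (Real.log X / (Real.log z) ^ 2) * X *
      Real.log (4 * h) * h ^ (-(1 / 3 : ℝ)) := by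
    have s1 : (L : ℝ) / Real.sqrt (L * h) ≤ 2 * h ^ (-(1 / 3 : ℝ)) := by
      rw [h3neg]
      exact t2_pow L h (h ^ (1 / 3 : ℝ)) hL0 h3pos h3cube.symm hLle
    have s2 : (L : ℝ) * Bd = Real.sqrt κ * ((X : ℝ) + 1) * Real.log (4 * h) / Real.log z *
        ((L : ℝ) / Real.sqrt (L * h)) := by
      rw [hBd]
      field_simp
    have s3 : 1 / Real.log z ≤ Real.log X / (Real.log z) ^ 2 / 2 := by
      rw [div_div, div_le_div_iff₀ hlz (by positivity)]
      nlinarith
    rw [s2]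
    calc Real.sqrt κ * ((X : ℝ) + 1) * Real.log (4 * h) / Real.log z *
          ((L : ℝ) / Real.sqrt (L * h))
        ≤ Real.sqrt κ * ((X : ℝ) + 1) * Real.log (4 * h) / Real.log z *
          (2 * h ^ (-(1 / 3 : ℝ))) := by
            apply mul_le_mul_of_nonneg_left s1
            have : 0 ≤ Real.log (4 * h) := by linarith
            positivity
      _ = (2 * Real.sqrt κ * Real.log (4 * h) * h ^ (-(1 / 3 : ℝ))) * (((X : ℝ) + 1) *
            (1 / Real.log z)) := by ring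
      _ ≤ (2 * Real.sqrt κ * Real.log (4 * h) * h ^ (-(1 / 3 : ℝ))) * ((2 * X) *
            (Real.log X / (Real.log z) ^ 2 / 2)) := by
            apply mul_le_mul_of_nonneg_left
            · exact mul_le_mul hX2 s3 (by positivity) (by positivity)
            · have : 0 ≤ Real.log (4 * h) := by linarith
              positivity
      _ = _ := by ring
  -- second term
  have t2 : (L : ℝ) * (C2 * (M / L) / Real.log z * E) ≤
      4 * C1 * C2 * (Real.log X / (Real.log z) ^ 2) * X * Real.log (4 * h) *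
        h ^ (-(1 / 3 : ℝ)) := by
    have s1 : (L : ℝ) * (C2 * (M / L) / Real.log z * E) =
        2 * C1 * C2 * (Real.log X / (Real.log z) ^ 2) * (((X : ℝ) + 1) * (1 / L)) := by
      rw [← hMY, hE]
      field_simp
    have s2 : 1 / (L : ℝ) ≤ h ^ (-(1 / 3 : ℝ)) := by
      rw [h3neg]
      exact one_div_le_one_div_of_le h3pos hLge
    rw [s1]
    calc 2 * C1 * C2 * (Real.log X / (Real.log z) ^ 2) * (((X : ℝ) + 1) * (1 / L))
        ≤ 2 * C1 * C2 * (Real.log X / (Real.log z) ^ 2) * ((2 * X) * h ^ (-(1 / 3 : ℝ))) := by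
          apply mul_le_mul_of_nonneg_left _ (by positivity)
          exact mul_le_mul hX2 s2 (by positivity) (by positivity)
      _ = (4 * C1 * C2 * (Real.log X / (Real.log z) ^ 2) * X * h ^ (-(1 / 3 : ℝ))) * 1 := by ring
      _ ≤ (4 * C1 * C2 * (Real.log X / (Real.log z) ^ 2) * X * h ^ (-(1 / 3 : ℝ))) *
            Real.log (4 * h) := mul_le_mul_of_nonneg_left hl4 (by positivity)
      _ = _ := by ring
  calc (L : ℝ) * (Bd + C2 * (M / L) / Real.log z * E) =
      (L : ℝ) * Bd + (L : ℝ) * (C2 * (M / L) / Real.log z * E) := by ring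
    _ ≤ _ := add_le_add t1 t2
    _ = _ := by ring

end Pool.MP_dd84fd_nt.En
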